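import Pool.Agent.D0H28.OV.Defs
import Pool.Agent.Q257.AXI.Div
import Pool.Agent.Q175.AX.Rho
import Pool.Agent.Q119.AXI.Dt

/-! Project OV (helper28), package D: the energy inequality for truncations. -/

set_option autoImplicit false

open MeasureTheory Set Metric Filter Topology
open scoped ContDiff
open H459R3.NS Pool.Agent.W268.NS

namespace Pool.Agent.D0H28.OV

open Pool.Agent.Q67.AXI Pool.Agent.TH305.AX Pool.Agent.TH305.DR Pool.Agent.Q85.CL
open Pool.Agent.W583.MD (sm_pd cs_pd Z Z.add Z.sub Z.smul Z.sum int_cs Z_pd)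
open Pool.Agent.Q257.AXI (sg_sm RR_mul RR_add sm_RR)
open Pool.Agent.Q175.AX (pd_mul_at pd_comp_at RR_sm lap_sm gr2_sm gr2_nn RR_sq' gr2_int gr2_cs RRsg_int
  RRsg_int' sg_nn axis_ae)

/-! ### the function `hh` -/

lemma hh_hd (s : ℝ) : HasDerivAt hh (Real.smoothTransition s) s :=
  intervalIntegral.integral_hasDerivAt_right
    (Real.smoothTransition.continuous.intervalIntegrable _ _)
    (Real.smoothTransition.continuous.stronglyMeasurableAtFilter _ _)
    Real.smoothTransition.continuous.continuousAt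

lemma hh_deriv : deriv hh = Real.smoothTransition := funext fun s => (hh_hd s).deriv

theorem t_Hh : StmHh := by
  have hd : Differentiable ℝ hh := fun s => (hh_hd s).differentiableAt
  have hsm : ContDiff ℝ ∞ hh := by
    rw [contDiff_infty_iff_deriv]
    refine ⟨hd, ?_⟩
    rw [hh_deriv]
    exact Real.smoothTransition.contDiff
  have hmono : Monotone hh := monotone_of_deriv_nonneg hd fun s => by
    rw [hh_deriv]
    exact Real.smoothTransition.nonneg s
  have h0 : ∀ s, s ≤ 0 → hh s = 0 := by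
    intro s hs
    unfold hh
    rw [intervalIntegral.integral_congr (g := fun _ => (0 : ℝ)) fun τ hτ => ?_]
    · simp
    · rw [uIcc_of_ge hs] at hτ
      exact Real.smoothTransition.zero_of_nonpos hτ.2
  have hnn : ∀ s, 0 ≤ hh s := by
    intro s
    rcases le_total s 0 with h | h
    · rw [h0 s h]
    · have := hmono h
      rwa [h0 0 le_rfl] at this
  refine ⟨hsm, hnn, h0, fun s => ?_, fun s => ?_, fun s hs => ?_, fun s hs => hmono hs, ?_⟩
  · rw [hh_deriv]
    exact ⟨Real.smoothTransition.nonneg s, Real.smoothTransition.le_one s⟩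
  · rw [hh_deriv]
    exact Real.smoothTransition.monotone.deriv_nonneg
  · have h1 : hh s ≤ ∫ τ in (0 : ℝ)..s, (1 : ℝ) := by
      refine intervalIntegral.integral_mono_on hs
        (Real.smoothTransition.continuous.intervalIntegrable _ _)
        (continuous_const.intervalIntegrable _ _) fun τ _ => Real.smoothTransition.le_one τ
    simpa using h1
  · refine intervalIntegral.intervalIntegral_pos_of_pos_on
      (Real.smoothTransition.continuous.intervalIntegrable _ _) (fun τ hτ => ?_) one_pos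
    exact Real.smoothTransition.pos_of_pos hτ.1

/-! ### the transport term -/

lemma sm_TT {F f : V → ℝ} (hF : ContDiff ℝ ∞ F) (hf : ContDiff ℝ ∞ f) : ContDiff ℝ ∞ (TT F f) :=
  ((sm_pd hF 2).mul (sm_RR hf)).neg.add
    (((contDiff_const.mul hF).add (sm_RR hF)).mul (sm_pd hf 2))

theorem t_TT : StmTT := by
  intro F f ψ hF hf hψ hψs _ _ _
  have s1 : ContDiff ℝ ∞ (fun y => F y * (ψ y * RR f y)) := hF.mul (hψ.mul (sm_RR hf))
  have s2 : ContDiff ℝ ∞ (fun y => F y * (ψ y * pd 2 f y)) := hF.mul (hψ.mul (sm_pd hf 2))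
  have c1 : HasCompactSupport (fun y => F y * (ψ y * RR f y)) := (hψs.mul_right).mul_left
  have c2 : HasCompactSupport (fun y => F y * (ψ y * pd 2 f y)) := (hψs.mul_right).mul_left
  have z2 := (Z_pd s1 c1 2).smul (-1)
  have z0 := Z_pd ((sm_crd 0).mul s2) (c2.mul_left (f := fun y : V => y 0)) 0
  have z1 := Z_pd ((sm_crd 1).mul s2) (c2.mul_left (f := fun y : V => y 1)) 1
  have hz := (z2.add z0).add z1
  have iA : Integrable (fun x => ψ x * TT F f x) :=
    int_cs (hψ.mul (sm_TT hF hf)).continuous hψs.mul_right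
  have cpd : ∀ j, HasCompactSupport (pd j ψ) := fun j => cs_pd hψs j
  have cRR : HasCompactSupport (RR ψ) := by
    unfold RR
    exact ((cpd 0).mul_left).add ((cpd 1).mul_left)
  have iB : Integrable (fun x => F x * (pd 2 ψ x * RR f x - RR ψ x * pd 2 f x)) := by
    refine int_cs (hF.mul (((sm_pd hψ 2).mul (sm_RR hf)).sub
      ((sm_RR hψ).mul (sm_pd hf 2)))).continuous ?_
    refine HasCompactSupport.mul_left ?_
    exact ((cpd 2).mul_right).sub (cRR.mul_right)
  have key : ∀ x, ψ x * TT F f x - F x * (pd 2 ψ x * RR f x - RR ψ x * pd 2 f x)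
      = (-1) * pd 2 (fun y => F y * (ψ y * RR f y)) x + pd 0 (fun y => y 0 * (F y * (ψ y * pd 2 f y))) x
        + pd 1 (fun y => y 1 * (F y * (ψ y * pd 2 f y))) x := by
    intro x
    rw [pd_mulf hF (hψ.mul (sm_RR hf)), pd_mulf hψ (sm_RR hf), pd_mulf (sm_crd 0) s2,
      pd_mulf (sm_crd 1) s2, pd_mulf hF (hψ.mul (sm_pd hf 2)), pd_mulf hF (hψ.mul (sm_pd hf 2)),
      pd_mulf hψ (sm_pd hf 2), pd_mulf hψ (sm_pd hf 2), pd_crd, pd_crd]
    simp only [if_true]
    rw [Pool.Agent.Q257.AXI.pd2_RR hf]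
    unfold TT RR
    ring
  have h1 : ∫ x, (ψ x * TT F f x - F x * (pd 2 ψ x * RR f x - RR ψ x * pd 2 f x)) = 0 := by
    simp_rw [key]
    exact hz.2
  rw [integral_sub iA iB] at h1
  linarith

/-! ### chain rules -/

lemma pd_chain {β : ℝ → ℝ} {f : V → ℝ} (hβ : ContDiff ℝ ∞ β) (hf : ContDiff ℝ ∞ f) (j : Fin 3)
    (x : V) : pd j (fun y => β (f y)) x = deriv β (f x) * pd j f x :=
  pd_comp_at ((hβ.differentiable (by norm_cast)) _).hasDerivAt
    ((hf.differentiable (by norm_cast)) _) j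

lemma RR_chain {β : ℝ → ℝ} {f : V → ℝ} (hβ : ContDiff ℝ ∞ β) (hf : ContDiff ℝ ∞ f) (x : V) :
    RR (fun y => β (f y)) x = deriv β (f x) * RR f x := by
  unfold RR
  rw [pd_chain hβ hf, pd_chain hβ hf]
  ring

lemma sm_deriv {β : ℝ → ℝ} (hβ : ContDiff ℝ ∞ β) : ContDiff ℝ ∞ (deriv β) :=
  (contDiff_infty_iff_deriv.1 hβ).2

lemma lap_chain {β : ℝ → ℝ} {f : V → ℝ} (hβ : ContDiff ℝ ∞ β) (hf : ContDiff ℝ ∞ f) (x : V) :
    lap (fun y => β (f y)) x = deriv β (f x) * lap f x + deriv (deriv β) (f x) * gr2 f x := by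
  unfold lap gr2
  have h : ∀ j : Fin 3, pd j (pd j (fun y => β (f y))) x
      = deriv β (f x) * pd j (pd j f) x + deriv (deriv β) (f x) * pd j f x ^ 2 := by
    intro j
    have e : pd j (fun y => β (f y)) = fun y => deriv β (f y) * pd j f y :=
      funext fun y => pd_chain hβ hf j y
    have sβ : ContDiff ℝ ∞ (fun y => deriv β (f y)) := (sm_deriv hβ).comp hf
    have e2 : pd j (fun y => deriv β (f y)) x = deriv (deriv β) (f x) * pd j f x :=
      pd_chain (sm_deriv hβ) hf j x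
    have e3 : pd j (fun y => deriv β (f y) * pd j f y) x
        = deriv β (f x) * pd j (pd j f) x + pd j (fun y => deriv β (f y)) x * pd j f x :=
      congrFun (pd_mulf sβ (sm_pd hf j) j) x
    rw [e, e3, e2]
    ring
  simp_rw [h, Finset.sum_add_distrib, ← Finset.mul_sum]

lemma TT_chain {β : ℝ → ℝ} {F f : V → ℝ} (hβ : ContDiff ℝ ∞ β) (hf : ContDiff ℝ ∞ f) (x : V) :
    TT F (fun y => β (f y)) x = deriv β (f x) * TT F f x := by
  unfold TT
  rw [RR_chain hβ hf, pd_chain hβ hf]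
  ring

/-! ### the identities in space -/

section space
variable {χ q F : V → ℝ}

lemma id_lap (hχ : ContDiff ℝ ∞ χ) (hχs : HasCompactSupport χ) (hq : ContDiff ℝ ∞ q) :
    Integrable (fun x => 2 * χ x ^ 2 * q x * lap q x) ∧
    ∫ x, 2 * χ x ^ 2 * q x * lap q x
      = -2 * GD (fun x => χ x * q x) + 2 * ∫ x, q x ^ 2 * gr2 χ x := by
  have hχ2 : ContDiff ℝ ∞ (fun y => χ y ^ 2) := hχ.pow 2
  have hχ2s : HasCompactSupport (fun y => χ y ^ 2) := by
    have e : (fun y => χ y ^ 2) = fun y => χ y * χ y := by funext y; ring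
    rw [e]
    exact hχs.mul_right
  have i1 : Integrable (fun x => 2 * χ x ^ 2 * q x * lap q x) := by
    refine int_cs ((((contDiff_const.mul hχ2).mul hq)).mul (lap_sm hq)).continuous ?_
    exact (((hχ2s.mul_left).mul_right).mul_right)
  have hg : ContDiff ℝ ∞ (fun y => χ y * q y) := hχ.mul hq
  have hgs : HasCompactSupport (fun y => χ y * q y) := hχs.mul_right
  have i2 : Integrable (gr2 (fun y => χ y * q y)) := gr2_int hg hgs
  have i3 : Integrable (fun x => q x ^ 2 * gr2 χ x) :=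
    int_cs ((hq.pow 2).mul (gr2_sm hχ)).continuous (gr2_cs hχs).mul_left
  refine ⟨i1, ?_⟩
  have hz : Z (fun x => ∑ i, pd i (fun y => χ y ^ 2 * q y * pd i q y) x) := by
    refine Z.sum fun i => Z_pd ((hχ2.mul hq).mul (sm_pd hq i)) ?_ i
    exact (hχ2s.mul_right).mul_right
  have key : ∀ x, 2 * χ x ^ 2 * q x * lap q x
      = 2 * (∑ i, pd i (fun y => χ y ^ 2 * q y * pd i q y) x)
        + (-2 * gr2 (fun y => χ y * q y) x + 2 * (q x ^ 2 * gr2 χ x)) := by
    intro x
    have e : ∀ i : Fin 3, pd i (fun y => χ y ^ 2 * q y * pd i q y) x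
        = χ x ^ 2 * q x * pd i (pd i q) x
          + (χ x ^ 2 * pd i q x + 2 * χ x * pd i χ x * q x) * pd i q x := by
      intro i
      have h1 : pd i (fun y => χ y ^ 2 * q y * pd i q y) x
          = (χ x ^ 2 * q x) * pd i (pd i q) x + pd i (fun y => χ y ^ 2 * q y) x * pd i q x :=
        congrFun (pd_mulf (hχ2.mul hq) (sm_pd hq i) i) x
      have h2 : pd i (fun y => χ y ^ 2 * q y) x
          = χ x ^ 2 * pd i q x + pd i (fun y => χ y ^ 2) x * q x :=
        congrFun (pd_mulf hχ2 hq i) x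
      rw [h1, h2, Pool.Agent.Q175.AX.sq_pd hχ]
    simp_rw [e]
    have e2 : ∀ i : Fin 3, pd i (fun y => χ y * q y) x = χ x * pd i q x + pd i χ x * q x :=
      fun i => congrFun (pd_mulf hχ hq i) x
    unfold gr2 lap
    simp_rw [e2, Fin.sum_univ_three]
    ring
  have i4 : Integrable (fun x => -2 * gr2 (fun y => χ y * q y) x + 2 * (q x ^ 2 * gr2 χ x)) :=
    (i2.const_mul (-2)).add (i3.const_mul 2)
  simp_rw [key]
  rw [integral_add (hz.1.const_mul 2) i4,
    integral_add (i2.const_mul _) (i3.const_mul _), integral_const_mul, integral_const_mul,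
    integral_const_mul, hz.2]
  unfold GD
  ring

lemma id_RR (hA : StmAx) (H0 : StmH0) (hχ : ContDiff ℝ ∞ χ) (hχs : HasCompactSupport χ)
    (hq : ContDiff ℝ ∞ q) (h0 : ∀ x, sg x = 0 → q x = 0) :
    Integrable (fun x => 2 * χ x ^ 2 * q x * (2 / sg x * RR q x)) ∧
    Integrable (fun x => q x ^ 2 * χ x * (RR χ x / sg x)) ∧
    ∫ x, 2 * χ x ^ 2 * q x * (2 / sg x * RR q x)
      = -4 * ∫ x, q x ^ 2 * χ x * (RR χ x / sg x) := by
  obtain ⟨c₀, -, hA⟩ := hA
  have hg2 : ContDiff ℝ ∞ (fun y => (χ y * q y) ^ 2) := (hχ.mul hq).pow 2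
  have hχ2 : ContDiff ℝ ∞ (fun y => χ y ^ 2) := hχ.pow 2
  have hχ2s : HasCompactSupport (fun y => χ y ^ 2) := by
    have e : (fun y => χ y ^ 2) = fun y => χ y * χ y := by funext y; ring
    rw [e]
    exact hχs.mul_right
  have hg2s : HasCompactSupport (fun y => (χ y * q y) ^ 2) := by
    have e : (fun y => (χ y * q y) ^ 2) = fun y => χ y * (χ y * q y ^ 2) := by funext y; ring
    rw [e]
    exact hχs.mul_right
  obtain ⟨i0, h1⟩ := hA _ hg2 hg2s
  have h2 : ∫ z : ℝ, (χ ![0, 0, z] * q ![0, 0, z]) ^ 2 = 0 := by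
    have : (fun z : ℝ => (χ ![0, 0, z] * q ![0, 0, z]) ^ 2) = fun _ => 0 := by
      funext z
      rw [h0 ![0, 0, z] (by unfold sg; show (0 : ℝ) ^ 2 + (0 : ℝ) ^ 2 = 0; norm_num)]
      ring
    rw [this]
    simp
  rw [h2, mul_zero] at h1
  have i1 : Integrable (fun x => (χ x ^ 2 * q x) * (RR q x / sg x)) :=
    RRsg_int H0 (hq.of_le (by norm_cast)) (hχ2.mul hq).continuous hχ2s.mul_right
  have i2 : Integrable (fun x => (q x ^ 2 * χ x) * (RR χ x / sg x)) :=
    RRsg_int' H0 (hχ.of_le (by norm_cast)) ((hq.pow 2).mul hχ).continuous hχs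
  refine ⟨?_, i2, ?_⟩
  · refine (i1.const_mul 4).congr (Eventually.of_forall fun x => ?_)
    show 4 * ((χ x ^ 2 * q x) * (RR q x / sg x)) = _
    ring
  · have e : ∀ x, 2 * χ x ^ 2 * q x * (2 / sg x * RR q x)
        = 2 * (RR (fun y => (χ y * q y) ^ 2) x / sg x)
          - 4 * ((q x ^ 2 * χ x) * (RR χ x / sg x)) := by
      intro x
      have e1 : (fun y => (χ y * q y) ^ 2) = fun y => (χ y * q y) * (χ y * q y) := by
        funext y; ring
      rw [e1, RR_mul (hχ.mul hq) (hχ.mul hq), RR_mul hχ hq]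
      ring
    simp_rw [e]
    rw [integral_sub (i0.const_mul 2) (i2.const_mul 4), integral_const_mul, integral_const_mul, h1]
    ring

lemma id_TT (hχ : ContDiff ℝ ∞ χ) (hχs : HasCompactSupport χ) (hq : ContDiff ℝ ∞ q)
    (hF : ContDiff ℝ ∞ F) (aχ : AxF χ) (aq : AxF q) (aF : AxF F) :
    Integrable (fun x => 2 * χ x ^ 2 * q x * TT F q x) ∧
    Integrable (fun x => 4 * (F x * q x * (pd 2 χ x * RR (fun y => χ y * q y) x
      - RR χ x * pd 2 (fun y => χ y * q y) x))) ∧
    ∫ x, 2 * χ x ^ 2 * q x * TT F q x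
      = ∫ x, 4 * (F x * q x * (pd 2 χ x * RR (fun y => χ y * q y) x
        - RR χ x * pd 2 (fun y => χ y * q y) x)) := by
  have hχ2 : ContDiff ℝ ∞ (fun y => χ y * χ y) := hχ.mul hχ
  have hq2 : ContDiff ℝ ∞ (fun y => q y * q y) := hq.mul hq
  have aχ2 : AxF (fun y => χ y * χ y) := fun θ x => by simp only [aχ θ x]
  have aq2 : AxF (fun y => q y * q y) := fun θ x => by simp only [aq θ x]
  have h := t_TT F _ _ hF hq2 hχ2 hχs.mul_right aF aq2 aχ2
  have hg : ContDiff ℝ ∞ (fun y => χ y * q y) := hχ.mul hq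
  have cpd : HasCompactSupport (pd 2 χ) := cs_pd hχs 2
  have cRR : HasCompactSupport (RR χ) := by
    unfold RR
    exact ((cs_pd hχs 0).mul_left).add ((cs_pd hχs 1).mul_left)
  refine ⟨?_, ?_, ?_⟩
  · refine int_cs ((((contDiff_const.mul (hχ.pow 2)).mul hq)).mul (sm_TT hF hq)).continuous ?_
    have e : (fun x => 2 * χ x ^ 2 * q x * TT F q x)
        = fun x => χ x * (2 * χ x * q x * TT F q x) := by
      funext x; ring
    rw [e]
    exact hχs.mul_right
  · refine int_cs (contDiff_const.mul ((hF.mul hq).mul (((sm_pd hχ 2).mul (sm_RR hg)).sub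
      ((sm_RR hχ).mul (sm_pd hg 2))))).continuous ?_
    refine HasCompactSupport.mul_left (HasCompactSupport.mul_left ?_)
    exact (cpd.mul_right).sub (cRR.mul_right)
  · have e1 : ∀ x, 2 * χ x ^ 2 * q x * TT F q x
        = χ x * χ x * TT F (fun y => q y * q y) x := by
      intro x
      unfold TT
      rw [RR_mul hq hq, pd_mulf hq hq]
      ring
    have e2 : ∀ x, 4 * (F x * q x * (pd 2 χ x * RR (fun y => χ y * q y) x
        - RR χ x * pd 2 (fun y => χ y * q y) x))
        = F x * (pd 2 (fun y => χ y * χ y) x * RR (fun y => q y * q y) x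
          - RR (fun y => χ y * χ y) x * pd 2 (fun y => q y * q y) x) := by
      intro x
      rw [RR_mul hq hq, RR_mul hχ hχ, RR_mul hχ hq, pd_mulf hχ hχ, pd_mulf hq hq, pd_mulf hχ hq]
      ring
    simp_rw [e1, e2]
    exact h

end space

end Pool.Agent.D0H28.OV
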