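import Pool.Agent.D0H28.OV.D

/-! Project OV (helper28), package D: the energy inequality for truncations (end). -/

set_option autoImplicit false

open MeasureTheory Set Metric Filter Topology
open scoped ContDiff
open H459R3.NS Pool.Agent.W268.NS

namespace Pool.Agent.D0H28.OV

open Pool.Agent.Q67.AXI Pool.Agent.TH305.AX Pool.Agent.TH305.DR Pool.Agent.Q85.CL
open Pool.Agent.W583.MD (sm_pd cs_pd Z Z.add Z.sub Z.smul Z.sum int_cs Z_pd slice hd_slice)
open Pool.Agent.Q257.AXI (sg_sm RR_mul RR_add sm_RR)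
open Pool.Agent.Q175.AX (pd_mul_at pd_comp_at RR_sm lap_sm gr2_sm gr2_nn RR_sq RR_sq' gr2_int gr2_cs
  RRsg_int RRsg_int' sg_nn axis_ae)

lemma abs_RR_le (f : V → ℝ) (x : V) : |RR f x| ≤ √(sg x) * √(gr2 f x) := by
  rw [← Real.sqrt_mul (sg_nn x)]
  exact Real.abs_le_sqrt (RR_sq' f x)

lemma abs_pd_le (f : V → ℝ) (x : V) (j : Fin 3) : |pd j f x| ≤ √(gr2 f x) := by
  refine Real.abs_le_sqrt ?_
  unfold gr2
  exact Finset.single_le_sum (f := fun i => pd i f x ^ 2) (fun i _ => sq_nonneg _)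
    (Finset.mem_univ j)

lemma off_supp {χ : V → ℝ} {x : V} (hx : x ∉ tsupport χ) :
    χ x = 0 ∧ (∀ j, pd j χ x = 0) ∧ RR χ x = 0 ∧ gr2 χ x = 0 := by
  have h0 : χ x = 0 := image_eq_zero_of_notMem_tsupport hx
  have h1 : ∀ j, pd j χ x = 0 := by
    intro j
    unfold pd
    rw [show fderiv ℝ χ x = 0 from by
      by_contra hne
      exact hx (support_fderiv_subset ℝ hne)]
    rfl
  refine ⟨h0, h1, ?_, ?_⟩
  · unfold RR
    rw [h1, h1]; ring
  · unfold gr2
    simp [h1]

/-- D. -/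
theorem t_CacD (hA : StmAx) (H0 : StmH0) (hH : StmHh) : StmCacD := by
  obtain ⟨hsm, hnn, hz, hd1, hd2, hle, -, -⟩ := hH
  refine ⟨36, by norm_num, ?_⟩
  intro a b K f F hD χ N k m M hχ hχs hχO aχ hχ01 hN hχN hχR hk hk1 hm hM t ht
  have hM0 : 0 ≤ M := (mul_nonneg hm.le (by linarith)).trans hM
  -- the truncated function
  obtain ⟨β, hβ⟩ : ∃ β : ℝ → ℝ, β = fun s => hh (m * (s - k)) := ⟨_, rfl⟩
  have sβ : ContDiff ℝ ∞ β := by
    rw [hβ]
    exact hsm.comp (contDiff_const.mul (contDiff_id.sub contDiff_const))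
  have dβ : deriv β = fun s => m * deriv hh (m * (s - k)) := by
    funext s
    rw [hβ]
    have h1 : HasDerivAt (fun s : ℝ => m * (s - k)) m s := by
      simpa using ((hasDerivAt_id s).sub_const k).const_mul m
    have h2 : HasDerivAt hh (deriv hh (m * (s - k))) (m * (s - k)) :=
      ((hsm.differentiable (by norm_cast)) _).hasDerivAt
    have h3 := h2.comp s h1
    have h4 := h3.deriv
    show deriv (hh ∘ fun s => m * (s - k)) s = _
    rw [h4]
    ring
  have ddβ : ∀ s, 0 ≤ deriv (deriv β) s := by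
    intro s
    rw [dβ]
    have h1 : HasDerivAt (fun s : ℝ => m * (s - k)) m s := by
      simpa using ((hasDerivAt_id s).sub_const k).const_mul m
    have h2 : HasDerivAt (deriv hh) (deriv (deriv hh) (m * (s - k))) (m * (s - k)) :=
      (((sm_deriv hsm).differentiable (by norm_cast)) _).hasDerivAt
    have h3 := (h2.comp s h1).const_mul m
    have h4 : deriv (fun s => m * deriv hh (m * (s - k))) s
        = m * (deriv (deriv hh) (m * (s - k)) * m) := h3.deriv
    rw [h4]
    have := hd2 (m * (s - k))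
    positivity
  have sft : ContDiff ℝ ∞ (f t) := slice hD.smf ht
  have sFt : ContDiff ℝ ∞ (F t) := slice hD.smF ht
  obtain ⟨q, hq⟩ : ∃ q : V → ℝ, q = fun x => β (f t x) := ⟨_, rfl⟩
  have sq : ContDiff ℝ ∞ q := by
    rw [hq]
    exact sβ.comp sft
  have aq : AxF q := fun θ x => by rw [hq]; simp only [hD.axf t ht θ x]
  have q0 : ∀ x, sg x = 0 → q x = 0 := by
    intro x hx
    rw [hq, hβ]
    simp only
    rw [hD.ax0 t ht x hx]
    exact hz _ (by nlinarith)
  have qnn : ∀ x, 0 ≤ q x := fun x => by rw [hq, hβ]; exact hnn _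
  have qk : ∀ x, f t x ≤ k → q x = 0 := by
    intro x hx
    rw [hq, hβ]
    exact hz _ (mul_nonpos_of_nonneg_of_nonpos hm.le (by linarith))
  have qM : ∀ x, q x ≤ M := by
    intro x
    rcases le_total (f t x) k with h | h
    · rw [qk x h]; exact hM0
    · rw [hq, hβ]
      show hh (m * (f t x - k)) ≤ M
      have h1 := hle (m * (f t x - k)) (mul_nonneg hm.le (by linarith))
      have h2 : f t x ≤ 1 := (abs_le.1 (hD.bd t ht x)).2
      have h3 : m * (f t x - k) ≤ m * (1 - k) := by gcongr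
      linarith
  -- the derivative in time
  obtain ⟨ρ, hρ⟩ := hχs.isCompact.isBounded.subset_closedBall (0 : V)
  obtain ⟨G, hG⟩ : ∃ G : ℝ → V → ℝ, G = fun s x => (χ x * β (f s x)) ^ 2 := ⟨_, rfl⟩
  have sG : ContDiffOn ℝ ∞ (fun z : ℝ × V => G z.1 z.2) (Ioo a b ×ˢ univ) := by
    rw [hG]
    have h1 : ContDiffOn ℝ ∞ (fun z : ℝ × V => β (f z.1 z.2)) (Ioo a b ×ˢ univ) :=
      sβ.comp_contDiffOn hD.smf
    have h2 : ContDiffOn ℝ ∞ (fun z : ℝ × V => χ z.2) (Ioo a b ×ˢ univ) :=
      (hχ.comp contDiff_snd).contDiffOn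
    exact (h2.mul h1).pow 2
  have cG : ∀ s ∈ Ioo a b, ∀ z ∉ closedBall (0 : V) ρ, G s z = 0 := by
    intro s _ z hz'
    rw [hG]
    show (χ z * β (f s z)) ^ 2 = 0
    rw [image_eq_zero_of_notMem_tsupport fun h => hz' (hρ h)]
    ring
  have hder := Pool.Agent.Q119.AXI.hd_int' sG cG ht
  have hdG : ∀ x, deriv (fun s => G s x) t
      = 2 * χ x ^ 2 * q x * (deriv β (f t x) * deriv (fun s => f s x) t) := by
    intro x
    have h1 : HasDerivAt (fun s => f s x) (deriv (fun s => f s x) t) t := by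
      have := hd_slice hD.smf ht x
      rw [← this.deriv] at this
      exact this
    have h2 : HasDerivAt β (deriv β (f t x)) (f t x) :=
      ((sβ.differentiable (by norm_cast)) _).hasDerivAt
    have h3 : HasDerivAt (fun s => β (f s x)) (deriv β (f t x) * deriv (fun s => f s x) t) t :=
      h2.comp t h1
    have h4 := (h3.const_mul (χ x)).pow 2
    rw [hG, hq]
    have h5 : deriv (fun s => (χ x * β (f s x)) ^ 2) t = _ := h4.deriv
    rw [h5]
    push_cast
    ring
  refine ⟨∫ x, deriv (fun s => G s x) t, ?_, ?_⟩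
  · have e : (fun s => ∫ x, G s x) = fun s => ∫ x, (χ x * hh (m * (f s x - k))) ^ 2 := by
      funext s
      rw [hG, hβ]
    rw [← e]
    exact hder
  -- the integrand
  obtain ⟨j1, e1⟩ := id_lap hχ hχs sq
  obtain ⟨j2, j2', e2⟩ := id_RR hA H0 hχ hχs sq q0
  obtain ⟨j3, j3', e3⟩ := id_TT hχ hχs sq sFt aχ aq (hD.axF t ht)
  have hle1 : ∀ᵐ x : V, deriv (fun s => G s x) t
      ≤ 2 * χ x ^ 2 * q x * lap q x - 2 * χ x ^ 2 * q x * (2 / sg x * RR q x)
        - 2 * χ x ^ 2 * q x * TT (F t) q x := by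
    filter_upwards [axis_ae] with x hx
    rw [hdG x]
    by_cases hxs : x ∈ tsupport χ
    · rw [hD.eq t ht x (hχO hxs) hx]
      have h1 : lap q x = deriv β (f t x) * lap (f t) x + deriv (deriv β) (f t x) * gr2 (f t) x := by
        rw [hq]; exact lap_chain sβ sft x
      have h2 : RR q x = deriv β (f t x) * RR (f t) x := by rw [hq]; exact RR_chain sβ sft x
      have h3 : TT (F t) q x = deriv β (f t x) * TT (F t) (f t) x := by
        rw [hq]; exact TT_chain sβ sft x
      rw [h1, h2, h3]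
      have h4 : 0 ≤ 2 * χ x ^ 2 * q x * (deriv (deriv β) (f t x) * gr2 (f t) x) := by
        have := qnn x
        have := ddβ (f t x)
        have := gr2_nn (f t) x
        positivity
      nlinarith
    · rw [image_eq_zero_of_notMem_tsupport hxs]
      simp
  have j0 : Integrable (fun x => deriv (fun s => G s x) t) := by
    refine int_cs (Pool.Agent.W583.MD.cont_dt_slice sG ht) ?_
    refine HasCompactSupport.of_support_subset_isCompact (isCompact_closedBall (0 : V) ρ)
      fun z hz' => ?_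
    by_contra hcon
    exact hz' (Pool.Agent.Q119.AXI.dt_zero' cG ht hcon)
  have hI : ∫ x, deriv (fun s => G s x) t
      ≤ -2 * GD (fun x => χ x * q x) + 2 * (∫ x, q x ^ 2 * gr2 χ x)
        + 4 * (∫ x, q x ^ 2 * χ x * (RR χ x / sg x))
        - ∫ x, 4 * (F t x * q x * (pd 2 χ x * RR (fun y => χ y * q y) x
          - RR χ x * pd 2 (fun y => χ y * q y) x)) := by
    have h1 : ∫ x, deriv (fun s => G s x) t
        ≤ ∫ x, (2 * χ x ^ 2 * q x * lap q x - 2 * χ x ^ 2 * q x * (2 / sg x * RR q x)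
          - 2 * χ x ^ 2 * q x * TT (F t) q x) := integral_mono_ae j0 ((j1.sub j2).sub j3) hle1
    have h2 : ∫ x, (2 * χ x ^ 2 * q x * lap q x - 2 * χ x ^ 2 * q x * (2 / sg x * RR q x)
          - 2 * χ x ^ 2 * q x * TT (F t) q x)
        = (∫ x, 2 * χ x ^ 2 * q x * lap q x) - (∫ x, 2 * χ x ^ 2 * q x * (2 / sg x * RR q x))
          - ∫ x, 2 * χ x ^ 2 * q x * TT (F t) q x := by
      have j12 : Integrable (fun x => 2 * χ x ^ 2 * q x * lap q x
        - 2 * χ x ^ 2 * q x * (2 / sg x * RR q x)) := j1.sub j2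
      rw [integral_sub j12 j3, integral_sub j1 j2]
    rw [h2, e1, e2, e3] at h1
    linarith
  -- the set
  obtain ⟨S, hS⟩ : ∃ S : Set V, S = {x | x ∈ tsupport χ ∧ k < f t x} := ⟨_, rfl⟩
  have mS : MeasurableSet S := by
    rw [hS]
    exact (isClosed_tsupport χ).measurableSet.inter
      (measurableSet_lt measurable_const sft.continuous.measurable)
  have fS : S ⊆ tsupport χ := by rw [hS]; exact fun x hx => hx.1
  have jS : IntegrableOn (fun x => 1 + sg x * F t x ^ 2) S := by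
    have hc : Continuous (fun x : V => 1 + sg x * F t x ^ 2) :=
      continuous_const.add (sg_sm.continuous.mul (sFt.continuous.pow 2))
    exact (hc.continuousOn.integrableOn_compact hχs).mono_set fS
  have jSi : Integrable (S.indicator fun x => 1 + sg x * F t x ^ 2) :=
    (integrable_indicator_iff mS).2 jS
  have jg : Integrable (gr2 (fun x => χ x * q x)) := gr2_int (hχ.mul sq) hχs.mul_right
  have jq : Integrable (fun x => q x ^ 2 * gr2 χ x) :=
    int_cs ((sq.pow 2).mul (gr2_sm hχ)).continuous (gr2_cs hχs).mul_left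
  -- the pointwise bound of the three error terms
  have hpt : ∀ᵐ x : V, 2 * (q x ^ 2 * gr2 χ x) + 4 * (q x ^ 2 * χ x * (RR χ x / sg x))
      - 4 * (F t x * q x * (pd 2 χ x * RR (fun y => χ y * q y) x
          - RR χ x * pd 2 (fun y => χ y * q y) x))
      ≤ gr2 (fun x => χ x * q x) x
        + 36 * N ^ 2 * M ^ 2 * S.indicator (fun x => 1 + sg x * F t x ^ 2) x := by
    filter_upwards [axis_ae] with x hx
    have hN2 : 0 ≤ N ^ 2 := sq_nonneg N
    by_cases hxS : x ∈ S
    · rw [indicator_of_mem hxS]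
      have hsx : 0 < sg x := lt_of_le_of_ne (sg_nn x) (Ne.symm hx)
      have hq1 : q x ^ 2 ≤ M ^ 2 := pow_le_pow_left₀ (qnn x) (qM x) 2
      have hg1 : gr2 χ x ≤ 3 * N ^ 2 := by
        unfold gr2
        rw [Fin.sum_univ_three]
        have h : ∀ i, pd i χ x ^ 2 ≤ N ^ 2 := fun i => sq_le_sq' (by
          have := (abs_le.1 (hχN x i)).1; linarith) (abs_le.1 (hχN x i)).2
        linarith [h 0, h 1, h 2]
      have hR1 : χ x * (RR χ x / sg x) ≤ N ^ 2 := by
        have h1 : RR χ x / sg x ≤ N ^ 2 := by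
          rw [div_le_iff₀ hsx]
          exact (le_abs_self _).trans (hχR x)
        have h2 := (hχ01 x)
        have h3 : χ x * (RR χ x / sg x) ≤ χ x * N ^ 2 := mul_le_mul_of_nonneg_left h1 h2.1
        nlinarith
      have hRχ : |RR χ x| ≤ √(sg x) * (2 * N) := by
        have h1 : |RR χ x| ≤ √(sg x) * √(gr2 χ x) := abs_RR_le χ x
        have h2 : √(gr2 χ x) ≤ 2 * N := by
          rw [Real.sqrt_le_left (by linarith)]
          nlinarith
        exact h1.trans (mul_le_mul_of_nonneg_left h2 (Real.sqrt_nonneg _))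
      obtain ⟨g, hg⟩ : ∃ g : ℝ, g = √(gr2 (fun x => χ x * q x) x) := ⟨_, rfl⟩
      have hg0 : 0 ≤ g := by rw [hg]; exact Real.sqrt_nonneg _
      have hgs : g ^ 2 = gr2 (fun x => χ x * q x) x := by
        rw [hg, Real.sq_sqrt (gr2_nn _ _)]
      obtain ⟨r, hr⟩ : ∃ r : ℝ, r = √(sg x) := ⟨_, rfl⟩
      have hr0 : 0 ≤ r := by rw [hr]; exact Real.sqrt_nonneg _
      have hrs : r ^ 2 = sg x := by rw [hr, Real.sq_sqrt hsx.le]
      have ha : |pd 2 χ x * RR (fun y => χ y * q y) x| ≤ N * (r * g) := by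
        rw [abs_mul]
        refine mul_le_mul (hχN x 2) ?_ (abs_nonneg _) (by linarith)
        rw [hr, hg]
        exact abs_RR_le _ x
      have hb : |RR χ x * pd 2 (fun y => χ y * q y) x| ≤ (r * (2 * N)) * g := by
        rw [abs_mul]
        refine mul_le_mul (by rw [hr]; exact hRχ) ?_ (abs_nonneg _) (by positivity)
        rw [hg]
        exact abs_pd_le _ x 2
      have hc : |pd 2 χ x * RR (fun y => χ y * q y) x
          - RR χ x * pd 2 (fun y => χ y * q y) x| ≤ 3 * N * (r * g) := by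
        refine (abs_sub _ _).trans ?_
        linarith
      have hd : -(4 * (F t x * q x * (pd 2 χ x * RR (fun y => χ y * q y) x
          - RR χ x * pd 2 (fun y => χ y * q y) x))) ≤ 4 * (|F t x| * q x * (3 * N * (r * g))) := by
        refine (neg_le_abs _).trans ?_
        rw [abs_mul, abs_mul, abs_mul, abs_of_nonneg (qnn x), abs_of_pos (by norm_num : (0 : ℝ) < 4)]
        have : 0 ≤ |F t x| * q x := mul_nonneg (abs_nonneg _) (qnn x)
        have := mul_le_mul_of_nonneg_left hc this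
        linarith
      have he : 4 * (|F t x| * q x * (3 * N * (r * g)))
          ≤ g ^ 2 + 36 * N ^ 2 * (sg x * F t x ^ 2 * q x ^ 2) := by
        rw [← hrs, ← sq_abs (F t x)]
        nlinarith [sq_nonneg (g - 6 * N * r * |F t x| * q x)]
      have hf0 : 0 ≤ sg x * F t x ^ 2 := mul_nonneg hsx.le (sq_nonneg _)
      have e1 : q x ^ 2 * gr2 χ x ≤ M ^ 2 * (3 * N ^ 2) :=
        mul_le_mul hq1 hg1 (gr2_nn _ _) (sq_nonneg _)
      have e2 : q x ^ 2 * χ x * (RR χ x / sg x) ≤ M ^ 2 * N ^ 2 := by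
        have : q x ^ 2 * χ x * (RR χ x / sg x) = q x ^ 2 * (χ x * (RR χ x / sg x)) := by ring
        rw [this]
        calc q x ^ 2 * (χ x * (RR χ x / sg x)) ≤ q x ^ 2 * N ^ 2 :=
              mul_le_mul_of_nonneg_left hR1 (sq_nonneg _)
          _ ≤ M ^ 2 * N ^ 2 := mul_le_mul_of_nonneg_right hq1 hN2
      have e3 : sg x * F t x ^ 2 * q x ^ 2 ≤ sg x * F t x ^ 2 * M ^ 2 :=
        mul_le_mul_of_nonneg_left hq1 hf0
      have e4 : N ^ 2 * (sg x * F t x ^ 2 * q x ^ 2) ≤ N ^ 2 * (sg x * F t x ^ 2 * M ^ 2) :=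
        mul_le_mul_of_nonneg_left e3 hN2
      have e5 : 0 ≤ N ^ 2 * M ^ 2 := by positivity
      have e6 : 0 ≤ N ^ 2 * (sg x * F t x ^ 2 * M ^ 2) := by positivity
      rw [← hgs]
      have e7 : 36 * N ^ 2 * M ^ 2 * (1 + sg x * F t x ^ 2)
          = 36 * (N ^ 2 * M ^ 2) + 36 * (N ^ 2 * (sg x * F t x ^ 2 * M ^ 2)) := by ring
      have e8 : 36 * N ^ 2 * (sg x * F t x ^ 2 * q x ^ 2)
          = 36 * (N ^ 2 * (sg x * F t x ^ 2 * q x ^ 2)) := by ring
      have e9 : M ^ 2 * (3 * N ^ 2) = 3 * (N ^ 2 * M ^ 2) := by ring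
      have e10 : M ^ 2 * N ^ 2 = N ^ 2 * M ^ 2 := by ring
      rw [e7]
      rw [e8] at he
      rw [e9] at e1
      rw [e10] at e2
      linarith
    · rw [indicator_of_notMem hxS]
      have h0 : q x = 0 ∨ x ∉ tsupport χ := by
        by_contra hcon
        push Not at hcon
        apply hxS
        rw [hS]
        refine ⟨hcon.2, ?_⟩
        by_contra h
        exact hcon.1 (qk x (not_lt.1 h))
      have hg0 := gr2_nn (fun x => χ x * q x) x
      rcases h0 with h0 | h0
      · rw [h0]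
        simp only [mul_zero]
        nlinarith
      · obtain ⟨-, h2, h3, h4⟩ := off_supp h0
        rw [h2, h3, h4]
        simp only [mul_zero, zero_mul, zero_div, sub_zero, add_zero]
        linarith
  have hint : ∫ x, (2 * (q x ^ 2 * gr2 χ x) + 4 * (q x ^ 2 * χ x * (RR χ x / sg x))
      - 4 * (F t x * q x * (pd 2 χ x * RR (fun y => χ y * q y) x
          - RR χ x * pd 2 (fun y => χ y * q y) x)))
      ≤ ∫ x, (gr2 (fun x => χ x * q x) x
        + 36 * N ^ 2 * M ^ 2 * S.indicator (fun x => 1 + sg x * F t x ^ 2) x) :=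
    integral_mono_ae (((jq.const_mul 2).add (j2'.const_mul 4)).sub j3')
      (jg.add (jSi.const_mul (36 * N ^ 2 * M ^ 2))) hpt
  have hl : ∫ x, (2 * (q x ^ 2 * gr2 χ x) + 4 * (q x ^ 2 * χ x * (RR χ x / sg x))
      - 4 * (F t x * q x * (pd 2 χ x * RR (fun y => χ y * q y) x
          - RR χ x * pd 2 (fun y => χ y * q y) x)))
      = 2 * (∫ x, q x ^ 2 * gr2 χ x) + 4 * (∫ x, q x ^ 2 * χ x * (RR χ x / sg x))
        - ∫ x, 4 * (F t x * q x * (pd 2 χ x * RR (fun y => χ y * q y) x
          - RR χ x * pd 2 (fun y => χ y * q y) x)) := by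
    have j12 : Integrable (fun x => 2 * (q x ^ 2 * gr2 χ x)
        + 4 * (q x ^ 2 * χ x * (RR χ x / sg x))) := (jq.const_mul 2).add (j2'.const_mul 4)
    rw [integral_sub j12 j3',
      integral_add (jq.const_mul 2) (j2'.const_mul 4), integral_const_mul, integral_const_mul]
  have hr : ∫ x, (gr2 (fun x => χ x * q x) x
        + 36 * N ^ 2 * M ^ 2 * S.indicator (fun x => 1 + sg x * F t x ^ 2) x)
      = GD (fun x => χ x * q x) + 36 * N ^ 2 * M ^ 2 * ∫ x in S, (1 + sg x * F t x ^ 2) := by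
    rw [integral_add jg (jSi.const_mul _), integral_const_mul, integral_indicator mS]
    rfl
  rw [hl, hr] at hint
  have hfin : (fun x => χ x * hh (m * (f t x - k))) = fun x => χ x * q x := by
    rw [hq, hβ]
  rw [hfin, ← hS]
  linarith

end Pool.Agent.D0H28.OV
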