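import Pool.Agent.Q67.AXI.Defs

/-!
Project OV (helper28), MP_09540e_an: one-sided bounds of `ω_θ / ρ` at the singular points of
axisymmetric Navier-Stokes flows. Notation of project AXI (`Pool.Agent.Q67.AXI.Defs`):
`V = Fin 3 → ℝ` with the maximum norm, `sg x = x₀² + x₁²`, `RR f = ρ ∂_ρ f`, `lap`, `GD f = ∫|∇f|²`,
`LL f = Δ f + (2/ρ) ∂_ρ f`, `AxF f`: invariant under rotations, `AA g x = ∫_0^1 l g(l x₀, l x₁, x₂)`,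
`OO v = ω_θ / ρ`, `WW v = v_θ / ρ`, `UU v = v_ρ / ρ`, `Co c r h` / `Cy c r h` the open / closed
cylinder `ρ < r`, `|x₂ - c| < h`.
-/

set_option autoImplicit false

open MeasureTheory Set Metric Filter Topology
open scoped ContDiff
open H459R3.NS Pool.Agent.W268.NS Pool.Agent.Q67.VD

namespace Pool.Agent.D0H28.OV

open Pool.Agent.Q85.CC Pool.Agent.Q85.CL Pool.Agent.TH305.AX Pool.Agent.Q67.AXI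

/-! ### Definitions -/

/-- The Stokes stream function divided by `ρ²`: `(1 / ρ²) ∫_0^ρ r v_z dr`. -/
noncomputable def FF (v : V → V) : V → ℝ := AA (fun y => v y 2)

/-- `b · ∇ f` for the field `b = (-x₀ ∂_z F, -x₁ ∂_z F, 2 F + RR F)`, the curl of
`F (-x₁, x₀, 0)`. -/
noncomputable def TT (F f : V → ℝ) (x : V) : ℝ :=
  -(pd 2 F x * RR f x) + (2 * F x + RR F x) * pd 2 f x

/-- The smooth convex function `0` for `s ≤ 0`, with slopes between `0` and `1`. -/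
noncomputable def hh (s : ℝ) : ℝ := ∫ τ in (0 : ℝ)..s, Real.smoothTransition τ

/-- Solutions `f` of the equation of the circulation in the unit cylinder `Co 0 1 1`, for the drift
with the stream function `ρ² F`, with `|f| ≤ 1` and `∫ (ρ F)⁶ ≤ K`. -/
structure Dr (a b K : ℝ) (f F : ℝ → V → ℝ) : Prop where
  smf : ContDiffOn ℝ ∞ (fun z : ℝ × V => f z.1 z.2) (Ioo a b ×ˢ univ)
  smF : ContDiffOn ℝ ∞ (fun z : ℝ × V => F z.1 z.2) (Ioo a b ×ˢ univ)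
  axf : ∀ t ∈ Ioo a b, AxF (f t)
  axF : ∀ t ∈ Ioo a b, AxF (F t)
  ax0 : ∀ t ∈ Ioo a b, ∀ x, sg x = 0 → f t x = 0
  bd : ∀ t ∈ Ioo a b, ∀ x, |f t x| ≤ 1
  eq : ∀ t ∈ Ioo a b, ∀ x ∈ Co 0 1 1, sg x ≠ 0 →
    deriv (fun s => f s x) t = lap (f t) x - 2 / sg x * RR (f t) x - TT (F t) (f t) x
  mor : ∀ t ∈ Ioo a b, ∫ x in Co 0 1 1, sg x ^ 3 * F t x ^ 6 ≤ K

/-! ### Package A: the axis formula -/

/-- A. `c₀ = 2 π`; proof as in `Pool.Agent.Q257.AXI.t_H0` (regularised weight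
`gw ε`, `∫ 2 ε / (sg + ε)² F → c₀ ∫ F(0,0,z) dz`). -/
def StmAx : Prop := ∃ c₀ : ℝ, 0 < c₀ ∧ ∀ F : V → ℝ, ContDiff ℝ ∞ F → HasCompactSupport F →
  Integrable (fun x => RR F x / sg x) ∧
    ∫ x, RR F x / sg x = -c₀ * ∫ z : ℝ, F ![0, 0, z]

/-! ### Package B: Newton potential -/

/-- B. Proof with the kernel `(|x - y|² + ε)^(-1/2)`, `ε → 0`. -/
def StmNwt : Prop := ∃ C : ℝ, 0 < C ∧ ∀ Φ : V → ℝ, ContDiff ℝ ∞ Φ → HasCompactSupport Φ →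
  ∀ x : V, Integrable (fun y => |lap Φ y| / ‖x - y‖) ∧
    |Φ x| ≤ C * ∫ y, |lap Φ y| / ‖x - y‖

/-! ### Package C: ring averages -/

/-- C1. Ring average of the Newton kernel; `ρ = √sg`. -/
def StmRing : Prop := ∃ C : ℝ, 0 < C ∧ ∀ x y : V, 0 < sg y → √(sg x) ≠ √(sg y) → x 2 ≠ y 2 →
  IntervalIntegrable (fun θ => 1 / ‖rot θ x - y‖) volume 0 (2 * Real.pi) ∧
  √(sg y) * (∫ θ in (0 : ℝ)..(2 * Real.pi), 1 / ‖rot θ x - y‖)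
    ≤ C * √(sg y) ^ (1 / 4 : ℝ) * |√(sg x) - √(sg y)| ^ (-(1 / 8) : ℝ)
        * |x 2 - y 2| ^ (-(1 / 8) : ℝ)

/-- C2. The integral of the sixth power of the kernel over a cylinder. -/
def StmKer6 : Prop := ∃ C : ℝ, 0 < C ∧ ∀ c s b d : ℝ, 0 < s →
  IntegrableOn (fun x : V => |√(sg x) - b| ^ (-(3 / 4) : ℝ) * |x 2 - d| ^ (-(3 / 4) : ℝ))
    (Co c s s) ∧
  ∫ x in Co c s s, |√(sg x) - b| ^ (-(3 / 4) : ℝ) * |x 2 - d| ^ (-(3 / 4) : ℝ)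
    ≤ C * s ^ (3 / 2 : ℝ)

/-- C3 (from B, C1, C2). The Morrey bound of the stream function. For all angles `θ`,
`ρ(x) |F(x)| ≤ 2 C ∫ ρ(y) |LL F(y)| / ‖rot θ x - y‖ dy`, as `lap (x_i F) = x_i LL F`, `i = 0, 1`;
average in `θ`, Hölder with the measure `|LL F| dy`, then C2 if `ρ(y) ≤ 2 s`; if `ρ(y) ≥ 2 s`
the kernel is bounded. -/
def StmL6 : Prop := ∃ C : ℝ, 0 < C ∧ ∀ F : V → ℝ, ContDiff ℝ ∞ F → HasCompactSupport F → AxF F →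
  ∀ c s : ℝ, 0 < s →
    ∫ x in Co c s s, sg x ^ 3 * F x ^ 6 ≤ C * s ^ 3 * (∫ x, |LL F x|) ^ 6

/-! ### Package D: the energy inequality -/

/-- D0. The function `hh`. -/
def StmHh : Prop := ContDiff ℝ ∞ hh ∧ (∀ s, 0 ≤ hh s) ∧ (∀ s, s ≤ 0 → hh s = 0) ∧
  (∀ s, 0 ≤ deriv hh s ∧ deriv hh s ≤ 1) ∧ (∀ s, 0 ≤ deriv (deriv hh) s) ∧
  (∀ s, 0 ≤ s → hh s ≤ s) ∧ (∀ s, 1 ≤ s → hh 1 ≤ hh s) ∧ 0 < hh 1

/-- D1. Integration by parts in the transport term. -/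
def StmTT : Prop := ∀ F f ψ : V → ℝ, ContDiff ℝ ∞ F → ContDiff ℝ ∞ f → ContDiff ℝ ∞ ψ →
  HasCompactSupport ψ → AxF F → AxF f → AxF ψ →
    ∫ x, ψ x * TT F f x = ∫ x, F x * (pd 2 ψ x * RR f x - RR ψ x * pd 2 f x)

/-- D. The energy inequality for the truncated function `q = hh (m (f - k))`. -/
def StmCacD : Prop := ∃ C : ℝ, 0 < C ∧ ∀ (a b K : ℝ) (f F : ℝ → V → ℝ), Dr a b K f F →
  ∀ (χ : V → ℝ) (N k m M : ℝ), ContDiff ℝ ∞ χ → HasCompactSupport χ →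
    tsupport χ ⊆ Co 0 1 1 → AxF χ → (∀ x, 0 ≤ χ x ∧ χ x ≤ 1) → 1 ≤ N →
    (∀ x i, |pd i χ x| ≤ N) → (∀ x, |RR χ x| ≤ N ^ 2 * sg x) → 0 < k → k < 1 → 0 < m →
    m * (1 - k) ≤ M → ∀ t ∈ Ioo a b, ∃ D' : ℝ,
      HasDerivAt (fun s => ∫ x, (χ x * hh (m * (f s x - k))) ^ 2) D' t ∧
      D' ≤ -GD (fun x => χ x * hh (m * (f t x - k)))
        + C * N ^ 2 * M ^ 2 * ∫ x in {x | x ∈ tsupport χ ∧ k < f t x}, (1 + sg x * F t x ^ 2)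

/-! ### Package E: De Giorgi -/

/-- E0. Sobolev inequality in `L⁶`. -/
def StmS6 : Prop := ∃ C : ℝ, 0 < C ∧ ∀ g : V → ℝ, ContDiff ℝ ∞ g → HasCompactSupport g →
  ∫ x, g x ^ 6 ≤ C * GD g ^ 3

/-- E. The first lemma of De Giorgi. -/
def StmDG : Prop := ∀ K : ℝ, 0 ≤ K → ∃ ε₀ : ℝ, 0 < ε₀ ∧ ∀ (a b t₀ ε : ℝ) (f F : ℝ → V → ℝ),
  Dr a b K f F → a < t₀ - 1 → t₀ < b → 0 < ε → ε ≤ 1 / 2 →
  (∀ t ∈ Icc (t₀ - 1) t₀,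
    (volume {x : V | x ∈ Cy 0 (3 / 4) (3 / 4) ∧ 1 - ε < f t x}).toReal ≤ ε₀) →
  ∀ x ∈ Cy 0 (1 / 2) (1 / 2), f t₀ x ≤ 1 - ε / 2

/-! ### Package G: the logarithmic estimate -/

/-- G. Most of the cylinder is far from the maximum, after a long time. -/
def StmLg : Prop := ∀ K ε₀ : ℝ, 0 ≤ K → 0 < ε₀ → ∃ L ε : ℝ, 1 ≤ L ∧ 0 < ε ∧ ε ≤ 1 / 2 ∧
  ∀ (a b : ℝ) (f F : ℝ → V → ℝ), Dr a b K f F → ∀ t ∈ Ioo a b, a + L ≤ t →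
    (volume {x : V | x ∈ Cy 0 (3 / 4) (3 / 4) ∧ 1 - ε < f t x}).toReal ≤ ε₀

/-- OSC (from E and G). -/
def StmOsc : Prop := ∀ K : ℝ, 0 ≤ K → ∃ L δ : ℝ, 1 ≤ L ∧ 0 < δ ∧ δ < 1 ∧
  ∀ (a b : ℝ) (f F : ℝ → V → ℝ), Dr a b K f F → ∀ t ∈ Ioo a b, a + L ≤ t →
    ∀ x ∈ Cy 0 (1 / 2) (1 / 2), |f t x| ≤ 1 - δ

/-! ### Package H: the circulation decays near the axis -/

/-- P. The function `FF`. -/
def StmFF : Prop := (∀ v : V → V, ContDiff ℝ ∞ v → Axi v → ContDiff ℝ ∞ (FF v) ∧ AxF (FF v) ∧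
    ∀ x, 2 * FF v x + RR (FF v) x = v x 2) ∧
  (∀ (c R H : ℝ) (v : V → V), ContDiff ℝ ∞ v → Axi v → DFO (Co c R H) v → ∀ x ∈ Co c R H,
    pd 2 (FF v) x = -UU v x ∧ (sg x ≠ 0 → LL (FF v) x = -OO v x)) ∧
  (∀ (T : ℝ) (u : ℝ → V → V),
    ContDiffOn ℝ ∞ (fun z : ℝ × V => u z.1 z.2) (Ioo 0 T ×ˢ univ) →
    ContDiffOn ℝ ∞ (fun z : ℝ × V => FF (u z.1) z.2) (Ioo 0 T ×ˢ univ)) ∧
  ∀ K c r h r1 h1 : ℝ, 0 ≤ K → 0 < r1 → r1 < r → 0 < h1 → h1 < h → h ≤ 1 → r ≤ 1 →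
    ∃ K' : ℝ, 0 ≤ K' ∧ ∀ v : V → V, ContDiff ℝ ∞ v → Axi v → DFO (Co c r h) v →
      (∀ x ∈ Out c r h r1 h1, BdA K v x) → ∀ x ∈ Co c r h, x ∈ Out c r h r1 h1 →
        |FF v x| ≤ K' ∧ |pd 2 (FF v) x| ≤ K' ∧ |RR (FF v) x| ≤ K'

/-- H. Iteration of OSC over the scales `4⁻ᵏ s₀`. -/
def StmDec : Prop := ∀ (T E c R H r h T₁ C₀ K s₀ : ℝ) (u : ℝ → V → V) (p : ℝ → V → ℝ),
  AxL T E c R H u p → 0 < r → r < R → 0 < h → h < H → 0 < T₁ → T₁ < T → 0 ≤ K → 0 < s₀ →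
  (∀ t ∈ Ico T₁ T, ∀ x ∈ Cy c r h, |circ (u t) x| ≤ C₀) →
  (∀ t ∈ Ico T₁ T, ∀ c' s : ℝ, 0 < s → s ≤ s₀ → Co c' s s ⊆ Cy c r h →
    ∫ x in Co c' s s, sg x ^ 3 * FF (u t) x ^ 6 ≤ K * s ^ 3) →
  ∃ C κ r' T₂ : ℝ, 0 < C ∧ 0 < κ ∧ 0 < r' ∧ r' < 1 ∧ T₁ ≤ T₂ ∧ T₂ < T ∧ ∀ t ∈ Ico T₂ T,
    ∀ x ∈ Cy c r' r', |circ (u t) x| ≤ C * sg x ^ κ

/-! ### Package M: the mass of `ω_θ / ρ` -/

/-- M. -/
def StmMass : Prop := ∀ (T E c R H K r h r1 h1 T₁ B σ : ℝ) (u : ℝ → V → V) (p : ℝ → V → ℝ)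
  (φ : V → ℝ), AxL T E c R H u p → 0 ≤ K → 0 < r1 → r1 < r → r < R → r ≤ 1 → 0 < h1 → h1 < h →
  h < H → h ≤ 1 → 0 < T₁ → T₁ < T → Cut c r h r1 h1 K φ →
  (∀ t ∈ Ico T₁ T, ∀ x ∈ Out c r h r1 h1, BdA K (u t) x) → (σ = 1 ∨ σ = -1) →
  (∀ t ∈ Ico T₁ T, ∫ x in Co c r h, max (-(σ * OO (u t) x)) 0 ≤ B) →
  (∀ t' ∈ Ico T₁ T, ∫ t in T₁..t', ∫ z in Ioo (c - h) (c + h),
    max (-(σ * OO (u t) ![0, 0, z])) 0 ≤ B) →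
    ∃ M : ℝ, 0 ≤ M ∧ ∀ t ∈ Ico T₁ T, ∫ x in Co c r h, |OO (u t) x| ≤ M

/-- Q (from P, L6). Morrey bound of the stream function from the bound of the mass. -/
def StmMor : Prop := ∀ K c r h r1 h1 M : ℝ, 0 ≤ K → 0 < r1 → r1 < r → r ≤ 1 → 0 < h1 → h1 < h →
  h ≤ 1 → 0 ≤ M → ∃ K' : ℝ, 0 ≤ K' ∧ ∀ (v : V → V) (φ : V → ℝ), ContDiff ℝ ∞ v → Axi v →
    DFO (Co c r h) v → Cut c r h r1 h1 K φ → (∀ x ∈ Out c r h r1 h1, BdA K v x) →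
    ∫ x in Co c r h, |OO v x| ≤ M → ∀ c' s : ℝ, 0 < s → Co c' s s ⊆ Cy c r1 h1 →
      ∫ x in Co c' s s, sg x ^ 3 * FF v x ^ 6 ≤ K' * s ^ 3

/-- C₀. Bound of the circulation. -/
def StmC0 : Prop := ∀ (T E c R H r h T₁ K : ℝ) (u : ℝ → V → V) (p : ℝ → V → ℝ),
  AxL T E c R H u p → 0 < r → r < R → 0 < h → h < H → 0 < T₁ → T₁ < T →
  (∀ t ∈ Ico T₁ T, ∀ x ∈ Cy c r h, (sg x = r ^ 2 ∨ |x 2 - c| = h) → |WW (u t) x| ≤ K) →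
  ∃ C₀ : ℝ, 0 ≤ C₀ ∧ ∀ t ∈ Ico T₁ T, ∀ x ∈ Cy c r h, |circ (u t) x| ≤ C₀

end Pool.Agent.D0H28.OV
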