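import Pool.Agent.D0H28.OV.D2
import Pool.Agent.Q119.AXI.SobA
import Pool.Agent.Q24.AXI.Cut

/-! Project OV (helper28), package E: Sobolev inequality, cut-off functions. -/

set_option autoImplicit false

open MeasureTheory Set Metric Filter Topology
open scoped ContDiff ENNReal NNReal
open H459R3.NS Pool.Agent.W268.NS

namespace Pool.Agent.D0H28.OV

open Pool.Agent.Q67.AXI Pool.Agent.TH305.AX Pool.Agent.TH305.DR Pool.Agent.Q85.CL
open Pool.Agent.W583.MD (sm_pd cs_pd int_cs)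
open Pool.Agent.Q257.AXI (sg_sm RR_mul RR_add sm_RR)
open Pool.Agent.Q175.AX (gr2_nn gr2_int gr2_cs sg_nn pd_comp_at)
open Pool.Agent.Q24.AXI (stp stp_smooth stp_nonneg stp_le_one stp_one stp_zero Cy_compact)

theorem t_S6 : StmS6 := by
  obtain ⟨C, hC0, hC⟩ := Pool.Agent.Q119.AXI.sob6'
  refine ⟨(C + 1) ^ 6, by positivity, fun g hg hs => ?_⟩
  have h1 := hC g (hg.of_le (by norm_num)) hs
  have hc : MemLp g 6 volume := hg.continuous.memLp_of_hasCompactSupport hs
  rw [hc.eLpNorm_eq_integral_rpow_norm (by norm_num) (by norm_num),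
    ENNReal.ofReal_le_ofReal_iff (by positivity)] at h1
  have e1 : ∫ x, ‖g x‖ ^ ((6 : ℝ≥0∞).toReal) = ∫ x, g x ^ 6 := by
    congr 1
    funext x
    have h6 : ((6 : ℝ≥0∞).toReal) = ((6 : ℕ) : ℝ) := by norm_num
    rw [h6, Real.rpow_natCast, Real.norm_eq_abs]
    exact (Even.pow_abs (by decide) (g x))
  rw [e1] at h1
  have h6' : ((6 : ℝ≥0∞).toReal)⁻¹ = (1 / 6 : ℝ) := by norm_num
  rw [h6'] at h1
  have hI : 0 ≤ ∫ x, g x ^ 6 := integral_nonneg fun x => by positivity
  have hG : 0 ≤ GD g := Pool.Agent.Q175.AX.GD_nn g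
  have e2 : (∫ x, ∑ j, pd j g x ^ 2) = GD g := rfl
  rw [e2] at h1
  have h2 : ((∫ x, g x ^ 6) ^ (1 / 6 : ℝ)) ^ 6 ≤ (C * √(GD g)) ^ 6 :=
    pow_le_pow_left₀ (by positivity) h1 6
  have e3 : ((∫ x, g x ^ 6) ^ (1 / 6 : ℝ)) ^ 6 = ∫ x, g x ^ 6 := by
    rw [← Real.rpow_natCast, ← Real.rpow_mul hI]
    norm_num
  have e4 : (C * √(GD g)) ^ 6 = C ^ 6 * GD g ^ 3 := by
    have : √(GD g) ^ 6 = GD g ^ 3 := by
      calc √(GD g) ^ 6 = (√(GD g) ^ 2) ^ 3 := by ring
        _ = GD g ^ 3 := by rw [Real.sq_sqrt hG]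
    rw [mul_pow, this]
  rw [e3, e4] at h2
  refine h2.trans ?_
  gcongr
  linarith

lemma st_bdd : ∃ C : ℝ, 0 ≤ C ∧ ∀ t : ℝ, |deriv Real.smoothTransition t| ≤ C := by
  have hs : ContDiff ℝ ∞ Real.smoothTransition := Real.smoothTransition.contDiff
  have hc : Continuous (deriv Real.smoothTransition) := (sm_deriv hs).continuous
  obtain ⟨C, hC⟩ := (isCompact_Icc (a := (-1 : ℝ)) (b := 2)).exists_bound_of_continuousOn
    hc.continuousOn
  refine ⟨max C 0, le_max_right _ _, fun t => ?_⟩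
  by_cases ht : t ∈ Icc (-1 : ℝ) 2
  · have := hC t ht
    rw [Real.norm_eq_abs] at this
    exact this.trans (le_max_left _ _)
  · have h0 : deriv Real.smoothTransition t = 0 := by
      rcases lt_or_ge t (-1) with h | h
      · have hev : Real.smoothTransition =ᶠ[𝓝 t] fun _ => 0 := by
          filter_upwards [Iio_mem_nhds h] with s hs'
          exact Real.smoothTransition.zero_of_nonpos (by
            have : s < -1 := hs'
            linarith)
        rw [hev.deriv_eq]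
        exact deriv_const t 0
      · have h2 : 2 < t := by
          by_contra h2
          exact ht ⟨h, not_lt.1 h2⟩
        have hev : Real.smoothTransition =ᶠ[𝓝 t] fun _ => 1 := by
          filter_upwards [Ioi_mem_nhds h2] with s hs'
          exact Real.smoothTransition.one_of_one_le (by
            have : 2 < s := hs'
            linarith)
        rw [hev.deriv_eq]
        exact deriv_const t 1
    rw [h0, abs_zero]
    exact le_max_right _ _

lemma stp_hd {a b : ℝ} (s : ℝ) : HasDerivAt (stp a b)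
    (deriv Real.smoothTransition ((b - s) / (b - a)) * (-1 / (b - a))) s := by
  have h1 : HasDerivAt (fun s : ℝ => (b - s) / (b - a)) (-1 / (b - a)) s :=
    ((hasDerivAt_id s).const_sub b).div_const (b - a)
  have hs : ContDiff ℝ ∞ Real.smoothTransition := Real.smoothTransition.contDiff
  have h2 : HasDerivAt Real.smoothTransition (deriv Real.smoothTransition ((b - s) / (b - a)))
      ((b - s) / (b - a)) := ((hs.differentiable (by norm_cast)) _).hasDerivAt
  exact h2.comp s h1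

/-- cut-off functions between two cylinders -/
lemma cutE : ∃ C : ℝ, 1 ≤ C ∧ ∀ r' r : ℝ, 1 / 2 ≤ r' → r' < r → r ≤ 3 / 4 → ∃ χ : V → ℝ,
    ContDiff ℝ ∞ χ ∧ HasCompactSupport χ ∧ tsupport χ ⊆ Cy 0 r r ∧ AxF χ ∧
    (∀ x, 0 ≤ χ x ∧ χ x ≤ 1) ∧ (∀ x ∈ Cy 0 r' r', χ x = 1) ∧
    (∀ x i, |pd i χ x| ≤ C / (r - r')) ∧ ∀ x, |RR χ x| ≤ (C / (r - r')) ^ 2 * sg x := by
  obtain ⟨A, hA0, hA⟩ := st_bdd
  refine ⟨4 * A + 1, by linarith, fun r' r h1 h2 h3 => ?_⟩
  have hd : 0 < r - r' := by linarith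
  have hab : r' ^ 2 < r ^ 2 := by nlinarith
  have hdd : r - r' ≤ r ^ 2 - r' ^ 2 := by nlinarith
  obtain ⟨χ, hχ⟩ : ∃ χ : V → ℝ, χ = fun x => stp (r' ^ 2) (r ^ 2) (sg x)
    * stp (r' ^ 2) (r ^ 2) (x 2 ^ 2) := ⟨_, rfl⟩
  obtain ⟨P, hP⟩ : ∃ P : V → ℝ, P = fun x => stp (r' ^ 2) (r ^ 2) (sg x) := ⟨_, rfl⟩
  obtain ⟨Q, hQ⟩ : ∃ Q : V → ℝ, Q = fun x => stp (r' ^ 2) (r ^ 2) (x 2 ^ 2) := ⟨_, rfl⟩
  have hχPQ : χ = fun x => P x * Q x := by rw [hχ, hP, hQ]
  have sP : ContDiff ℝ ∞ P := by rw [hP]; exact (stp_smooth _ _).comp sg_sm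
  have sz : ContDiff ℝ ∞ (fun x : V => x 2 ^ 2) := (sm_crd 2).pow 2
  have sQ : ContDiff ℝ ∞ Q := by rw [hQ]; exact (stp_smooth _ _).comp sz
  have sχ : ContDiff ℝ ∞ χ := by rw [hχPQ]; exact sP.mul sQ
  have hsub : Function.support χ ⊆ Cy 0 r r := by
    intro x hx
    rw [Function.mem_support, hχ] at hx
    constructor
    · by_contra hcon
      apply hx
      simp only
      rw [stp_zero hab (not_le.1 hcon).le, zero_mul]
    · by_contra hcon
      apply hx
      simp only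
      have h4 : r < |x 2 - 0| := not_le.1 hcon
      rw [sub_zero] at h4
      have h5 : r ^ 2 ≤ x 2 ^ 2 := by
        rw [← sq_abs (x 2)]
        exact pow_le_pow_left₀ (by linarith) h4.le 2
      rw [stp_zero hab h5, mul_zero]
  have hcl : IsClosed (Cy 0 r r) := (Cy_compact 0 r r).isClosed
  have hts : tsupport χ ⊆ Cy 0 r r := closure_minimal hsub hcl
  have hcs : HasCompactSupport χ := (Cy_compact 0 r r).of_isClosed_subset
    (isClosed_tsupport χ) hts
  have hP01 : ∀ x, 0 ≤ P x ∧ P x ≤ 1 := fun x => by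
    rw [hP]; exact ⟨stp_nonneg _ _ _, stp_le_one _ _ _⟩
  have hQ01 : ∀ x, 0 ≤ Q x ∧ Q x ≤ 1 := fun x => by
    rw [hQ]; exact ⟨stp_nonneg _ _ _, stp_le_one _ _ _⟩
  -- the derivatives
  have hD : ∀ s : ℝ, |deriv Real.smoothTransition ((r ^ 2 - s) / (r ^ 2 - r' ^ 2))
      * (-1 / (r ^ 2 - r' ^ 2))| ≤ A / (r - r') := by
    intro s
    rw [abs_mul, abs_div, abs_neg, abs_one, abs_of_pos (by linarith : 0 < r ^ 2 - r' ^ 2)]
    rw [mul_one_div]
    gcongr
    exact hA _
  have hD0 : ∀ s : ℝ, 1 < s → deriv Real.smoothTransition ((r ^ 2 - s) / (r ^ 2 - r' ^ 2))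
      * (-1 / (r ^ 2 - r' ^ 2)) = 0 := by
    intro s hs
    have h4 : (r ^ 2 - s) / (r ^ 2 - r' ^ 2) < 0 := by
      apply div_neg_of_neg_of_pos <;> nlinarith
    have hev : Real.smoothTransition =ᶠ[𝓝 ((r ^ 2 - s) / (r ^ 2 - r' ^ 2))] fun _ => 0 := by
      filter_upwards [Iio_mem_nhds h4] with s' hs'
      exact Real.smoothTransition.zero_of_nonpos (le_of_lt hs')
    rw [hev.deriv_eq, deriv_const, zero_mul]
  have hpP : ∀ (i : Fin 3) (x : V), pd i P x
      = deriv Real.smoothTransition ((r ^ 2 - sg x) / (r ^ 2 - r' ^ 2))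
        * (-1 / (r ^ 2 - r' ^ 2)) * pd i sg x := by
    intro i x
    rw [hP]
    exact pd_comp_at (stp_hd (sg x)) ((sg_sm.differentiable (by norm_cast)) _) i
  have hpQ : ∀ (i : Fin 3) (x : V), pd i Q x
      = deriv Real.smoothTransition ((r ^ 2 - x 2 ^ 2) / (r ^ 2 - r' ^ 2))
        * (-1 / (r ^ 2 - r' ^ 2)) * pd i (fun x : V => x 2 ^ 2) x := by
    intro i x
    rw [hQ]
    exact pd_comp_at (g := stp (r' ^ 2) (r ^ 2)) (f := fun x : V => x 2 ^ 2) (stp_hd (x 2 ^ 2))
      ((sz.differentiable (by norm_cast)) _) i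
  have hpz : ∀ (i : Fin 3) (x : V), pd i (fun x : V => x 2 ^ 2) x
      = if i = 2 then 2 * x 2 else 0 := by
    intro i x
    have e : (fun x : V => x 2 ^ 2) = fun x : V => x 2 * x 2 := by funext x; ring
    rw [e, pd_mulf (sm_crd 2) (sm_crd 2), pd_crd]
    simp only
    split_ifs with h4 h5 h5
    · ring
    · exact absurd h4.symm h5
    · exact absurd h5.symm h4
    · ring
  have bP : ∀ (i : Fin 3) (x : V), |pd i P x| ≤ 2 * A / (r - r') := by
    intro i x
    rw [hpP]
    by_cases hs : sg x ≤ 1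
    · have h4 : |pd i sg x| ≤ 2 := by
        rw [Pool.Agent.Q175.AX.pd_sg]
        split_ifs with h5
        · simp
        · rw [abs_mul, abs_of_pos (by norm_num : (0 : ℝ) < 2)]
          have h6 : |x i| ≤ 1 := by
            rw [abs_le_one_iff_mul_self_le_one]
            have h7 : x 0 ^ 2 + x 1 ^ 2 ≤ 1 := hs
            fin_cases i
            · show x 0 * x 0 ≤ 1
              nlinarith [sq_nonneg (x 1)]
            · show x 1 * x 1 ≤ 1
              nlinarith [sq_nonneg (x 0)]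
            · exact absurd rfl h5
          linarith
      rw [abs_mul]
      calc _ ≤ A / (r - r') * 2 := mul_le_mul (hD _) h4 (abs_nonneg _) (by positivity)
        _ = 2 * A / (r - r') := by ring
    · rw [hD0 _ (not_le.1 hs), zero_mul, abs_zero]
      positivity
  have bQ : ∀ (i : Fin 3) (x : V), |pd i Q x| ≤ 2 * A / (r - r') := by
    intro i x
    rw [hpQ, hpz]
    by_cases hs : x 2 ^ 2 ≤ 1
    · have h4 : |if i = 2 then 2 * x 2 else 0| ≤ 2 := by
        split_ifs with h5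
        · rw [abs_mul, abs_of_pos (by norm_num : (0 : ℝ) < 2)]
          have h6 : |x 2| ≤ 1 := by
            rw [abs_le_one_iff_mul_self_le_one]
            nlinarith
          linarith
        · simp
      rw [abs_mul]
      calc _ ≤ A / (r - r') * 2 := mul_le_mul (hD _) h4 (abs_nonneg _) (by positivity)
        _ = 2 * A / (r - r') := by ring
    · rw [hD0 _ (not_le.1 hs), zero_mul, abs_zero]
      positivity
  have hN1 : 1 ≤ (4 * A + 1) / (r - r') := by
    rw [le_div_iff₀ hd]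
    linarith
  refine ⟨χ, sχ, hcs, hts, ?_, ?_, ?_, ?_, ?_⟩
  · intro θ x
    have e1 : sg (rot θ x) = sg x := by
      unfold sg rot
      show (Real.cos θ * x 0 - Real.sin θ * x 1) ^ 2 + (Real.sin θ * x 0 + Real.cos θ * x 1) ^ 2 = _
      have := Real.sin_sq_add_cos_sq θ
      linear_combination (x 0 ^ 2 + x 1 ^ 2) * this
    rw [hχ]
    simp only
    rw [e1]
    rfl
  · intro x
    rw [hχPQ]
    exact ⟨mul_nonneg (hP01 x).1 (hQ01 x).1, mul_le_one₀ (hP01 x).2 (hQ01 x).1 (hQ01 x).2⟩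
  · intro x hx
    rw [hχ]
    simp only
    have h4 : x 2 ^ 2 ≤ r' ^ 2 := by
      have h5 : |x 2 - 0| ≤ r' := hx.2
      rw [sub_zero] at h5
      rw [← sq_abs (x 2)]
      exact pow_le_pow_left₀ (abs_nonneg _) h5 2
    rw [stp_one hab hx.1, stp_one hab h4, one_mul]
  · intro x i
    rw [hχPQ]
    have e : pd i (fun x => P x * Q x) x = P x * pd i Q x + pd i P x * Q x :=
      congrFun (pd_mulf sP sQ i) x
    rw [e]
    calc |P x * pd i Q x + pd i P x * Q x| ≤ |P x * pd i Q x| + |pd i P x * Q x| := abs_add_le _ _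
      _ ≤ 1 * (2 * A / (r - r')) + (2 * A / (r - r')) * 1 := by
          rw [abs_mul, abs_mul, abs_of_nonneg (hP01 x).1, abs_of_nonneg (hQ01 x).1]
          exact add_le_add (mul_le_mul (hP01 x).2 (bQ i x) (abs_nonneg _) zero_le_one)
            (mul_le_mul (bP i x) (hQ01 x).2 (hQ01 x).1 (by positivity))
      _ = 4 * A / (r - r') := by ring
      _ ≤ (4 * A + 1) / (r - r') := by gcongr; linarith
  · intro x
    have e : RR χ x = deriv Real.smoothTransition ((r ^ 2 - sg x) / (r ^ 2 - r' ^ 2))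
        * (-1 / (r ^ 2 - r' ^ 2)) * (2 * sg x) * Q x := by
      rw [hχPQ, RR_mul sP sQ]
      have e1 : RR Q x = 0 := by
        unfold RR
        rw [hpQ, hpQ, hpz, hpz]
        simp
      have e2 : RR P x = deriv Real.smoothTransition ((r ^ 2 - sg x) / (r ^ 2 - r' ^ 2))
        * (-1 / (r ^ 2 - r' ^ 2)) * (2 * sg x) := by
        have h5 := Pool.Agent.Q257.AXI.RR_sg x
        unfold RR at h5 ⊢
        rw [hpP, hpP]
        linear_combination (deriv Real.smoothTransition ((r ^ 2 - sg x) / (r ^ 2 - r' ^ 2))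
          * (-1 / (r ^ 2 - r' ^ 2))) * h5
      rw [e1, e2]
      ring
    rw [e, abs_mul, abs_mul, abs_of_nonneg (hQ01 x).1, abs_of_nonneg (by have := sg_nn x; linarith :
      0 ≤ 2 * sg x)]
    have h5 := sg_nn x
    calc |deriv Real.smoothTransition ((r ^ 2 - sg x) / (r ^ 2 - r' ^ 2))
        * (-1 / (r ^ 2 - r' ^ 2))| * (2 * sg x) * Q x
        ≤ A / (r - r') * (2 * sg x) * 1 := by
          refine mul_le_mul (mul_le_mul_of_nonneg_right (hD _) (by linarith)) (hQ01 x).2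
            (hQ01 x).1 (by positivity)
      _ = (2 * A / (r - r')) * sg x := by ring
      _ ≤ ((4 * A + 1) / (r - r')) ^ 2 * sg x := by
          refine mul_le_mul_of_nonneg_right ?_ h5
          calc 2 * A / (r - r') ≤ (4 * A + 1) / (r - r') := by gcongr; linarith
            _ ≤ ((4 * A + 1) / (r - r')) ^ 2 := by
                rw [sq]
                exact le_mul_of_one_le_left (by linarith) hN1

end Pool.Agent.D0H28.OV
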