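import Pool.Agent.D0H28.OV.E1
import Pool.Agent.W333.MD.PCONT

/-! Project OV (helper28), package E: one level of the iteration. -/

set_option autoImplicit false

open MeasureTheory Set Metric Filter Topology
open scoped ContDiff ENNReal NNReal
open H459R3.NS Pool.Agent.W268.NS

namespace Pool.Agent.D0H28.OV

open Pool.Agent.Q67.AXI Pool.Agent.TH305.AX Pool.Agent.TH305.DR Pool.Agent.Q85.CL
open Pool.Agent.W583.MD (sm_pd cs_pd int_cs slice)
open Pool.Agent.Q257.AXI (sg_sm RR_mul RR_add sm_RR)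
open Pool.Agent.Q175.AX (gr2_nn gr2_int gr2_cs sg_nn pd_comp_at GD_nn)

/-- continuity of the dissipation -/
lemma GD_cont {a b : ℝ} {g : ℝ → V → ℝ} {χ : V → ℝ}
    (hg : ContDiffOn ℝ ∞ (fun z : ℝ × V => g z.1 z.2) (Ioo a b ×ˢ univ)) (hχ : ContDiff ℝ ∞ χ)
    (hcs : HasCompactSupport χ) : ContinuousOn (fun t => GD (fun x => χ x * g t x)) (Ioo a b) := by
  obtain ⟨ρ, hρ⟩ := hcs.isCompact.isBounded.subset_closedBall (0 : V)
  have hρ1 : closedBall (0 : V) ρ ⊆ ball 0 (ρ + 1) := closedBall_subset_ball (by linarith)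
  have key : ContinuousOn (fun z : ℝ × V => gr2 (fun x => χ x * g z.1 x) z.2)
      (Ioo a b ×ˢ univ) := by
    have h1 : ContinuousOn (fun z : ℝ × V =>
        ∑ i, (χ z.2 * pd i (g z.1) z.2 + pd i χ z.2 * g z.1 z.2) ^ 2) (Ioo a b ×ˢ univ) := by
      apply continuousOn_finsetSum
      intro i _
      apply ContinuousOn.pow
      apply ContinuousOn.add
      · exact ((hχ.continuous.comp continuous_snd).continuousOn).mul
          (Pool.Agent.Q119.AXI.cont_pd hg i)
      · exact (((sm_pd hχ i).continuous.comp continuous_snd).continuousOn).mul hg.continuousOn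
    refine h1.congr fun z hz => ?_
    unfold gr2
    refine Finset.sum_congr rfl fun i _ => ?_
    rw [Pool.Agent.W583.MD.pd_mul' hχ (slice hg hz.1)]
  have h2 := Pool.Agent.W333.MD.t_PCONT a b (fun t x => gr2 (fun x => χ x * g t x) x) 0 (ρ + 1)
    key
  refine h2.congr fun t ht => ?_
  unfold GD
  refine (setIntegral_eq_integral_of_forall_compl_eq_zero fun x hx => ?_).symm
  have hx' : x ∉ tsupport χ := fun h => hx (hρ1 (hρ h))
  obtain ⟨h3, h4, -, -⟩ := off_supp hx'
  unfold gr2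
  refine Finset.sum_eq_zero fun i _ => ?_
  rw [Pool.Agent.W583.MD.pd_mul' hχ (slice hg ht), h3, h4 i]
  ring

lemma young3 {w z : ℝ} (hw : 0 ≤ w) (hz : 0 < z) : w ≤ z ^ 2 * w ^ 3 + 1 / z := by
  rcases le_total w (1 / z) with h | h
  · have : 0 ≤ z ^ 2 * w ^ 3 := by positivity
    linarith
  · have h1 : 1 ≤ z * w := by
      rw [div_le_iff₀ hz] at h
      linarith
    have h2 : 1 ≤ (z * w) ^ 2 := one_le_pow₀ h1
    have h3 : w ≤ (z * w) ^ 2 * w := le_mul_of_one_le_left hw h2
    have h4 : 0 < 1 / z := by positivity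
    calc w ≤ (z * w) ^ 2 * w := h3
      _ = z ^ 2 * w ^ 3 := by ring
      _ ≤ _ := by linarith

/-- One level of the iteration. -/
lemma level (hCD : StmCacD) (hS : StmS6) (hH : StmHh) : ∃ Λ CS : ℝ, 1 ≤ Λ ∧ 1 ≤ CS ∧
    ∀ (a b K : ℝ) (f F : ℝ → V → ℝ), Dr a b K f F → 0 ≤ K →
    ∀ (χ : V → ℝ) (N k m M T t₀ : ℝ) (v : ℝ → ℝ), ContDiff ℝ ∞ χ → HasCompactSupport χ →
    tsupport χ ⊆ Co 0 1 1 → AxF χ → (∀ x, 0 ≤ χ x ∧ χ x ≤ 1) → 1 ≤ N →
    (∀ x i, |pd i χ x| ≤ N) → (∀ x, |RR χ x| ≤ N ^ 2 * sg x) → 0 < k → k < 1 → 0 < m →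
    m * (1 - k) ≤ M → 1 ≤ M → a < T → T ≤ t₀ → t₀ < b → t₀ - T ≤ 1 →
    ContinuousOn v (Icc T t₀) →
    (∀ s ∈ Icc T t₀, (volume {x : V | x ∈ tsupport χ ∧ k < f s x}).toReal ≤ v s) →
    (∀ z : ℝ, 0 < z → z ≤ 1 → ∫ s in T..t₀, v s ≤ z ^ 3 → ∀ t ∈ Icc T t₀,
      (t - T) * (∫ x, (χ x * hh (m * (f t x - k))) ^ 2)
        + ∫ s in T..t, (s - T) * GD (fun x => χ x * hh (m * (f s x - k)))
        ≤ Λ * N ^ 2 * M ^ 2 * (K + 3) * z ^ 2) ∧
    (∀ s ∈ Icc T t₀, ∀ e : ℝ, 0 < e → v s ≤ e ^ 3 →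
      ∫ x, (χ x * hh (m * (f s x - k))) ^ 2
        ≤ CS * e ^ 2 * GD (fun x => χ x * hh (m * (f s x - k)))) ∧
    (∀ s ∈ Icc T t₀, ∫ x, (χ x * hh (m * (f s x - k))) ^ 2 ≤ M ^ 2 * v s) ∧
    ContinuousOn (fun s => ∫ x, (χ x * hh (m * (f s x - k))) ^ 2) (Ioo a b) ∧
    ContinuousOn (fun s => GD (fun x => χ x * hh (m * (f s x - k)))) (Ioo a b) := by
  obtain ⟨CD, hCD0, hCD⟩ := hCD
  obtain ⟨C6, hC60, hS⟩ := hS
  obtain ⟨hsm, hnn, hz0, hd1, hd2, hle, -, -⟩ := hH
  refine ⟨1 + CD, 1 + C6, by linarith, by linarith, ?_⟩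
  intro a b K f F hD hK χ N k m M T t₀ v hχ hχs hχO aχ hχ01 hN hχN hχR hk hk1 hm hM hM1 haT hTt
    htb hT1 hvc hv
  have hIcc : ∀ s ∈ Icc T t₀, s ∈ Ioo a b := fun s hs => ⟨haT.trans_le hs.1, hs.2.trans_lt htb⟩
  have hv0 : ∀ s ∈ Icc T t₀, 0 ≤ v s := fun s hs => ENNReal.toReal_nonneg.trans (hv s hs)
  obtain ⟨q, hq⟩ : ∃ q : ℝ → V → ℝ, q = fun s x => hh (m * (f s x - k)) := ⟨_, rfl⟩
  have sq : ContDiffOn ℝ ∞ (fun z : ℝ × V => q z.1 z.2) (Ioo a b ×ˢ univ) := by
    rw [hq]
    have h1 : ContDiff ℝ ∞ (fun s : ℝ => hh (m * (s - k))) :=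
      hsm.comp (contDiff_const.mul (contDiff_id.sub contDiff_const))
    exact h1.comp_contDiffOn hD.smf
  obtain ⟨Y, hY⟩ : ∃ Y : ℝ → ℝ, Y = fun s => ∫ x, (χ x * q s x) ^ 2 := ⟨_, rfl⟩
  obtain ⟨G, hG⟩ : ∃ G : ℝ → ℝ, G = fun s => GD (fun x => χ x * q s x) := ⟨_, rfl⟩
  have hYe : ∀ s, ∫ x, (χ x * hh (m * (f s x - k))) ^ 2 = Y s := fun s => by rw [hY, hq]
  have hGe : ∀ s, GD (fun x => χ x * hh (m * (f s x - k))) = G s := fun s => by rw [hG, hq]
  have hYf : (fun s => ∫ x, (χ x * hh (m * (f s x - k))) ^ 2) = Y := funext hYe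
  have hGc : ContinuousOn G (Ioo a b) := by
    rw [hG]
    exact GD_cont sq hχ hχs
  have hG0 : ∀ s, 0 ≤ G s := fun s => by rw [hG]; exact GD_nn _
  have hCaD := hCD a b K f F hD χ N k m M hχ hχs hχO aχ hχ01 hN hχN hχR hk hk1 hm hM
  have hYc : ContinuousOn Y (Ioo a b) := by
    intro s hs
    obtain ⟨D', h1, -⟩ := hCaD s hs
    rw [hYf] at h1
    exact h1.continuousAt.continuousWithinAt
  -- the sets
  have mS : ∀ s ∈ Ioo a b, MeasurableSet {x : V | x ∈ tsupport χ ∧ k < f s x} := fun s hs =>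
    (isClosed_tsupport χ).measurableSet.inter
      (measurableSet_lt measurable_const (slice hD.smf hs).continuous.measurable)
  have vS : ∀ s, volume {x : V | x ∈ tsupport χ ∧ k < f s x} < ⊤ := fun s =>
    (measure_mono (fun x hx => hx.1)).trans_lt hχs.isCompact.measure_lt_top
  have hqS : ∀ s ∈ Ioo a b, ∀ x, x ∉ {x : V | x ∈ tsupport χ ∧ k < f s x} → χ x * q s x = 0 := by
    intro s _ x hx
    by_cases h1 : x ∈ tsupport χ
    · have h2 : f s x ≤ k := by
        by_contra h2
        exact hx ⟨h1, not_le.1 h2⟩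
      rw [hq]
      simp only
      rw [hz0 _ (mul_nonpos_of_nonneg_of_nonpos hm.le (by linarith)), mul_zero]
    · rw [image_eq_zero_of_notMem_tsupport h1, zero_mul]
  have hq1 : ∀ s ∈ Ioo a b, ∀ x, 0 ≤ χ x * q s x ∧ χ x * q s x ≤ M := by
    intro s hs x
    have h0 : 0 ≤ q s x := by rw [hq]; exact hnn _
    have h1 : q s x ≤ M := by
      rw [hq]
      simp only
      rcases le_total (f s x) k with h | h
      · rw [hz0 _ (mul_nonpos_of_nonneg_of_nonpos hm.le (by linarith))]
        linarith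
      · have h2 := hle (m * (f s x - k)) (mul_nonneg hm.le (by linarith))
        have h3 : f s x ≤ 1 := (abs_le.1 (hD.bd s hs x)).2
        have h4 : m * (f s x - k) ≤ m * (1 - k) := by gcongr
        linarith
    refine ⟨mul_nonneg (hχ01 x).1 h0, ?_⟩
    calc χ x * q s x ≤ 1 * M := mul_le_mul (hχ01 x).2 h1 h0 zero_le_one
      _ = M := one_mul M
  have sχq : ∀ s ∈ Ioo a b, ContDiff ℝ ∞ (fun x => χ x * q s x) := fun s hs =>
    hχ.mul (slice sq hs)
  have cχq : ∀ s, HasCompactSupport (fun x => χ x * q s x) := fun s => hχs.mul_right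
  have i2 : ∀ s ∈ Ioo a b, Integrable (fun x => (χ x * q s x) ^ 2) := fun s hs => by
    refine int_cs ((sχq s hs).continuous.pow 2) ?_
    have e : (fun x => (χ x * q s x) ^ 2) = fun x => (χ x * q s x) * (χ x * q s x) := by
      funext x; ring
    rw [e]
    exact (cχq s).mul_right
  have i6 : ∀ s ∈ Ioo a b, Integrable (fun x => (χ x * q s x) ^ 6) := fun s hs => by
    refine int_cs ((sχq s hs).continuous.pow 6) ?_
    have e : (fun x => (χ x * q s x) ^ 6) = fun x => (χ x * q s x) * (χ x * q s x) ^ 5 := by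
      funext x; ring
    rw [e]
    exact (cχq s).mul_right
  -- comparison with the indicator
  have hInd : ∀ s ∈ Ioo a b, ∀ (w : V → ℝ) (c : ℝ), Integrable w → (∀ x, 0 ≤ w x) → 0 ≤ c →
      (∀ x ∈ {x : V | x ∈ tsupport χ ∧ k < f s x}, (χ x * q s x) ^ 2 ≤ w x + c) →
      Y s ≤ (∫ x, w x) + c * (volume {x : V | x ∈ tsupport χ ∧ k < f s x}).toReal := by
    intro s hs w c hw hw0 hc h
    have hi : Integrable ({x : V | x ∈ tsupport χ ∧ k < f s x}.indicator fun _ => c) :=
      (integrable_indicator_iff (mS s hs)).2 (integrableOn_const (vS s).ne)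
    have h1 : ∫ x, (χ x * q s x) ^ 2
        ≤ ∫ x, (w x + {x : V | x ∈ tsupport χ ∧ k < f s x}.indicator (fun _ => c) x) := by
      refine integral_mono (i2 s hs) (hw.add hi) fun x => ?_
      by_cases hx : x ∈ {x : V | x ∈ tsupport χ ∧ k < f s x}
      · simp only
        rw [indicator_of_mem hx]
        exact h x hx
      · simp only
        rw [indicator_of_notMem hx, hqS s hs x hx]
        have := hw0 x
        simpa using this
    rw [integral_add hw hi, integral_indicator (mS s hs), setIntegral_const, smul_eq_mul] at h1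
    rw [hY]
    simp only
    rw [Measure.real] at h1
    linarith
  have hL3 : ∀ s ∈ Icc T t₀, Y s ≤ M ^ 2 * v s := by
    intro s hs
    have h1 := hInd s (hIcc s hs) (fun _ => 0) (M ^ 2) (integrable_zero _ _ _) (fun _ => le_rfl)
      (sq_nonneg _) (fun x _ => by
        have h2 := hq1 s (hIcc s hs) x
        have := pow_le_pow_left₀ h2.1 h2.2 2
        linarith)
    rw [integral_zero, zero_add] at h1
    exact h1.trans (mul_le_mul_of_nonneg_left (hv s hs) (sq_nonneg _))
  refine ⟨?_, ?_, ?_, by rw [hYf]; exact hYc, ?_⟩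
  · -- the energy
    intro z hz hz1 hU t ht
    obtain ⟨B, hB⟩ : ∃ B : ℝ → ℝ, B = fun s => CD * N ^ 2 * M ^ 2 * (v s + (z ^ 2 * K + v s / z)) :=
      ⟨_, rfl⟩
    have hB0 : ∀ s ∈ Icc T t₀, 0 ≤ B s := by
      intro s hs
      rw [hB]
      have := hv0 s hs
      positivity
    have hBc : ContinuousOn B (Icc T t₀) := by
      rw [hB]
      exact continuousOn_const.mul (hvc.add (continuousOn_const.add (hvc.div_const z)))
    have hR : ∀ s ∈ Icc T t₀, ∃ D' : ℝ, HasDerivAt Y D' s ∧ D' ≤ -G s + B s := by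
      intro s hs
      obtain ⟨D', h1, h2⟩ := hCaD s (hIcc s hs)
      rw [hYf] at h1
      rw [hGe] at h2
      refine ⟨D', h1, h2.trans ?_⟩
      have hs' := hIcc s hs
      obtain ⟨S, hSe⟩ : ∃ S : Set V, S = {x : V | x ∈ tsupport χ ∧ k < f s x} := ⟨_, rfl⟩
      have mS' : MeasurableSet S := by rw [hSe]; exact mS s hs'
      have vS' : volume S < ⊤ := by rw [hSe]; exact vS s
      have hvS : (volume S).toReal ≤ v s := by rw [hSe]; exact hv s hs
      rw [← hSe]
      have sF : Continuous (F s) := (slice hD.smF hs').continuous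
      have hfun : Continuous (fun x : V => 1 + sg x * F s x ^ 2) :=
        continuous_const.add (sg_sm.continuous.mul (sF.pow 2))
      have hcub : Continuous (fun x : V => sg x ^ 3 * F s x ^ 6) :=
        (sg_sm.continuous.pow 3).mul (sF.pow 6)
      have hSs : S ⊆ tsupport χ := by rw [hSe]; exact fun x hx => hx.1
      have iS : IntegrableOn (fun x => 1 + sg x * F s x ^ 2) S :=
        (hfun.continuousOn.integrableOn_compact hχs).mono_set hSs
      have iC : IntegrableOn (fun x => sg x ^ 3 * F s x ^ 6) (Co 0 1 1) :=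
        (hcub.continuousOn.integrableOn_compact (Pool.Agent.Q24.AXI.Cy_compact 0 1 1)).mono_set
          (fun x hx => ⟨le_of_lt hx.1, le_of_lt hx.2⟩)
      have iCS : IntegrableOn (fun x => sg x ^ 3 * F s x ^ 6) S := iC.mono_set (hSs.trans hχO)
      have h3 : ∫ x in S, (1 + sg x * F s x ^ 2)
          ≤ ∫ x in S, (z ^ 2 * (sg x ^ 3 * F s x ^ 6) + (1 + 1 / z)) := by
        refine setIntegral_mono_on iS ((iCS.const_mul _).add (integrableOn_const vS'.ne)) mS'
          fun x _ => ?_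
        have h4 : 0 ≤ sg x * F s x ^ 2 := mul_nonneg (sg_nn x) (sq_nonneg _)
        have h5 := young3 h4 hz
        have h6 : (sg x * F s x ^ 2) ^ 3 = sg x ^ 3 * F s x ^ 6 := by ring
        rw [h6] at h5
        linarith
      have h4 : ∫ x in S, (z ^ 2 * (sg x ^ 3 * F s x ^ 6) + (1 + 1 / z))
          = z ^ 2 * (∫ x in S, sg x ^ 3 * F s x ^ 6) + (1 + 1 / z) * (volume S).toReal := by
        rw [integral_add (iCS.const_mul _) (integrableOn_const vS'.ne), integral_const_mul,
          setIntegral_const, smul_eq_mul, Measure.real]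
        ring
      have h5 : ∫ x in S, sg x ^ 3 * F s x ^ 6 ≤ K := by
        refine (setIntegral_mono_set iC ?_ ?_).trans (hD.mor s hs')
        · refine ae_of_all _ fun x => ?_
          have h6 := sg_nn x
          show 0 ≤ sg x ^ 3 * F s x ^ 6
          positivity
        · exact (hSs.trans hχO).eventuallyLE
      rw [h4] at h3
      have h6 : ∫ x in S, (1 + sg x * F s x ^ 2) ≤ v s + (z ^ 2 * K + v s / z) := by
        have h7 : z ^ 2 * (∫ x in S, sg x ^ 3 * F s x ^ 6) ≤ z ^ 2 * K :=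
          mul_le_mul_of_nonneg_left h5 (sq_nonneg z)
        have h8 : (1 + 1 / z) * (volume S).toReal ≤ (1 + 1 / z) * v s :=
          mul_le_mul_of_nonneg_left hvS (by positivity)
        have h9 : (1 + 1 / z) * v s = v s + v s / z := by ring
        linarith
      rw [hB]
      have h7 : CD * N ^ 2 * M ^ 2 * ∫ x in S, (1 + sg x * F s x ^ 2)
          ≤ CD * N ^ 2 * M ^ 2 * (v s + (z ^ 2 * K + v s / z)) :=
        mul_le_mul_of_nonneg_left h6 (by positivity)
      simp only
      linarith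
    -- the monotone function
    obtain ⟨W, hW⟩ : ∃ W : ℝ → ℝ, W = fun s => M ^ 2 * v s + B s := ⟨_, rfl⟩
    have hWc : ContinuousOn W (Icc T t₀) := by
      rw [hW]; exact (continuousOn_const.mul hvc).add hBc
    obtain ⟨g, hg⟩ : ∃ g : ℝ → ℝ, g = fun s => (s - T) * G s := ⟨_, rfl⟩
    have hgc : ContinuousOn g (Ioo a b) := by
      rw [hg]; exact (continuousOn_id.sub continuousOn_const).mul hGc
    have hgcI : ContinuousOn g (Icc T t₀) := hgc.mono hIcc
    obtain ⟨Φ, hΦ⟩ : ∃ Φ : ℝ → ℝ, Φ = fun t => (t - T) * Y t + (∫ s in T..t, g s)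
      - ∫ s in T..t, W s := ⟨_, rfl⟩
    have hder : ∀ s ∈ Ioo T t₀, HasDerivAt (fun t => ∫ s in T..t, g s) (g s) s ∧
        HasDerivAt (fun t => ∫ s in T..t, W s) (W s) s := by
      intro s hs
      have hsub : uIcc T s ⊆ Icc T t₀ := by
        rw [uIcc_of_le hs.1.le]
        exact Icc_subset_Icc_right hs.2.le
      have hn : Icc T t₀ ∈ 𝓝 s := Icc_mem_nhds hs.1 hs.2
      constructor
      · exact intervalIntegral.integral_hasDerivAt_right
          ((hgcI.mono hsub).intervalIntegrable)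
          (hgcI.stronglyMeasurableAtFilter_nhdsWithin measurableSet_Icc s |>.filter_mono (by
            rw [nhdsWithin_eq_nhds.2 hn])) (hgcI.continuousAt hn)
      · exact intervalIntegral.integral_hasDerivAt_right
          ((hWc.mono hsub).intervalIntegrable)
          (hWc.stronglyMeasurableAtFilter_nhdsWithin measurableSet_Icc s |>.filter_mono (by
            rw [nhdsWithin_eq_nhds.2 hn])) (hWc.continuousAt hn)
    have hΦc : ContinuousOn Φ (Icc T t₀) := by
      rw [hΦ]
      have h1 : ContinuousOn (fun t => ∫ s in T..t, g s) (Icc T t₀) := by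
        have := intervalIntegral.continuousOn_primitive_interval (μ := volume) (f := g)
          (a := T) (b := t₀) (by
            rw [uIcc_of_le hTt]
            exact hgcI.integrableOn_compact isCompact_Icc)
        rwa [uIcc_of_le hTt] at this
      have h2 : ContinuousOn (fun t => ∫ s in T..t, W s) (Icc T t₀) := by
        have := intervalIntegral.continuousOn_primitive_interval (μ := volume) (f := W)
          (a := T) (b := t₀) (by
            rw [uIcc_of_le hTt]
            exact hWc.integrableOn_compact isCompact_Icc)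
        rwa [uIcc_of_le hTt] at this
      exact (((continuousOn_id.sub continuousOn_const).mul (hYc.mono hIcc)).add h1).sub h2
    have hanti : AntitoneOn Φ (Icc T t₀) := by
      refine antitoneOn_of_deriv_nonpos (convex_Icc T t₀) hΦc ?_ ?_
      · intro s hs
        rw [interior_Icc] at hs
        obtain ⟨D', h1, -⟩ := hR s (Ioo_subset_Icc_self hs)
        have h2 := ((((hasDerivAt_id s).sub_const T).mul h1).add (hder s hs).1).sub (hder s hs).2
        rw [hΦ]
        exact h2.differentiableAt.differentiableWithinAt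
      · intro s hs
        rw [interior_Icc] at hs
        have hs' := Ioo_subset_Icc_self hs
        obtain ⟨D', h1, h3⟩ := hR s hs'
        have h2 := ((((hasDerivAt_id s).sub_const T).mul h1).add (hder s hs).1).sub (hder s hs).2
        have e : deriv Φ s = 1 * Y s + (id s - T) * D' + g s - W s := by
          rw [hΦ]
          exact h2.deriv
        rw [e, hg, hW]
        simp only [id, one_mul]
        have h4 := hL3 s hs'
        have h5 : 0 ≤ s - T := by linarith [hs.1]
        have h6 : s - T ≤ 1 := by linarith [hs.2]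
        have h7 := mul_le_mul_of_nonneg_left h3 h5
        have h8 : (s - T) * B s ≤ 1 * B s := mul_le_mul_of_nonneg_right h6 (hB0 s hs')
        nlinarith
    have h1 := hanti (left_mem_Icc.2 hTt) ht ht.1
    have h2 : Φ T = 0 := by
      rw [hΦ]
      simp
    rw [h2, hΦ] at h1
    simp only at h1
    have hint : ∫ s in T..t, W s ≤ ∫ s in T..t₀, W s := by
      refine intervalIntegral.integral_mono_interval le_rfl ht.1 ht.2 ?_ ?_
      · refine (ae_restrict_iff' measurableSet_Ioc).2 (ae_of_all _ fun s hs => ?_)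
        have hs' : s ∈ Icc T t₀ := ⟨hs.1.le, hs.2⟩
        rw [hW]
        have := hv0 s hs'
        have := hB0 s hs'
        simp only [Pi.zero_apply]
        positivity
      · refine ContinuousOn.intervalIntegrable ?_
        rw [uIcc_of_le hTt]
        exact hWc
    have hvi : IntervalIntegrable v volume T t₀ := by
      refine ContinuousOn.intervalIntegrable ?_
      rw [uIcc_of_le hTt]
      exact hvc
    have hWi : ∫ s in T..t₀, W s = (M ^ 2 + CD * N ^ 2 * M ^ 2 * (1 + 1 / z))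
        * (∫ s in T..t₀, v s) + CD * N ^ 2 * M ^ 2 * (z ^ 2 * K) * (t₀ - T) := by
      have e : W = fun s => (M ^ 2 + CD * N ^ 2 * M ^ 2 * (1 + 1 / z)) * v s
          + CD * N ^ 2 * M ^ 2 * (z ^ 2 * K) := by
        funext s
        rw [hW, hB]
        ring
      rw [e, intervalIntegral.integral_add (hvi.const_mul _) intervalIntegrable_const,
        intervalIntegral.integral_const_mul, intervalIntegral.integral_const, smul_eq_mul]
      ring
    have hf1 : (M ^ 2 + CD * N ^ 2 * M ^ 2 * (1 + 1 / z)) * (∫ s in T..t₀, v s)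
        ≤ (M ^ 2 + CD * N ^ 2 * M ^ 2 * (1 + 1 / z)) * z ^ 3 :=
      mul_le_mul_of_nonneg_left hU (by positivity)
    have hf2 : CD * N ^ 2 * M ^ 2 * (z ^ 2 * K) * (t₀ - T)
        ≤ CD * N ^ 2 * M ^ 2 * (z ^ 2 * K) * 1 :=
      mul_le_mul_of_nonneg_left hT1 (by positivity)
    have hf3 : (M ^ 2 + CD * N ^ 2 * M ^ 2 * (1 + 1 / z)) * z ^ 3
        = M ^ 2 * z ^ 3 + CD * N ^ 2 * M ^ 2 * (z ^ 3 + z ^ 2) := by
      field_simp
    have hz3 : z ^ 3 ≤ z ^ 2 := pow_le_pow_of_le_one hz.le hz1 (by norm_num)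
    have hN2 : 1 ≤ N ^ 2 := one_le_pow₀ hN
    have hf4 : M ^ 2 * z ^ 3 ≤ N ^ 2 * M ^ 2 * z ^ 2 := by
      calc M ^ 2 * z ^ 3 ≤ M ^ 2 * z ^ 2 := mul_le_mul_of_nonneg_left hz3 (sq_nonneg _)
        _ = 1 * (M ^ 2 * z ^ 2) := (one_mul _).symm
        _ ≤ N ^ 2 * (M ^ 2 * z ^ 2) := mul_le_mul_of_nonneg_right hN2 (by positivity)
        _ = _ := by ring
    have hf5 : CD * N ^ 2 * M ^ 2 * (z ^ 3 + z ^ 2) ≤ CD * N ^ 2 * M ^ 2 * (2 * z ^ 2) :=
      mul_le_mul_of_nonneg_left (by linarith) (by positivity)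
    rw [hYe]
    have hge : (∫ s in T..t, (s - T) * GD (fun x => χ x * hh (m * (f s x - k))))
        = ∫ s in T..t, g s := by
      rw [hg]
      refine intervalIntegral.integral_congr fun s _ => ?_
      rw [hGe]
    rw [hge]
    have hP : 0 ≤ N ^ 2 * M ^ 2 * z ^ 2 := by positivity
    have hPK : 0 ≤ N ^ 2 * M ^ 2 * z ^ 2 * K := by positivity
    have hPC : 0 ≤ CD * (N ^ 2 * M ^ 2 * z ^ 2) := by positivity
    calc (t - T) * Y t + ∫ s in T..t, g s ≤ ∫ s in T..t₀, W s := by linarith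
      _ ≤ N ^ 2 * M ^ 2 * z ^ 2 + CD * N ^ 2 * M ^ 2 * (2 * z ^ 2)
          + CD * N ^ 2 * M ^ 2 * (z ^ 2 * K) * 1 := by
          rw [hWi]
          linarith
      _ ≤ (1 + CD) * N ^ 2 * M ^ 2 * (K + 3) * z ^ 2 := by
          have : (1 + CD) * N ^ 2 * M ^ 2 * (K + 3) * z ^ 2
              = N ^ 2 * M ^ 2 * z ^ 2 * K + 3 * (N ^ 2 * M ^ 2 * z ^ 2)
                + CD * N ^ 2 * M ^ 2 * (z ^ 2 * K) * 1 + 3 * (CD * (N ^ 2 * M ^ 2 * z ^ 2)) := by
            ring
          rw [this]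
          have e2 : CD * N ^ 2 * M ^ 2 * (2 * z ^ 2) = 2 * (CD * (N ^ 2 * M ^ 2 * z ^ 2)) := by ring
          rw [e2]
          linarith
  · -- Sobolev
    intro s hs e he hve
    rw [hYe, hGe]
    have hs' := hIcc s hs
    have hS6 : ∫ x, (χ x * q s x) ^ 6 ≤ C6 * G s ^ 3 := by
      rw [hG]
      exact hS _ (sχq s hs') (cχq s)
    have key : ∀ G' : ℝ, G s < G' → Y s ≤ (1 + C6) * e ^ 2 * G' := by
      intro G' hG'
      have hG'0 : 0 < G' := (hG0 s).trans_lt hG'
      have hze : 0 < e / G' := by positivity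
      have h1 := hInd s hs' (fun x => (e / G') ^ 2 * (χ x * q s x) ^ 6) (1 / (e / G'))
        ((i6 s hs').const_mul _) (fun x => by positivity) (by positivity) (fun x _ => by
          have h2 := young3 (sq_nonneg (χ x * q s x)) hze
          have h3 : ((χ x * q s x) ^ 2) ^ 3 = (χ x * q s x) ^ 6 := by ring
          rw [h3] at h2
          exact h2)
      rw [integral_const_mul] at h1
      have h2 : (e / G') ^ 2 * ∫ x, (χ x * q s x) ^ 6 ≤ (e / G') ^ 2 * (C6 * G' ^ 3) := by
        refine mul_le_mul_of_nonneg_left (hS6.trans ?_) (by positivity)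
        have := hG0 s
        gcongr
      have h3 : (e / G') ^ 2 * (C6 * G' ^ 3) = C6 * e ^ 2 * G' := by
        field_simp
      have h4 : 1 / (e / G') * (volume {x : V | x ∈ tsupport χ ∧ k < f s x}).toReal
          ≤ 1 / (e / G') * e ^ 3 :=
        mul_le_mul_of_nonneg_left ((hv s hs).trans hve) (by positivity)
      have h5 : 1 / (e / G') * e ^ 3 = e ^ 2 * G' := by
        field_simp
      linarith
    by_contra hcon
    push Not at hcon
    obtain ⟨A, hA⟩ : ∃ A : ℝ, A = (1 + C6) * e ^ 2 := ⟨_, rfl⟩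
    have hA0 : 0 < A := by rw [hA]; positivity
    rw [← hA] at hcon key
    have h1 := key (G s + (Y s - A * G s) / (2 * A)) (by
      have : 0 < (Y s - A * G s) / (2 * A) := div_pos (by linarith) (by positivity)
      linarith)
    have h2 : A * (G s + (Y s - A * G s) / (2 * A)) = A * G s + (Y s - A * G s) / 2 := by
      field_simp
    linarith
  · intro s hs
    rw [hYe]
    exact hL3 s hs
  · have : (fun s => GD (fun x => χ x * hh (m * (f s x - k)))) = G := funext hGe
    rw [this]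
    exact hGc

end Pool.Agent.D0H28.OV
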