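import Pool.Agent.D0H28.OV.E2

/-! Project OV (helper28), package E: the first lemma of De Giorgi. -/

set_option autoImplicit false

open MeasureTheory Set Metric Filter Topology
open scoped ContDiff ENNReal NNReal
open H459R3.NS Pool.Agent.W268.NS

namespace Pool.Agent.D0H28.OV

open Pool.Agent.Q67.AXI Pool.Agent.TH305.AX Pool.Agent.TH305.DR Pool.Agent.Q85.CL
open Pool.Agent.W583.MD (sm_pd cs_pd int_cs slice)
open Pool.Agent.Q257.AXI (sg_sm)
open Pool.Agent.Q175.AX (sg_nn GD_nn)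

lemma pw_half (j : ℕ) : (1 / 2 : ℝ) ^ (j + 1) = (1 / 2) ^ j / 2 := by rw [pow_succ]; ring

lemma pw_mul (j : ℕ) : (2 : ℝ) ^ j * (1 / 2) ^ j = 1 := by rw [← mul_pow]; norm_num

theorem t_DG (hCD : StmCacD) (hS : StmS6) (hH : StmHh) : StmDG := by
  obtain ⟨Λ, CS, hΛ, hCS, hlev⟩ := level hCD hS hH
  obtain ⟨Cc, hCc, hcut⟩ := cutE
  obtain ⟨hsm, hnn, hz0, hd1, hd2, hle, hge1, hh1⟩ := hH
  intro K hK
  -- constants
  obtain ⟨H, hHd⟩ : ∃ H : ℝ, H = (hh 1 ^ 2)⁻¹ := ⟨_, rfl⟩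
  have h11 : hh 1 ≤ 1 := hle 1 zero_le_one
  have hH1 : 1 ≤ H := by
    rw [hHd]
    exact (one_le_inv₀ (by positivity)).2 (pow_le_one₀ hh1.le h11)
  have hHh : H * hh 1 ^ 2 = 1 := by
    rw [hHd]
    exact inv_mul_cancel₀ (by positivity)
  obtain ⟨Q, hQ⟩ : ∃ Q : ℝ, Q = Λ * Cc ^ 2 * (K + 3) := ⟨_, rfl⟩
  have hQ1 : 1 ≤ Q := by
    rw [hQ]
    have h1 : 1 ≤ Cc ^ 2 := one_le_pow₀ hCc
    have h2 : 1 ≤ K + 3 := by linarith
    have h3 : 1 ≤ Λ * Cc ^ 2 := one_le_mul_of_one_le_of_one_le hΛ h1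
    exact one_le_mul_of_one_le_of_one_le h3 h2
  obtain ⟨D, hD⟩ : ∃ D : ℝ, D = CS * Q ^ 3 * H ^ 8 * 2 ^ 62 := ⟨_, rfl⟩
  have hD1 : 8 * H ≤ D := by
    rw [hD]
    have h1 : 1 ≤ CS * Q ^ 3 := one_le_mul_of_one_le_of_one_le hCS (one_le_pow₀ hQ1)
    have h2 : H ≤ H ^ 8 := le_self_pow₀ hH1 (by norm_num)
    have h3 : H ≤ CS * Q ^ 3 * H ^ 8 := by
      calc H ≤ H ^ 8 := h2
        _ = 1 * H ^ 8 := (one_mul _).symm
        _ ≤ _ := mul_le_mul_of_nonneg_right h1 (by positivity)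
    have h4 : (8 : ℝ) ≤ 2 ^ 62 := by norm_num
    calc 8 * H = H * 8 := by ring
      _ ≤ CS * Q ^ 3 * H ^ 8 * 2 ^ 62 := mul_le_mul h3 h4 (by norm_num) (by positivity)
  have hD0 : 0 < D := by linarith
  obtain ⟨μ, hμ⟩ : ∃ μ : ℝ, μ = (4 ^ 17)⁻¹ := ⟨_, rfl⟩
  have hμ0 : 0 < μ := by rw [hμ]; positivity
  have hμ1 : μ < 1 := by rw [hμ]; norm_num
  obtain ⟨w, hw⟩ : ∃ w : ℝ, w = μ ^ 9 / D := ⟨_, rfl⟩
  have hw0 : 0 < w := by rw [hw]; positivity
  have hwD : D * w = μ ^ 9 := by rw [hw]; field_simp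
  have hw8 : 8 * H * w ≤ 1 := by
    calc 8 * H * w ≤ D * w := mul_le_mul_of_nonneg_right hD1 hw0.le
      _ = μ ^ 9 := hwD
      _ ≤ 1 := pow_le_one₀ hμ0.le hμ1.le
  have hw1 : w ≤ 1 := by nlinarith
  refine ⟨w ^ 9 / 16, by positivity, ?_⟩
  intro a b t₀ ε f F hDr ha hb hε hε2 hvol
  -- the levels
  obtain ⟨r, hr⟩ : ∃ r : ℕ → ℝ, r = fun j => 1 / 2 + (1 / 2) ^ j / 4 := ⟨_, rfl⟩
  obtain ⟨T, hT⟩ : ∃ T : ℕ → ℝ, T = fun j => t₀ - 1 / 2 - (1 / 2) ^ j / 2 := ⟨_, rfl⟩
  obtain ⟨k, hk⟩ : ∃ k : ℕ → ℝ, k = fun j => 1 - ε + ε / 2 * (1 - (1 / 2) ^ j) := ⟨_, rfl⟩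
  obtain ⟨m, hm⟩ : ∃ m : ℕ → ℝ, m = fun j => 4 * 2 ^ j / ε := ⟨_, rfl⟩
  have hp0 : ∀ j : ℕ, (0 : ℝ) < (1 / 2) ^ j := fun j => by positivity
  have hp1 : ∀ j : ℕ, ((1 : ℝ) / 2) ^ j ≤ 1 := fun j => pow_le_one₀ (by norm_num) (by norm_num)
  have hrr : ∀ j, 1 / 2 < r j ∧ r j ≤ 3 / 4 := fun j => by
    rw [hr]
    constructor
    · linarith [hp0 j]
    · have := hp1 j
      show (1 : ℝ) / 2 + (1 / 2) ^ j / 4 ≤ 3 / 4
      linarith
  have hrd : ∀ j, r j - r (j + 1) = (1 / 2) ^ j / 8 := fun j => by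
    rw [hr]
    simp only
    rw [pw_half]
    ring
  have hTd : ∀ j, T (j + 1) - T j = (1 / 2) ^ j / 4 := fun j => by
    rw [hT]
    simp only
    rw [pw_half]
    ring
  have hTm : ∀ j, T j < T (j + 1) := fun j => by linarith [hTd j, hp0 j]
  have hTa : ∀ j, a < T j := fun j => by
    rw [hT]
    have := hp1 j
    show a < t₀ - 1 / 2 - (1 / 2) ^ j / 2
    linarith
  have hTt : ∀ j, T j ≤ t₀ - 1 / 2 := fun j => by
    rw [hT]
    have := hp0 j
    show t₀ - 1 / 2 - (1 / 2) ^ j / 2 ≤ t₀ - 1 / 2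
    linarith
  have hT1 : ∀ j, t₀ - T j ≤ 1 := fun j => by
    rw [hT]
    have := hp1 j
    show t₀ - (t₀ - 1 / 2 - (1 / 2) ^ j / 2) ≤ 1
    linarith
  have hk0 : ∀ j, 0 < k j ∧ k j < 1 ∧ m j * (1 - k j) ≤ 4 * 2 ^ j := fun j => by
    rw [hk, hm]
    have h1 := hp1 j
    have h2 := hp0 j
    simp only
    refine ⟨by nlinarith, by nlinarith, ?_⟩
    have e : 4 * 2 ^ j / ε * (1 - (1 - ε + ε / 2 * (1 - (1 / 2) ^ j)))
        = 4 * 2 ^ j * (1 - (1 - (1 / 2) ^ j) / 2) := by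
      field_simp
      ring
    rw [e]
    have h3 : (1 : ℝ) - (1 - (1 / 2) ^ j) / 2 ≤ 1 := by linarith
    calc (4 : ℝ) * 2 ^ j * (1 - (1 - (1 / 2) ^ j) / 2) ≤ 4 * 2 ^ j * 1 :=
          mul_le_mul_of_nonneg_left h3 (by positivity)
      _ = 4 * 2 ^ j := mul_one _
  have hm0 : ∀ j, 0 < m j := fun j => by rw [hm]; positivity
  have hkd : ∀ j, m j * (k (j + 1) - k j) = 1 := fun j => by
    rw [hk, hm]
    simp only
    rw [pw_half]
    have h1 := pw_mul j
    have e : 4 * 2 ^ j / ε * (1 - ε + ε / 2 * (1 - (1 / 2) ^ j / 2)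
        - (1 - ε + ε / 2 * (1 - (1 / 2) ^ j))) = 2 ^ j * (1 / 2) ^ j := by
      field_simp
      ring
    rw [e, h1]
  -- the cut-off functions
  have hch : ∀ j, ∃ χ : V → ℝ, ContDiff ℝ ∞ χ ∧ HasCompactSupport χ ∧
      tsupport χ ⊆ Cy 0 (r j) (r j) ∧ AxF χ ∧ (∀ x, 0 ≤ χ x ∧ χ x ≤ 1) ∧
      (∀ x ∈ Cy 0 (r (j + 1)) (r (j + 1)), χ x = 1) ∧
      (∀ x i, |pd i χ x| ≤ Cc * 8 * 2 ^ j) ∧ ∀ x, |RR χ x| ≤ (Cc * 8 * 2 ^ j) ^ 2 * sg x := by
    intro j
    obtain ⟨χ, h1, h2, h3, h4, h5, h6, h7, h8⟩ := hcut (r (j + 1)) (r j) (hrr (j + 1)).1.le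
      (by linarith [hrd j, hp0 j]) (hrr j).2
    have e : Cc / (r j - r (j + 1)) = Cc * 8 * 2 ^ j := by
      rw [hrd]
      have h9 := pw_mul j
      have h10 := hp0 j
      rw [div_eq_iff (by positivity)]
      linear_combination (-Cc) * h9
    rw [e] at h7 h8
    exact ⟨χ, h1, h2, h3, h4, h5, h6, h7, h8⟩
  choose χ sχ cχ tχ aχ bχ oχ dχ Rχ using hch
  have hχO : ∀ j, tsupport (χ j) ⊆ Co 0 1 1 := fun j x hx => by
    have h1 := tχ j hx
    have h2 := hrr j
    refine ⟨h1.1.trans_lt ?_, h1.2.trans_lt ?_⟩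
    · nlinarith
    · linarith
  obtain ⟨Y, hY⟩ : ∃ Y : ℕ → ℝ → ℝ, Y = fun j s => ∫ x, (χ j x * hh (m j * (f s x - k j))) ^ 2 :=
    ⟨_, rfl⟩
  obtain ⟨G, hG⟩ : ∃ G : ℕ → ℝ → ℝ, G = fun j s => GD (fun x => χ j x * hh (m j * (f s x - k j))) :=
    ⟨_, rfl⟩
  have hIcc : ∀ j, ∀ s ∈ Icc (T j) t₀, s ∈ Ioo a b := fun j s hs =>
    ⟨(hTa j).trans_le hs.1, hs.2.trans_lt hb⟩
  have h2p : ∀ j : ℕ, (1 : ℝ) ≤ 2 ^ j := fun j => one_le_pow₀ (by norm_num)
  -- the general statement for the level `j`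
  have hL := fun (j : ℕ) (v : ℝ → ℝ) (h1 : ContinuousOn v (Icc (T j) t₀)) (h2 : ∀ s ∈ Icc (T j) t₀,
      (volume {x : V | x ∈ tsupport (χ j) ∧ k j < f s x}).toReal ≤ v s) =>
    hlev a b K f F hDr hK (χ j) (Cc * 8 * 2 ^ j) (k j) (m j) (4 * 2 ^ j) (T j) t₀ v (sχ j) (cχ j)
      (hχO j) (aχ j) (bχ j) (by nlinarith [h2p j]) (dχ j) (Rχ j) (hk0 j).1 (hk0 j).2.1 (hm0 j)
      (hk0 j).2.2 (by linarith [h2p j]) (hTa j) (by linarith [hTt j]) hb (hT1 j) h1 h2
  have i2 : ∀ j, ∀ s ∈ Ioo a b, Integrable (fun x => (χ j x * hh (m j * (f s x - k j))) ^ 2) := by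
    intro j s hs
    have h1 : Continuous (fun x => χ j x * hh (m j * (f s x - k j))) :=
      (sχ j).continuous.mul (hsm.continuous.comp (continuous_const.mul
        ((slice hDr.smf hs).continuous.sub continuous_const)))
    refine int_cs (h1.pow 2) ?_
    have e : (fun x => (χ j x * hh (m j * (f s x - k j))) ^ 2)
        = fun x => χ j x * (hh (m j * (f s x - k j)) * (χ j x * hh (m j * (f s x - k j)))) := by
      funext x; ring
    rw [e]
    exact (cχ j).mul_right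
  -- Chebyshev
  have hCh : ∀ j, ∀ s ∈ Ioo a b,
      (volume {x : V | x ∈ tsupport (χ (j + 1)) ∧ k (j + 1) < f s x}).toReal ≤ H * Y j s := by
    intro j s hs
    obtain ⟨S, hSe⟩ : ∃ S : Set V, S = {x : V | x ∈ tsupport (χ (j + 1)) ∧ k (j + 1) < f s x} :=
      ⟨_, rfl⟩
    rw [← hSe]
    have mS : MeasurableSet S := by
      rw [hSe]
      exact (isClosed_tsupport _).measurableSet.inter
        (measurableSet_lt measurable_const (slice hDr.smf hs).continuous.measurable)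
    have vS : volume S < ⊤ := by
      rw [hSe]
      exact (measure_mono (fun x hx => hx.1)).trans_lt (cχ (j + 1)).isCompact.measure_lt_top
    have h1 : ∫ x, S.indicator (fun _ => hh 1 ^ 2) x
        ≤ ∫ x, (χ j x * hh (m j * (f s x - k j))) ^ 2 := by
      refine integral_mono ((integrable_indicator_iff mS).2 (integrableOn_const vS.ne))
        (i2 j s hs) fun x => ?_
      by_cases hx : x ∈ S
      · rw [indicator_of_mem hx]
        rw [hSe] at hx
        have h2 : χ j x = 1 := oχ j x (tχ (j + 1) hx.1)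
        have h3 : 1 ≤ m j * (f s x - k j) := by
          rw [← hkd j]
          exact mul_le_mul_of_nonneg_left (by linarith [hx.2]) (hm0 j).le
        have h4 := hge1 _ h3
        simp only
        rw [h2, one_mul]
        exact pow_le_pow_left₀ hh1.le h4 2
      · rw [indicator_of_notMem hx]
        positivity
    rw [integral_indicator mS, setIntegral_const, smul_eq_mul, Measure.real] at h1
    have h2 : (volume S).toReal = H * ((volume S).toReal * hh 1 ^ 2) := by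
      linear_combination (-(volume S).toReal) * hHh
    rw [h2, hY]
    exact mul_le_mul_of_nonneg_left h1 (by linarith)
  have hYc : ∀ j, ContinuousOn (Y j) (Ioo a b) ∧ ContinuousOn (G j) (Ioo a b) := by
    intro j
    have h1 := hL j (fun _ => (volume (tsupport (χ j))).toReal) continuousOn_const (fun s _ =>
      ENNReal.toReal_mono (cχ j).isCompact.measure_lt_top.ne (measure_mono fun x hx => hx.1))
    rw [hY, hG]
    exact ⟨h1.2.2.2.1, h1.2.2.2.2⟩
  have hY0 : ∀ j s, 0 ≤ Y j s := fun j s => by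
    rw [hY]; exact integral_nonneg fun x => sq_nonneg _
  have hG0 : ∀ j s, 0 ≤ G j s := fun j s => by rw [hG]; exact GD_nn _
  -- integrability on intervals
  have iY : ∀ j i, IntervalIntegrable (Y j) volume (T i) t₀ := fun j i => by
    refine ContinuousOn.intervalIntegrable ?_
    rw [uIcc_of_le (by linarith [hTt i])]
    exact (hYc j).1.mono (hIcc i)
  have iG : ∀ j i, IntervalIntegrable (G j) volume (T i) t₀ := fun j i => by
    refine ContinuousOn.intervalIntegrable ?_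
    rw [uIcc_of_le (by linarith [hTt i])]
    exact (hYc j).2.mono (hIcc i)
  have hmonoI : ∀ (g : ℝ → ℝ) (i : ℕ), (∀ s ∈ Ioo a b, 0 ≤ g s) → ContinuousOn g (Ioo a b) →
      ∫ s in (T (i + 1))..t₀, g s ≤ ∫ s in (T i)..t₀, g s := by
    intro g i hg0 hgc
    refine intervalIntegral.integral_mono_interval (hTm i).le (by linarith [hTt (i + 1)]) le_rfl
      ?_ ?_
    · refine (ae_restrict_iff' measurableSet_Ioc).2 (ae_of_all _ fun s hs => ?_)
      exact hg0 s (hIcc i s ⟨hs.1.le, hs.2⟩)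
    · refine ContinuousOn.intervalIntegrable ?_
      rw [uIcc_of_le (by linarith [hTt i])]
      exact hgc.mono (hIcc i)
  -- the induction
  have main : ∀ i : ℕ, ∫ s in (T (2 * i + 1))..t₀, Y (2 * i) s ≤ (w * μ ^ i) ^ 9 := by
    intro i
    induction i with
    | zero =>
      have h1 := hL 0 (fun _ => w ^ 9 / 16) continuousOn_const (fun s hs => by
        have hs' : s ∈ Icc (t₀ - 1) t₀ := by
          have : T 0 = t₀ - 1 := by rw [hT]; simp only [pow_zero]; ring
          rw [← this]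
          exact hs
        refine le_trans (ENNReal.toReal_mono ?_ (measure_mono ?_)) (hvol s hs')
        · exact ((measure_mono (fun x hx => hx.1)).trans_lt
            (Pool.Agent.Q24.AXI.Cy_compact 0 (3 / 4) (3 / 4)).measure_lt_top).ne
        · intro x hx
          have h2 := tχ 0 hx.1
          have hr0 : r 0 = 3 / 4 := by rw [hr]; simp only [pow_zero]; norm_num
          rw [hr0] at h2
          have hk00 : k 0 = 1 - ε := by rw [hk]; simp only [pow_zero]; ring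
          refine ⟨h2, ?_⟩
          rw [← hk00]
          exact hx.2)
      have h2 : ∀ s ∈ Icc (T 0) t₀, Y 0 s ≤ w ^ 9 := by
        intro s hs
        have h3 := h1.2.2.1 s hs
        rw [hY]
        refine h3.trans (le_of_eq ?_)
        norm_num
        ring
      have h3 : ∫ s in (T 1)..t₀, Y 0 s ≤ ∫ s in (T 1)..t₀, w ^ 9 := by
        refine intervalIntegral.integral_mono_on (by linarith [hTt 1]) (iY 0 1)
          intervalIntegrable_const fun s hs => h2 s ⟨(hTm 0).le.trans hs.1, hs.2⟩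
      rw [intervalIntegral.integral_const, smul_eq_mul] at h3
      have h4 : (t₀ - T 1) * w ^ 9 ≤ 1 * w ^ 9 :=
        mul_le_mul_of_nonneg_right (hT1 1) (by positivity)
      show ∫ s in (T 1)..t₀, Y 0 s ≤ _
      rw [pow_zero, mul_one]
      linarith
    | succ i ih =>
      obtain ⟨j, hj⟩ : ∃ j : ℕ, j = 2 * i := ⟨_, rfl⟩
      obtain ⟨p, hp⟩ : ∃ p : ℝ, p = 2 ^ j := ⟨_, rfl⟩
      obtain ⟨ϖ, hϖ⟩ : ∃ ϖ : ℝ, ϖ = w * μ ^ i := ⟨_, rfl⟩
      have hp1' : 1 ≤ p := by rw [hp]; exact h2p j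
      have hϖ0 : 0 < ϖ := by rw [hϖ]; positivity
      have hpμ : p ^ 17 * μ ^ i = 1 := by
        rw [hp, hj, hμ, ← pow_mul, inv_pow, ← pow_mul]
        have e1 : (4 : ℝ) = 2 ^ 2 := by norm_num
        rw [e1, ← pow_mul]
        have e2 : 2 * i * 17 = 2 * (17 * i) := by ring
        rw [e2]
        exact mul_inv_cancel₀ (by positivity)
      have hpϖ : p ^ 17 * ϖ = w := by
        rw [hϖ]
        calc p ^ 17 * (w * μ ^ i) = w * (p ^ 17 * μ ^ i) := by ring
          _ = w := by rw [hpμ, mul_one]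
      have hϖw : ϖ ≤ w := by
        rw [← hpϖ]
        exact le_mul_of_one_le_left hϖ0.le (one_le_pow₀ hp1')
      have hϖ1 : ϖ ≤ 1 := hϖw.trans hw1
      have hpϖ1 : 8 * H * (p * ϖ) ≤ 1 := by
        have h1 : p * ϖ ≤ p ^ 17 * ϖ :=
          mul_le_mul_of_nonneg_right (le_self_pow₀ hp1' (by norm_num)) hϖ0.le
        rw [hpϖ] at h1
        calc 8 * H * (p * ϖ) ≤ 8 * H * w := mul_le_mul_of_nonneg_left h1 (by linarith)
          _ ≤ 1 := hw8
      rw [← hj, ← hϖ] at ih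
      have hdivT : ∀ n : ℕ, (T (j + n + 1) - T (j + n)) * (4 * (2 ^ n * p)) = 1 := by
        intro n
        rw [hTd, hp, pow_add]
        have h1 := pw_mul j
        have h2 := pw_mul n
        linear_combination ((2 : ℝ) ^ n * (1 / 2) ^ n) * h1 + h2
      -- level `j + 1`
      have l1 := hL (j + 1) (fun s => H * Y j s)
        (continuousOn_const.mul ((hYc j).1.mono (hIcc (j + 1))))
        (fun s hs => hCh j s (hIcc (j + 1) s hs))
      obtain ⟨z, hz⟩ : ∃ z : ℝ, z = H * ϖ ^ 3 := ⟨_, rfl⟩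
      have hz0' : 0 < z := by rw [hz]; positivity
      have hϖ3 : ϖ ^ 3 ≤ ϖ := by
        calc ϖ ^ 3 ≤ ϖ ^ 1 := pow_le_pow_of_le_one hϖ0.le hϖ1 (by norm_num)
          _ = ϖ := pow_one _
      have hHϖ : H * ϖ ≤ 1 := by
        have : ϖ ≤ p * ϖ := le_mul_of_one_le_left hϖ0.le hp1'
        nlinarith
      have hz1 : z ≤ 1 := by
        rw [hz]
        exact (mul_le_mul_of_nonneg_left hϖ3 (by linarith)).trans hHϖ
      have hH3 : H ≤ H ^ 3 := le_self_pow₀ hH1 (by norm_num)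
      have hint1 : ∫ s in (T (j + 1))..t₀, H * Y j s ≤ z ^ 3 := by
        rw [intervalIntegral.integral_const_mul, hz]
        calc H * ∫ s in (T (j + 1))..t₀, Y j s ≤ H * ϖ ^ 9 :=
              mul_le_mul_of_nonneg_left ih (by linarith)
          _ ≤ H ^ 3 * ϖ ^ 9 := mul_le_mul_of_nonneg_right hH3 (by positivity)
          _ = (H * ϖ ^ 3) ^ 3 := by ring
      have hE1 := l1.1 z hz0' hz1 hint1
      have hQ1' : Λ * (Cc * 8 * 2 ^ (j + 1)) ^ 2 * (4 * 2 ^ (j + 1)) ^ 2 * (K + 3)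
          = Q * 2 ^ 14 * p ^ 4 := by
        rw [hQ, hp, pow_succ]
        ring
      rw [hQ1'] at hE1
      have hYj1 : ∀ t ∈ Icc (T (j + 2)) t₀, Y (j + 1) t ≤ Q * 2 ^ 17 * p ^ 5 * H ^ 2 * ϖ ^ 6 := by
        intro t ht
        have ht' : t ∈ Icc (T (j + 1)) t₀ := ⟨(hTm (j + 1)).le.trans ht.1, ht.2⟩
        have h1 := hE1 t ht'
        have h2 : 0 ≤ ∫ s in (T (j + 1))..t, (s - T (j + 1))
            * GD (fun x => χ (j + 1) x * hh (m (j + 1) * (f s x - k (j + 1)))) := by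
          refine intervalIntegral.integral_nonneg ht'.1 fun s hs => ?_
          exact mul_nonneg (by linarith [hs.1]) (GD_nn _)
        have h3 : (t - T (j + 1)) * Y (j + 1) t ≤ Q * 2 ^ 14 * p ^ 4 * z ^ 2 := by
          rw [hY]
          linarith
        have h4 := hdivT 1
        have h5 : (T (j + 2) - T (j + 1)) * Y (j + 1) t ≤ (t - T (j + 1)) * Y (j + 1) t :=
          mul_le_mul_of_nonneg_right (by linarith [ht.1]) (hY0 _ _)
        have h6 : T (j + 1 + 1) = T (j + 2) := rfl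
        rw [h6] at h4
        calc Y (j + 1) t = ((T (j + 2) - T (j + 1)) * Y (j + 1) t) * (4 * (2 ^ 1 * p)) := by
              linear_combination (-(Y (j + 1) t)) * h4
          _ ≤ (Q * 2 ^ 14 * p ^ 4 * z ^ 2) * (4 * (2 ^ 1 * p)) :=
              mul_le_mul_of_nonneg_right (h5.trans h3) (by positivity)
          _ = _ := by rw [hz]; ring
      have hYY : ∀ s ∈ Icc (T (j + 1)) t₀, Y (j + 1) s ≤ 64 * p ^ 2 * (H * Y j s) := by
        intro s hs
        have h1 := l1.2.2.1 s hs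
        rw [hY] at h1 ⊢
        refine h1.trans (le_of_eq ?_)
        rw [hp, pow_succ]
        ring
      -- level `j + 2`
      have l2 := hL (j + 2) (fun s => H * Y (j + 1) s)
        (continuousOn_const.mul ((hYc (j + 1)).1.mono (hIcc (j + 2))))
        (fun s hs => hCh (j + 1) s (hIcc (j + 2) s hs))
      obtain ⟨z', hz'⟩ : ∃ z' : ℝ, z' = H * (8 * p) * ϖ ^ 3 := ⟨_, rfl⟩
      have hz'0 : 0 < z' := by rw [hz']; positivity
      have hz'1 : z' ≤ 1 := by
        rw [hz']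
        calc H * (8 * p) * ϖ ^ 3 ≤ H * (8 * p) * ϖ :=
              mul_le_mul_of_nonneg_left hϖ3 (by positivity)
          _ = 8 * H * (p * ϖ) := by ring
          _ ≤ 1 := hpϖ1
      have hint2 : ∫ s in (T (j + 2))..t₀, H * Y (j + 1) s ≤ z' ^ 3 := by
        rw [intervalIntegral.integral_const_mul, hz']
        have h1 : ∫ s in (T (j + 2))..t₀, Y (j + 1) s ≤ ∫ s in (T (j + 2))..t₀, 64 * p ^ 2 * (H * Y j s) := by
          refine intervalIntegral.integral_mono_on (by linarith [hTt (j + 2)]) (iY _ _)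
            (((iY _ _).const_mul _).const_mul _) fun s hs => hYY s ⟨(hTm (j + 1)).le.trans hs.1, hs.2⟩
        rw [intervalIntegral.integral_const_mul, intervalIntegral.integral_const_mul] at h1
        have h2 : ∫ s in (T (j + 2))..t₀, Y j s ≤ ϖ ^ 9 :=
          (hmonoI (Y j) (j + 1) (fun s _ => hY0 j s) (hYc j).1).trans ih
        have h3 : 8 * p ≤ (8 * p) ^ 3 / (64 * p ^ 2) := by
          rw [le_div_iff₀ (by positivity)]
          nlinarith [sq_nonneg p]
        have h4 : 64 * p ^ 2 ≤ (8 * p) ^ 3 := by nlinarith [sq_nonneg p]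
        calc H * ∫ s in (T (j + 2))..t₀, Y (j + 1) s
            ≤ H * (64 * p ^ 2 * (H * ∫ s in (T (j + 2))..t₀, Y j s)) :=
              mul_le_mul_of_nonneg_left h1 (by linarith)
          _ ≤ H * (64 * p ^ 2 * (H * ϖ ^ 9)) := by
              refine mul_le_mul_of_nonneg_left (mul_le_mul_of_nonneg_left
                (mul_le_mul_of_nonneg_left h2 (by linarith)) (by positivity)) (by linarith)
          _ = H ^ 2 * (64 * p ^ 2) * ϖ ^ 9 := by ring
          _ ≤ H ^ 3 * (8 * p) ^ 3 * ϖ ^ 9 := by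
              refine mul_le_mul_of_nonneg_right (mul_le_mul ?_ h4 (by positivity) (by positivity))
                (by positivity)
              exact pow_le_pow_right₀ hH1 (by norm_num)
          _ = (H * (8 * p) * ϖ ^ 3) ^ 3 := by ring
      have hE2 := l2.1 z' hz'0 hz'1 hint2 t₀ (right_mem_Icc.2 (by linarith [hTt (j + 2)]))
      have hQ2' : Λ * (Cc * 8 * 2 ^ (j + 2)) ^ 2 * (4 * 2 ^ (j + 2)) ^ 2 * (K + 3)
          = Q * 2 ^ 18 * p ^ 4 := by
        rw [hQ, hp, pow_add]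
        ring
      rw [hQ2'] at hE2
      have hGi : ∫ s in (T (j + 3))..t₀, G (j + 2) s ≤ Q * 2 ^ 22 * p ^ 5 * z' ^ 2 := by
        have h0 : 0 ≤ (t₀ - T (j + 2)) * ∫ x, (χ (j + 2) x * hh (m (j + 2) * (f t₀ x - k (j + 2)))) ^ 2 :=
          mul_nonneg (by linarith [hTt (j + 2)]) (integral_nonneg fun x => sq_nonneg _)
        have h1 : ∫ s in (T (j + 2))..t₀, (s - T (j + 2)) * G (j + 2) s ≤ Q * 2 ^ 18 * p ^ 4 * z' ^ 2 := by
          rw [hG]
          linarith
        have hc : ContinuousOn (fun s => (s - T (j + 2)) * G (j + 2) s) (Ioo a b) :=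
          (continuousOn_id.sub continuousOn_const).mul (hYc (j + 2)).2
        have h2 : ∫ s in (T (j + 3))..t₀, (s - T (j + 2)) * G (j + 2) s
            ≤ ∫ s in (T (j + 2))..t₀, (s - T (j + 2)) * G (j + 2) s := by
          refine intervalIntegral.integral_mono_interval (hTm (j + 2)).le
            (by linarith [hTt (j + 3)]) le_rfl ?_ ?_
          · refine (ae_restrict_iff' measurableSet_Ioc).2 (ae_of_all _ fun s hs => ?_)
            exact mul_nonneg (by linarith [hs.1]) (hG0 _ _)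
          · refine ContinuousOn.intervalIntegrable ?_
            rw [uIcc_of_le (by linarith [hTt (j + 2)])]
            exact hc.mono (hIcc (j + 2))
        have h3 : ∫ s in (T (j + 3))..t₀, (T (j + 3) - T (j + 2)) * G (j + 2) s
            ≤ ∫ s in (T (j + 3))..t₀, (s - T (j + 2)) * G (j + 2) s := by
          refine intervalIntegral.integral_mono_on (by linarith [hTt (j + 3)])
            ((iG _ _).const_mul _) ?_ fun s hs => ?_
          · refine ContinuousOn.intervalIntegrable ?_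
            rw [uIcc_of_le (by linarith [hTt (j + 3)])]
            exact hc.mono (hIcc (j + 3))
          · exact mul_le_mul_of_nonneg_right (by linarith [hs.1]) (hG0 _ _)
        rw [intervalIntegral.integral_const_mul] at h3
        have h4 := hdivT 2
        have h6 : T (j + 2 + 1) = T (j + 3) := rfl
        rw [h6] at h4
        calc ∫ s in (T (j + 3))..t₀, G (j + 2) s
            = ((T (j + 3) - T (j + 2)) * ∫ s in (T (j + 3))..t₀, G (j + 2) s) * (4 * (2 ^ 2 * p)) := by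
              linear_combination (-(∫ s in (T (j + 3))..t₀, G (j + 2) s)) * h4
          _ ≤ (Q * 2 ^ 18 * p ^ 4 * z' ^ 2) * (4 * (2 ^ 2 * p)) :=
              mul_le_mul_of_nonneg_right (h3.trans (h2.trans h1)) (by positivity)
          _ = _ := by ring
      obtain ⟨e, he⟩ : ∃ e : ℝ, e = Q * 2 ^ 17 * p ^ 5 * H ^ 3 * ϖ ^ 2 := ⟨_, rfl⟩
      have he0 : 0 < e := by rw [he]; positivity
      have hYe : ∀ s ∈ Icc (T (j + 3)) t₀, Y (j + 2) s ≤ CS * e ^ 2 * G (j + 2) s := by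
        intro s hs
        have hs2 : s ∈ Icc (T (j + 2)) t₀ := ⟨(hTm (j + 2)).le.trans hs.1, hs.2⟩
        have h1 : H * Y (j + 1) s ≤ e ^ 3 := by
          have h2 := hYj1 s hs2
          have h3 : 1 ≤ Q * 2 ^ 17 * p ^ 5 * H ^ 3 := by
            have a1 : 1 ≤ Q * 2 ^ 17 := one_le_mul_of_one_le_of_one_le hQ1 (by norm_num)
            have a2 : 1 ≤ Q * 2 ^ 17 * p ^ 5 :=
              one_le_mul_of_one_le_of_one_le a1 (one_le_pow₀ hp1')
            exact one_le_mul_of_one_le_of_one_le a2 (one_le_pow₀ hH1)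
          have h4 : Q * 2 ^ 17 * p ^ 5 * H ^ 3 ≤ (Q * 2 ^ 17 * p ^ 5 * H ^ 3) ^ 3 :=
            le_self_pow₀ h3 (by norm_num)
          calc H * Y (j + 1) s ≤ H * (Q * 2 ^ 17 * p ^ 5 * H ^ 2 * ϖ ^ 6) :=
                mul_le_mul_of_nonneg_left h2 (by linarith)
            _ = (Q * 2 ^ 17 * p ^ 5 * H ^ 3) * ϖ ^ 6 := by ring
            _ ≤ (Q * 2 ^ 17 * p ^ 5 * H ^ 3) ^ 3 * ϖ ^ 6 :=
                mul_le_mul_of_nonneg_right h4 (by positivity)
            _ = e ^ 3 := by rw [he]; ring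
        have h2 := l2.2.1 s hs2 e he0 h1
        rw [hY, hG]
        exact h2
      have hfin : ∫ s in (T (j + 3))..t₀, Y (j + 2) s ≤ D * p ^ 17 * ϖ ^ 10 := by
        have h1 : ∫ s in (T (j + 3))..t₀, Y (j + 2) s
            ≤ ∫ s in (T (j + 3))..t₀, CS * e ^ 2 * G (j + 2) s :=
          intervalIntegral.integral_mono_on (by linarith [hTt (j + 3)]) (iY _ _)
            ((iG _ _).const_mul _) hYe
        rw [intervalIntegral.integral_const_mul] at h1
        refine h1.trans ((mul_le_mul_of_nonneg_left hGi (by positivity)).trans (le_of_eq ?_))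
        rw [he, hz', hD]
        ring
      have hgoal : D * p ^ 17 * ϖ ^ 10 ≤ (w * μ ^ (i + 1)) ^ 9 := by
        have e1 : w * μ ^ (i + 1) = μ * ϖ := by rw [hϖ, pow_succ]; ring
        rw [e1]
        have e2 : D * p ^ 17 * ϖ ^ 10 = (D * (p ^ 17 * ϖ)) * ϖ ^ 9 := by ring
        rw [e2, hpϖ, hwD, mul_pow]
      have ee : 2 * (i + 1) = j + 2 := by omega
      rw [ee]
      exact hfin.trans hgoal
  -- the conclusion at interior points
  have hint : ∀ x ∈ Co 0 (1 / 2) (1 / 2), f t₀ x ≤ 1 - ε / 2 := by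
    intro x hx
    by_contra hcon
    push Not at hcon
    have ht₀ : t₀ ∈ Ioo a b := ⟨by linarith, hb⟩
    have hopen : IsOpen (Ioo a b ×ˢ (univ : Set V)) := isOpen_Ioo.prod isOpen_univ
    have hca : ContinuousAt (fun z : ℝ × V => f z.1 z.2) (t₀, x) :=
      hDr.smf.continuousOn.continuousAt (hopen.mem_nhds ⟨ht₀, mem_univ _⟩)
    have h1 : ∀ᶠ z : ℝ × V in 𝓝 (t₀, x), 1 - ε / 2 < f z.1 z.2 := hca.eventually_const_lt hcon
    have hCo : IsOpen (Co 0 (1 / 2) (1 / 2)) := by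
      have h1 : Continuous fun x : V => sg x := sg_sm.continuous
      have h2 : Continuous fun x : V => |x 2 - 0| := by fun_prop
      exact (isOpen_lt h1 continuous_const).inter (isOpen_lt h2 continuous_const)
    have h2 : ∀ᶠ z : ℝ × V in 𝓝 (t₀, x), z.2 ∈ Co 0 (1 / 2) (1 / 2) :=
      continuousAt_snd.eventually (hCo.mem_nhds hx)
    obtain ⟨η', hη', hball⟩ := Metric.eventually_nhds_iff_ball.1 (h1.and h2)
    obtain ⟨η, hη⟩ : ∃ η : ℝ, η = min (η' / 2) (1 / 2) := ⟨_, rfl⟩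
    have hη0 : 0 < η := by rw [hη]; positivity
    have hη2 : η ≤ 1 / 2 := by rw [hη]; exact min_le_right _ _
    have hηη : η < η' := by
      have : η ≤ η' / 2 := by rw [hη]; exact min_le_left _ _
      linarith
    have hkey : ∀ s ∈ Icc (t₀ - η) t₀, ∀ y ∈ closedBall x η, 1 - ε / 2 < f s y ∧
        y ∈ Co 0 (1 / 2) (1 / 2) := by
      intro s hs y hy
      refine hball (s, y) ?_
      rw [mem_ball, Prod.dist_eq]
      refine max_lt ?_ ?_
      · rw [Real.dist_eq, abs_lt]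
        constructor <;> linarith [hs.1, hs.2]
      · exact (mem_closedBall.1 hy).trans_lt hηη
    have hlow : ∀ i, η * (hh 1 ^ 2 * (2 * η) ^ 3) ≤ ∫ s in (T (2 * i + 1))..t₀, Y (2 * i) s := by
      intro i
      have h3 : ∀ s ∈ Icc (t₀ - η) t₀, hh 1 ^ 2 * (2 * η) ^ 3 ≤ Y (2 * i) s := by
        intro s hs
        have hs' : s ∈ Ioo a b := ⟨by linarith [hs.1], hs.2.trans_lt hb⟩
        have h4 : ∫ y in closedBall x η, hh 1 ^ 2
            ≤ ∫ y in closedBall x η, (χ (2 * i) y * hh (m (2 * i) * (f s y - k (2 * i)))) ^ 2 := by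
          refine setIntegral_mono_on (integrableOn_const (measure_closedBall_lt_top.ne))
            (i2 _ s hs').integrableOn measurableSet_closedBall fun y hy => ?_
          obtain ⟨h5, h6⟩ := hkey s hs y hy
          have h7 : χ (2 * i) y = 1 := by
            refine oχ _ y ⟨?_, ?_⟩
            · have := (hrr (2 * i + 1)).1
              have h8 : sg y < (1 / 2) ^ 2 := h6.1
              nlinarith
            · have := (hrr (2 * i + 1)).1
              have h8 : |y 2 - 0| < 1 / 2 := h6.2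
              linarith
          have h8 : 1 ≤ m (2 * i) * (f s y - k (2 * i)) := by
            have h9 : m (2 * i) * (1 - ε / 2 - k (2 * i)) = 2 := by
              rw [hk, hm]
              simp only
              have h10 := pw_mul (2 * i)
              have e : 4 * 2 ^ (2 * i) / ε * (1 - ε / 2 - (1 - ε + ε / 2 * (1 - (1 / 2) ^ (2 * i))))
                  = 2 * (2 ^ (2 * i) * (1 / 2) ^ (2 * i)) := by
                field_simp
                ring
              rw [e, h10, mul_one]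
            have h10 : m (2 * i) * (1 - ε / 2 - k (2 * i)) ≤ m (2 * i) * (f s y - k (2 * i)) :=
              mul_le_mul_of_nonneg_left (by linarith) (hm0 _).le
            linarith
          rw [h7, one_mul]
          exact pow_le_pow_left₀ hh1.le (hge1 _ h8) 2
        have h5 : ∫ y in closedBall x η, (χ (2 * i) y * hh (m (2 * i) * (f s y - k (2 * i)))) ^ 2
            ≤ Y (2 * i) s := by
          rw [hY]
          exact setIntegral_le_integral (i2 _ s hs') (ae_of_all _ fun y => sq_nonneg _)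
        rw [setIntegral_const, smul_eq_mul, Measure.real, Real.volume_pi_closedBall _ hη0.le,
          ENNReal.toReal_ofReal (by positivity)] at h4
        have h6 : (2 * η) ^ Fintype.card (Fin 3) = (2 * η) ^ 3 := by simp
        rw [h6] at h4
        linarith
      have hle' : T (2 * i + 1) ≤ t₀ - η := by linarith [hTt (2 * i + 1)]
      have h4 : ∫ s in (t₀ - η)..t₀, Y (2 * i) s ≤ ∫ s in (T (2 * i + 1))..t₀, Y (2 * i) s := by
        refine intervalIntegral.integral_mono_interval hle' (by linarith) le_rfl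
          (ae_of_all _ fun s => hY0 _ s) (iY _ _)
      have h5 : ∫ s in (t₀ - η)..t₀, (hh 1 ^ 2 * (2 * η) ^ 3) ≤ ∫ s in (t₀ - η)..t₀, Y (2 * i) s := by
        refine intervalIntegral.integral_mono_on (by linarith) intervalIntegrable_const ?_ h3
        refine ContinuousOn.intervalIntegrable ?_
        rw [uIcc_of_le (by linarith)]
        exact (hYc _).1.mono fun s hs => ⟨by linarith [hs.1], hs.2.trans_lt hb⟩
      rw [intervalIntegral.integral_const, smul_eq_mul] at h5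
      have h6 : t₀ - (t₀ - η) = η := by ring
      rw [h6] at h5
      exact h5.trans h4
    have hlim : Tendsto (fun i : ℕ => (w * μ ^ i) ^ 9) atTop (𝓝 0) := by
      have h3 : Tendsto (fun i : ℕ => w * μ ^ i) atTop (𝓝 (w * 0)) :=
        (tendsto_pow_atTop_nhds_zero_of_lt_one hμ0.le hμ1).const_mul w
      have h4 := h3.pow 9
      simpa using h4
    have h5 : η * (hh 1 ^ 2 * (2 * η) ^ 3) ≤ 0 :=
      ge_of_tendsto' hlim fun i => (hlow i).trans (main i)
    have h6 : 0 < η * (hh 1 ^ 2 * (2 * η) ^ 3) := by positivity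
    linarith
  -- closure
  intro x hx
  have ht₀ : t₀ ∈ Ioo a b := ⟨by linarith, hb⟩
  have hcf : Continuous (f t₀) := (slice hDr.smf ht₀).continuous
  have hlim : Tendsto (fun n : ℕ => f t₀ ((1 - 1 / ((n : ℝ) + 2)) • x)) atTop (𝓝 (f t₀ x)) := by
    have h1 : Tendsto (fun n : ℕ => 1 - 1 / ((n : ℝ) + 2)) atTop (𝓝 (1 - 0)) := by
      refine tendsto_const_nhds.sub ?_
      have := tendsto_one_div_add_atTop_nhds_zero_nat (𝕜 := ℝ)
      refine squeeze_zero (fun n => by positivity) (fun n => ?_) this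
      exact one_div_le_one_div_of_le (by positivity) (by linarith)
    rw [sub_zero] at h1
    have h2 := (h1.smul_const x)
    rw [one_smul] at h2
    exact (hcf.tendsto x).comp h2
  refine le_of_tendsto' hlim fun n => hint _ ?_
  obtain ⟨l, hl⟩ : ∃ l : ℝ, l = 1 - 1 / ((n : ℝ) + 2) := ⟨_, rfl⟩
  have hn2 : (0 : ℝ) < (n : ℝ) + 2 := by positivity
  have hl1 : l < 1 := by
    rw [hl]
    have : 0 < 1 / ((n : ℝ) + 2) := by positivity
    linarith
  have hl0 : 0 ≤ l := by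
    rw [hl]
    have : 1 / ((n : ℝ) + 2) ≤ 1 := by
      rw [div_le_one hn2]
      have : (0 : ℝ) ≤ n := Nat.cast_nonneg n
      linarith
    linarith
  rw [← hl]
  constructor
  · show (l * x 0) ^ 2 + (l * x 1) ^ 2 < (1 / 2) ^ 2
    have h1 : x 0 ^ 2 + x 1 ^ 2 ≤ (1 / 2) ^ 2 := hx.1
    have h2 : l ^ 2 < 1 := by nlinarith
    have h3 : 0 ≤ x 0 ^ 2 + x 1 ^ 2 := by positivity
    have e : (l * x 0) ^ 2 + (l * x 1) ^ 2 = l ^ 2 * (x 0 ^ 2 + x 1 ^ 2) := by ring
    rw [e]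
    rcases h3.eq_or_lt with h4 | h4
    · rw [← h4]
      norm_num
    · calc l ^ 2 * (x 0 ^ 2 + x 1 ^ 2) < 1 * (x 0 ^ 2 + x 1 ^ 2) := mul_lt_mul_of_pos_right h2 h4
        _ ≤ (1 / 2) ^ 2 := by linarith
  · show |l * x 2 - 0| < 1 / 2
    have h1 : |x 2 - 0| ≤ 1 / 2 := hx.2
    rw [sub_zero] at h1 ⊢
    rw [abs_mul, abs_of_nonneg hl0]
    rcases (abs_nonneg (x 2)).eq_or_lt with h4 | h4
    · rw [← h4]
      norm_num
    · calc l * |x 2| < 1 * |x 2| := mul_lt_mul_of_pos_right hl1 h4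
        _ ≤ 1 / 2 := by linarith

end Pool.Agent.D0H28.OV
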