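import Pool.Agent.D0H28.OV.Defs
import Pool.Agent.Q257.AXI.Div
import Pool.Agent.Q175.AX.Com

/-! Project OV (helper28), package P: the function `FF`. -/

set_option autoImplicit false

open MeasureTheory Set Metric Filter Topology
open scoped ContDiff
open H459R3.NS Pool.Agent.W268.NS

namespace Pool.Agent.D0H28.OV

open Pool.Agent.Q67.AXI Pool.Agent.TH305.AX Pool.Agent.TH305.DR Pool.Agent.Q85.CL
open Pool.Agent.W583.MD (sm_pd)
open Pool.Agent.Q257.AXI

variable {v : V → V}

lemma sm_v2 (hv : ContDiff ℝ ∞ v) : ContDiff ℝ ∞ (fun y => v y 2) := sm_cmp hv 2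

lemma axf_v2 (ha : Axi v) : AxF (fun y => v y 2) := fun θ x => by
  show v (rot θ x) 2 = v x 2
  rw [ha]
  rfl

lemma pl_Co {c R H : ℝ} {x : V} (hx : x ∈ Co c R H) {l : ℝ} (h0 : 0 ≤ l) (h1 : l ≤ 1) :
    pl l x ∈ Co c R H := by
  obtain ⟨h2, h3⟩ := hx
  refine ⟨?_, h3⟩
  show (l * x 0) ^ 2 + (l * x 1) ^ 2 < R ^ 2
  have h4 : x 0 ^ 2 + x 1 ^ 2 < R ^ 2 := h2
  have h5 : l ^ 2 ≤ 1 := by nlinarith
  have h6 : 0 ≤ x 0 ^ 2 + x 1 ^ 2 := by positivity
  nlinarith

lemma pd2_FF (hAA : StmAAs) (hv : ContDiff ℝ ∞ v) {c R H : ℝ} (hd : DFO (Co c R H) v) {x : V}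
    (hx : x ∈ Co c R H) : pd 2 (FF v) x = -UU v x := by
  unfold FF UU
  rw [hAA.2.2.1 _ (sm_v2 hv)]
  unfold AA
  rw [← intervalIntegral.integral_neg]
  refine intervalIntegral.integral_congr fun l hl => ?_
  rw [uIcc_of_le zero_le_one] at hl
  have h := hd _ (pl_Co hx hl.1 hl.2)
  rw [Fin.sum_univ_three] at h
  unfold pl at h
  simp only
  have h2 : pd 2 (fun y => v y 2) ![l * x 0, l * x 1, x 2]
      = -(pd 0 (fun y => v y 0) ![l * x 0, l * x 1, x 2]
        + pd 1 (fun y => v y 1) ![l * x 0, l * x 1, x 2]) := by linarith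
  rw [h2]
  ring

lemma LL_FF (hAA : StmAAs) (hAx : StmAxF) (hAl : StmAlg) (hv : ContDiff ℝ ∞ v) (ha : Axi v)
    {c R H : ℝ} (hd : DFO (Co c R H) v) {x : V} (hx : x ∈ Co c R H) (hs : sg x ≠ 0) :
    LL (FF v) x = -OO v x := by
  have hFs : ContDiff ℝ ∞ (FF v) := hAA.1 _ (sm_v2 hv)
  have hFa : AxF (FF v) := hAA.2.2.2.2 _ (sm_v2 hv) (axf_v2 ha)
  obtain ⟨-, -, -, q, sq, aq, hq⟩ := hAx _ hFs hFa
  have hop : IsOpen (Co c R H) := by
    have h1 : Continuous fun x : V => sg x := by unfold sg; fun_prop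
    have h2 : Continuous fun x : V => |x 2 - c| := by fun_prop
    exact (isOpen_lt h1 continuous_const).inter (isOpen_lt h2 continuous_const)
  -- vertical part
  have hev : pd 2 (FF v) =ᶠ[𝓝 x] fun y => -UU v y := by
    filter_upwards [hop.mem_nhds hx] with y hy
    exact pd2_FF hAA hv hd hy
  have h2 : pd 2 (pd 2 (FF v)) x = -pd 2 (UU v) x := by
    rw [Pool.Agent.Q175.AX.pd_ev hev]
    have e : (fun y => -UU v y) = fun y => (-1 : ℝ) * UU v y := by funext y; ring
    have := pd_neg' (f := UU v) 2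
    rw [this]
  -- horizontal part
  have e0 : pd 0 (FF v) = fun y => y 0 * q y := funext fun y => (hq y).1
  have e1 : pd 1 (FF v) = fun y => y 1 * q y := funext fun y => (hq y).2.1
  have h0 : pd 0 (pd 0 (FF v)) x = x 0 * pd 0 q x + q x := by
    rw [e0, pd_mulf (sm_crd 0) sq, pd_crd]
    simp
  have h1 : pd 1 (pd 1 (FF v)) x = x 1 * pd 1 q x + q x := by
    rw [e1, pd_mulf (sm_crd 1) sq, pd_crd]
    simp
  -- the derivative of `2 F + RR F = v_2`
  have hv2 : (fun y => v y 2) = fun y => 2 * FF v y + sg y * q y := by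
    funext y
    rw [← (hq y).2.2]
    exact (hAA.2.2.2.1 _ (sm_v2 hv) y).symm
  have h3 : RR (fun y => v y 2) x = sg x * (4 * q x + RR q x) := by
    rw [hv2, RR_add ((contDiff_const (c := (2 : ℝ))).mul hFs) (sg_sm.mul sq), RR_mul sg_sm sq,
      RR_sg, RR_mul contDiff_const hFs, Pool.Agent.Q175.AX.RR_const, (hq x).2.2]
    ring
  have h4 := (hAl v hv ha).2.2.2 x
  have h5 : sg x * OO v x = sg x * pd 2 (UU v) x - RR (fun y => v y 2) x := h4.2.2.2.2.2.2.1
  unfold LL lap
  rw [Fin.sum_univ_three, h0, h1, h2, (hq x).2.2]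
  have h6 : OO v x = pd 2 (UU v) x - (4 * q x + RR q x) := by
    have : sg x * OO v x = sg x * (pd 2 (UU v) x - (4 * q x + RR q x)) := by
      rw [h5, h3]
      ring
    exact mul_left_cancel₀ hs this
  rw [h6]
  unfold RR
  field_simp
  ring

/-- P. -/
theorem t_FF (hAA : StmAAs) (hAx : StmAxF) (hAl : StmAlg) : StmFF := by
  refine ⟨fun v hv ha => ⟨hAA.1 _ (sm_v2 hv), hAA.2.2.2.2 _ (sm_v2 hv) (axf_v2 ha),
    fun x => hAA.2.2.2.1 _ (sm_v2 hv) x⟩, fun c R H v hv ha hd x hx =>
      ⟨pd2_FF hAA hv hd hx, fun hs => LL_FF hAA hAx hAl hv ha hd hx hs⟩, fun T u hu => ?_, ?_⟩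
  · refine hAA.2.1 0 T (fun t y => u t y 2) ?_
    exact (contDiffOn_pi.1 hu) 2
  · intro K c r h r1 h1 hK hr1 hr hh1 hh hhl hrl
    refine ⟨7 * K, by positivity, fun v hv ha hd hB x hx hxo => ?_⟩
    have hFs : ContDiff ℝ ∞ (FF v) := hAA.1 _ (sm_v2 hv)
    -- the case near the bottom and the top
    have hA : ∀ y : V, y ∈ Cy c r h → h1 ≤ |y 2 - c| → |FF v y| ≤ K := by
      intro y hy hy1
      have h2 : ∀ l ∈ uIoc (0 : ℝ) 1, ‖l * v (pl l y) 2‖ ≤ K := by
        intro l hl
        rw [uIoc_of_le zero_le_one] at hl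
        have h3 : pl l y ∈ Out c r h r1 h1 := by
          refine ⟨⟨?_, hy.2⟩, Or.inr hy1⟩
          show (l * y 0) ^ 2 + (l * y 1) ^ 2 ≤ r ^ 2
          have h4 : y 0 ^ 2 + y 1 ^ 2 ≤ r ^ 2 := hy.1
          have h5 : l ^ 2 ≤ 1 := by nlinarith [hl.1, hl.2]
          have h6 : 0 ≤ y 0 ^ 2 + y 1 ^ 2 := by positivity
          nlinarith
        have h4 := (hB _ h3).1 2
        rw [norm_mul, Real.norm_eq_abs, Real.norm_eq_abs, abs_of_pos hl.1]
        have := mul_le_mul hl.2 h4 (abs_nonneg _) zero_le_one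
        linarith
      have h3 := intervalIntegral.norm_integral_le_of_norm_le_const h2
      have e : FF v y = ∫ l in (0 : ℝ)..1, l * v (pl l y) 2 := rfl
      rw [e, ← Real.norm_eq_abs]
      refine h3.trans ?_
      norm_num
    have hF : |FF v x| ≤ 3 * K := by
      rcases hxo.2 with hs | hz
      · -- move along the vertical segment to the top
        by_cases hz : h1 ≤ |x 2 - c|
        · exact (hA x hxo.1 hz).trans (by linarith)
        · push Not at hz
          obtain ⟨g, hg⟩ : ∃ g : ℝ → ℝ, g = fun z => FF v ![x 0, x 1, z] := ⟨_, rfl⟩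
          have hgd : ∀ z : ℝ, HasDerivAt g (pd 2 (FF v) ![x 0, x 1, z]) z := by
            intro z
            have h2 : HasDerivAt (fun z : ℝ => (![x 0, x 1, z] : V)) (Pi.single 2 1) z := by
              rw [hasDerivAt_pi]
              intro i
              fin_cases i
              · show HasDerivAt (fun _ : ℝ => x 0) _ z
                simpa using hasDerivAt_const z (x 0)
              · show HasDerivAt (fun _ : ℝ => x 1) _ z
                simpa using hasDerivAt_const z (x 1)
              · show HasDerivAt (fun z : ℝ => z) ((Pi.single 2 1 : V) 2) z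
                rw [Pi.single_eq_same]
                exact hasDerivAt_id' z
            rw [hg]
            exact ((hFs.differentiable (by norm_cast)) _).hasFDerivAt.comp_hasDerivAt z h2
          have hseg : ∀ z ∈ Icc (x 2) (c + h1), |pd 2 (FF v) ![x 0, x 1, z]| ≤ K := by
            intro z hz'
            have h3 := abs_lt.1 hz
            have hzc : |z - c| < h := by
              rw [abs_lt]
              constructor <;> linarith [hz'.1, hz'.2]
            have h4 : (![x 0, x 1, z] : V) ∈ Co c r h := ⟨hx.1, hzc⟩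
            have h5 : (![x 0, x 1, z] : V) ∈ Out c r h r1 h1 := ⟨⟨le_of_lt hx.1, hzc.le⟩, Or.inl hs⟩
            rw [pd2_FF hAA hv hd h4, abs_neg]
            exact (hB _ h5).2.1
          have h3 := abs_lt.1 hz
          have hle : x 2 ≤ c + h1 := by linarith
          have h4 : ‖g (c + h1) - g (x 2)‖ ≤ K * ‖(c + h1) - x 2‖ := by
            refine Convex.norm_image_sub_le_of_norm_hasDerivWithin_le (s := Icc (x 2) (c + h1))
              (fun z hz' => (hgd z).hasDerivWithinAt) (fun z hz' => ?_) (convex_Icc _ _)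
              (left_mem_Icc.2 hle) (right_mem_Icc.2 hle)
            rw [Real.norm_eq_abs]
            exact hseg z hz'
          have h5 : g (x 2) = FF v x := by
            rw [hg]
            show FF v ![x 0, x 1, x 2] = FF v x
            congr 1
            funext i
            fin_cases i <;> rfl
          have h6 : |g (c + h1)| ≤ K := by
            rw [hg]
            refine hA _ ⟨le_of_lt hx.1, ?_⟩ ?_
            · show |c + h1 - c| ≤ h
              rw [add_sub_cancel_left, abs_of_pos hh1]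
              exact hh.le
            · show h1 ≤ |c + h1 - c|
              rw [add_sub_cancel_left, abs_of_pos hh1]
          rw [Real.norm_eq_abs, Real.norm_eq_abs, h5] at h4
          have h7 : |c + h1 - x 2| ≤ 2 := by
            rw [abs_le]
            constructor <;> linarith
          have h8 : |FF v x| ≤ |g (c + h1)| + |g (c + h1) - FF v x| := by
            have := abs_sub_abs_le_abs_sub (FF v x) (g (c + h1))
            rw [abs_sub_comm] at this
            linarith
          nlinarith [abs_nonneg (c + h1 - x 2)]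
      · exact (hA x hxo.1 hz).trans (by linarith)
    refine ⟨hF.trans (by linarith), ?_, ?_⟩
    · rw [pd2_FF hAA hv hd hx, abs_neg]
      exact ((hB x hxo).2.1).trans (by linarith)
    · have h2 : RR (FF v) x = v x 2 - 2 * FF v x := by
        have := hAA.2.2.2.1 _ (sm_v2 hv) x
        have e : 2 * FF v x + RR (FF v) x = v x 2 := this
        linarith
      rw [h2]
      have h3 := (hB x hxo).1 2
      calc |v x 2 - 2 * FF v x| ≤ |v x 2| + |2 * FF v x| := abs_sub _ _
        _ = |v x 2| + 2 * |FF v x| := by rw [abs_mul, abs_of_pos (by norm_num : (0 : ℝ) < 2)]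
        _ ≤ 7 * K := by linarith

end Pool.Agent.D0H28.OV
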