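import Pool.Agent.D0H28.OV.M2
import Pool.Agent.D0H28.OV.E3
import Pool.Agent.D0H28.OV.P
import Pool.Agent.D0H65.OV.Lg
import Pool.Agent.D0H65.OV.Mor
import Pool.Agent.D0H33.OV.Dec
import Pool.Agent.D0H33.OV.Osc
import Pool.Agent.D0H33.OV.C0
import Pool.Agent.Q67.AXI.All

/-! Project OV (helper28): the theorem for viscosity one. -/

set_option autoImplicit false

open MeasureTheory Set Metric Filter Topology
open scoped ContDiff
open H459R3.NS Pool.Agent.W268.NS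

namespace Pool.Agent.D0H28.OV

open Pool.Agent.Q67.AXI Pool.Agent.TH305.AX Pool.Agent.Q85.CL
open Pool.Agent.W583.MD (slice)
open Pool.Agent.Q175.AX (sg_nn)

theorem hhA : StmAx := Pool.Agent.D0H65.OV.ax
theorem hhFF : StmFF := t_FF hAAs hAxF hAlg
theorem hhHh : StmHh := t_Hh
theorem hhL6 : StmL6 := Pool.Agent.D0H65.OV.l6 hAxF
theorem hhCacD : StmCacD := t_CacD hhA hH0 hhHh
theorem hhDG : StmDG := t_DG hhCacD t_S6 hhHh
theorem hhLg : StmLg := Pool.Agent.D0H65.OV.lg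
theorem hhOsc : StmOsc := Pool.Agent.D0H33.OV.osc hhDG hhLg
theorem hhDec : StmDec := Pool.Agent.D0H33.OV.dec hAlg hhFF hEqC hCut hhOsc
theorem hhC0 : StmC0 := Pool.Agent.D0H33.OV.c0 hAlg hBar
theorem hhMass : StmMass := t_Mass hhA hH0 hAlg hJnt hEqO
theorem hhMor : StmMor := Pool.Agent.D0H65.OV.mor hAlg hAxF hhFF hhL6

/-- smaller cylinders -/
lemma axl_mono {T E c R H R' H' : ℝ} {u : ℝ → V → V} {p : ℝ → V → ℝ} (h : AxL T E c R H u p)
    (hR : 0 ≤ R') (hRR : R' ≤ R) (hHH : H' ≤ H) : AxL T E c R' H' u p := by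
  have hsub : Co c R' H' ⊆ Co c R H := fun x hx =>
    ⟨hx.1.trans_le (pow_le_pow_left₀ hR hRR 2), hx.2.trans_le hHH⟩
  have hn : ∀ t x, 0 ≤ W221.NS.nsq (u t) x := fun t x => by
    unfold W221.NS.nsq
    positivity
  exact
    { openO := Co_open c R' H'
      smooth_u := h.smooth_u
      smooth_p := h.smooth_p
      divfree := fun t ht x hx => h.divfree t ht x (hsub hx)
      momentum := fun t ht x hx i => h.momentum t ht x (hsub hx) i
      en_int := fun t ht => (h.en_int t ht).mono_set hsub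
      en := fun t ht => (setIntegral_mono_set (h.en_int t ht) (ae_of_all _ fun x => hn t x)
        hsub.eventuallyLE).trans (h.en t ht)
      dis := h.dis.mono_set (prod_mono le_rfl hsub)
      prs := h.prs.mono_set (prod_mono le_rfl hsub)
      axi := h.axi }

lemma log_le {s κ : ℝ} (hs : 0 < s) (hs1 : s < 1) (hκ : 0 < κ) :
    s ^ κ ≤ 4 / κ ^ 2 * (-Real.log s) ^ (-2 : ℝ) := by
  obtain ⟨y, hy⟩ : ∃ y : ℝ, y = -Real.log s := ⟨_, rfl⟩
  have hy0 : 0 < y := by rw [hy]; have := Real.log_neg hs hs1; linarith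
  have h1 : s ^ κ = Real.exp (-(κ * y)) := by
    rw [Real.rpow_def_of_pos hs, hy]
    congr 1
    ring
  have h2 : κ * y / 2 ≤ Real.exp (κ * y / 2) := by
    have := Real.add_one_le_exp (κ * y / 2)
    linarith
  have h3 : (κ * y / 2) ^ 2 ≤ Real.exp (κ * y) := by
    calc (κ * y / 2) ^ 2 ≤ Real.exp (κ * y / 2) ^ 2 := pow_le_pow_left₀ (by positivity) h2 2
      _ = Real.exp (κ * y) := by rw [← Real.exp_nat_mul]; congr 1; push_cast; ring
  rw [h1, ← hy, Real.rpow_neg hy0.le, Real.exp_neg]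
  have h4 : y ^ (2 : ℝ) = y ^ 2 := by
    rw [show (2 : ℝ) = ((2 : ℕ) : ℝ) by norm_num, Real.rpow_natCast]
  rw [h4]
  have h5 : 4 / κ ^ 2 * (y ^ 2)⁻¹ = ((κ * y / 2) ^ 2)⁻¹ := by
    field_simp
    norm_num
  rw [h5]
  exact inv_anti₀ (by positivity) h3

/-- Decay of the circulation implies regularity. -/
lemma reg_of_decay {T E c R H r' T₂ C κ : ℝ} {u : ℝ → V → V} {p : ℝ → V → ℝ} (hT : 0 < T)
    (hA : AxL T E c R H u p) (hr' : 0 < r') (hrR : r' ≤ R) (hrH : r' ≤ H)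
    (hT₂ : T₂ < T) (hC : 0 < C) (hκ : 0 < κ)
    (hd : ∀ t ∈ Ico T₂ T, ∀ x ∈ Cy c r' r', |circ (u t) x| ≤ C * sg x ^ κ) :
    Rg T u ![0, 0, c] := by
  have hA' : AxL T E c r' r' u p := axl_mono hA hr'.le hrR hrH
  refine hMainP T E c r' r' T₂ 0 u p (fun _ => 0) 2 (C * (4 / κ ^ 2)) hT hr' hr' hA' hT₂
    continuousOn_const integrableOn_zero (by norm_num) (by positivity) le_rfl (by norm_num) ?_
  intro t ht htT x hx hs hs1 hc _ _
  exfalso
  have e1 : (T - t) ^ (2 * (0 : ℝ)) = 1 := by rw [mul_zero, Real.rpow_zero]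
  rw [e1] at hs1
  have e2 : lam T 0 t x = -Real.log (sg x) := by
    unfold lam
    rw [e1, one_div, Real.log_inv]
  rw [e2] at hc
  have h1 := hd t ⟨htT.le, ht.2⟩ x ⟨le_of_lt hx.1, le_of_lt hx.2⟩
  have h2 := log_le hs hs1 hκ
  have h3 := mul_le_mul_of_nonneg_left h2 hC.le
  rw [← mul_assoc] at h3
  linarith

/-- two-sided bound of the mass -/
theorem reg_two {T E c R H T₀ M : ℝ} {u : ℝ → V → V} {p : ℝ → V → ℝ} (hT : 0 < T) (hR : 0 < R)
    (hH : 0 < H) (hA : AxL T E c R H u p) (hT₀ : T₀ < T)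
    (hM : ∀ t ∈ Ioo 0 T, T₀ < t → ∫ x in Co c R H, |OO (u t) x| ≤ M) : Rg T u ![0, 0, c] := by
  obtain ⟨r, hr⟩ : ∃ r : ℝ, r = min R 1 / 2 := ⟨_, rfl⟩
  have hr0 : 0 < r := by rw [hr]; positivity
  have hrR : r < R := by rw [hr]; have := min_le_left R 1; linarith
  have hr1 : r < 1 := by rw [hr]; have := min_le_right R 1; linarith
  obtain ⟨h₀, hh₀⟩ : ∃ h₀ : ℝ, h₀ = min H 1 / 2 := ⟨_, rfl⟩
  have hh₀0 : 0 < h₀ := by rw [hh₀]; positivity
  have hh₀H : h₀ < H := by rw [hh₀]; have := min_le_left H 1; linarith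
  have hh₀1 : h₀ < 1 := by rw [hh₀]; have := min_le_right H 1; linarith
  obtain ⟨h, h1, hh1, hh1h, hhh₀, hG⟩ := hGd T E c R H u p hT hR hH hA r h₀ hr0 hrR hh₀0 hh₀H
  have hh0 : 0 < h := hh1.trans hh1h
  have hhH : h < H := hhh₀.trans hh₀H
  obtain ⟨KA, TA, hKA, hTA0, hTAT, hbA⟩ := hG r (r / 2) le_rfl (by positivity) (by linarith)
  obtain ⟨KC, φ, hKC, hφ⟩ := hCut c r h (r / 2) h1 (by positivity) (by linarith) hh1 hh1h
  obtain ⟨K, hK⟩ : ∃ K : ℝ, K = max KA KC := ⟨_, rfl⟩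
  have hKAK : KA ≤ K := by rw [hK]; exact le_max_left _ _
  have hKCK : KC ≤ K := by rw [hK]; exact le_max_right _ _
  have hK0 : 0 ≤ K := hKA.trans hKAK
  have hφ' := Pool.Agent.Q151.AXI.cut_mono hKCK hφ
  obtain ⟨T₁, hT₁⟩ : ∃ T₁ : ℝ, T₁ = (max TA T₀ + T) / 2 := ⟨_, rfl⟩
  have hmT : max TA T₀ < T := max_lt hTAT hT₀
  have hT₁A : TA ≤ T₁ := by rw [hT₁]; have := le_max_left TA T₀; linarith
  have hT₁0 : T₀ < T₁ := by rw [hT₁]; have := le_max_right TA T₀; linarith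
  have hT₁T : T₁ < T := by rw [hT₁]; linarith
  have hT₁p : 0 < T₁ := hTA0.trans_le hT₁A
  have hbK : ∀ t ∈ Ico T₁ T, ∀ x ∈ Out c r h (r / 2) h1, BdA K (u t) x := fun t ht x hx =>
    Pool.Agent.Q151.AXI.bdA_mono hKAK (hbA t ⟨hT₁A.trans ht.1, ht.2⟩ x hx)
  have hI : ∀ t ∈ Ico T₁ T, t ∈ Ioo 0 T := fun t ht => ⟨hT₁p.trans_le ht.1, ht.2⟩
  have hsub : Co c r h ⊆ Co c R H := fun x hx =>
    ⟨hx.1.trans (pow_lt_pow_left₀ hrR hr0.le (by norm_num)), hx.2.trans hhH⟩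
  have sO := (hJnt T u hA.smooth_u).2.2.2
  have cO : ∀ t ∈ Ioo 0 T, Continuous (OO (u t)) := fun t ht =>
    (slice (F := fun t => OO (u t)) sO ht).continuous
  have hCoCy : Co c R H ⊆ Cy c R H := fun x hx => ⟨le_of_lt hx.1, le_of_lt hx.2⟩
  have hM' : ∀ t ∈ Ico T₁ T, ∫ x in Co c r h, |OO (u t) x| ≤ |M| := by
    intro t ht
    have hi : IntegrableOn (fun x => |OO (u t) x|) (Co c R H) :=
      ((cO t (hI t ht)).abs.continuousOn.integrableOn_compact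
        (Pool.Agent.Q24.AXI.Cy_compact c R H)).mono_set hCoCy
    exact ((setIntegral_mono_set hi (ae_of_all _ fun x => abs_nonneg _)
      hsub.eventuallyLE).trans (hM t (hI t ht) (hT₁0.trans_le ht.1))).trans (le_abs_self M)
  -- the circulation is bounded
  obtain ⟨C₀, hC₀, hcirc⟩ := hhC0 T E c R H r h T₁ K u p hA hr0 hrR hh0 hhH hT₁p hT₁T (by
    intro t ht x hx hb
    refine (hbK t ht x ⟨hx, ?_⟩).2.2.1
    rcases hb with hb | hb
    · left
      rw [hb]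
      exact pow_le_pow_left₀ (by positivity) (by linarith) 2
    · right
      rw [hb]
      exact hh1h.le)
  -- the Morrey bound
  obtain ⟨K', hK', hmor⟩ := hhMor K c r h (r / 2) h1 |M| hK0 (by positivity) (by linarith)
    (by linarith) hh1 hh1h (by linarith) (abs_nonneg M)
  have svt : ∀ t ∈ Ioo 0 T, ContDiff ℝ ∞ (u t) := by
    intro t ht
    rw [← contDiffOn_univ]
    exact hA.smooth_u.comp (contDiff_const.prodMk contDiff_id).contDiffOn
      (fun x _ => ⟨ht, mem_univ _⟩)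
  have hsubC : Cy c (r / 2) h1 ⊆ Cy c r h := fun x hx =>
    ⟨hx.1.trans (pow_le_pow_left₀ (by positivity) (by linarith) 2), hx.2.trans hh1h.le⟩
  obtain ⟨C, κ, r', T₂, hC, hκ, hr', hr'1, hT₂, hT₂T, hdec⟩ := hhDec T E c R H (r / 2) h1 T₁ C₀ K' 1
    u p hA (by positivity) (by linarith) hh1 (hh1h.trans hhH) hT₁p hT₁T hK' one_pos
    (fun t ht x hx => hcirc t ht x (hsubC hx))
    (fun t ht c' s hs _ hsub' => hmor (u t) φ (svt t (hI t ht)) (hA.axi t (hI t ht))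
      (fun x hx => hA.divfree t (hI t ht) x (hsub hx)) hφ' (hbK t ht) (hM' t ht) c' s hs hsub')
  obtain ⟨ρ, hρ⟩ : ∃ ρ : ℝ, ρ = min r' (min R H) := ⟨_, rfl⟩
  have hρ0 : 0 < ρ := by rw [hρ]; exact lt_min hr' (lt_min hR hH)
  have hρr : ρ ≤ r' := by rw [hρ]; exact min_le_left _ _
  have hρR : ρ ≤ R := by rw [hρ]; exact (min_le_right _ _).trans (min_le_left _ _)
  have hρH : ρ ≤ H := by rw [hρ]; exact (min_le_right _ _).trans (min_le_right _ _)
  exact reg_of_decay hT hA hρ0 hρR hρH hT₂T hC hκ fun t ht x hx =>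
    hdec t ht x ⟨hx.1.trans (pow_le_pow_left₀ hρ0.le hρr 2), hx.2.trans hρr⟩

/-- one-sided bound of the mass -/
theorem reg_one {T E c R H T₀ B σ : ℝ} {u : ℝ → V → V} {p : ℝ → V → ℝ} (hT : 0 < T) (hR : 0 < R)
    (hH : 0 < H) (hA : AxL T E c R H u p) (hT₀ : T₀ < T) (hσ : σ = 1 ∨ σ = -1)
    (hneg : ∀ t ∈ Ioo 0 T, T₀ < t → ∫ x in Co c R H, max (-(σ * OO (u t) x)) 0 ≤ B)
    (hax : ∀ t₁ t₂, 0 < t₁ → T₀ < t₁ → t₁ ≤ t₂ → t₂ < T →
      ∫ t in t₁..t₂, ∫ z in Ioo (c - H) (c + H), max (-(σ * OO (u t) ![0, 0, z])) 0 ≤ B) :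
    Rg T u ![0, 0, c] := by
  obtain ⟨r, hr⟩ : ∃ r : ℝ, r = min R 1 / 2 := ⟨_, rfl⟩
  have hr0 : 0 < r := by rw [hr]; positivity
  have hrR : r < R := by rw [hr]; have := min_le_left R 1; linarith
  have hr1 : r < 1 := by rw [hr]; have := min_le_right R 1; linarith
  obtain ⟨h₀, hh₀⟩ : ∃ h₀ : ℝ, h₀ = min H 1 / 2 := ⟨_, rfl⟩
  have hh₀0 : 0 < h₀ := by rw [hh₀]; positivity
  have hh₀H : h₀ < H := by rw [hh₀]; have := min_le_left H 1; linarith
  have hh₀1 : h₀ < 1 := by rw [hh₀]; have := min_le_right H 1; linarith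
  obtain ⟨h, h1, hh1, hh1h, hhh₀, hG⟩ := hGd T E c R H u p hT hR hH hA r h₀ hr0 hrR hh₀0 hh₀H
  have hh0 : 0 < h := hh1.trans hh1h
  have hhH : h < H := hhh₀.trans hh₀H
  obtain ⟨KA, TA, hKA, hTA0, hTAT, hbA⟩ := hG r (r / 2) le_rfl (by positivity) (by linarith)
  obtain ⟨KC, φ, hKC, hφ⟩ := hCut c r h (r / 2) h1 (by positivity) (by linarith) hh1 hh1h
  obtain ⟨K, hK⟩ : ∃ K : ℝ, K = max KA KC := ⟨_, rfl⟩
  have hKAK : KA ≤ K := by rw [hK]; exact le_max_left _ _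
  have hKCK : KC ≤ K := by rw [hK]; exact le_max_right _ _
  have hK0 : 0 ≤ K := hKA.trans hKAK
  have hφ' := Pool.Agent.Q151.AXI.cut_mono hKCK hφ
  obtain ⟨T₁, hT₁⟩ : ∃ T₁ : ℝ, T₁ = (max TA T₀ + T) / 2 := ⟨_, rfl⟩
  have hmT : max TA T₀ < T := max_lt hTAT hT₀
  have hT₁A : TA ≤ T₁ := by rw [hT₁]; have := le_max_left TA T₀; linarith
  have hT₁0 : T₀ < T₁ := by rw [hT₁]; have := le_max_right TA T₀; linarith
  have hT₁T : T₁ < T := by rw [hT₁]; linarith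
  have hT₁p : 0 < T₁ := hTA0.trans_le hT₁A
  have hbK : ∀ t ∈ Ico T₁ T, ∀ x ∈ Out c r h (r / 2) h1, BdA K (u t) x := fun t ht x hx =>
    Pool.Agent.Q151.AXI.bdA_mono hKAK (hbA t ⟨hT₁A.trans ht.1, ht.2⟩ x hx)
  have hI : ∀ t ∈ Ico T₁ T, t ∈ Ioo 0 T := fun t ht => ⟨hT₁p.trans_le ht.1, ht.2⟩
  have hsub : Co c r h ⊆ Co c R H := fun x hx =>
    ⟨hx.1.trans (pow_lt_pow_left₀ hrR hr0.le (by norm_num)), hx.2.trans hhH⟩
  obtain ⟨-, -, -, sO⟩ := hJnt T u hA.smooth_u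
  have cO : ∀ t ∈ Ioo 0 T, Continuous (OO (u t)) := fun t ht =>
    (slice (F := fun t => OO (u t)) sO ht).continuous
  have hCoCy : Co c R H ⊆ Cy c R H := fun x hx => ⟨le_of_lt hx.1, le_of_lt hx.2⟩
  obtain ⟨o, ho⟩ : ∃ o : ℝ → V → ℝ, o = fun t => OO (u t) := ⟨_, rfl⟩
  have sO' : ContDiffOn ℝ ∞ (fun z : ℝ × V => o z.1 z.2) (Ioo 0 T ×ˢ univ) := by
    rw [ho]; exact sO
  have cO' : ∀ t ∈ Ioo 0 T, Continuous (o t) := by rw [ho]; exact cO
  have hax' : ∀ t' ∈ Ico T₁ T, ∫ t in T₁..t', ∫ z in Ioo (c - h) (c + h),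
      max (-(σ * o t ![0, 0, z])) 0 ≤ B := by
    intro t' ht'
    have h2 : ∫ t in T₁..t', ∫ z in Ioo (c - H) (c + H), max (-(σ * o t ![0, 0, z])) 0 ≤ B := by
      rw [ho]
      exact hax T₁ t' hT₁p hT₁0 ht'.1 ht'.2
    refine le_trans ?_ h2
    have hcc : ContinuousOn (fun z : ℝ × ℝ => max (-(σ * o z.1 ![0, 0, z.2])) 0)
        (Ioo 0 T ×ˢ univ) := by
      have a1 := axis_c2 sO'.continuousOn
      have a2 : ContinuousOn (fun z : ℝ × ℝ => -(σ * o z.1 ![0, 0, z.2])) (Ioo 0 T ×ˢ univ) :=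
        (continuousOn_const.mul a1).neg
      have a3 : Continuous fun r : ℝ => max r 0 := continuous_id.max continuous_const
      exact a3.comp_continuousOn a2
    have hIc : ∀ s ∈ Icc T₁ t', s ∈ Ioo 0 T := fun s hs => hI s ⟨hs.1, hs.2.trans_lt ht'.2⟩
    have hci : ∀ p q : ℝ, IntervalIntegrable (fun t => ∫ z in Ioo p q,
        max (-(σ * o t ![0, 0, z])) 0) volume T₁ t' := by
      intro p q
      refine ContinuousOn.intervalIntegrable ?_
      rw [uIcc_of_le ht'.1]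
      exact (pcont1 (g := fun t z => max (-(σ * o t ![0, 0, z])) 0) hcc).mono hIc
    refine intervalIntegral.integral_mono_on ht'.1 (hci _ _) (hci _ _) fun s hs => ?_
    have hcz : Continuous fun z : ℝ => (![0, 0, z] : V) := by
      refine continuous_pi fun i => ?_
      fin_cases i
      · exact continuous_const
      · exact continuous_const
      · exact continuous_id
    have c2 : Continuous fun z : ℝ => max (-(σ * o s ![0, 0, z])) 0 :=
      (continuous_const.mul ((cO' s (hIc s hs)).comp hcz)).neg.max continuous_const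
    have j2 : IntegrableOn (fun z : ℝ => max (-(σ * o s ![0, 0, z])) 0)
        (Ioo (c - H) (c + H)) :=
      (c2.continuousOn.integrableOn_compact isCompact_Icc).mono_set Ioo_subset_Icc_self
    refine setIntegral_mono_set j2 (ae_of_all _ fun z => le_max_right _ _) ?_
    exact (Ioo_subset_Ioo (by linarith) (by linarith)).eventuallyLE
  have hneg' : ∀ t ∈ Ico T₁ T, ∫ x in Co c r h, max (-(σ * o t x)) 0 ≤ B := by
    intro t ht
    have h2 : ∫ x in Co c R H, max (-(σ * o t x)) 0 ≤ B := by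
      rw [ho]
      exact hneg t (hI t ht) (hT₁0.trans_le ht.1)
    refine le_trans ?_ h2
    have hi : IntegrableOn (fun x => max (-(σ * o t x)) 0) (Co c R H) :=
      (((continuous_const.mul (cO' t (hI t ht))).neg.max continuous_const).continuousOn.integrableOn_compact
        (Pool.Agent.Q24.AXI.Cy_compact c R H)).mono_set hCoCy
    exact setIntegral_mono_set hi (ae_of_all _ fun x => le_max_right _ _) hsub.eventuallyLE
  rw [ho] at hax' hneg'
  obtain ⟨M, hM, hmass⟩ := hhMass T E c R H K r h (r / 2) h1 T₁ B σ u p φ hA hK0 (by positivity)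
    (by linarith) hrR (by linarith) hh1 hh1h hhH (by linarith) hT₁p hT₁T hφ' hbK hσ hneg' hax'
  exact reg_two (T₀ := T₁) hT hr0 hh0 (axl_mono hA hr0.le hrR.le hhH.le) hT₁T
    (fun t ht htT => hmass t ⟨htT.le, ht.2⟩)

end Pool.Agent.D0H28.OV
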