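import Pool.Agent.D0H28.OV.Fin1

/-! Project OV (helper28): the pointwise bound, and the transfer to all viscosities. -/

set_option autoImplicit false

open MeasureTheory Set Metric Filter Topology
open scoped ContDiff
open H459R3.NS Pool.Agent.W268.NS

namespace Pool.Agent.D0H28.OV

open Pool.Agent.Q67.AXI Pool.Agent.TH305.AX Pool.Agent.Q85.CL
open Pool.Agent.W583.MD (slice)
open Pool.Agent.Q175.AX (sg_nn axis_ae)

lemma circ_vort {v : V → V} (hv : ContDiff ℝ ∞ v) (ha : Axi v) (x : V) :
    circ (vort v) x = sg x * OO v x := by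
  obtain ⟨-, -, h1, h2, -⟩ := (hAlg v hv ha).2.2.2 x
  unfold circ
  rw [h1, h2]
  unfold sg
  ring

lemma vort_axis (v : V → V) (z : ℝ) : vort (vort v) ![0, 0, z] 2 = 2 * OO v ![0, 0, z] := by
  have h1 : ∀ g : V → ℝ, AA g ![0, 0, z] = 1 / 2 * g ![0, 0, z] := by
    intro g
    unfold AA
    have e : ∀ l : ℝ, l * g ![l * (![0, 0, z] : V) 0, l * (![0, 0, z] : V) 1, (![0, 0, z] : V) 2]
        = l * g ![0, 0, z] := by
      intro l
      have e1 : (![l * (![0, 0, z] : V) 0, l * (![0, 0, z] : V) 1, (![0, 0, z] : V) 2] : V)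
          = ![0, 0, z] := by
        funext i
        fin_cases i
        · show l * 0 = 0
          ring
        · show l * 0 = 0
          ring
        · rfl
      rw [e1]
    simp_rw [e]
    rw [intervalIntegral.integral_mul_const, integral_id]
    norm_num
  unfold OO WW
  rw [h1]
  have e2 : vort (vort v) ![0, 0, z] 2 = pd 0 (fun y => vort v y 1) ![0, 0, z]
    - pd 1 (fun y => vort v y 0) ![0, 0, z] := rfl
  rw [e2]
  ring

/-- pointwise one-sided bound -/
theorem reg_pt {T E c R H T₀ B σ : ℝ} {u : ℝ → V → V} {p : ℝ → V → ℝ} (hT : 0 < T) (hR : 0 < R)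
    (hH : 0 < H) (hA : AxL T E c R H u p) (hT₀ : T₀ < T) (hσ : σ = 1 ∨ σ = -1)
    (hB : ∀ t ∈ Ioo 0 T, T₀ < t → ∀ x ∈ Co c R H, sg x ≠ 0 → -B ≤ σ * OO (u t) x) :
    Rg T u ![0, 0, c] := by
  obtain ⟨-, -, -, sO⟩ := hJnt T u hA.smooth_u
  obtain ⟨o, ho⟩ : ∃ o : ℝ → V → ℝ, o = fun t => OO (u t) := ⟨_, rfl⟩
  have sO' : ContDiffOn ℝ ∞ (fun z : ℝ × V => o z.1 z.2) (Ioo 0 T ×ˢ univ) := by
    rw [ho]; exact sO
  have cO : ∀ t ∈ Ioo 0 T, Continuous (o t) := fun t ht => (slice sO' ht).continuous
  -- on the axis by continuity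
  have hB' : ∀ t ∈ Ioo 0 T, T₀ < t → ∀ x ∈ Co c R H, max (-(σ * o t x)) 0 ≤ |B| := by
    intro t ht htT x hx
    refine max_le ?_ (abs_nonneg B)
    have h1 : ∀ y ∈ Co c R H, sg y ≠ 0 → -(σ * o t y) ≤ |B| := by
      intro y hy hsy
      have h2 := hB t ht htT y hy hsy
      rw [ho]
      have h3 := le_abs_self B
      show -(σ * OO (u t) y) ≤ |B|
      linarith
    by_cases hsx : sg x = 0
    · -- x is a limit of points off the axis
      by_contra hcon
      push Not at hcon
      have hc2 : Continuous fun y => -(σ * o t y) := (continuous_const.mul (cO t ht)).neg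
      have hop : IsOpen {y : V | |B| < -(σ * o t y)} := isOpen_lt continuous_const hc2
      have hop2 : IsOpen ({y : V | |B| < -(σ * o t y)} ∩ Co c R H) := hop.inter (Co_open c R H)
      obtain ⟨ε, hε, hsub⟩ := Metric.isOpen_iff.1 hop2 x ⟨hcon, hx⟩
      obtain ⟨y, hy⟩ : ∃ y : V, y = ![x 0 + ε / 2, x 1, x 2] := ⟨_, rfl⟩
      have hyb : y ∈ ball x ε := by
        rw [mem_ball, dist_eq_norm, pi_norm_lt_iff hε]
        intro i
        rw [hy]
        fin_cases i
        · show ‖x 0 + ε / 2 - x 0‖ < ε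
          rw [add_sub_cancel_left, Real.norm_eq_abs, abs_of_pos (by positivity)]
          linarith
        · show ‖x 1 - x 1‖ < ε
          rw [sub_self, norm_zero]
          exact hε
        · show ‖x 2 - x 2‖ < ε
          rw [sub_self, norm_zero]
          exact hε
      have hys : sg y ≠ 0 := by
        have h3 : x 0 = 0 := by
          unfold sg at hsx
          nlinarith [sq_nonneg (x 0), sq_nonneg (x 1)]
        rw [hy]
        show (x 0 + ε / 2) ^ 2 + x 1 ^ 2 ≠ 0
        rw [h3]
        have : 0 < (0 + ε / 2) ^ 2 := by positivity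
        positivity
      obtain ⟨h4, h5⟩ := hsub hyb
      exact absurd (h1 y h5 hys) (not_le.2 h4)
    · exact h1 x hx hsx
  have hCy := Pool.Agent.Q24.AXI.Cy_compact c R H
  have hCoCy : Co c R H ⊆ Cy c R H := fun x hx => ⟨le_of_lt hx.1, le_of_lt hx.2⟩
  have vCo : volume (Co c R H) < ⊤ := (measure_mono hCoCy).trans_lt hCy.measure_lt_top
  obtain ⟨vol, hvol⟩ : ∃ vol : ℝ, vol = (volume (Co c R H)).toReal := ⟨_, rfl⟩
  have hvol0 : 0 ≤ vol := by rw [hvol]; exact ENNReal.toReal_nonneg
  obtain ⟨B₁, hB₁⟩ : ∃ B₁ : ℝ, B₁ = max (|B| * vol) (|B| * (2 * H) * T) := ⟨_, rfl⟩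
  refine reg_one (B := B₁) hT hR hH hA hT₀ hσ ?_ ?_
  · intro t ht htT
    have h1 : ∫ x in Co c R H, max (-(σ * o t x)) 0 ≤ |B| * vol := by
      have h2 : ∫ x in Co c R H, max (-(σ * o t x)) 0 ≤ ∫ x in Co c R H, |B| :=
        setIntegral_mono_on
          ((((continuous_const.mul (cO t ht)).neg.max
            continuous_const).continuousOn.integrableOn_compact hCy).mono_set hCoCy)
          (integrableOn_const vCo.ne) (Co_open c R H).measurableSet
          (fun x hx => hB' t ht htT x hx)
      rw [setIntegral_const, smul_eq_mul, Measure.real, ← hvol] at h2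
      linarith
    rw [ho] at h1
    exact h1.trans (by rw [hB₁]; exact le_max_left _ _)
  · intro t₁ t₂ ht₁ hT₁ h12 h2T
    have hI : ∀ s ∈ Icc t₁ t₂, s ∈ Ioo 0 T := fun s hs => ⟨ht₁.trans_le hs.1, hs.2.trans_lt h2T⟩
    have hcc : ContinuousOn (fun z : ℝ × ℝ => max (-(σ * o z.1 ![0, 0, z.2])) 0)
        (Ioo 0 T ×ˢ univ) := by
      have a1 := axis_c2 sO'.continuousOn
      have a2 : ContinuousOn (fun z : ℝ × ℝ => -(σ * o z.1 ![0, 0, z.2])) (Ioo 0 T ×ˢ univ) :=
        (continuousOn_const.mul a1).neg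
      have a3 : Continuous fun r : ℝ => max r 0 := continuous_id.max continuous_const
      exact a3.comp_continuousOn a2
    have hcz : Continuous fun z : ℝ => (![0, 0, z] : V) := by
      refine continuous_pi fun i => ?_
      fin_cases i
      · exact continuous_const
      · exact continuous_const
      · exact continuous_id
    have hci : IntervalIntegrable (fun t => ∫ z in Ioo (c - H) (c + H),
        max (-(σ * o t ![0, 0, z])) 0) volume t₁ t₂ := by
      refine ContinuousOn.intervalIntegrable ?_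
      rw [uIcc_of_le h12]
      exact (pcont1 (g := fun t z => max (-(σ * o t ![0, 0, z])) 0) hcc).mono hI
    have h3 : ∫ t in t₁..t₂, ∫ z in Ioo (c - H) (c + H), max (-(σ * o t ![0, 0, z])) 0
        ≤ ∫ t in t₁..t₂, |B| * (2 * H) := by
      refine intervalIntegral.integral_mono_on h12 hci intervalIntegrable_const fun s hs => ?_
      have c2 : Continuous fun z : ℝ => max (-(σ * o s ![0, 0, z])) 0 :=
        (continuous_const.mul ((cO s (hI s hs)).comp hcz)).neg.max continuous_const
      have j2 : IntegrableOn (fun z : ℝ => max (-(σ * o s ![0, 0, z])) 0)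
          (Ioo (c - H) (c + H)) :=
        (c2.continuousOn.integrableOn_compact isCompact_Icc).mono_set Ioo_subset_Icc_self
      have h4 : ∫ z in Ioo (c - H) (c + H), max (-(σ * o s ![0, 0, z])) 0
          ≤ ∫ z in Ioo (c - H) (c + H), |B| := by
        refine setIntegral_mono_on j2 (integrableOn_const measure_Ioo_lt_top.ne)
          measurableSet_Ioo fun z hz => ?_
        refine hB' s (hI s hs) (hT₁.trans_le hs.1) _ ⟨?_, ?_⟩
        · show (0 : ℝ) ^ 2 + (0 : ℝ) ^ 2 < R ^ 2
          have : 0 < R ^ 2 := by positivity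
          linarith
        · show |z - c| < H
          rw [abs_lt]
          exact ⟨by linarith [hz.1], by linarith [hz.2]⟩
      refine h4.trans (le_of_eq ?_)
      rw [setIntegral_const, smul_eq_mul, Measure.real, Real.volume_Ioo,
        ENNReal.toReal_ofReal (by linarith)]
      ring
    rw [intervalIntegral.integral_const, smul_eq_mul] at h3
    have h4 : (t₂ - t₁) * (|B| * (2 * H)) ≤ |B| * (2 * H) * T := by
      have h5 : 0 ≤ |B| * (2 * H) := by positivity
      nlinarith
    rw [ho] at h3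
    refine (h3.trans h4).trans ?_
    rw [hB₁]
    exact le_max_right _ _

end Pool.Agent.D0H28.OV
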