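import Pool.Agent.D0H28.OV.Fin2

/-! Project OV (helper28): the transfer to all viscosities. -/

set_option autoImplicit false

open MeasureTheory Set Metric Filter Topology
open scoped ContDiff
open H459R3.NS Pool.Agent.W268.NS

namespace Pool.Agent.D0H28.OV

open Pool.Agent.Q67.AXI Pool.Agent.TH305.AX Pool.Agent.Q85.CL
open Pool.Agent.W583.MD (slice)
open Pool.Agent.Q175.AX (sg_nn axis_ae)

lemma transf {ν T E : ℝ} {Ω : Set V} {u : ℝ → V → V} {p : ℝ → V → ℝ} (hν : 0 < ν) (hT : 0 < T)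
    (h : DSl ν T E Ω u p)
    (hax : ∀ t ∈ Ioo 0 T, ∀ (θ : ℝ), ∀ x ∈ Ω, rot θ x ∈ Ω → u t (rot θ x) = rot θ (u t x))
    {c R : ℝ} (hR : 0 < R) (hsub : closedBall ![0, 0, c] (2 * R) ⊆ Ω) :
    ∃ (E' : ℝ) (v : ℝ → V → V) (q : ℝ → V → ℝ), AxL (ν * T) E' c R R v q ∧
      (∀ t ∈ Ioo 0 T, ∀ x ∈ Co c R R, v (ν * t) x = ν⁻¹ • u t x) ∧
      (∀ t ∈ Ioo 0 T, ∀ x ∈ Co c R R, sg x ≠ 0 →
        circ (vort (u t)) x / sg x = ν * OO (v (ν * t)) x) ∧
      (∀ t ∈ Ioo 0 T, ∀ z ∈ Ioo (c - R) (c + R),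
        vort (vort (u t)) ![0, 0, z] 2 = 2 * ν * OO (v (ν * t)) ![0, 0, z]) := by
  obtain ⟨E', v, q, hL, hv⟩ := hTra ν T E Ω u p hν hT h hax c (2 * R) (by positivity) hsub
  have e2 : 2 * R / 2 = R := by ring
  rw [e2] at hL hv
  have hmt : ∀ t ∈ Ioo 0 T, ν * t ∈ Ioo 0 (ν * T) := fun t ht =>
    ⟨mul_pos hν ht.1, mul_lt_mul_of_pos_left ht.2 hν⟩
  have svt : ∀ t ∈ Ioo 0 (ν * T), ContDiff ℝ ∞ (v t) := by
    intro t ht
    rw [← contDiffOn_univ]
    exact hL.smooth_u.comp (contDiff_const.prodMk contDiff_id).contDiffOn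
      (fun x _ => ⟨ht, mem_univ _⟩)
  have hvo : ∀ t ∈ Ioo 0 T, ∀ x ∈ Co c R R, vort (v (ν * t)) x = ν⁻¹ • vort (u t) x := by
    intro t ht x hx
    refine vort_evD ?_
    filter_upwards [(Co_open c R R).mem_nhds hx] with y hy
    exact hv t ht y hy
  have hvo2 : ∀ t ∈ Ioo 0 T, ∀ x ∈ Co c R R,
      vort (vort (v (ν * t))) x = ν⁻¹ • vort (vort (u t)) x := by
    intro t ht x hx
    refine vort_evD ?_
    filter_upwards [(Co_open c R R).mem_nhds hx] with y hy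
    exact hvo t ht y hy
  refine ⟨E', v, q, hL, hv, fun t ht x hx hs => ?_, fun t ht z hz => ?_⟩
  · have h1 := circ_vort (svt _ (hmt t ht)) (hL.axi _ (hmt t ht)) x
    rw [circ_cm (hvo t ht x hx)] at h1
    have h2 : circ (vort (u t)) x = ν * (sg x * OO (v (ν * t)) x) := by
      rw [← h1]
      field_simp
    rw [h2]
    field_simp
  · have hx : (![0, 0, z] : V) ∈ Co c R R := by
      refine ⟨?_, ?_⟩
      · show (0 : ℝ) ^ 2 + (0 : ℝ) ^ 2 < R ^ 2
        have : 0 < R ^ 2 := by positivity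
        linarith
      · show |z - c| < R
        rw [abs_lt]
        exact ⟨by linarith [hz.1], by linarith [hz.2]⟩
    have h1 := vort_axis (v (ν * t)) z
    rw [hvo2 t ht _ hx, Pi.smul_apply, smul_eq_mul] at h1
    have h2 : vort (vort (u t)) ![0, 0, z] 2 = ν * (2 * OO (v (ν * t)) ![0, 0, z]) := by
      rw [← h1]
      field_simp
    rw [h2]
    ring

lemma max_scale {k a b : ℝ} (hk : 0 ≤ k) (h : a = k * b) : max (-a) 0 = k * max (-b) 0 := by
  rw [h, mul_max_of_nonneg _ _ hk]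
  congr 1 <;> ring

/-- the sum of the two sides of the mass -/
theorem two_D {ν T E : ℝ} {Ω : Set V} {u : ℝ → V → V} {p : ℝ → V → ℝ} (hν : 0 < ν)
    (h : DSl ν T E Ω u p)
    (hax : ∀ t ∈ Ioo 0 T, ∀ (θ : ℝ), ∀ x ∈ Ω, rot θ x ∈ Ω → u t (rot θ x) = rot θ (u t x))
    {a : V} (ha0 : a 0 = 0) (ha1 : a 1 = 0) (hs : Sing T u a) {M T₀ R : ℝ} (hT₀ : T₀ < T)
    (hR : 0 < R) (hsub : closedBall a (2 * R) ⊆ Ω) :
    ∃ t ∈ Ioo 0 T, T₀ < t ∧ M < ∫ x in Co (a 2) R R, |circ (vort (u t)) x / sg x| := by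
  have hT := hs.pos
  have hae : a = ![0, 0, a 2] := by
    funext i
    fin_cases i
    · exact ha0
    · exact ha1
    · rfl
  by_contra hcon
  push Not at hcon
  rw [hae] at hsub
  obtain ⟨E', v, q, hL, hv, hO, -⟩ := transf hν hT h hax hR hsub
  have hmt : MapsTo (fun s : ℝ => s / ν) (Ioo 0 (ν * T)) (Ioo 0 T) := by
    intro s hs
    exact ⟨div_pos hs.1 hν, by rw [div_lt_iff₀ hν, mul_comm]; exact hs.2⟩
  have hreg := reg_two (M := ν⁻¹ * M) (T₀ := ν * T₀) (mul_pos hν hT) hR hR hL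
    (mul_lt_mul_of_pos_left hT₀ hν) (by
      intro t' ht' hT0t'
      have ht := hmt ht'
      have htν : ν * (t' / ν) = t' := by field_simp
      have hT0 : T₀ < t' / ν := by
        rw [lt_div_iff₀ hν, mul_comm]
        exact hT0t'
      have h1 := hcon (t' / ν) ht hT0
      have h2 : ∫ x in Co (a 2) R R, |circ (vort (u (t' / ν))) x / sg x|
          = ν * ∫ x in Co (a 2) R R, |OO (v t') x| := by
        rw [← integral_const_mul]
        refine setIntegral_congr_ae (Co_open _ _ _).measurableSet ?_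
        filter_upwards [axis_ae] with x hx hxC
        rw [hO _ ht x hxC hx, htν, abs_mul, abs_of_pos hν]
      rw [h2] at h1
      have h3 := mul_le_mul_of_nonneg_left h1 (inv_pos.2 hν).le
      rwa [← mul_assoc, inv_mul_cancel₀ hν.ne', one_mul] at h3)
  have hb := backA hν hv (mem_Co_self hR hR) hreg
  rw [← hae] at hb
  exact hs.not_bdd hb

theorem one_D {ν T E : ℝ} {Ω : Set V} {u : ℝ → V → V} {p : ℝ → V → ℝ} (hν : 0 < ν)
    (h : DSl ν T E Ω u p)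
    (hax : ∀ t ∈ Ioo 0 T, ∀ (θ : ℝ), ∀ x ∈ Ω, rot θ x ∈ Ω → u t (rot θ x) = rot θ (u t x))
    {a : V} (ha0 : a 0 = 0) (ha1 : a 1 = 0) (hs : Sing T u a) {σ : ℝ} (hσ : σ = 1 ∨ σ = -1)
    {B T₀ R : ℝ} (hT₀ : T₀ < T) (hR : 0 < R) (hsub : closedBall a (2 * R) ⊆ Ω) :
    (∃ t ∈ Ioo 0 T, T₀ < t ∧
      B < ∫ x in Co (a 2) R R, max (-(σ * (circ (vort (u t)) x / sg x))) 0) ∨
    ∃ t₁ t₂ : ℝ, 0 < t₁ ∧ T₀ < t₁ ∧ t₁ ≤ t₂ ∧ t₂ < T ∧
      B < ∫ t in t₁..t₂, ∫ z in Ioo (a 2 - R) (a 2 + R),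
        max (-(σ * vort (vort (u t)) ![0, 0, z] 2)) 0 := by
  have hT := hs.pos
  have hae : a = ![0, 0, a 2] := by
    funext i
    fin_cases i
    · exact ha0
    · exact ha1
    · rfl
  by_contra hcon
  push Not at hcon
  obtain ⟨hc1, hc2⟩ := hcon
  rw [hae] at hsub
  obtain ⟨E', v, q, hL, hv, hO, hX⟩ := transf hν hT h hax hR hsub
  have hmt : MapsTo (fun s : ℝ => s / ν) (Ioo 0 (ν * T)) (Ioo 0 T) := by
    intro s hs
    exact ⟨div_pos hs.1 hν, by rw [div_lt_iff₀ hν, mul_comm]; exact hs.2⟩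
  obtain ⟨o, ho⟩ : ∃ o : ℝ → V → ℝ, o = fun t => OO (v t) := ⟨_, rfl⟩
  have hO' : ∀ t ∈ Ioo 0 T, ∀ x ∈ Co (a 2) R R, sg x ≠ 0 →
      circ (vort (u t)) x / sg x = ν * o (ν * t) x := by rw [ho]; exact hO
  have hX' : ∀ t ∈ Ioo 0 T, ∀ z ∈ Ioo (a 2 - R) (a 2 + R),
      vort (vort (u t)) ![0, 0, z] 2 = 2 * ν * o (ν * t) ![0, 0, z] := by rw [ho]; exact hX
  have a1 : ∀ t' ∈ Ioo 0 (ν * T), ν * T₀ < t' →
      ∫ x in Co (a 2) R R, max (-(σ * o t' x)) 0 ≤ max (ν⁻¹ * B) (B / 2) := by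
    intro t' ht' hT0t'
    have ht := hmt ht'
    have htν : ν * (t' / ν) = t' := by field_simp
    have hT0 : T₀ < t' / ν := by
      rw [lt_div_iff₀ hν, mul_comm]
      exact hT0t'
    have h1 := hc1 (t' / ν) ht hT0
    have h2 : ∫ x in Co (a 2) R R, max (-(σ * (circ (vort (u (t' / ν))) x / sg x))) 0
        = ν * ∫ x in Co (a 2) R R, max (-(σ * o t' x)) 0 := by
      rw [← integral_const_mul]
      refine setIntegral_congr_ae (Co_open _ _ _).measurableSet ?_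
      filter_upwards [axis_ae] with x hx hxC
      refine max_scale hν.le ?_
      rw [hO' _ ht x hxC hx, htν]
      ring
    rw [h2] at h1
    have h3 := mul_le_mul_of_nonneg_left h1 (inv_pos.2 hν).le
    rw [← mul_assoc, inv_mul_cancel₀ hν.ne', one_mul] at h3
    exact h3.trans (le_max_left _ _)
  have a2 : ∀ t₁ t₂, 0 < t₁ → ν * T₀ < t₁ → t₁ ≤ t₂ → t₂ < ν * T →
      ∫ t in t₁..t₂, ∫ z in Ioo (a 2 - R) (a 2 + R), max (-(σ * o t ![0, 0, z])) 0
        ≤ max (ν⁻¹ * B) (B / 2) := by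
    intro t₁ t₂ ht₁ hTt₁ h12 h2T
    have h1 := hc2 (t₁ / ν) (t₂ / ν) (div_pos ht₁ hν) (by
      rw [lt_div_iff₀ hν, mul_comm]
      exact hTt₁) (div_le_div_of_nonneg_right h12 hν.le) (by
      rw [div_lt_iff₀ hν, mul_comm]
      exact h2T)
    have hle : t₁ / ν ≤ t₂ / ν := div_le_div_of_nonneg_right h12 hν.le
    have h2 : ∫ t in (t₁ / ν)..(t₂ / ν), ∫ z in Ioo (a 2 - R) (a 2 + R),
          max (-(σ * vort (vort (u t)) ![0, 0, z] 2)) 0
        = 2 * ∫ t in t₁..t₂, ∫ z in Ioo (a 2 - R) (a 2 + R), max (-(σ * o t ![0, 0, z])) 0 := by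
      obtain ⟨G, hG⟩ : ∃ G : ℝ → ℝ, G = fun t => ∫ z in Ioo (a 2 - R) (a 2 + R),
        max (-(σ * o t ![0, 0, z])) 0 := ⟨_, rfl⟩
      have h3 : ∫ t in (t₁ / ν)..(t₂ / ν), ∫ z in Ioo (a 2 - R) (a 2 + R),
          max (-(σ * vort (vort (u t)) ![0, 0, z] 2)) 0
          = ∫ t in (t₁ / ν)..(t₂ / ν), 2 * ν * G (ν * t) := by
        refine intervalIntegral.integral_congr fun s hs => ?_
        rw [uIcc_of_le hle] at hs
        have hs' : s ∈ Ioo 0 T := by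
          refine ⟨(div_pos ht₁ hν).trans_le hs.1, hs.2.trans_lt ?_⟩
          rw [div_lt_iff₀ hν, mul_comm]
          exact h2T
        show ∫ z in Ioo (a 2 - R) (a 2 + R), max (-(σ * vort (vort (u s)) ![0, 0, z] 2)) 0
          = 2 * ν * G (ν * s)
        rw [hG]
        show _ = 2 * ν * ∫ z in Ioo (a 2 - R) (a 2 + R), max (-(σ * o (ν * s) ![0, 0, z])) 0
        rw [← integral_const_mul]
        refine setIntegral_congr_fun measurableSet_Ioo fun z hz => ?_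
        refine max_scale (by positivity) ?_
        rw [hX' s hs' z hz]
        ring
      rw [h3, intervalIntegral.integral_const_mul,
        intervalIntegral.integral_comp_mul_left (fun t => G t) hν.ne', smul_eq_mul]
      have e1 : ν * (t₁ / ν) = t₁ := by field_simp
      have e2 : ν * (t₂ / ν) = t₂ := by field_simp
      rw [e1, e2, hG]
      field_simp
    rw [h2] at h1
    have h4 : ∫ t in t₁..t₂, ∫ z in Ioo (a 2 - R) (a 2 + R), max (-(σ * o t ![0, 0, z])) 0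
        ≤ B / 2 := by linarith
    exact h4.trans (le_max_right _ _)
  rw [ho] at a1 a2
  have hreg := reg_one (mul_pos hν hT) hR hR hL (mul_lt_mul_of_pos_left hT₀ hν) hσ a1 a2
  have hb := backA hν hv (mem_Co_self hR hR) hreg
  rw [← hae] at hb
  exact hs.not_bdd hb

/-- pointwise -/
theorem pt_D {ν T E : ℝ} {Ω : Set V} {u : ℝ → V → V} {p : ℝ → V → ℝ} (hν : 0 < ν)
    (h : DSl ν T E Ω u p)
    (hax : ∀ t ∈ Ioo 0 T, ∀ (θ : ℝ), ∀ x ∈ Ω, rot θ x ∈ Ω → u t (rot θ x) = rot θ (u t x))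
    {a : V} (ha : a ∈ Ω) (ha0 : a 0 = 0) (ha1 : a 1 = 0) (hs : Sing T u a) {σ : ℝ}
    (hσ : σ = 1 ∨ σ = -1) {B T₀ R : ℝ} (hT₀ : T₀ < T) (hR : 0 < R) :
    ∃ t ∈ Ioo 0 T, T₀ < t ∧ ∃ x : V, ‖x - a‖ ≤ R ∧ 0 < sg x ∧
      σ * (circ (vort (u t)) x / sg x) < -B := by
  have hT := hs.pos
  have hae : a = ![0, 0, a 2] := by
    funext i
    fin_cases i
    · exact ha0
    · exact ha1
    · rfl
  by_contra hcon
  push Not at hcon
  obtain ⟨R', hR', hRR, hsub⟩ := small_ball h.openO ha hR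
  rw [hae] at hsub
  have hR2 : 0 < R' / 2 := by positivity
  obtain ⟨E', v, q, hL, hv, hO, -⟩ := transf hν hT h hax hR2 (by
    rw [show 2 * (R' / 2) = R' by ring]; exact hsub)
  have hmt : MapsTo (fun s : ℝ => s / ν) (Ioo 0 (ν * T)) (Ioo 0 T) := by
    intro s hs
    exact ⟨div_pos hs.1 hν, by rw [div_lt_iff₀ hν, mul_comm]; exact hs.2⟩
  have hreg := reg_pt (B := ν⁻¹ * B) (T₀ := ν * T₀) (mul_pos hν hT) hR2 hR2 hL
    (mul_lt_mul_of_pos_left hT₀ hν) hσ (by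
      intro t' ht' hT0t' x hx hsx
      have ht := hmt ht'
      have htν : ν * (t' / ν) = t' := by field_simp
      have hT0 : T₀ < t' / ν := by
        rw [lt_div_iff₀ hν, mul_comm]
        exact hT0t'
      have hsx0 : 0 < sg x := lt_of_le_of_ne (sg_nn x) (Ne.symm hsx)
      have h1 := hcon (t' / ν) ht hT0 x (by
        rw [hae]
        refine (norm_Co hR2.le hx).trans ?_
        rw [max_self]
        linarith) hsx0
      rw [hO _ ht x hx hsx, htν] at h1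
      have h3 := mul_le_mul_of_nonneg_left h1 (inv_pos.2 hν).le
      have e1 : ν⁻¹ * (σ * (ν * OO (v t') x)) = σ * OO (v t') x := by field_simp
      rw [e1] at h3
      linarith)
  have hb := backA hν hv (mem_Co_self hR2 hR2) hreg
  rw [← hae] at hb
  exact hs.not_bdd hb

end Pool.Agent.D0H28.OV
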