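import Pool.Agent.D0H28.OV.Lev1

/-! Project OV (helper28): the bound of the mass from the behaviour at one level. -/

set_option autoImplicit false

open MeasureTheory Set Metric Filter Topology
open scoped ContDiff
open H459R3.NS Pool.Agent.W268.NS

namespace Pool.Agent.D0H28.OV

open Pool.Agent.Q67.AXI Pool.Agent.TH305.AX Pool.Agent.TH305.DR Pool.Agent.Q85.CL
open Pool.Agent.W583.MD (sm_pd cs_pd int_cs slice hd_slice)
open Pool.Agent.Q257.AXI (sg_sm sm_RR)
open Pool.Agent.Q175.AX (sg_nn axis_ae lap_sm)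

lemma lev_core (hA : StmAx) (H0 : StmH0) (T c R H K r h r1 h1 T₁ lam ε : ℝ) (B : ℝ → ℝ)
    (u : ℝ → V → V) (o w : ℝ → V → ℝ) (φ : V → ℝ)
    (svt : ∀ t ∈ Ioo 0 T, ContDiff ℝ ∞ (u t))
    (sO : ContDiffOn ℝ ∞ (fun z : ℝ × V => o z.1 z.2) (Ioo 0 T ×ˢ univ))
    (sW : ContDiffOn ℝ ∞ (fun z : ℝ × V => w z.1 z.2) (Ioo 0 T ×ˢ univ))
    (hdiv : ∀ t ∈ Ioo 0 T, DFO (Co c R H) (u t))
    (heq : ∀ t ∈ Ioo 0 T, ∀ x ∈ Co c R H, sg x ≠ 0 → deriv (fun s => o s x) t
      = LL (o t) x - W221.NS.adv (u t) (o t) x + 2 * w t x * pd 2 (w t) x)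
    (hK : 0 ≤ K) (hr1 : 0 < r1) (hr : r1 < r) (hrR : r < R) (hh1 : 0 < h1) (hh : h1 < h)
    (hhH : h < H) (hT₁ : 0 < T₁) (hT : T₁ < T) (hφ : Cut c r h r1 h1 K φ)
    (hBd : ∀ t ∈ Ico T₁ T, ∀ x ∈ Out c r h r1 h1, |o t x| ≤ K ∧ |w t x| ≤ K ∧ ∀ i, |u t x i| ≤ K)
    (hε : 0 < ε) (hBc : ContinuousOn B (Ioo 0 T)) (hBi : IntegrableOn B (Ioo 0 T))
    (hP : ∀ t ∈ Ico T₁ T, ∀ x ∈ Co c r h, sg x ≠ 0 → |o t x - lam| < ε →
      -(w t x ^ 2 * pd 2 (o t) x) ≤ gr2 (o t) x + B t) :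
    ∃ M : ℝ, 0 ≤ M ∧ ∀ t ∈ Ico T₁ T, ∫ x in Co c r h, |o t x| ≤ M := by
  obtain ⟨c₀, hc₀, hid⟩ := mass_id hA H0
  obtain ⟨C, j, hC, hj⟩ := jl_ex lam hε
  have hT0 : ∀ t ∈ Ico T₁ T, t ∈ Ioo 0 T := fun t ht => ⟨hT₁.trans_le ht.1, ht.2⟩
  have hsub : Co c r h ⊆ Co c R H := fun x hx =>
    ⟨hx.1.trans (by nlinarith), hx.2.trans hhH⟩
  have hCy : IsCompact (Cy c r h) := Pool.Agent.Q24.AXI.Cy_compact c r h
  have hCoCy : Co c r h ⊆ Cy c r h := fun x hx => ⟨le_of_lt hx.1, le_of_lt hx.2⟩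
  have mCo : MeasurableSet (Co c r h) := (Co_open c r h).measurableSet
  have vCo : volume (Co c r h) < ⊤ := (measure_mono hCoCy).trans_lt hCy.measure_lt_top
  obtain ⟨vol, hvol⟩ : ∃ vol : ℝ, vol = (volume (Co c r h)).toReal := ⟨_, rfl⟩
  have hvol0 : 0 ≤ vol := by rw [hvol]; exact ENNReal.toReal_nonneg
  have sOt : ∀ t ∈ Ioo 0 T, ContDiff ℝ ∞ (o t) := fun t ht => slice sO ht
  have sWt : ∀ t ∈ Ioo 0 T, ContDiff ℝ ∞ (w t) := fun t ht => slice sW ht
  -- the mass
  obtain ⟨Mm, hMm⟩ : ∃ Mm : ℝ → ℝ, Mm = fun t => ∫ x, φ x * j (o t x) := ⟨_, rfl⟩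
  obtain ⟨C₁, hC₁⟩ : ∃ C₁ : ℝ, C₁ = ((3 * (K + |lam|) + 4 * ε) * (3 * K + 3 * (K * K))
    + K * K ^ 2) * vol := ⟨_, rfl⟩
  have hC₁0 : 0 ≤ C₁ := by rw [hC₁]; positivity
  have hder : ∀ t ∈ Ioo 0 T, t ∈ Ico T₁ T → ∃ D' : ℝ, HasDerivAt Mm D' t ∧
      D' ≤ C₁ + C * vol * |B t| := by
    intro t ht ht1
    obtain ⟨ρ, hρ⟩ := hφ.cs.isCompact.isBounded.subset_closedBall (0 : V)
    have sG : ContDiffOn ℝ ∞ (fun z : ℝ × V => φ z.2 * j (o z.1 z.2)) (Ioo 0 T ×ˢ univ) :=
      ((hφ.sm.comp contDiff_snd).contDiffOn).mul (hj.sm.comp_contDiffOn sO)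
    have cG : ∀ s ∈ Ioo 0 T, ∀ z ∉ closedBall (0 : V) ρ, φ z * j (o s z) = 0 := by
      intro s _ z hz'
      rw [image_eq_zero_of_notMem_tsupport fun h => hz' (hρ h), zero_mul]
    have hd := Pool.Agent.Q119.AXI.hd_int' (F := fun s x => φ x * j (o s x)) sG cG ht
    have hMe : (fun s => ∫ x, φ x * j (o s x)) = Mm := by rw [hMm]
    rw [hMe] at hd
    refine ⟨_, hd, ?_⟩
    have hpt : ∀ᵐ x : V, deriv (fun s => φ x * j (o s x)) t
        = φ x * (deriv j (o t x) * (LL (o t) x - W221.NS.adv (u t) (o t) x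
          + 2 * w t x * pd 2 (w t) x)) := by
      filter_upwards [axis_ae] with x hx
      have h2 := hd_slice sO ht x
      have h3 : HasDerivAt (fun s => o s x) (deriv (fun s => o s x) t) t := by
        rw [← h2.deriv] at h2; exact h2
      have h4 : HasDerivAt j (deriv j (o t x)) (o t x) :=
        (hj.sm.differentiable (by norm_cast) _).hasDerivAt
      have h5 := (h4.comp t h3).const_mul (φ x)
      have h5' : deriv (fun s => φ x * j (o s x)) t
          = φ x * (deriv j (o t x) * deriv (fun s => o s x) t) := h5.deriv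
      rw [h5']
      by_cases hxs : x ∈ tsupport φ
      · rw [heq t ht x (hsub (hφ.supp hxs)) hx]
      · rw [image_eq_zero_of_notMem_tsupport hxs, zero_mul, zero_mul]
    rw [integral_congr_ae hpt]
    have h5 := lev_time (B := |B t|) hc₀ hid hj hε hC (svt t ht) (hdiv t ht) (sOt t ht)
      (sWt t ht) hK hφ hsub hvol (hBd t ht1) (abs_nonneg _) (fun x hx hs hl => by
        have := hP t ht1 x hx hs hl
        have h6 := le_abs_self (B t)
        linarith)
    refine h5.trans (le_of_eq ?_)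
    rw [hC₁]
    ring
  -- the bound of the mass
  obtain ⟨IB, hIB⟩ : ∃ IB : ℝ, IB = ∫ s in Ioo 0 T, |B s| := ⟨_, rfl⟩
  obtain ⟨M₁, hM₁⟩ : ∃ M₁ : ℝ, M₁ = |Mm T₁| + C₁ * (T - T₁) + C * vol * IB := ⟨_, rfl⟩
  have hmass : ∀ t ∈ Ico T₁ T, Mm t ≤ M₁ := by
    intro t' ht'
    have hI : ∀ s ∈ Icc T₁ t', s ∈ Ico T₁ T := fun s hs => ⟨hs.1, hs.2.trans_lt ht'.2⟩
    have hAcI : ContinuousOn (fun s => |B s|) (Icc T₁ t') :=
      (hBc.mono fun s hs => hT0 s (hI s hs)).abs
    obtain ⟨W, hW⟩ : ∃ W : ℝ → ℝ, W = fun s => C₁ + C * vol * |B s| := ⟨_, rfl⟩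
    have hWc : ContinuousOn W (Icc T₁ t') := by
      rw [hW]; exact continuousOn_const.add (continuousOn_const.mul hAcI)
    obtain ⟨Φ, hΦ⟩ : ∃ Φ : ℝ → ℝ, Φ = fun t => Mm t - ∫ s in T₁..t, W s := ⟨_, rfl⟩
    have hMc : ContinuousOn Mm (Icc T₁ t') := by
      intro s hs
      obtain ⟨D', h2, -⟩ := hder s (hT0 s (hI s hs)) (hI s hs)
      exact h2.continuousAt.continuousWithinAt
    have hWd : ∀ s ∈ Ioo T₁ t', HasDerivAt (fun t => ∫ s in T₁..t, W s) (W s) s := by
      intro s hs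
      have hsub : uIcc T₁ s ⊆ Icc T₁ t' := by
        rw [uIcc_of_le hs.1.le]
        exact Icc_subset_Icc_right hs.2.le
      have hn : Icc T₁ t' ∈ 𝓝 s := Icc_mem_nhds hs.1 hs.2
      exact intervalIntegral.integral_hasDerivAt_right ((hWc.mono hsub).intervalIntegrable)
        (hWc.stronglyMeasurableAtFilter_nhdsWithin measurableSet_Icc s |>.filter_mono (by
          rw [nhdsWithin_eq_nhds.2 hn])) (hWc.continuousAt hn)
    have hΦc : ContinuousOn Φ (Icc T₁ t') := by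
      rw [hΦ]
      have h2 : ContinuousOn (fun t => ∫ s in T₁..t, W s) (Icc T₁ t') := by
        have := intervalIntegral.continuousOn_primitive_interval (μ := volume) (f := W)
          (a := T₁) (b := t') (by
            rw [uIcc_of_le ht'.1]
            exact hWc.integrableOn_compact isCompact_Icc)
        rwa [uIcc_of_le ht'.1] at this
      exact hMc.sub h2
    have hanti : AntitoneOn Φ (Icc T₁ t') := by
      refine antitoneOn_of_deriv_nonpos (convex_Icc T₁ t') hΦc ?_ ?_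
      · intro s hs
        rw [interior_Icc] at hs
        have hs' := hI s (Ioo_subset_Icc_self hs)
        obtain ⟨D', h2, -⟩ := hder s (hT0 s hs') hs'
        rw [hΦ]
        exact (h2.sub (hWd s hs)).differentiableAt.differentiableWithinAt
      · intro s hs
        rw [interior_Icc] at hs
        have hs' := hI s (Ioo_subset_Icc_self hs)
        obtain ⟨D', h2, h3⟩ := hder s (hT0 s hs') hs'
        have e : deriv Φ s = D' - W s := by
          rw [hΦ]
          exact (h2.sub (hWd s hs)).deriv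
        rw [e, hW]
        simp only
        linarith
    have h2 := hanti (left_mem_Icc.2 ht'.1) (right_mem_Icc.2 ht'.1) ht'.1
    rw [hΦ] at h2
    simp only [intervalIntegral.integral_same, sub_zero] at h2
    have hAi : IntervalIntegrable (fun s => |B s|) volume T₁ t' := by
      refine ContinuousOn.intervalIntegrable ?_
      rwa [uIcc_of_le ht'.1]
    have h3 : ∫ s in T₁..t', W s = C₁ * (t' - T₁) + C * vol * ∫ s in T₁..t', |B s| := by
      rw [hW, intervalIntegral.integral_add intervalIntegrable_const (hAi.const_mul _),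
        intervalIntegral.integral_const, intervalIntegral.integral_const_mul, smul_eq_mul]
      ring
    have h4 : ∫ s in T₁..t', |B s| ≤ IB := by
      rw [hIB, intervalIntegral.integral_of_le ht'.1]
      refine setIntegral_mono_set hBi.abs (ae_of_all _ fun s => abs_nonneg _) ?_
      refine HasSubset.Subset.eventuallyLE fun s hs => ?_
      exact ⟨hT₁.trans hs.1, hs.2.trans_lt ht'.2⟩
    rw [h3] at h2
    have h5 : C₁ * (t' - T₁) ≤ C₁ * (T - T₁) :=
      mul_le_mul_of_nonneg_left (by linarith [ht'.2]) hC₁0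
    have h6 : C * vol * ∫ s in T₁..t', |B s| ≤ C * vol * IB :=
      mul_le_mul_of_nonneg_left h4 (by positivity)
    have h7 := le_abs_self (Mm T₁)
    rw [hM₁]
    linarith
  -- the bound of the absolute value
  refine ⟨|M₁| + (|lam| + K) * vol, by positivity, fun t ht => ?_⟩
  have ht0 := hT0 t ht
  have cO : Continuous (o t) := (sOt t ht0).continuous
  have cφ : Continuous φ := hφ.sm.continuous
  have jabs : IntegrableOn (fun x => |o t x|) (Co c r h) :=
    (cO.abs.continuousOn.integrableOn_compact hCy).mono_set hCoCy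
  have j1 : IntegrableOn (fun x => φ x * j (o t x)) (Co c r h) :=
    ((cφ.mul (hj.sm.continuous.comp cO)).continuousOn.integrableOn_compact hCy).mono_set hCoCy
  have hpt : ∀ x ∈ Co c r h, |o t x| ≤ φ x * j (o t x) + (|lam| + K) := by
    intro x hx
    have n0 := hφ.nn x
    have n1 := hφ.le x
    have h2 := hj.lo (o t x)
    by_cases hxi : x ∈ Cy c r1 h1
    · rw [hφ.one x hxi, one_mul]
      have h3 := abs_sub_abs_le_abs_sub (o t x) lam
      linarith
    · have hxO : x ∈ Out c r h r1 h1 := by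
        refine ⟨hCoCy hx, ?_⟩
        by_contra hcon
        push Not at hcon
        exact hxi ⟨le_of_lt hcon.1, le_of_lt hcon.2⟩
      have h7 : |o t x| ≤ K := (hBd t ht x hxO).1
      have h8 : 0 ≤ φ x * j (o t x) := mul_nonneg n0 ((abs_nonneg _).trans h2)
      linarith [abs_nonneg lam]
  have h2 : ∫ x in Co c r h, |o t x| ≤ ∫ x in Co c r h, (φ x * j (o t x) + (|lam| + K)) :=
    setIntegral_mono_on jabs (j1.add (integrableOn_const vCo.ne)) mCo hpt
  rw [integral_add j1 (integrableOn_const vCo.ne), setIntegral_const, smul_eq_mul, Measure.real,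
    ← hvol] at h2
  have h3 : ∫ x in Co c r h, φ x * j (o t x) = Mm t := by
    rw [hMm]
    refine setIntegral_eq_integral_of_forall_compl_eq_zero fun x hx => ?_
    rw [image_eq_zero_of_notMem_tsupport fun h => hx (hφ.supp h), zero_mul]
  rw [h3] at h2
  have h4 := hmass t ht
  have h6 := le_abs_self M₁
  have h8 : vol * (|lam| + K) = (|lam| + K) * vol := mul_comm _ _
  linarith

end Pool.Agent.D0H28.OV
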