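import Pool.Agent.D0H28.OV.Odd2

/-! Project OV (helper28): the mass bound for flows with an invariant plane. -/

set_option autoImplicit false

open MeasureTheory Set Metric Filter Topology
open scoped ContDiff
open H459R3.NS Pool.Agent.W268.NS

namespace Pool.Agent.D0H28.OV

open Pool.Agent.Q67.AXI Pool.Agent.TH305.AX Pool.Agent.TH305.DR Pool.Agent.Q85.CL
open Pool.Agent.W583.MD (sm_pd cs_pd int_cs slice hd_slice)
open Pool.Agent.Q257.AXI (sg_sm sm_RR)
open Pool.Agent.Q175.AX (sg_nn axis_ae lap_sm)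

/-- linear bound from the derivative along vertical segments -/
lemma lin_bd {c r h h₂ e L : ℝ} {g : V → ℝ} (hh : 0 < h) (hh2 : h < h₂) (hg : ContDiff ℝ ∞ g)
    (hL : ∀ x ∈ Cy c r h₂, |pd 2 g x| ≤ L) (hL' : ∀ x ∈ Cy c r h₂, |g x| ≤ L)
    (h0 : ∀ x ∈ Co c r h₂, x 2 = e → g x = 0) {x : V} (hx : x ∈ Co c r h) :
    |g x| ≤ (L + L / (h₂ - h)) * |x 2 - e| := by
  have hL0 : 0 ≤ L := by
    have h2 : x ∈ Cy c r h₂ := ⟨le_of_lt hx.1, le_of_lt (hx.2.trans hh2)⟩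
    exact (abs_nonneg _).trans (hL x h2)
  have hd0 : 0 < h₂ - h := by linarith
  by_cases hfar : |x 2 - e| < h₂ - h
  · obtain ⟨γ, hγ⟩ : ∃ γ : ℝ → V, γ = fun z => ![x 0, x 1, z] := ⟨_, rfl⟩
    have hγx : γ (x 2) = x := by
      rw [hγ]
      funext i
      fin_cases i <;> rfl
    have hγd : ∀ z, HasDerivAt γ (Pi.single 2 1) z := by
      intro z
      rw [hγ, hasDerivAt_pi]
      intro i
      fin_cases i
      · simpa using hasDerivAt_const z (x 0)
      · simpa using hasDerivAt_const z (x 1)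
      · have h2 : HasDerivAt (fun y : ℝ => y) ((Pi.single 2 1 : V) 2) z := by
          rw [Pi.single_eq_same]
          exact hasDerivAt_id' z
        exact h2
    have hd : ∀ z, HasDerivAt (fun z => g (γ z)) (pd 2 g (γ z)) z := by
      intro z
      have h2 : HasFDerivAt g (fderiv ℝ g (γ z)) (γ z) :=
        (hg.differentiable (by norm_cast) _).hasFDerivAt
      exact h2.comp_hasDerivAt z (hγd z)
    have hec : |e - c| < h₂ := by
      have h3 : |e - c| ≤ |x 2 - e| + |x 2 - c| := by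
        rw [abs_sub_comm (x 2) e]
        exact abs_sub_le _ _ _
      linarith [hx.2]
    have hseg : ∀ z ∈ uIcc e (x 2), γ z ∈ Cy c r h₂ := by
      intro z hz
      rw [hγ]
      refine ⟨?_, ?_⟩
      · show x 0 ^ 2 + x 1 ^ 2 ≤ r ^ 2
        exact le_of_lt hx.1
      · show |z - c| ≤ h₂
        have h2 := hx.2
        rw [abs_lt] at hec h2
        rw [mem_uIcc] at hz
        rw [abs_le]
        rcases hz with hz | hz <;> constructor <;> linarith [hz.1, hz.2, h2.1, h2.2, hec.1, hec.2]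
    have h3 := (convex_uIcc e (x 2)).norm_image_sub_le_of_norm_hasDerivWithin_le
      (f := fun z => g (γ z)) (f' := fun z => pd 2 g (γ z)) (C := L)
      (fun z _ => (hd z).hasDerivWithinAt)
      (fun z hz => by rw [Real.norm_eq_abs]; exact hL _ (hseg z hz)) left_mem_uIcc right_mem_uIcc
    have h4 : g (γ e) = 0 := by
      refine h0 _ ?_ ?_
      · rw [hγ]
        refine ⟨?_, ?_⟩
        · show x 0 ^ 2 + x 1 ^ 2 < r ^ 2
          exact hx.1
        · show |e - c| < h₂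
          exact hec
      · rw [hγ]
        rfl
    simp only [h4, hγx, sub_zero, Real.norm_eq_abs] at h3
    refine h3.trans (mul_le_mul_of_nonneg_right ?_ (abs_nonneg _))
    have : 0 ≤ L / (h₂ - h) := by positivity
    linarith
  · have h2 : x ∈ Cy c r h₂ := ⟨le_of_lt hx.1, le_of_lt (hx.2.trans hh2)⟩
    have h3 := hL' x h2
    have h4 := not_lt.1 hfar
    have h5 : L ≤ L / (h₂ - h) * |x 2 - e| := by
      rw [div_mul_eq_mul_div, le_div_iff₀ hd0]
      exact mul_le_mul_of_nonneg_left h4 hL0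
    have h6 : 0 ≤ L * |x 2 - e| := by positivity
    rw [add_mul]
    linarith

/-- the function vanishes in the plane where it changes its sign -/
lemma zero_pl {c R H B e : ℝ} {g : V → ℝ} (hg : Continuous g) (hB : 0 ≤ B)
    (hP : ∀ x ∈ Co c R H, -(B * min ((x 2 - e) ^ 2) |x 2 - e|) ≤ (x 2 - e) * g x) :
    ∀ x ∈ Co c R H, x 2 = e → g x = 0 := by
  intro x hx hxe
  obtain ⟨γ, hγ⟩ : ∃ γ : ℝ → V, γ = fun z => ![x 0, x 1, e + z] := ⟨_, rfl⟩
  have hγc : Continuous γ := by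
    rw [hγ]
    refine continuous_pi fun i => ?_
    fin_cases i
    · exact continuous_const
    · exact continuous_const
    · exact continuous_const.add continuous_id
  have hγ0 : γ 0 = x := by
    rw [hγ]
    funext i
    fin_cases i
    · rfl
    · rfl
    · show e + 0 = x 2
      rw [hxe, add_zero]
  obtain ⟨δ, hδ⟩ : ∃ δ : ℝ, δ = H - |x 2 - c| := ⟨_, rfl⟩
  have hδ0 : 0 < δ := by rw [hδ]; linarith [hx.2]
  have hmem : ∀ z : ℝ, |z| < δ → γ z ∈ Co c R H := by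
    intro z hz
    rw [hγ]
    refine ⟨hx.1, ?_⟩
    show |e + z - c| < H
    have h2 : |e + z - c| ≤ |x 2 - c| + |z| := by
      have : e + z - c = (x 2 - c) + z := by rw [hxe]; ring
      rw [this]
      exact abs_add_le _ _
    rw [hδ] at hz
    linarith
  have hz2 : ∀ z, (γ z) 2 - e = z := by
    intro z
    rw [hγ]
    show e + z - e = z
    ring
  have hup : ∀ z ∈ Ioo 0 δ, -(B * z) ≤ g (γ z) := by
    intro z hz
    have h2 := hP (γ z) (hmem z (by rw [abs_of_pos hz.1]; exact hz.2))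
    rw [hz2] at h2
    have h3 : B * min (z ^ 2) |z| ≤ B * z ^ 2 := mul_le_mul_of_nonneg_left (min_le_left _ _) hB
    have h4 : z * -(B * z) ≤ z * g (γ z) := by nlinarith
    exact le_of_mul_le_mul_left h4 hz.1
  have hdn : ∀ z ∈ Ioo 0 δ, g (γ (-z)) ≤ B * z := by
    intro z hz
    have h2 := hP (γ (-z)) (hmem (-z) (by rw [abs_neg, abs_of_pos hz.1]; exact hz.2))
    rw [hz2] at h2
    have h3 : B * min ((-z) ^ 2) |(-z)| ≤ B * (-z) ^ 2 :=
      mul_le_mul_of_nonneg_left (min_le_left _ _) hB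
    have h4 : z * g (γ (-z)) ≤ z * (B * z) := by nlinarith
    exact le_of_mul_le_mul_left h4 hz.1
  have hcl : (0 : ℝ) ∈ closure (Ioo 0 δ) := by
    rw [closure_Ioo hδ0.ne]
    exact left_mem_Icc.2 hδ0.le
  have h1 : -(B * 0) ≤ g (γ 0) := by
    have hc : IsClosed {z : ℝ | -(B * z) ≤ g (γ z)} :=
      isClosed_le (by fun_prop) (hg.comp hγc)
    exact hc.closure_subset_iff.2 (fun z hz => hup z hz) hcl
  have h2 : g (γ (-0)) ≤ B * 0 := by
    have hc : IsClosed {z : ℝ | g (γ (-z)) ≤ B * z} :=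
      isClosed_le (hg.comp (hγc.comp continuous_neg)) (by fun_prop)
    exact hc.closure_subset_iff.2 (fun z hz => hdn z hz) hcl
  rw [neg_zero, hγ0, mul_zero] at h2
  rw [hγ0, mul_zero, neg_zero] at h1
  exact le_antisymm h2 h1

/-- the bound of the mass from the sign of `(x₂ - ζ) Ω`, for a moving plane `x₂ = ζ` -/
lemma odd_core (hA : StmAx) (H0 : StmH0) (T c R H K r h r1 h1 T₁ B σ : ℝ) (ζ : ℝ → ℝ)
    (u : ℝ → V → V) (o w : ℝ → V → ℝ) (φ : V → ℝ) (hζ : ContDiffOn ℝ ∞ ζ (Ioo 0 T))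
    (sU : ∀ i, ContDiffOn ℝ ∞ (fun z : ℝ × V => u z.1 z.2 i) (Ioo 0 T ×ˢ univ))
    (svt : ∀ t ∈ Ioo 0 T, ContDiff ℝ ∞ (u t))
    (sO : ContDiffOn ℝ ∞ (fun z : ℝ × V => o z.1 z.2) (Ioo 0 T ×ˢ univ))
    (sW : ContDiffOn ℝ ∞ (fun z : ℝ × V => w z.1 z.2) (Ioo 0 T ×ˢ univ))
    (hdiv : ∀ t ∈ Ioo 0 T, DFO (Co c R H) (u t))
    (heq : ∀ t ∈ Ioo 0 T, ∀ x ∈ Co c R H, sg x ≠ 0 → deriv (fun s => o s x) t
      = LL (o t) x - W221.NS.adv (u t) (o t) x + 2 * w t x * pd 2 (w t) x)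
    (hK : 0 ≤ K) (hr1 : 0 < r1) (hr : r1 < r) (hrR : r < R) (hh1 : 0 < h1) (hh : h1 < h)
    (hhH : h < H) (hT₁ : 0 < T₁) (hT : T₁ < T) (hφ : Cut c r h r1 h1 K φ)
    (hBd : ∀ t ∈ Ico T₁ T, ∀ x ∈ Out c r h r1 h1, |o t x| ≤ K ∧ |w t x| ≤ K ∧
      (∀ i, |u t x i| ≤ K) ∧ |pd 2 (o t) x| ≤ K)
    (hσ : σ = 1 ∨ σ = -1) (hB : 0 ≤ B)
    (hP : ∀ t ∈ Ico T₁ T, ∀ x ∈ Co c R H,
      -(B * min ((x 2 - ζ t) ^ 2) |x 2 - ζ t|) ≤ (x 2 - ζ t) * (σ * o t x))
    (hw0 : σ = 1 ∨ ∀ t ∈ Ico T₁ T, ∀ x ∈ Co c R H, x 2 = ζ t → w t x = 0) :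
    ∃ M : ℝ, 0 ≤ M ∧ ∀ t ∈ Ico T₁ T, ∫ x in Co c r h, |o t x| ≤ M := by
  obtain ⟨c₀, hc₀, hid⟩ := mass_id hA H0
  have hT0 : ∀ t ∈ Ico T₁ T, t ∈ Ioo 0 T := fun t ht => ⟨hT₁.trans_le ht.1, ht.2⟩
  have hσa : |σ| = 1 := by rcases hσ with h | h <;> rw [h] <;> norm_num
  have hh0 : 0 < h := hh1.trans hh
  have hsub : Co c r h ⊆ Co c R H := fun x hx =>
    ⟨hx.1.trans (by nlinarith), hx.2.trans hhH⟩
  have hCy : IsCompact (Cy c r h) := Pool.Agent.Q24.AXI.Cy_compact c r h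
  have hCoCy : Co c r h ⊆ Cy c r h := fun x hx => ⟨le_of_lt hx.1, le_of_lt hx.2⟩
  have mCo : MeasurableSet (Co c r h) := (Co_open c r h).measurableSet
  have vCo : volume (Co c r h) < ⊤ := (measure_mono hCoCy).trans_lt hCy.measure_lt_top
  obtain ⟨vol, hvol⟩ : ∃ vol : ℝ, vol = (volume (Co c r h)).toReal := ⟨_, rfl⟩
  have hvol0 : 0 ≤ vol := by rw [hvol]; exact ENNReal.toReal_nonneg
  have sOt : ∀ t ∈ Ioo 0 T, ContDiff ℝ ∞ (o t) := fun t ht => slice sO ht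
  have sWt : ∀ t ∈ Ioo 0 T, ContDiff ℝ ∞ (w t) := fun t ht => slice sW ht
  obtain ⟨K₂, hK₂⟩ : ∃ K₂ : ℝ, ∀ x, ‖pd 2 (pd 2 φ) x‖ ≤ K₂ :=
    (cs_pd (cs_pd hφ.cs 2) 2).exists_bound_of_continuous (sm_pd (sm_pd hφ.sm 2) 2).continuous
  have hK₂0 : 0 ≤ K₂ := (norm_nonneg _).trans (hK₂ 0)
  obtain ⟨M₀, hM₀⟩ : ∃ M₀ : ℝ, M₀ = ∫ x in Co c r h, |o T₁ x| := ⟨_, rfl⟩
  have hM₀0 : 0 ≤ M₀ := by rw [hM₀]; exact integral_nonneg fun x => abs_nonneg _
  obtain ⟨C₂, hC₂⟩ : ∃ C₂ : ℝ, C₂ = (K * (3 * K + 3 * (K * K)) + K * K ^ 2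
    + 2 * (K₂ * K + K * K) + B * K + (2 * K + 1)) * vol + 2 * c₀ * (B * (2 * h)) := ⟨_, rfl⟩
  obtain ⟨h₂, hh₂⟩ : ∃ h₂ : ℝ, h₂ = (h + H) / 2 := ⟨_, rfl⟩
  have hhh₂ : h < h₂ := by rw [hh₂]; linarith
  have hh₂H : h₂ < H := by rw [hh₂]; linarith
  have hsub₂ : Co c r h₂ ⊆ Co c R H := fun x hx =>
    ⟨hx.1.trans (by nlinarith), hx.2.trans hh₂H⟩
  have hCy₂ : IsCompact (Cy c r h₂) := Pool.Agent.Q24.AXI.Cy_compact c r h₂
  have hσ2 : ∀ y : ℝ, σ * y = 0 → y = 0 := by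
    intro y hy
    rcases hσ with h2 | h2 <;> rw [h2] at hy <;> linarith
  have ho0 : ∀ t ∈ Ico T₁ T, ∀ x ∈ Co c R H, x 2 = ζ t → o t x = 0 := by
    intro t ht x hx hxe
    have hcg : Continuous fun y => σ * o t y :=
      continuous_const.mul (sOt t (hT0 t ht)).continuous
    exact hσ2 _ (zero_pl hcg hB (hP t ht) x hx hxe)
  have hC₂0 : 0 ≤ C₂ := by rw [hC₂]; positivity
  refine ⟨M₀ + C₂ * (T - T₁) + (2 * B + 1 + 2 * K) * vol, by
    have : 0 ≤ C₂ * (T - T₁) := mul_nonneg hC₂0 (by linarith)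
    positivity, ?_⟩
  intro t' ht'
  -- the constant `L` up to the time `t'`
  have hIc : ∀ s ∈ Icc T₁ t', s ∈ Ico T₁ T := fun s hs => ⟨hs.1, hs.2.trans_lt ht'.2⟩
  have hcb : ∀ f : ℝ → V → ℝ, ContDiffOn ℝ ∞ (fun z : ℝ × V => f z.1 z.2) (Ioo 0 T ×ˢ univ) →
      ∃ C : ℝ, 0 ≤ C ∧ ∀ t ∈ Icc T₁ t', ∀ x ∈ Cy c r h₂, |pd 2 (f t) x| ≤ C ∧ |f t x| ≤ C := by
    intro f hf
    have h2 := Pool.Agent.Q119.AXI.cont_pd hf 2
    have hKc : IsCompact (Icc T₁ t' ×ˢ Cy c r h₂) := isCompact_Icc.prod hCy₂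
    have hsb : Icc T₁ t' ×ˢ Cy c r h₂ ⊆ Ioo 0 T ×ˢ (univ : Set V) :=
      prod_mono (fun s hs => hT0 s (hIc s hs)) (subset_univ _)
    obtain ⟨C, hC⟩ := hKc.exists_bound_of_continuousOn (h2.mono hsb)
    obtain ⟨C', hC'⟩ := hKc.exists_bound_of_continuousOn (hf.continuousOn.mono hsb)
    refine ⟨max |C| |C'|, (abs_nonneg C).trans (le_max_left _ _), fun t ht x hx => ⟨?_, ?_⟩⟩
    · exact (hC (t, x) ⟨ht, hx⟩).trans ((le_abs_self _).trans (le_max_left _ _))
    · exact (hC' (t, x) ⟨ht, hx⟩).trans ((le_abs_self _).trans (le_max_right _ _))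
  have hζd : ∀ s ∈ Ioo 0 T, HasDerivAt ζ (deriv ζ s) s := fun s hs =>
    ((hζ.contDiffAt (isOpen_Ioo.mem_nhds hs)).differentiableAt (by norm_cast)).hasDerivAt
  obtain ⟨L1, hL10, hL1⟩ := hcb o sO
  obtain ⟨L2, hL20, hL2⟩ := hcb (fun t x => u t x 2) (sU 2)
  obtain ⟨L3, hL30, hL3⟩ := hcb w sW
  obtain ⟨L4, hL4⟩ : ∃ L4 : ℝ, ∀ t ∈ Icc T₁ t', ‖deriv ζ t‖ ≤ L4 :=
    isCompact_Icc.exists_bound_of_continuousOn ((hζ.continuousOn_deriv_of_isOpen isOpen_Ioo
      (by norm_cast)).mono fun s hs => hT0 s (hIc s hs))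
  have hL40 : 0 ≤ L4 := (norm_nonneg _).trans (hL4 T₁ (left_mem_Icc.2 ht'.1))
  obtain ⟨D, hD⟩ : ∃ D : ℝ, D = 1 / (h₂ - h) := ⟨_, rfl⟩
  have hD0 : 0 ≤ D := by
    rw [hD]
    have : 0 < h₂ - h := by linarith
    positivity
  obtain ⟨L, hL⟩ : ∃ L : ℝ, L = (L1 + L1 * D) + (L3 + L3 * D) + (L2 + L4) := ⟨_, rfl⟩
  have hL0 : 0 ≤ L := by rw [hL]; positivity
  have l1 : L1 + L1 / (h₂ - h) ≤ L := by
    rw [hL, div_eq_mul_one_div, ← hD]
    have : 0 ≤ (L3 + L3 * D) + (L2 + L4) := by positivity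
    linarith
  have l3 : L3 + L3 / (h₂ - h) ≤ L := by
    rw [hL, div_eq_mul_one_div L3, ← hD]
    have : 0 ≤ (L1 + L1 * D) + (L2 + L4) := by positivity
    linarith
  have l2 : L2 + L4 ≤ L := by
    rw [hL]
    have : 0 ≤ (L1 + L1 * D) + (L3 + L3 * D) := by positivity
    linarith
  have qo : ∀ s ∈ Icc T₁ t', ∀ x ∈ Co c r h, |o s x| ≤ L * |x 2 - ζ s| := fun s hs x hx =>
    (lin_bd hh0 hhh₂ (sOt s (hT0 s (hIc s hs))) (fun y hy => (hL1 s hs y hy).1)
      (fun y hy => (hL1 s hs y hy).2) (fun y hy => ho0 s (hIc s hs) y (hsub₂ hy)) hx).trans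
      (mul_le_mul_of_nonneg_right l1 (abs_nonneg _))
  have qu : ∀ s ∈ Icc T₁ t', ∀ x ∈ Co c r h, |u s x 2 - deriv ζ s| ≤ L := fun s hs x hx => by
    have h2 := (hL2 s hs x ⟨le_of_lt hx.1, le_of_lt (hx.2.trans hhh₂)⟩).2
    have h3 := hL4 s hs
    rw [Real.norm_eq_abs] at h3
    exact (abs_sub _ _).trans ((add_le_add h2 h3).trans l2)
  have qw : σ = 1 ∨ ∀ s ∈ Icc T₁ t', ∀ x ∈ Co c r h, |w s x| ≤ L * |x 2 - ζ s| := by
    rcases hw0 with h2 | h2
    · exact Or.inl h2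
    · exact Or.inr fun s hs x hx =>
        (lin_bd hh0 hhh₂ (sWt s (hT0 s (hIc s hs))) (fun y hy => (hL3 s hs y hy).1)
          (fun y hy => (hL3 s hs y hy).2) (fun y hy => h2 s (hIc s hs) y (hsub₂ hy)) hx).trans
          (mul_le_mul_of_nonneg_right l3 (abs_nonneg _))
  obtain ⟨ε, hεe⟩ : ∃ ε : ℝ, ε = 1 / (1 + L + L ^ 2) := ⟨_, rfl⟩
  have hε : 0 < ε := by rw [hεe]; positivity
  have hε1 : L * ε ≤ 1 := by
    rw [hεe, mul_one_div, div_le_one (by positivity)]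
    nlinarith [sq_nonneg L]
  have hε2 : L ^ 2 * ε ≤ 1 := by
    rw [hεe, mul_one_div, div_le_one (by positivity)]
    linarith
  obtain ⟨η, hη⟩ := eta_ex hε
  have hz : ∀ e : ℝ, ContDiff ℝ ∞ (fun y : V => η (y 2 - e)) := fun e => hη.sm.comp (sm_z e)
  -- the weighted mass
  obtain ⟨Mm, hMm⟩ : ∃ Mm : ℝ → ℝ, Mm = fun t => ∫ x, (φ x * η (x 2 - ζ t)) * (σ * o t x) :=
    ⟨_, rfl⟩
  have hder : ∀ t ∈ Icc T₁ t', ∃ D' : ℝ, HasDerivAt Mm D' t ∧ D' ≤ C₂ := by
    intro t htI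
    have ht1 := hIc t htI
    have ht := hT0 t ht1
    obtain ⟨ρ, hρ⟩ := hφ.cs.isCompact.isBounded.subset_closedBall (0 : V)
    have sζ : ContDiffOn ℝ ∞ (fun z : ℝ × V => η (z.2 2 - ζ z.1)) (Ioo 0 T ×ˢ univ) := by
      refine hη.sm.comp_contDiffOn (ContDiffOn.sub ?_ ?_)
      · exact ((contDiff_apply ℝ ℝ (2 : Fin 3)).comp contDiff_snd).contDiffOn
      · exact hζ.comp contDiff_fst.contDiffOn fun z hz => hz.1
    have sG : ContDiffOn ℝ ∞ (fun z : ℝ × V => (φ z.2 * η (z.2 2 - ζ z.1)) * (σ * o z.1 z.2))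
        (Ioo 0 T ×ˢ univ) :=
      (((hφ.sm.comp contDiff_snd).contDiffOn).mul sζ).mul (contDiffOn_const.mul sO)
    have cG : ∀ s ∈ Ioo 0 T, ∀ z ∉ closedBall (0 : V) ρ,
        (φ z * η (z 2 - ζ s)) * (σ * o s z) = 0 := by
      intro s _ z hz'
      rw [image_eq_zero_of_notMem_tsupport fun h => hz' (hρ h), zero_mul, zero_mul]
    have hd := Pool.Agent.Q119.AXI.hd_int'
      (F := fun s x => (φ x * η (x 2 - ζ s)) * (σ * o s x)) sG cG ht
    have hMe : (fun s => ∫ x, (φ x * η (x 2 - ζ s)) * (σ * o s x)) = Mm := by rw [hMm]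
    rw [hMe] at hd
    refine ⟨_, hd, ?_⟩
    have hpt : ∀ᵐ x : V, deriv (fun s => (φ x * η (x 2 - ζ s)) * (σ * o s x)) t
        = σ * ((φ x * η (x 2 - ζ t)) * (LL (o t) x - W221.NS.adv (u t) (o t) x
          + 2 * w t x * pd 2 (w t) x) - φ x * (deriv ζ t * deriv η (x 2 - ζ t) * o t x)) := by
      filter_upwards [axis_ae] with x hx
      have h2 := hd_slice sO ht x
      have h3 : HasDerivAt (fun s => o s x) (deriv (fun s => o s x) t) t := by
        rw [← h2.deriv] at h2; exact h2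
      have g1 : HasDerivAt (fun s => x 2 - ζ s) (-deriv ζ t) t := by
        have := (hasDerivAt_const t (x 2)).sub (hζd t ht)
        rw [zero_sub] at this
        exact this
      have g2 : HasDerivAt η (deriv η (x 2 - ζ t)) (x 2 - ζ t) :=
        (hη.sm.differentiable (by norm_cast) _).hasDerivAt
      have g3 := (g2.comp t g1).const_mul (φ x)
      have h4 := g3.mul (h3.const_mul σ)
      have h4' : deriv (fun s => (φ x * η (x 2 - ζ s)) * (σ * o s x)) t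
          = φ x * (deriv η (x 2 - ζ t) * -deriv ζ t) * (σ * o t x)
            + φ x * η (x 2 - ζ t) * (σ * deriv (fun s => o s x) t) := h4.deriv
      rw [h4']
      by_cases hxs : x ∈ tsupport φ
      · rw [heq t ht x (hsub (hφ.supp hxs)) hx]
        ring
      · rw [image_eq_zero_of_notMem_tsupport hxs]
        ring
    rw [integral_congr_ae hpt]
    have h5 := odd_time hc₀ hid hη hε (svt t ht) (hdiv t ht) (sOt t ht) (sWt t ht) hK hK₂0 hh0 hφ
      hsub hvol (fun x => hK₂ x) (hBd t ht1) hσ hB (fun x hx => hP t ht1 x (hsub hx)) hL0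
      (qo t htI) (qu t htI)
      (by
        rcases qw with h2 | h2
        · exact Or.inl h2
        · exact Or.inr (h2 t htI))
    refine h5.trans ?_
    rw [hC₂]
    have h6 : (K * (3 * K + 3 * (K * K)) + K * K ^ 2 + 2 * (K₂ * K + K * K) + B * K
        + (2 * K + 1) * (L ^ 2 * ε)) * vol ≤ (K * (3 * K + 3 * (K * K)) + K * K ^ 2
        + 2 * (K₂ * K + K * K) + B * K + (2 * K + 1)) * vol := by
      have h7 : (2 * K + 1) * (L ^ 2 * ε) ≤ (2 * K + 1) * 1 :=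
        mul_le_mul_of_nonneg_left hε2 (by positivity)
      exact mul_le_mul_of_nonneg_right (by linarith) hvol0
    linarith
  -- integration in time
  have hmass : Mm t' ≤ Mm T₁ + C₂ * (T - T₁) := by
    obtain ⟨Φ, hΦ⟩ : ∃ Φ : ℝ → ℝ, Φ = fun t => Mm t - C₂ * t := ⟨_, rfl⟩
    have hMc : ContinuousOn Mm (Icc T₁ t') := by
      intro s hs
      obtain ⟨D', h2, -⟩ := hder s hs
      exact h2.continuousAt.continuousWithinAt
    have hΦd : ∀ s ∈ Icc T₁ t', ∃ D' : ℝ, HasDerivAt Φ (D' - C₂) s ∧ D' ≤ C₂ := by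
      intro s hs
      obtain ⟨D', h2, h3⟩ := hder s hs
      have h4 := h2.sub ((hasDerivAt_id s).const_mul C₂)
      rw [mul_one] at h4
      refine ⟨D', ?_, h3⟩
      rw [hΦ]
      exact h4
    have hanti : AntitoneOn Φ (Icc T₁ t') := by
      refine antitoneOn_of_deriv_nonpos (convex_Icc T₁ t') ?_ ?_ ?_
      · rw [hΦ]
        exact hMc.sub (continuousOn_const.mul continuousOn_id)
      · intro s hs
        rw [interior_Icc] at hs
        obtain ⟨D', h2, -⟩ := hΦd s (Ioo_subset_Icc_self hs)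
        exact h2.differentiableAt.differentiableWithinAt
      · intro s hs
        rw [interior_Icc] at hs
        obtain ⟨D', h2, h3⟩ := hΦd s (Ioo_subset_Icc_self hs)
        rw [h2.deriv]
        linarith
    have h2 := hanti (left_mem_Icc.2 ht'.1) (right_mem_Icc.2 ht'.1) ht'.1
    rw [hΦ] at h2
    simp only at h2
    have h5 : C₂ * (t' - T₁) ≤ C₂ * (T - T₁) :=
      mul_le_mul_of_nonneg_left (by linarith [ht'.2]) hC₂0
    linarith
  have cO : ∀ t ∈ Ioo 0 T, Continuous (o t) := fun t ht => (sOt t ht).continuous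
  have cφ : Continuous φ := hφ.sm.continuous
  -- the initial mass
  have hinit : Mm T₁ ≤ M₀ := by
    have hT₁I : T₁ ∈ Ioo 0 T := ⟨hT₁, hT⟩
    have h2 : Mm T₁ = ∫ x in Co c r h, (φ x * η (x 2 - ζ T₁)) * (σ * o T₁ x) := by
      rw [hMm]
      refine (setIntegral_eq_integral_of_forall_compl_eq_zero fun x hx => ?_).symm
      rw [image_eq_zero_of_notMem_tsupport fun h => hx (hφ.supp h), zero_mul, zero_mul]
    rw [h2, hM₀]
    refine setIntegral_mono_on
      ((((cφ.mul (hz _).continuous).mul (continuous_const.mul (cO T₁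
        hT₁I))).continuousOn.integrableOn_compact hCy).mono_set hCoCy)
      (((cO T₁ hT₁I).abs.continuousOn.integrableOn_compact hCy).mono_set hCoCy) mCo ?_
    intro x hx
    refine (le_abs_self _).trans ?_
    rw [abs_mul, abs_mul, abs_mul, hσa, one_mul, abs_of_nonneg (hφ.nn x)]
    have h3 : φ x * |η (x 2 - ζ T₁)| ≤ 1 * 1 :=
      mul_le_mul (hφ.le x) (hη.le _) (abs_nonneg _) (by norm_num)
    calc φ x * |η (x 2 - ζ T₁)| * |o T₁ x| ≤ (1 * 1) * |o T₁ x| :=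
          mul_le_mul_of_nonneg_right h3 (abs_nonneg _)
      _ = |o T₁ x| := by ring
  -- the absolute value
  have ht0 := hT0 t' ht'
  have htI' : t' ∈ Icc T₁ t' := right_mem_Icc.2 ht'.1
  have hpt : ∀ x ∈ Co c r h, |o t' x|
      ≤ (φ x * η (x 2 - ζ t')) * (σ * o t' x) + (2 * B + 1 + 2 * K) := by
    intro x hx
    obtain ⟨s, hs⟩ : ∃ s : ℝ, s = x 2 - ζ t' := ⟨_, rfl⟩
    rw [← hs]
    have p1 : -(B * min (s ^ 2) |s|) ≤ s * (σ * o t' x) := by rw [hs]; exact hP t' ht' x (hsub hx)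
    have p2 : |o t' x| ≤ L * |s| := by rw [hs]; exact qo t' htI' x hx
    have n0 := hφ.nn x
    have n1 := hφ.le x
    have e1 : |o t' x| = |σ * o t' x| := by rw [abs_mul, hσa, one_mul]
    obtain ⟨m, hm0, hm1, hm2⟩ := hη.m s
    -- `|Ω| ≤ η σ Ω + 2 B + L ε`
    have q1 : |σ * o t' x| ≤ η s * (σ * o t' x) + 2 * B + L * ε := by
      have g1 : (1 - |η s|) * |σ * o t' x| ≤ L * ε := by
        rw [← e1]
        have g2 : 0 ≤ 1 - |η s| := by linarith [hη.le s]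
        calc (1 - |η s|) * |o t' x| ≤ (1 - |η s|) * (L * |s|) := mul_le_mul_of_nonneg_left p2 g2
          _ = L * ((1 - |η s|) * |s|) := by ring
          _ ≤ L * ε := mul_le_mul_of_nonneg_left (hη.nr s) hL0
      have g3 : |η s| * |σ * o t' x| ≤ η s * (σ * o t' x) + 2 * B := by
        have g4 : |η s| * |σ * o t' x| = m * |s * (σ * o t' x)| := by
          rw [hm1, abs_mul m s, abs_of_nonneg hm0, abs_mul s]
          ring
        have g5 : η s * (σ * o t' x) = m * (s * (σ * o t' x)) := by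
          rw [hm1]
          ring
        rw [g4, g5]
        have g6 : |s * (σ * o t' x)| ≤ s * (σ * o t' x) + 2 * (B * |s|) := by
          have h2 : B * min (s ^ 2) |s| ≤ B * |s| :=
            mul_le_mul_of_nonneg_left (min_le_right _ _) hB
          have : 0 ≤ B * |s| := by positivity
          rw [abs_le]
          constructor <;> linarith
        have g7 := mul_le_mul_of_nonneg_left g6 hm0
        have g8 : m * (2 * (B * |s|)) ≤ 2 * B := by
          calc m * (2 * (B * |s|)) = (m * |s|) * (2 * B) := by ring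
            _ ≤ 1 * (2 * B) := mul_le_mul_of_nonneg_right hm2 (by positivity)
            _ = _ := one_mul _
        rw [mul_add] at g7
        linarith
      have g9 : |σ * o t' x| = |η s| * |σ * o t' x| + (1 - |η s|) * |σ * o t' x| := by ring
      rw [g9]
      linarith
    by_cases hxi : x ∈ Cy c r1 h1
    · rw [hφ.one x hxi, e1]
      have h8 : 0 ≤ 2 * K := by linarith
      linarith
    · have hxO : x ∈ Out c r h r1 h1 := by
        refine ⟨hCoCy hx, ?_⟩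
        by_contra hcon
        push Not at hcon
        exact hxi ⟨le_of_lt hcon.1, le_of_lt hcon.2⟩
      have h7 : |o t' x| ≤ K := (hBd t' ht' x hxO).1
      have h8 : -K ≤ (φ x * η s) * (σ * o t' x) := by
        have h9 : |(φ x * η s) * (σ * o t' x)| ≤ (1 * 1) * K := by
          rw [abs_mul, abs_mul, ← e1, abs_of_nonneg n0]
          exact mul_le_mul (mul_le_mul n1 (hη.le s) (abs_nonneg _) (by norm_num)) h7
            (abs_nonneg _) (by norm_num)
        have := neg_abs_le ((φ x * η s) * (σ * o t' x))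
        linarith
      linarith
  have jabs : IntegrableOn (fun x => |o t' x|) (Co c r h) :=
    ((cO t' ht0).abs.continuousOn.integrableOn_compact hCy).mono_set hCoCy
  have j1 : IntegrableOn (fun x => (φ x * η (x 2 - ζ t')) * (σ * o t' x)) (Co c r h) :=
    (((cφ.mul (hz _).continuous).mul (continuous_const.mul
      (cO t' ht0))).continuousOn.integrableOn_compact hCy).mono_set hCoCy
  have h2 : ∫ x in Co c r h, |o t' x|
      ≤ ∫ x in Co c r h, ((φ x * η (x 2 - ζ t')) * (σ * o t' x) + (2 * B + 1 + 2 * K)) :=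
    setIntegral_mono_on jabs (j1.add (integrableOn_const vCo.ne)) mCo hpt
  rw [integral_add j1 (integrableOn_const vCo.ne), setIntegral_const, smul_eq_mul, Measure.real,
    ← hvol] at h2
  have h3 : ∫ x in Co c r h, (φ x * η (x 2 - ζ t')) * (σ * o t' x) = Mm t' := by
    rw [hMm]
    refine setIntegral_eq_integral_of_forall_compl_eq_zero fun x hx => ?_
    rw [image_eq_zero_of_notMem_tsupport fun h => hx (hφ.supp h), zero_mul, zero_mul]
  rw [h3] at h2
  have h8 : vol * (2 * B + 1 + 2 * K) = (2 * B + 1 + 2 * K) * vol := mul_comm _ _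
  linarith

end Pool.Agent.D0H28.OV
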