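import Pool.Agent.D0H28.OV.Fin3
import Pool.Agent.D0H28.OV.Odd3
import Pool.Agent.D0H28.OV.Lev2

/-! Project OV (helper28): moving planes and levels of `ω_θ / ρ`, viscosity one. -/

set_option autoImplicit false

open MeasureTheory Set Metric Filter Topology
open scoped ContDiff
open H459R3.NS Pool.Agent.W268.NS

namespace Pool.Agent.D0H28.OV

open Pool.Agent.Q67.AXI Pool.Agent.TH305.AX Pool.Agent.Q85.CL
open Pool.Agent.W583.MD (slice)
open Pool.Agent.Q175.AX (sg_nn axis_ae)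

/-- from the points off the axis to the points of the axis -/
lemma ax_lim {c r h : ℝ} {g : V → ℝ} (hg : Continuous g) (P : ℝ → Prop)
    (hP : ∀ x ∈ Co c r h, P (x 2) → sg x ≠ 0 → g x ≤ 0) :
    ∀ x ∈ Co c r h, P (x 2) → g x ≤ 0 := by
  intro x hx hPx
  by_cases hsx : sg x = 0
  · by_contra hcon
    push Not at hcon
    have hop : IsOpen ({y : V | 0 < g y} ∩ Co c r h) :=
      (isOpen_lt continuous_const hg).inter (Co_open c r h)
    obtain ⟨ε, hε, hsub⟩ := Metric.isOpen_iff.1 hop x ⟨hcon, hx⟩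
    obtain ⟨y, hy⟩ : ∃ y : V, y = ![x 0 + ε / 2, x 1, x 2] := ⟨_, rfl⟩
    have hyb : y ∈ ball x ε := by
      rw [mem_ball, dist_eq_norm, pi_norm_lt_iff hε]
      intro i
      rw [hy]
      fin_cases i
      · show ‖x 0 + ε / 2 - x 0‖ < ε
        rw [add_sub_cancel_left, Real.norm_eq_abs, abs_of_pos (by positivity)]
        linarith
      · show ‖x 1 - x 1‖ < ε
        rw [sub_self, norm_zero]
        exact hε
      · show ‖x 2 - x 2‖ < ε
        rw [sub_self, norm_zero]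
        exact hε
    have hys : sg y ≠ 0 := by
      have h3 : x 0 = 0 := by
        unfold sg at hsx
        nlinarith [sq_nonneg (x 0), sq_nonneg (x 1)]
      rw [hy]
      show (x 0 + ε / 2) ^ 2 + x 1 ^ 2 ≠ 0
      rw [h3]
      have : 0 < (0 + ε / 2) ^ 2 := by positivity
      positivity
    obtain ⟨h4, h5⟩ := hsub hyb
    have h6 : y 2 = x 2 := by rw [hy]; rfl
    exact absurd (hP y h5 (by rw [h6]; exact hPx) hys) (not_le.2 h4)
  · exact hP x hx hPx hsx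

/-- regularity from a bound of the mass in the cylinders with good cut-off functions -/
theorem reg_gen {T E c R H T₀ : ℝ} {u : ℝ → V → V} {p : ℝ → V → ℝ} (hT : 0 < T) (hR : 0 < R)
    (hH : 0 < H) (hA : AxL T E c R H u p) (hT₀ : T₀ < T)
    (hcore : ∀ (K r h r1 h1 T₁ : ℝ) (φ : V → ℝ), 0 ≤ K → 0 < r1 → r1 < r → r < R → 0 < h1 →
      h1 < h → h < H → 0 < T₁ → T₀ < T₁ → T₁ < T → Cut c r h r1 h1 K φ →
      (∀ t ∈ Ico T₁ T, ∀ x ∈ Out c r h r1 h1, BdA K (u t) x) →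
      ∃ M : ℝ, 0 ≤ M ∧ ∀ t ∈ Ico T₁ T, ∫ x in Co c r h, |OO (u t) x| ≤ M) :
    Rg T u ![0, 0, c] := by
  obtain ⟨r, hr⟩ : ∃ r : ℝ, r = min R 1 / 2 := ⟨_, rfl⟩
  have hr0 : 0 < r := by rw [hr]; positivity
  have hrR : r < R := by rw [hr]; have := min_le_left R 1; linarith
  obtain ⟨h₀, hh₀⟩ : ∃ h₀ : ℝ, h₀ = min H 1 / 2 := ⟨_, rfl⟩
  have hh₀0 : 0 < h₀ := by rw [hh₀]; positivity
  have hh₀H : h₀ < H := by rw [hh₀]; have := min_le_left H 1; linarith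
  obtain ⟨h, h1, hh1, hh1h, hhh₀, hG⟩ := hGd T E c R H u p hT hR hH hA r h₀ hr0 hrR hh₀0 hh₀H
  have hh0 : 0 < h := hh1.trans hh1h
  have hhH : h < H := hhh₀.trans hh₀H
  obtain ⟨KA, TA, hKA, hTA0, hTAT, hbA⟩ := hG r (r / 2) le_rfl (by positivity) (by linarith)
  obtain ⟨KC, φ, hKC, hφ⟩ := hCut c r h (r / 2) h1 (by positivity) (by linarith) hh1 hh1h
  obtain ⟨K, hK⟩ : ∃ K : ℝ, K = max KA KC := ⟨_, rfl⟩
  have hKAK : KA ≤ K := by rw [hK]; exact le_max_left _ _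
  have hKCK : KC ≤ K := by rw [hK]; exact le_max_right _ _
  have hK0 : 0 ≤ K := hKA.trans hKAK
  have hφ' := Pool.Agent.Q151.AXI.cut_mono hKCK hφ
  obtain ⟨T₁, hT₁⟩ : ∃ T₁ : ℝ, T₁ = (max TA T₀ + T) / 2 := ⟨_, rfl⟩
  have hmT : max TA T₀ < T := max_lt hTAT hT₀
  have hT₁A : TA ≤ T₁ := by rw [hT₁]; have := le_max_left TA T₀; linarith
  have hT₁0 : T₀ < T₁ := by rw [hT₁]; have := le_max_right TA T₀; linarith
  have hT₁T : T₁ < T := by rw [hT₁]; linarith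
  have hT₁p : 0 < T₁ := hTA0.trans_le hT₁A
  have hbK : ∀ t ∈ Ico T₁ T, ∀ x ∈ Out c r h (r / 2) h1, BdA K (u t) x := fun t ht x hx =>
    Pool.Agent.Q151.AXI.bdA_mono hKAK (hbA t ⟨hT₁A.trans ht.1, ht.2⟩ x hx)
  obtain ⟨M, -, hmass⟩ := hcore K r h (r / 2) h1 T₁ φ hK0 (by positivity) (by linarith) hrR hh1
    hh1h hhH hT₁p hT₁0 hT₁T hφ' hbK
  exact reg_two (T₀ := T₁) hT hr0 hh0 (axl_mono hA hr0.le hrR.le hhH.le) hT₁T
    (fun t ht htT => hmass t ⟨htT.le, ht.2⟩)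

lemma pd_subc (g : V → ℝ) (a : ℝ) (i : Fin 3) : pd i (fun y => g y - a) = pd i g := by
  funext x
  unfold pd
  rw [fderiv_sub_const]

lemma LL_subc (g : V → ℝ) (a : ℝ) : LL (fun y => g y - a) = LL g := by
  funext x
  unfold LL lap RR
  simp_rw [pd_subc]

lemma adv_subc (v : V → V) (g : V → ℝ) (a : ℝ) :
    W221.NS.adv v (fun y => g y - a) = W221.NS.adv v g := by
  funext x
  unfold W221.NS.adv
  simp_rw [pd_subc]

lemma eqO' {T E c R H : ℝ} {u : ℝ → V → V} {p : ℝ → V → ℝ} (hA : AxL T E c R H u p) :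
    ∀ t ∈ Ioo 0 T, ∀ x ∈ Co c R H, sg x ≠ 0 → deriv (fun s => OO (u s) x) t
      = LL (OO (u t)) x - W221.NS.adv (u t) (OO (u t)) x
        + 2 * WW (u t) x * pd 2 (WW (u t)) x := by
  intro t ht x hx hs
  have svt : ContDiff ℝ ∞ (u t) := by
    rw [← contDiffOn_univ]
    exact hA.smooth_u.comp (contDiff_const.prodMk contDiff_id).contDiffOn
      (fun x _ => ⟨ht, mem_univ _⟩)
  have h5 := (hEqO T E c R H u p hA t ht x hx hs).deriv
  have h6 := ((hAlg (u t) svt (hA.axi t ht)).2.2.2 x).2.2.2.2.2.1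
  rw [h6] at h5
  rw [h5]
  ring

/-- moving planes, viscosity one -/
theorem reg_odd {T E c R H T₀ B lam σ : ℝ} {ζ : ℝ → ℝ} {u : ℝ → V → V} {p : ℝ → V → ℝ}
    (hT : 0 < T) (hR : 0 < R) (hH : 0 < H) (hA : AxL T E c R H u p) (hT₀ : T₀ < T)
    (hσ : σ = 1 ∨ σ = -1) (hζ : ContDiffOn ℝ ∞ ζ (Ioo 0 T))
    (hP : ∀ t ∈ Ioo 0 T, T₀ < t → ∀ x ∈ Co c R H, sg x ≠ 0 →
      -(B * min ((x 2 - ζ t) ^ 2) |x 2 - ζ t|) ≤ (x 2 - ζ t) * (σ * (OO (u t) x - lam)))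
    (hW : σ = 1 ∨ ∀ t ∈ Ioo 0 T, T₀ < t → ∀ x ∈ Co c R H, x 2 = ζ t → sg x ≠ 0 →
      WW (u t) x = 0) :
    Rg T u ![0, 0, c] := by
  refine reg_gen hT hR hH hA hT₀ fun K r h r1 h1 T₁ φ hK hr1 hr hrR hh1 hh hhH hT₁ hT₀₁ hT₁T hφ
    hbK => ?_
  have hI : ∀ t ∈ Ico T₁ T, t ∈ Ioo 0 T := fun t ht => ⟨hT₁.trans_le ht.1, ht.2⟩
  have hI' : ∀ t ∈ Ico T₁ T, T₀ < t := fun t ht => hT₀₁.trans_le ht.1
  have svt : ∀ t ∈ Ioo 0 T, ContDiff ℝ ∞ (u t) := by
    intro t ht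
    rw [← contDiffOn_univ]
    exact hA.smooth_u.comp (contDiff_const.prodMk contDiff_id).contDiffOn
      (fun x _ => ⟨ht, mem_univ _⟩)
  have sU : ∀ i, ContDiffOn ℝ ∞ (fun z : ℝ × V => u z.1 z.2 i) (Ioo 0 T ×ˢ univ) := fun i =>
    contDiffOn_pi.1 hA.smooth_u i
  obtain ⟨-, sW, -, sO⟩ := hJnt T u hA.smooth_u
  have heq0 := eqO' hA
  obtain ⟨o, ho⟩ : ∃ o : ℝ → V → ℝ, o = fun t => OO (u t) := ⟨_, rfl⟩
  obtain ⟨w, hw⟩ : ∃ w : ℝ → V → ℝ, w = fun t => WW (u t) := ⟨_, rfl⟩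
  have sO' : ContDiffOn ℝ ∞ (fun z : ℝ × V => o z.1 z.2) (Ioo 0 T ×ˢ univ) := by
    rw [ho]; exact sO
  have sW' : ContDiffOn ℝ ∞ (fun z : ℝ × V => w z.1 z.2) (Ioo 0 T ×ˢ univ) := by
    rw [hw]; exact sW
  have cO : ∀ t ∈ Ioo 0 T, Continuous (o t) := fun t ht => (slice sO' ht).continuous
  have cW : ∀ t ∈ Ioo 0 T, Continuous (w t) := fun t ht => (slice sW' ht).continuous
  have heq : ∀ t ∈ Ioo 0 T, ∀ x ∈ Co c R H, sg x ≠ 0 → deriv (fun s => o s x - lam) t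
      = LL (fun y => o t y - lam) x - W221.NS.adv (u t) (fun y => o t y - lam) x
        + 2 * w t x * pd 2 (w t) x := by
    intro t ht x hx hs
    have h5 := heq0 t ht x hx hs
    rw [LL_subc, adv_subc, deriv_sub_const, ho, hw]
    exact h5
  obtain ⟨K', hK'⟩ : ∃ K' : ℝ, K' = K + |lam| := ⟨_, rfl⟩
  have hKK : K ≤ K' := by rw [hK']; linarith [abs_nonneg lam]
  have hBd : ∀ t ∈ Ico T₁ T, ∀ x ∈ Out c r h r1 h1, |o t x - lam| ≤ K' ∧ |w t x| ≤ K' ∧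
      (∀ i, |u t x i| ≤ K') ∧ |pd 2 (fun y => o t y - lam) x| ≤ K' := by
    intro t ht x hx
    have h2 := hbK t ht x hx
    rw [pd_subc, ho, hw]
    refine ⟨?_, h2.2.2.1.trans hKK, fun i => (h2.1 i).trans hKK,
      (h2.2.2.2.2.2 2).2.2.2.trans hKK⟩
    have h3 : |OO (u t) x| ≤ K := h2.2.2.2.2.1
    have h4 := abs_sub (OO (u t) x) lam
    rw [hK']
    linarith
  obtain ⟨M, hM, hmass⟩ := odd_core hhA hH0 T c R H K' r h r1 h1 T₁ |B| σ ζ u
    (fun t y => o t y - lam) w φ hζ sU svt (sO'.sub contDiffOn_const) sW'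
    (fun t ht => hA.divfree t ht) heq (hK.trans hKK) hr1 hr hrR hh1 hh hhH hT₁ hT₁T
    (Pool.Agent.Q151.AXI.cut_mono hKK hφ) hBd hσ (abs_nonneg B) (by
      intro t ht x hx
      have hcg : Continuous fun y : V => -(|B| * min ((y 2 - ζ t) ^ 2) |y 2 - ζ t|)
          - (y 2 - ζ t) * (σ * (o t y - lam)) := by
        have := cO t (hI t ht)
        fun_prop
      have h2 := ax_lim (c := c) (r := R) (h := H) hcg (fun _ => True) (by
        intro y hy _ hsy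
        have h3 := hP t (hI t ht) (hI' t ht) y hy hsy
        rw [ho]
        simp only
        have h5 : 0 ≤ min ((y 2 - ζ t) ^ 2) |y 2 - ζ t| := le_min (by positivity) (abs_nonneg _)
        have h4 : B * min ((y 2 - ζ t) ^ 2) |y 2 - ζ t|
            ≤ |B| * min ((y 2 - ζ t) ^ 2) |y 2 - ζ t| :=
          mul_le_mul_of_nonneg_right (le_abs_self B) h5
        linarith) x hx trivial
      linarith) (by
      rcases hW with hW | hW
      · exact Or.inl hW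
      · refine Or.inr fun t ht x hx hxc => ?_
        have h2 := ax_lim (c := c) (r := R) (h := H) (cW t (hI t ht)).abs (fun z => z = ζ t) (by
          intro y hy hyc hsy
          have h3 := hW t (hI t ht) (hI' t ht) y hy hyc hsy
          rw [hw]
          simp only
          rw [h3, abs_zero]) x hx hxc
        exact abs_eq_zero.1 (le_antisymm h2 (abs_nonneg _)))
  -- from `|Ω - λ|` to `|Ω|`
  have hCy : IsCompact (Cy c r h) := Pool.Agent.Q24.AXI.Cy_compact c r h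
  have hCoCy : Co c r h ⊆ Cy c r h := fun x hx => ⟨le_of_lt hx.1, le_of_lt hx.2⟩
  have vCo : volume (Co c r h) < ⊤ := (measure_mono hCoCy).trans_lt hCy.measure_lt_top
  have hv0 : 0 ≤ (volume (Co c r h)).toReal := ENNReal.toReal_nonneg
  refine ⟨M + (volume (Co c r h)).toReal * |lam|, by positivity, fun t ht => ?_⟩
  have h2 := hmass t ht
  have c1 := cO t (hI t ht)
  have j1 : IntegrableOn (fun x => |o t x - lam|) (Co c r h) :=
    ((c1.sub continuous_const).abs.continuousOn.integrableOn_compact hCy).mono_set hCoCy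
  have h3 : ∫ x in Co c r h, |o t x| ≤ ∫ x in Co c r h, (|o t x - lam| + |lam|) := by
    refine setIntegral_mono_on ((c1.abs.continuousOn.integrableOn_compact hCy).mono_set hCoCy)
      (j1.add (integrableOn_const vCo.ne)) (Co_open c r h).measurableSet fun x _ => ?_
    have := abs_sub_abs_le_abs_sub (o t x) lam
    linarith
  rw [integral_add j1 (integrableOn_const vCo.ne), setIntegral_const, smul_eq_mul,
    Measure.real] at h3
  have h4 : ∫ x in Co c r h, |OO (u t) x| = ∫ x in Co c r h, |o t x| := by rw [ho]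
  rw [h4]
  linarith

/-- levels, viscosity one -/
theorem reg_lev {T E c R H T₀ lam ε : ℝ} {B : ℝ → ℝ} {u : ℝ → V → V} {p : ℝ → V → ℝ}
    (hT : 0 < T) (hR : 0 < R) (hH : 0 < H) (hA : AxL T E c R H u p) (hT₀ : T₀ < T)
    (hε : 0 < ε) (hBc : ContinuousOn B (Ioo 0 T)) (hBi : IntegrableOn B (Ioo 0 T))
    (hP : ∀ t ∈ Ioo 0 T, T₀ < t → ∀ x ∈ Co c R H, sg x ≠ 0 → |OO (u t) x - lam| < ε →
      -(WW (u t) x ^ 2 * pd 2 (OO (u t)) x) ≤ gr2 (OO (u t)) x + B t) :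
    Rg T u ![0, 0, c] := by
  refine reg_gen hT hR hH hA hT₀ fun K r h r1 h1 T₁ φ hK hr1 hr hrR hh1 hh hhH hT₁ hT₀₁ hT₁T hφ
    hbK => ?_
  have hI : ∀ t ∈ Ico T₁ T, t ∈ Ioo 0 T := fun t ht => ⟨hT₁.trans_le ht.1, ht.2⟩
  have hI' : ∀ t ∈ Ico T₁ T, T₀ < t := fun t ht => hT₀₁.trans_le ht.1
  have svt : ∀ t ∈ Ioo 0 T, ContDiff ℝ ∞ (u t) := by
    intro t ht
    rw [← contDiffOn_univ]
    exact hA.smooth_u.comp (contDiff_const.prodMk contDiff_id).contDiffOn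
      (fun x _ => ⟨ht, mem_univ _⟩)
  obtain ⟨-, sW, -, sO⟩ := hJnt T u hA.smooth_u
  have hsub : Co c r h ⊆ Co c R H := fun x hx =>
    ⟨hx.1.trans (pow_lt_pow_left₀ hrR (hr1.trans hr).le (by norm_num)), hx.2.trans hhH⟩
  exact lev_core hhA hH0 T c R H K r h r1 h1 T₁ lam ε B u (fun t => OO (u t)) (fun t => WW (u t))
    φ svt sO sW (fun t ht => hA.divfree t ht) (eqO' hA) hK hr1 hr hrR hh1 hh hhH hT₁ hT₁T hφ
    (fun t ht x hx => ⟨(hbK t ht x hx).2.2.2.2.1, (hbK t ht x hx).2.2.1, (hbK t ht x hx).1⟩) hε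
    hBc hBi (fun t ht x hx hs hl => hP t (hI t ht) (hI' t ht) x (hsub hx) hs hl)

end Pool.Agent.D0H28.OV
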