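import Pool.Agent.D0H28.OV.Fin4

/-! Project OV (helper28): moving planes and levels of `ω_θ / ρ`, all viscosities. -/

set_option autoImplicit false

open MeasureTheory Set Metric Filter Topology
open scoped ContDiff
open H459R3.NS Pool.Agent.W268.NS

namespace Pool.Agent.D0H28.OV

open Pool.Agent.Q67.AXI Pool.Agent.TH305.AX Pool.Agent.Q85.CL
open Pool.Agent.W583.MD (slice)
open Pool.Agent.Q175.AX (sg_nn axis_ae pd_ev)

/-- moving planes, all viscosities -/
theorem odd_D {ν T E : ℝ} {Ω : Set V} {u : ℝ → V → V} {p : ℝ → V → ℝ} (hν : 0 < ν)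
    (h : DSl ν T E Ω u p)
    (hax : ∀ t ∈ Ioo 0 T, ∀ (θ : ℝ), ∀ x ∈ Ω, rot θ x ∈ Ω → u t (rot θ x) = rot θ (u t x))
    {a : V} (ha : a ∈ Ω) (ha0 : a 0 = 0) (ha1 : a 1 = 0) (hs : Sing T u a) {σ : ℝ}
    (hσ : σ = 1 ∨ σ = -1) {ζ : ℝ → ℝ} (hζ : ContDiffOn ℝ ∞ ζ (Ioo 0 T)) {B lam T₀ R : ℝ}
    (hT₀ : T₀ < T) (hR : 0 < R)
    (hpl : σ = 1 ∨ ∀ t ∈ Ioo 0 T, T₀ < t → ∀ x : V, ‖x - a‖ ≤ R → x 2 = ζ t →
      circ (u t) x = 0) :
    ∃ t ∈ Ioo 0 T, T₀ < t ∧ ∃ x : V, ‖x - a‖ ≤ R ∧ 0 < sg x ∧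
      (x 2 - ζ t) * (σ * (circ (vort (u t)) x / sg x - lam))
        < -(B * min ((x 2 - ζ t) ^ 2) |x 2 - ζ t|) := by
  have hT := hs.pos
  have hae : a = ![0, 0, a 2] := by
    funext i
    fin_cases i
    · exact ha0
    · exact ha1
    · rfl
  by_contra hcon
  push Not at hcon
  obtain ⟨R', hR', hRR, hsub⟩ := small_ball h.openO ha hR
  rw [hae] at hsub
  have hR2 : 0 < R' / 2 := by positivity
  obtain ⟨E', v, q, hL, hv, hO, -⟩ := transf hν hT h hax hR2 (by
    rw [show 2 * (R' / 2) = R' by ring]; exact hsub)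
  have hmt : MapsTo (fun s : ℝ => s / ν) (Ioo 0 (ν * T)) (Ioo 0 T) := by
    intro s hs
    exact ⟨div_pos hs.1 hν, by rw [div_lt_iff₀ hν, mul_comm]; exact hs.2⟩
  have htν : ∀ t' : ℝ, ν * (t' / ν) = t' := fun t' => by field_simp
  have hT0 : ∀ t' : ℝ, ν * T₀ < t' → T₀ < t' / ν := fun t' h2 => by
    rw [lt_div_iff₀ hν, mul_comm]
    exact h2
  have hnb : ∀ x ∈ Co (a 2) (R' / 2) (R' / 2), ‖x - a‖ ≤ R := by
    intro x hx
    rw [hae]
    refine (norm_Co hR2.le hx).trans ?_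
    rw [max_self]
    linarith
  have svt : ∀ t ∈ Ioo 0 (ν * T), ContDiff ℝ ∞ (v t) := by
    intro t ht
    rw [← contDiffOn_univ]
    exact hL.smooth_u.comp (contDiff_const.prodMk contDiff_id).contDiffOn
      (fun x _ => ⟨ht, mem_univ _⟩)
  have hreg := reg_odd (B := ν⁻¹ * B) (lam := ν⁻¹ * lam) (T₀ := ν * T₀)
    (ζ := fun s => ζ (s / ν)) (mul_pos hν hT) hR2 hR2 hL
    (mul_lt_mul_of_pos_left hT₀ hν) hσ (hζ.comp (by fun_prop) hmt) (by
      intro t' ht' hT0t' x hx hsx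
      have ht := hmt ht'
      have hsx0 : 0 < sg x := lt_of_le_of_ne (sg_nn x) (Ne.symm hsx)
      have h1 := hcon (t' / ν) ht (hT0 t' hT0t') x (hnb x hx) hsx0
      rw [hO _ ht x hx hsx, htν] at h1
      have h3 := mul_le_mul_of_nonneg_left h1 (inv_pos.2 hν).le
      have e1 : ν⁻¹ * ((x 2 - ζ (t' / ν)) * (σ * (ν * OO (v t') x - lam)))
          = (x 2 - ζ (t' / ν)) * (σ * (OO (v t') x - ν⁻¹ * lam)) := by
        field_simp
      have e2 : ν⁻¹ * -(B * min ((x 2 - ζ (t' / ν)) ^ 2) |x 2 - ζ (t' / ν)|)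
          = -(ν⁻¹ * B * min ((x 2 - ζ (t' / ν)) ^ 2) |x 2 - ζ (t' / ν)|) := by ring
      rw [e1, e2] at h3
      exact h3) (by
      rcases hpl with hpl | hpl
      · exact Or.inl hpl
      · refine Or.inr fun t' ht' hT0t' x hx hxc hsx => ?_
        have ht := hmt ht'
        have h1 := hpl (t' / ν) ht (hT0 t' hT0t') x (hnb x hx) hxc
        have h2 := hv (t' / ν) ht x hx
        rw [htν] at h2
        have h3 := ((hAlg (v t') (svt t' ht') (hL.axi t' ht')).2.2.2 x).2.2.2.2.2.2.2.2.1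
        rw [circ_cm h2, h1, mul_zero] at h3
        rcases mul_eq_zero.1 h3.symm with h4 | h4
        · exact absurd h4 hsx
        · exact h4)
  have hb := backA hν hv (mem_Co_self hR2 hR2) hreg
  rw [← hae] at hb
  exact hs.not_bdd hb

/-- levels, all viscosities -/
theorem lev_D {ν T E : ℝ} {Ω : Set V} {u : ℝ → V → V} {p : ℝ → V → ℝ} (hν : 0 < ν)
    (h : DSl ν T E Ω u p)
    (hax : ∀ t ∈ Ioo 0 T, ∀ (θ : ℝ), ∀ x ∈ Ω, rot θ x ∈ Ω → u t (rot θ x) = rot θ (u t x))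
    {a : V} (ha : a ∈ Ω) (ha0 : a 0 = 0) (ha1 : a 1 = 0) (hs : Sing T u a) {B : ℝ → ℝ}
    (hBc : ContinuousOn B (Ioo 0 T)) (hBi : IntegrableOn B (Ioo 0 T)) {l₁ l₂ T₀ R : ℝ}
    (hl : l₁ < l₂) (hT₀ : T₀ < T) (hR : 0 < R) :
    ∃ t ∈ Ioo 0 T, T₀ < t ∧ ∃ x : V, ‖x - a‖ ≤ R ∧ 0 < sg x ∧
      l₁ < circ (vort (u t)) x / sg x ∧ circ (vort (u t)) x / sg x < l₂ ∧
      (circ (u t) x / sg x) ^ 2 * pd 2 (fun y => circ (vort (u t)) y / sg y) x
        < -(ν * gr2 (fun y => circ (vort (u t)) y / sg y) x + B t) := by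
  have hT := hs.pos
  have hae : a = ![0, 0, a 2] := by
    funext i
    fin_cases i
    · exact ha0
    · exact ha1
    · rfl
  by_contra hcon
  push Not at hcon
  obtain ⟨R', hR', hRR, hsub⟩ := small_ball h.openO ha hR
  rw [hae] at hsub
  have hR2 : 0 < R' / 2 := by positivity
  obtain ⟨E', v, q, hL, hv, hO, -⟩ := transf hν hT h hax hR2 (by
    rw [show 2 * (R' / 2) = R' by ring]; exact hsub)
  have hνi : 0 < ν⁻¹ := inv_pos.2 hν
  have hmt : MapsTo (fun s : ℝ => s / ν) (Ioo 0 (ν * T)) (Ioo 0 T) := by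
    intro s hs
    exact ⟨div_pos hs.1 hν, by rw [div_lt_iff₀ hν, mul_comm]; exact hs.2⟩
  have hBc' : ContinuousOn (fun s => ν⁻¹ ^ 3 * B (s / ν)) (Ioo 0 (ν * T)) :=
    continuousOn_const.mul (hBc.comp (by fun_prop) hmt)
  have hBi' : IntegrableOn (fun s => ν⁻¹ ^ 3 * B (s / ν)) (Ioo 0 (ν * T)) := by
    have h1 : Integrable ((Ioo 0 T).indicator B) :=
      (integrable_indicator_iff measurableSet_Ioo).2 hBi
    have h2 := (h1.comp_div hν.ne').const_mul (ν⁻¹ ^ 3)
    rw [← integrable_indicator_iff measurableSet_Ioo]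
    refine h2.congr (Eventually.of_forall fun s => ?_)
    by_cases hs : s ∈ Ioo 0 (ν * T)
    · simp only [indicator_of_mem hs, indicator_of_mem (hmt hs)]
    · have hs' : s / ν ∉ Ioo 0 T := by
        intro hs'
        apply hs
        refine ⟨by have := mul_pos hs'.1 hν; rwa [div_mul_cancel₀ _ hν.ne'] at this, ?_⟩
        have := (div_lt_iff₀ hν).1 hs'.2
        rwa [mul_comm] at this
      simp only [indicator_of_notMem hs, indicator_of_notMem hs', mul_zero]
  have htν : ∀ t' : ℝ, ν * (t' / ν) = t' := fun t' => by field_simp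
  have hT0 : ∀ t' : ℝ, ν * T₀ < t' → T₀ < t' / ν := fun t' h2 => by
    rw [lt_div_iff₀ hν, mul_comm]
    exact h2
  have hnb : ∀ x ∈ Co (a 2) (R' / 2) (R' / 2), ‖x - a‖ ≤ R := by
    intro x hx
    rw [hae]
    refine (norm_Co hR2.le hx).trans ?_
    rw [max_self]
    linarith
  have svt : ∀ t ∈ Ioo 0 (ν * T), ContDiff ℝ ∞ (v t) := by
    intro t ht
    rw [← contDiffOn_univ]
    exact hL.smooth_u.comp (contDiff_const.prodMk contDiff_id).contDiffOn
      (fun x _ => ⟨ht, mem_univ _⟩)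
  have hreg := reg_lev (B := fun s => ν⁻¹ ^ 3 * B (s / ν)) (lam := ν⁻¹ * ((l₁ + l₂) / 2))
    (ε := ν⁻¹ * ((l₂ - l₁) / 2)) (T₀ := ν * T₀) (mul_pos hν hT) hR2 hR2 hL
    (mul_lt_mul_of_pos_left hT₀ hν) (by have : 0 < l₂ - l₁ := by linarith
                                        positivity) hBc' hBi' (by
      intro t' ht' hT0t' x hx hsx hl'
      have ht := hmt ht'
      have hsx0 : 0 < sg x := lt_of_le_of_ne (sg_nn x) (Ne.symm hsx)
      obtain ⟨o, ho⟩ : ∃ o : V → ℝ, o = OO (v t') := ⟨_, rfl⟩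
      rw [← ho] at hl' ⊢
      have hOx : ∀ y ∈ Co (a 2) (R' / 2) (R' / 2), sg y ≠ 0 →
          circ (vort (u (t' / ν))) y / sg y = ν * o y := by
        intro y hy hsy
        have := hO _ ht y hy hsy
        rwa [htν, ← ho] at this
      have hev : (fun y => circ (vort (u (t' / ν))) y / sg y) =ᶠ[𝓝 x] fun y => ν * o y := by
        have hop : IsOpen {y : V | sg y ≠ 0} :=
          isOpen_ne_fun (by unfold sg; fun_prop) continuous_const
        filter_upwards [(Co_open _ _ _).mem_nhds hx, hop.mem_nhds hsx] with y hy hsy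
        exact hOx y hy hsy
      have hpd : ∀ i, pd i (fun y => circ (vort (u (t' / ν))) y / sg y) x = ν * pd i o x := by
        intro i
        rw [pd_ev hev i]
        unfold pd
        have : (fun y => ν * o y) = ν • o := by
          funext y
          rfl
        rw [this, fderiv_const_smul_field]
        rfl
      have hgr : gr2 (fun y => circ (vort (u (t' / ν))) y / sg y) x = ν ^ 2 * gr2 o x := by
        unfold gr2
        simp_rw [hpd]
        rw [Finset.mul_sum]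
        refine Finset.sum_congr rfl fun i _ => by ring
      have hWx : circ (u (t' / ν)) x / sg x = ν * WW (v t') x := by
        have h2 := hv (t' / ν) ht x hx
        rw [htν] at h2
        have h3 := ((hAlg (v t') (svt t' ht') (hL.axi t' ht')).2.2.2 x).2.2.2.2.2.2.2.2.1
        rw [circ_cm h2] at h3
        have h4 : circ (u (t' / ν)) x = ν * (sg x * WW (v t') x) := by
          rw [← h3]
          field_simp
        rw [h4]
        field_simp
      rw [abs_lt] at hl'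
      have hl1 : l₁ < ν * o x := by
        have h2 := mul_lt_mul_of_pos_left hl'.1 hν
        have e1 : ν * -(ν⁻¹ * ((l₂ - l₁) / 2)) = -((l₂ - l₁) / 2) := by field_simp
        have e2 : ν * (o x - ν⁻¹ * ((l₁ + l₂) / 2)) = ν * o x - (l₁ + l₂) / 2 := by field_simp
        rw [e1, e2] at h2
        linarith
      have hl2 : ν * o x < l₂ := by
        have h2 := mul_lt_mul_of_pos_left hl'.2 hν
        have e1 : ν * (ν⁻¹ * ((l₂ - l₁) / 2)) = (l₂ - l₁) / 2 := by field_simp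
        have e2 : ν * (o x - ν⁻¹ * ((l₁ + l₂) / 2)) = ν * o x - (l₁ + l₂) / 2 := by field_simp
        rw [e1, e2] at h2
        linarith
      have h1 := hcon (t' / ν) ht (hT0 t' hT0t') x (hnb x hx) hsx0
        (by rw [hOx x hx hsx]; exact hl1) (by rw [hOx x hx hsx]; exact hl2)
      rw [hpd, hgr, hWx] at h1
      have h3 := mul_le_mul_of_nonneg_left h1 (by positivity : 0 ≤ ν⁻¹ ^ 3)
      have e1 : ν⁻¹ ^ 3 * -(ν * (ν ^ 2 * gr2 o x) + B (t' / ν))
          = -(gr2 o x + ν⁻¹ ^ 3 * B (t' / ν)) := by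
        field_simp
      have e2 : ν⁻¹ ^ 3 * ((ν * WW (v t') x) ^ 2 * (ν * pd 2 o x))
          = WW (v t') x ^ 2 * pd 2 o x := by
        field_simp
      rw [e1, e2] at h3
      linarith)
  have hb := backA hν hv (mem_Co_self hR2 hR2) hreg
  rw [← hae] at hb
  exact hs.not_bdd hb

end Pool.Agent.D0H28.OV
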