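import Pool.Agent.D0H28.OV.Src1

/-! Project OV (helper28): the mass of the negative part of `σ Ω`, integrated in time. -/

set_option autoImplicit false

open MeasureTheory Set Metric Filter Topology
open scoped ContDiff ENNReal
open H459R3.NS Pool.Agent.W268.NS

namespace Pool.Agent.D0H28.OV

open Pool.Agent.Q67.AXI Pool.Agent.TH305.AX Pool.Agent.TH305.DR Pool.Agent.Q85.CL
open Pool.Agent.W583.MD (sm_pd cs_pd int_cs slice hd_slice)
open Pool.Agent.Q257.AXI (sg_sm sm_RR)
open Pool.Agent.Q175.AX (sg_nn axis_ae lap_sm)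

lemma src_core (hA : StmAx) (H0 : StmH0) (T c R H K r h r1 h1 T₁ lam σ : ℝ)
    (u : ℝ → V → V) (o w : ℝ → V → ℝ) (φ : V → ℝ)
    (svt : ∀ t ∈ Ioo 0 T, ContDiff ℝ ∞ (u t))
    (sO : ContDiffOn ℝ ∞ (fun z : ℝ × V => o z.1 z.2) (Ioo 0 T ×ˢ univ))
    (sW : ContDiffOn ℝ ∞ (fun z : ℝ × V => w z.1 z.2) (Ioo 0 T ×ˢ univ))
    (hdiv : ∀ t ∈ Ioo 0 T, DFO (Co c R H) (u t))
    (heq : ∀ t ∈ Ioo 0 T, ∀ x ∈ Co c R H, sg x ≠ 0 → deriv (fun s => o s x) t
      = LL (o t) x - W221.NS.adv (u t) (o t) x + 2 * w t x * pd 2 (w t) x)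
    (hK : 0 ≤ K) (hr1 : 0 < r1) (hr : r1 < r) (hrR : r < R) (hh1 : 0 < h1) (hh : h1 < h)
    (hhH : h < H) (hT₁ : 0 < T₁) (hT : T₁ < T) (hφ : Cut c r h r1 h1 K φ)
    (hBd : ∀ t ∈ Ico T₁ T, ∀ x ∈ Out c r h r1 h1, |o t x| ≤ K ∧ ∀ i, |u t x i| ≤ K)
    (hσ : σ = 1 ∨ σ = -1)
    (hsrc : ∫⁻ t in Ioo T₁ T, ∫⁻ x in {x | x ∈ Co c r h ∧ σ * o t x < lam},
      ENNReal.ofReal (-(σ * (2 * w t x * pd 2 (w t) x))) ≠ ⊤) :
    ∃ M : ℝ, (∀ t ∈ Ioo 0 T, T₁ < t → ∫ x in Co c r1 h1, max (-(σ * o t x)) 0 ≤ M) ∧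
      ∀ t₁ t₂, T₁ < t₁ → t₁ ≤ t₂ → t₂ < T → ∫ t in t₁..t₂, ∫ z in Ioo (c - h1) (c + h1),
        max (-(σ * o t ![0, 0, z])) 0 ≤ M := by
  obtain ⟨c₀, hc₀, hid⟩ := mass_id hA H0
  obtain ⟨j, hj⟩ := jn_ex lam
  have hT0 : ∀ t ∈ Ico T₁ T, t ∈ Ioo 0 T := fun t ht => ⟨hT₁.trans_le ht.1, ht.2⟩
  have hσa : |σ| = 1 := by rcases hσ with h | h <;> rw [h] <;> norm_num
  have hr0 : 0 < r := hr1.trans hr
  have hsub : Co c r h ⊆ Co c R H := fun x hx =>
    ⟨hx.1.trans (by nlinarith), hx.2.trans hhH⟩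
  have hsub1 : Co c r1 h1 ⊆ Co c r h := fun x hx =>
    ⟨hx.1.trans (by nlinarith), hx.2.trans hh⟩
  have hCy : IsCompact (Cy c r h) := Pool.Agent.Q24.AXI.Cy_compact c r h
  have hCoCy : Co c r h ⊆ Cy c r h := fun x hx => ⟨le_of_lt hx.1, le_of_lt hx.2⟩
  have mCo : MeasurableSet (Co c r h) := (Co_open c r h).measurableSet
  have vCo : volume (Co c r h) < ⊤ := (measure_mono hCoCy).trans_lt hCy.measure_lt_top
  have vCo1 : volume (Co c r1 h1) < ⊤ := (measure_mono hsub1).trans_lt vCo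
  obtain ⟨vol, hvol⟩ : ∃ vol : ℝ, vol = (volume (Co c r h)).toReal := ⟨_, rfl⟩
  have hvol0 : 0 ≤ vol := by rw [hvol]; exact ENNReal.toReal_nonneg
  -- the functions `q = σ Ω` and `g = σ ∂_z w²`
  obtain ⟨q, hq⟩ : ∃ q : ℝ → V → ℝ, q = fun t x => σ * o t x := ⟨_, rfl⟩
  obtain ⟨g, hg⟩ : ∃ g : ℝ → V → ℝ, g = fun t x => σ * (2 * w t x * pd 2 (w t) x) := ⟨_, rfl⟩
  have sQ : ContDiffOn ℝ ∞ (fun z : ℝ × V => q z.1 z.2) (Ioo 0 T ×ˢ univ) := by
    rw [hq]; exact contDiffOn_const.mul sO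
  have sGg : ContDiffOn ℝ ∞ (fun z : ℝ × V => g z.1 z.2) (Ioo 0 T ×ˢ univ) := by
    rw [hg]
    exact contDiffOn_const.mul ((contDiffOn_const.mul sW).mul (Pool.Agent.Q153.AXI.jpd sW 2))
  have sQt : ∀ t ∈ Ioo 0 T, ContDiff ℝ ∞ (q t) := fun t ht => slice sQ ht
  have sgt : ∀ t ∈ Ioo 0 T, ContDiff ℝ ∞ (g t) := fun t ht => slice sGg ht
  have sOt : ∀ t ∈ Ioo 0 T, ContDiff ℝ ∞ (o t) := fun t ht => slice sO ht
  have hqLL : ∀ t ∈ Ioo 0 T, ∀ x, LL (q t) x = σ * LL (o t) x := by
    intro t ht x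
    have e : q t = fun y => σ * o t y := by rw [hq]
    rw [e]
    have h1 : ∀ i : Fin 3, pd i (fun y => σ * o t y) = fun y => σ * pd i (o t) y := by
      intro i
      funext y
      unfold pd
      have : (fun y => σ * o t y) = σ • o t := by funext y; rfl
      rw [this, fderiv_const_smul_field]
      rfl
    have h2 : ∀ i : Fin 3, pd i (fun y => σ * pd i (o t) y) = fun y => σ * pd i (pd i (o t)) y := by
      intro i
      funext y
      have : (fun y => σ * pd i (o t) y) = σ • pd i (o t) := by funext y; rfl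
      show fderiv ℝ (fun y => σ * pd i (o t) y) y (Pi.single i 1)
        = σ * fderiv ℝ (pd i (o t)) y (Pi.single i 1)
      rw [this, fderiv_const_smul_field]
      rfl
    unfold LL lap RR
    simp_rw [h1, h2, ← Finset.mul_sum]
    ring
  have hqadv : ∀ t ∈ Ioo 0 T, ∀ x, W221.NS.adv (u t) (q t) x
      = σ * W221.NS.adv (u t) (o t) x := by
    intro t ht x
    have e : q t = fun y => σ * o t y := by rw [hq]
    rw [e]
    have h1 : ∀ i : Fin 3, pd i (fun y => σ * o t y) = fun y => σ * pd i (o t) y := by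
      intro i
      funext y
      unfold pd
      have : (fun y => σ * o t y) = σ • o t := by funext y; rfl
      rw [this, fderiv_const_smul_field]
      rfl
    unfold W221.NS.adv
    simp_rw [h1]
    rw [Fin.sum_univ_three, Fin.sum_univ_three]
    ring
  have hcz : Continuous fun z : ℝ => (![0, 0, z] : V) := by
    refine continuous_pi fun i => ?_
    fin_cases i
    · exact continuous_const
    · exact continuous_const
    · exact continuous_id
  -- the mass, the axis term and the production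
  obtain ⟨Mm, hMm⟩ : ∃ Mm : ℝ → ℝ, Mm = fun t => ∫ x, φ x * j (q t x) := ⟨_, rfl⟩
  obtain ⟨Aa, hAa⟩ : ∃ Aa : ℝ → ℝ, Aa = fun t => ∫ z in Ioo (c - h) (c + h),
    φ ![0, 0, z] * j (q t ![0, 0, z]) := ⟨_, rfl⟩
  obtain ⟨Pp, hPp⟩ : ∃ Pp : ℝ → ℝ, Pp = fun t => ∫ x, φ x * (deriv j (q t x) * g t x) :=
    ⟨_, rfl⟩
  obtain ⟨C₁, hC₁⟩ : ∃ C₁ : ℝ, C₁ = (K + |lam|) * (3 * K + 3 * (K * K)) * vol := ⟨_, rfl⟩
  have hC₁0 : 0 ≤ C₁ := by rw [hC₁]; positivity
  have hM0 : ∀ t, 0 ≤ Mm t := fun t => by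
    rw [hMm]
    exact integral_nonneg fun x => mul_nonneg (hφ.nn x) (hj.nn _)
  have hA0 : ∀ t, 0 ≤ Aa t := fun t => by
    rw [hAa]; exact integral_nonneg fun z => mul_nonneg (hφ.nn _) (hj.nn _)
  have hqz : ContinuousOn (fun z : ℝ × ℝ => q z.1 ![0, 0, z.2]) (Ioo 0 T ×ˢ univ) :=
    axis_c2 sQ.continuousOn
  have hAc : ContinuousOn Aa (Ioo 0 T) := by
    rw [hAa]
    refine pcont1 (g := fun t z => φ ![0, 0, z] * j (q t ![0, 0, z])) ?_
    refine ContinuousOn.mul ?_ (hj.sm.continuous.comp_continuousOn hqz)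
    exact ((hφ.sm.continuous.comp hcz).comp continuous_snd).continuousOn
  obtain ⟨ρ, hρ⟩ := hφ.cs.isCompact.isBounded.subset_closedBall (0 : V)
  have hPc : ContinuousOn Pp (Ioo 0 T) := by
    intro t ht
    have s1 : ContDiffOn ℝ ∞ (fun z : ℝ × V => φ z.2 * (deriv j (q z.1 z.2) * g z.1 z.2))
        (Ioo 0 T ×ˢ univ) :=
      ((hφ.sm.comp contDiff_snd).contDiffOn).mul
        (((sm_deriv hj.sm).comp_contDiffOn sQ).mul sGg)
    have c1 : ∀ s ∈ Ioo 0 T, ∀ z ∉ closedBall (0 : V) ρ,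
        φ z * (deriv j (q s z) * g s z) = 0 := by
      intro s _ z hz'
      rw [image_eq_zero_of_notMem_tsupport fun h => hz' (hρ h), zero_mul]
    have hd := Pool.Agent.Q119.AXI.hd_int'
      (F := fun s x => φ x * (deriv j (q s x) * g s x)) s1 c1 ht
    rw [hPp]
    exact hd.continuousAt.continuousWithinAt
  have hder : ∀ t ∈ Ioo 0 T, t ∈ Ico T₁ T → ∃ D' : ℝ, HasDerivAt Mm D' t ∧
      D' ≤ C₁ - 2 * c₀ * Aa t + Pp t := by
    intro t ht ht1
    have sG : ContDiffOn ℝ ∞ (fun z : ℝ × V => φ z.2 * j (q z.1 z.2)) (Ioo 0 T ×ˢ univ) :=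
      ((hφ.sm.comp contDiff_snd).contDiffOn).mul (hj.sm.comp_contDiffOn sQ)
    have cG : ∀ s ∈ Ioo 0 T, ∀ z ∉ closedBall (0 : V) ρ, φ z * j (q s z) = 0 := by
      intro s _ z hz'
      rw [image_eq_zero_of_notMem_tsupport fun h => hz' (hρ h), zero_mul]
    have hd := Pool.Agent.Q119.AXI.hd_int' (F := fun s x => φ x * j (q s x)) sG cG ht
    have hMe : (fun s => ∫ x, φ x * j (q s x)) = Mm := by rw [hMm]
    rw [hMe] at hd
    refine ⟨_, hd, ?_⟩
    have hpt : ∀ᵐ x : V, deriv (fun s => φ x * j (q s x)) t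
        = φ x * (deriv j (q t x) * (LL (q t) x - W221.NS.adv (u t) (q t) x + g t x)) := by
      filter_upwards [axis_ae] with x hx
      have h2 := hd_slice sO ht x
      have h3 : HasDerivAt (fun s => o s x) (deriv (fun s => o s x) t) t := by
        rw [← h2.deriv] at h2; exact h2
      have h3' : HasDerivAt (fun s => q s x) (σ * deriv (fun s => o s x) t) t := by
        rw [hq]
        exact h3.const_mul σ
      have h4 : HasDerivAt j (deriv j (q t x)) (q t x) :=
        (hj.sm.differentiable (by norm_cast) _).hasDerivAt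
      have h5 := (h4.comp t h3').const_mul (φ x)
      have h5' : deriv (fun s => φ x * j (q s x)) t
          = φ x * (deriv j (q t x) * (σ * deriv (fun s => o s x) t)) := h5.deriv
      rw [h5']
      by_cases hxs : x ∈ tsupport φ
      · rw [heq t ht x (hsub (hφ.supp hxs)) hx, hqLL t ht, hqadv t ht, hg]
        ring
      · rw [image_eq_zero_of_notMem_tsupport hxs, zero_mul, zero_mul]
    rw [integral_congr_ae hpt]
    have h5 := src_time (c₀ := c₀) (R := R) (H := H) hid hj (svt t ht) (hdiv t ht) (sQt t ht)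
      (sgt t ht) hK hφ hsub hvol (fun x hx => by
        refine ⟨?_, (hBd t ht1 x hx).2⟩
        rw [hq]
        simp only
        rw [abs_mul, hσa, one_mul]
        exact (hBd t ht1 x hx).1)
    have h6 : ∫ z : ℝ, φ ![0, 0, z] * j (q t ![0, 0, z]) = Aa t := by
      rw [hAa]
      refine (setIntegral_eq_integral_of_forall_compl_eq_zero fun z hz => ?_).symm
      have h7 : φ ![0, 0, z] = 0 := by
        apply image_eq_zero_of_notMem_tsupport
        intro hmem
        have h2 := (hφ.supp hmem).2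
        have h3 : |z - c| < h := h2
        rw [abs_lt] at h3
        exact hz ⟨by linarith [h3.1], by linarith [h3.2]⟩
      rw [h7, zero_mul]
    have h8 : Pp t = ∫ x, φ x * (deriv j (q t x) * g t x) := by rw [hPp]
    rw [h6] at h5
    rw [h8, hC₁]
    exact h5
  -- the production is bounded by the source
  obtain ⟨G₀, hG₀⟩ : ∃ G₀ : ℝ≥0∞, G₀ = ∫⁻ t in Ioo T₁ T,
    ∫⁻ x in {x | x ∈ Co c r h ∧ σ * o t x < lam},
      ENNReal.ofReal (-(σ * (2 * w t x * pd 2 (w t) x))) := ⟨_, rfl⟩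
  rw [← hG₀] at hsrc
  have hprod : ∀ t ∈ Ioo 0 T, ENNReal.ofReal (Pp t)
      ≤ ∫⁻ x in {x | x ∈ Co c r h ∧ σ * o t x < lam},
        ENNReal.ofReal (-(σ * (2 * w t x * pd 2 (w t) x))) := by
    intro t ht
    have mS : MeasurableSet {x | x ∈ Co c r h ∧ σ * o t x < lam} :=
      mCo.inter ((isOpen_lt (continuous_const.mul (sOt t ht).continuous)
        continuous_const).measurableSet)
    have hPi : Integrable (fun x => φ x * (deriv j (q t x) * g t x)) :=
      int_cs (hφ.sm.continuous.mul ((((sm_deriv hj.sm).comp (sQt t ht)).continuous).mul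
        (sgt t ht).continuous)) hφ.cs.mul_right
    have h1 : ENNReal.ofReal (Pp t) ≤ ∫⁻ x, ENNReal.ofReal (φ x * (deriv j (q t x) * g t x)) := by
      rw [hPp]
      exact ofReal_int_le hPi
    refine h1.trans ?_
    rw [← lintegral_indicator mS]
    refine lintegral_mono fun x => ?_
    by_cases hx : x ∈ {x | x ∈ Co c r h ∧ σ * o t x < lam}
    · rw [indicator_of_mem hx]
      have e1 : σ * (2 * w t x * pd 2 (w t) x) = g t x := by rw [hg]
      rw [e1]
      obtain ⟨g1, g2⟩ := hj.d1 (q t x)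
      have n0 := hφ.nn x
      have n1 := hφ.le x
      by_cases hgs : 0 ≤ g t x
      · have h2 : φ x * (deriv j (q t x) * g t x) ≤ 0 :=
          mul_nonpos_of_nonneg_of_nonpos n0 (mul_nonpos_of_nonpos_of_nonneg g2 hgs)
        rw [ENNReal.ofReal_of_nonpos h2]
        exact bot_le
      · refine ENNReal.ofReal_le_ofReal ?_
        have h3 : 0 ≤ -g t x := by linarith
        calc φ x * (deriv j (q t x) * g t x) = (φ x * -deriv j (q t x)) * -g t x := by ring
          _ ≤ (1 * 1) * -g t x := mul_le_mul_of_nonneg_right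
              (mul_le_mul n1 (by linarith) (by linarith) (by norm_num)) h3
          _ = -g t x := by ring
    · rw [indicator_of_notMem hx]
      have h2 : φ x * (deriv j (q t x) * g t x) = 0 := by
        by_cases hxs : x ∈ tsupport φ
        · have h3 : lam ≤ q t x := by
            rw [hq]
            simp only
            by_contra hcon
            exact hx ⟨hφ.supp hxs, not_le.1 hcon⟩
          rw [hj.d3 _ h3]
          ring
        · rw [image_eq_zero_of_notMem_tsupport hxs, zero_mul]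
      rw [h2, ENNReal.ofReal_zero]
  -- integration in time
  obtain ⟨M₁, hM₁⟩ : ∃ M₁ : ℝ, M₁ = Mm T₁ + C₁ * (T - T₁) + G₀.toReal := ⟨_, rfl⟩
  have hmass : ∀ t' ∈ Ico T₁ T, Mm t' + 2 * c₀ * (∫ s in T₁..t', Aa s) ≤ M₁ := by
    intro t' ht'
    have hI : ∀ s ∈ Icc T₁ t', s ∈ Ico T₁ T := fun s hs => ⟨hs.1, hs.2.trans_lt ht'.2⟩
    have hAcI : ContinuousOn Aa (Icc T₁ t') := hAc.mono fun s hs => hT0 s (hI s hs)
    have hPcI : ContinuousOn Pp (Icc T₁ t') := hPc.mono fun s hs => hT0 s (hI s hs)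
    obtain ⟨W, hW⟩ : ∃ W : ℝ → ℝ, W = fun s => C₁ - 2 * c₀ * Aa s + Pp s := ⟨_, rfl⟩
    have hWc : ContinuousOn W (Icc T₁ t') := by
      rw [hW]; exact (continuousOn_const.sub (continuousOn_const.mul hAcI)).add hPcI
    obtain ⟨Φ, hΦ⟩ : ∃ Φ : ℝ → ℝ, Φ = fun t => Mm t - ∫ s in T₁..t, W s := ⟨_, rfl⟩
    have hMc : ContinuousOn Mm (Icc T₁ t') := by
      intro s hs
      obtain ⟨D', h2, -⟩ := hder s (hT0 s (hI s hs)) (hI s hs)
      exact h2.continuousAt.continuousWithinAt
    have hWd : ∀ s ∈ Ioo T₁ t', HasDerivAt (fun t => ∫ s in T₁..t, W s) (W s) s := by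
      intro s hs
      have hsub : uIcc T₁ s ⊆ Icc T₁ t' := by
        rw [uIcc_of_le hs.1.le]
        exact Icc_subset_Icc_right hs.2.le
      have hn : Icc T₁ t' ∈ 𝓝 s := Icc_mem_nhds hs.1 hs.2
      exact intervalIntegral.integral_hasDerivAt_right ((hWc.mono hsub).intervalIntegrable)
        (hWc.stronglyMeasurableAtFilter_nhdsWithin measurableSet_Icc s |>.filter_mono (by
          rw [nhdsWithin_eq_nhds.2 hn])) (hWc.continuousAt hn)
    have hΦc : ContinuousOn Φ (Icc T₁ t') := by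
      rw [hΦ]
      have h2 : ContinuousOn (fun t => ∫ s in T₁..t, W s) (Icc T₁ t') := by
        have := intervalIntegral.continuousOn_primitive_interval (μ := volume) (f := W)
          (a := T₁) (b := t') (by
            rw [uIcc_of_le ht'.1]
            exact hWc.integrableOn_compact isCompact_Icc)
        rwa [uIcc_of_le ht'.1] at this
      exact hMc.sub h2
    have hanti : AntitoneOn Φ (Icc T₁ t') := by
      refine antitoneOn_of_deriv_nonpos (convex_Icc T₁ t') hΦc ?_ ?_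
      · intro s hs
        rw [interior_Icc] at hs
        have hs' := hI s (Ioo_subset_Icc_self hs)
        obtain ⟨D', h2, -⟩ := hder s (hT0 s hs') hs'
        rw [hΦ]
        exact (h2.sub (hWd s hs)).differentiableAt.differentiableWithinAt
      · intro s hs
        rw [interior_Icc] at hs
        have hs' := hI s (Ioo_subset_Icc_self hs)
        obtain ⟨D', h2, h3⟩ := hder s (hT0 s hs') hs'
        have e : deriv Φ s = D' - W s := by
          rw [hΦ]
          exact (h2.sub (hWd s hs)).deriv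
        rw [e, hW]
        simp only
        linarith
    have h2 := hanti (left_mem_Icc.2 ht'.1) (right_mem_Icc.2 ht'.1) ht'.1
    rw [hΦ] at h2
    simp only [intervalIntegral.integral_same, sub_zero] at h2
    have hAi : IntervalIntegrable Aa volume T₁ t' := by
      refine ContinuousOn.intervalIntegrable ?_
      rwa [uIcc_of_le ht'.1]
    have hPi : IntervalIntegrable Pp volume T₁ t' := by
      refine ContinuousOn.intervalIntegrable ?_
      rwa [uIcc_of_le ht'.1]
    have h3 : ∫ s in T₁..t', W s = C₁ * (t' - T₁) - 2 * c₀ * (∫ s in T₁..t', Aa s)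
        + ∫ s in T₁..t', Pp s := by
      rw [hW, intervalIntegral.integral_add (intervalIntegrable_const.sub (hAi.const_mul _)) hPi,
        intervalIntegral.integral_sub intervalIntegrable_const (hAi.const_mul _),
        intervalIntegral.integral_const, intervalIntegral.integral_const_mul, smul_eq_mul]
      ring
    have h4 : ∫ s in T₁..t', Pp s ≤ G₀.toReal := by
      rw [intervalIntegral.integral_of_le ht'.1]
      have hPi' : Integrable Pp (volume.restrict (Ioc T₁ t')) := hPi.1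
      refine (int_le_lint hPi').trans ?_
      refine ENNReal.toReal_mono hsrc ?_
      have h5 : ∫⁻ s in Ioc T₁ t', ENNReal.ofReal (Pp s)
          ≤ ∫⁻ t in Ioc T₁ t', ∫⁻ x in {x | x ∈ Co c r h ∧ σ * o t x < lam},
            ENNReal.ofReal (-(σ * (2 * w t x * pd 2 (w t) x))) := by
        refine setLIntegral_mono' measurableSet_Ioc fun s hs => ?_
        exact hprod s (hT0 s (hI s ⟨hs.1.le, hs.2⟩))
      refine h5.trans ?_
      rw [hG₀]
      exact lintegral_mono_set fun s hs => ⟨hs.1, hs.2.trans_lt ht'.2⟩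
    rw [h3] at h2
    have h5 : C₁ * (t' - T₁) ≤ C₁ * (T - T₁) :=
      mul_le_mul_of_nonneg_left (by linarith [ht'.2]) hC₁0
    rw [hM₁]
    linarith
  have hAint : ∀ t₁ t₂, T₁ < t₁ → t₁ ≤ t₂ → t₂ < T → ∫ s in t₁..t₂, Aa s ≤ M₁ / (2 * c₀) := by
    intro t₁ t₂ h1 h2 h3
    have h4 := hmass t₂ ⟨(h1.trans_le h2).le, h3⟩
    have h5 := hM0 t₂
    have h6 : ∫ s in t₁..t₂, Aa s ≤ ∫ s in T₁..t₂, Aa s := by
      refine intervalIntegral.integral_mono_interval h1.le h2 le_rfl
        (ae_of_all _ fun s => hA0 s) ?_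
      refine ContinuousOn.intervalIntegrable ?_
      rw [uIcc_of_le (h1.trans_le h2).le]
      exact hAc.mono fun s hs => ⟨hT₁.trans_le hs.1, hs.2.trans_lt h3⟩
    rw [le_div_iff₀ (by positivity)]
    nlinarith
  -- conclusion
  have cQ : ∀ t ∈ Ioo 0 T, Continuous (q t) := fun t ht => (sQt t ht).continuous
  obtain ⟨M₂, hM₂⟩ : ∃ M₂ : ℝ, M₂ = |M₁| + (1 + |lam|) * vol + |M₁ / (2 * c₀)|
    + (1 + |lam|) * (2 * h1) * (T - T₁) := ⟨_, rfl⟩
  have hpos1 : 0 ≤ (1 + |lam|) * (2 * h1) * (T - T₁) := by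
    have : 0 ≤ T - T₁ := by linarith
    positivity
  have hpos2 : 0 ≤ (1 + |lam|) * vol := by positivity
  refine ⟨M₂, fun t ht htT => ?_, fun t₁ t₂ h1' h2' h3' => ?_⟩
  · have hcq := cQ t ht
    have eq1 : ∀ x, max (-(σ * o t x)) 0 = max (-(q t x)) 0 := fun x => by rw [hq]
    simp_rw [eq1]
    have hCy1 : IsCompact (Cy c r1 h1) := Pool.Agent.Q24.AXI.Cy_compact c r1 h1
    have hCoCy1 : Co c r1 h1 ⊆ Cy c r1 h1 := fun x hx => ⟨le_of_lt hx.1, le_of_lt hx.2⟩
    have j1 : IntegrableOn (fun x => φ x * j (q t x)) (Co c r1 h1) :=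
      ((hφ.sm.continuous.mul (hj.sm.continuous.comp hcq)).continuousOn.integrableOn_compact
        hCy1).mono_set hCoCy1
    have j2 : IntegrableOn (fun x => max (-(q t x)) 0) (Co c r1 h1) :=
      ((hcq.neg.max continuous_const).continuousOn.integrableOn_compact hCy1).mono_set hCoCy1
    have h2 : ∫ x in Co c r1 h1, max (-(q t x)) 0
        ≤ ∫ x in Co c r1 h1, (φ x * j (q t x) + (1 + |lam|)) := by
      refine setIntegral_mono_on j2 (j1.add (integrableOn_const vCo1.ne))
        (Co_open c r1 h1).measurableSet fun x hx => ?_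
      rw [hφ.one x (hCoCy1 hx), one_mul]
      exact hj.lo _
    rw [integral_add j1 (integrableOn_const vCo1.ne), setIntegral_const, smul_eq_mul,
      Measure.real] at h2
    have h3 : ∫ x in Co c r1 h1, φ x * j (q t x) ≤ Mm t := by
      rw [hMm]
      refine setIntegral_le_integral ?_ (ae_of_all _ fun x => mul_nonneg (hφ.nn x) (hj.nn _))
      exact int_cs (hφ.sm.continuous.mul (hj.sm.continuous.comp hcq)) hφ.cs.mul_right
    have h4 := hmass t ⟨htT.le, ht.2⟩
    have h5 : 0 ≤ 2 * c₀ * (∫ s in T₁..t, Aa s) :=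
      mul_nonneg (by positivity) (intervalIntegral.integral_nonneg htT.le fun s _ => hA0 s)
    have h6 : (volume (Co c r1 h1)).toReal ≤ vol := by
      rw [hvol]
      exact ENNReal.toReal_mono vCo.ne (measure_mono hsub1)
    have h7 : (volume (Co c r1 h1)).toReal * (1 + |lam|) ≤ (1 + |lam|) * vol := by
      rw [mul_comm]
      exact mul_le_mul_of_nonneg_left h6 (by positivity)
    have h8 := le_abs_self M₁
    have h9 := abs_nonneg (M₁ / (2 * c₀))
    rw [hM₂]
    linarith
  · have hIs : ∀ s ∈ Icc t₁ t₂, s ∈ Ioo 0 T := fun s hs =>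
      ⟨(hT₁.trans h1').trans_le hs.1, hs.2.trans_lt h3'⟩
    have eq1 : ∀ s z, max (-(σ * o s ![0, 0, z])) 0 = max (-(q s ![0, 0, z])) 0 := fun s z => by
      rw [hq]
    simp_rw [eq1]
    have hci : IntervalIntegrable (fun t => ∫ z in Ioo (c - h1) (c + h1),
        max (-(q t ![0, 0, z])) 0) volume t₁ t₂ := by
      refine ContinuousOn.intervalIntegrable ?_
      rw [uIcc_of_le h2']
      have a3 : Continuous fun r : ℝ => max (-r) 0 := continuous_neg.max continuous_const
      exact (pcont1 (g := fun t z => max (-(q t ![0, 0, z])) 0)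
        (a3.comp_continuousOn hqz)).mono hIs
    have hAi : IntervalIntegrable Aa volume t₁ t₂ := by
      refine ContinuousOn.intervalIntegrable ?_
      rw [uIcc_of_le h2']
      exact hAc.mono hIs
    have h3 : ∫ t in t₁..t₂, ∫ z in Ioo (c - h1) (c + h1), max (-(q t ![0, 0, z])) 0
        ≤ ∫ t in t₁..t₂, (Aa t + (1 + |lam|) * (2 * h1)) := by
      refine intervalIntegral.integral_mono_on h2' hci (hAi.add intervalIntegrable_const)
        fun s hs => ?_
      have hcq := (cQ s (hIs s hs)).comp hcz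
      have hsb : Ioo (c - h1) (c + h1) ⊆ Ioo (c - h) (c + h) :=
        Ioo_subset_Ioo (by linarith) (by linarith)
      have j1 : IntegrableOn (fun z : ℝ => φ ![0, 0, z] * j (q s ![0, 0, z]))
          (Ioo (c - h) (c + h)) :=
        (((hφ.sm.continuous.comp hcz).mul
          (hj.sm.continuous.comp hcq)).continuousOn.integrableOn_compact
            isCompact_Icc).mono_set Ioo_subset_Icc_self
      have j2 : IntegrableOn (fun z : ℝ => max (-(q s ![0, 0, z])) 0) (Ioo (c - h1) (c + h1)) :=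
        ((hcq.neg.max continuous_const).continuousOn.integrableOn_compact
          isCompact_Icc).mono_set Ioo_subset_Icc_self
      have k1 : ∫ z in Ioo (c - h1) (c + h1), max (-(q s ![0, 0, z])) 0
          ≤ ∫ z in Ioo (c - h1) (c + h1), (φ ![0, 0, z] * j (q s ![0, 0, z]) + (1 + |lam|)) := by
        refine setIntegral_mono_on j2 ((j1.mono_set hsb).add
          (integrableOn_const measure_Ioo_lt_top.ne)) measurableSet_Ioo fun z hz => ?_
        have h4 : (![0, 0, z] : V) ∈ Cy c r1 h1 := by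
          refine ⟨?_, ?_⟩
          · show (0 : ℝ) ^ 2 + (0 : ℝ) ^ 2 ≤ r1 ^ 2
            have : 0 ≤ r1 ^ 2 := by positivity
            linarith
          · show |z - c| ≤ h1
            rw [abs_le]
            exact ⟨by linarith [hz.1], by linarith [hz.2]⟩
        rw [hφ.one _ h4, one_mul]
        exact hj.lo _
      rw [integral_add (j1.mono_set hsb) (integrableOn_const measure_Ioo_lt_top.ne),
        setIntegral_const, smul_eq_mul, Measure.real, Real.volume_Ioo,
        ENNReal.toReal_ofReal (by linarith)] at k1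
      have k2 : ∫ z in Ioo (c - h1) (c + h1), φ ![0, 0, z] * j (q s ![0, 0, z]) ≤ Aa s := by
        rw [hAa]
        exact setIntegral_mono_set j1 (ae_of_all _ fun z => mul_nonneg (hφ.nn _) (hj.nn _))
          hsb.eventuallyLE
      have k3 : (c + h1 - (c - h1)) * (1 + |lam|) = (1 + |lam|) * (2 * h1) := by ring
      rw [k3] at k1
      linarith
    rw [intervalIntegral.integral_add hAi intervalIntegrable_const,
      intervalIntegral.integral_const, smul_eq_mul] at h3
    have h4 := hAint t₁ t₂ h1' h2' h3'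
    have h5 : (t₂ - t₁) * ((1 + |lam|) * (2 * h1)) ≤ (1 + |lam|) * (2 * h1) * (T - T₁) := by
      rw [mul_comm]
      exact mul_le_mul_of_nonneg_left (by linarith) (by positivity)
    have h6 := le_abs_self (M₁ / (2 * c₀))
    have h7 := abs_nonneg M₁
    rw [hM₂]
    linarith

end Pool.Agent.D0H28.OV
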