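import Pool.Agent.D0H28.OV.Fin5
import Pool.Agent.D0H28.OV.Src2

/-! Project OV (helper28): one-sided integrability of the source `∂_z (u_θ² / ρ²)`. -/

set_option autoImplicit false

open MeasureTheory Set Metric Filter Topology
open scoped ContDiff ENNReal
open H459R3.NS Pool.Agent.W268.NS

namespace Pool.Agent.D0H28.OV

open Pool.Agent.Q67.AXI Pool.Agent.TH305.AX Pool.Agent.Q85.CL
open Pool.Agent.W583.MD (slice)
open Pool.Agent.Q175.AX (sg_nn axis_ae pd_ev)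

/-- good cylinders and cut-off functions -/
theorem good_cut {T E c R H T₀ : ℝ} {u : ℝ → V → V} {p : ℝ → V → ℝ} (hT : 0 < T) (hR : 0 < R)
    (hH : 0 < H) (hA : AxL T E c R H u p) (hT₀ : T₀ < T) :
    ∃ (K r h r1 h1 T₁ : ℝ) (φ : V → ℝ), 0 ≤ K ∧ 0 < r1 ∧ r1 < r ∧ r < R ∧ 0 < h1 ∧
      h1 < h ∧ h < H ∧ 0 < T₁ ∧ T₀ < T₁ ∧ T₁ < T ∧ Cut c r h r1 h1 K φ ∧
      ∀ t ∈ Ico T₁ T, ∀ x ∈ Out c r h r1 h1, BdA K (u t) x := by
  obtain ⟨r, hr⟩ : ∃ r : ℝ, r = min R 1 / 2 := ⟨_, rfl⟩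
  have hr0 : 0 < r := by rw [hr]; positivity
  have hrR : r < R := by rw [hr]; have := min_le_left R 1; linarith
  obtain ⟨h₀, hh₀⟩ : ∃ h₀ : ℝ, h₀ = min H 1 / 2 := ⟨_, rfl⟩
  have hh₀0 : 0 < h₀ := by rw [hh₀]; positivity
  have hh₀H : h₀ < H := by rw [hh₀]; have := min_le_left H 1; linarith
  obtain ⟨h, h1, hh1, hh1h, hhh₀, hG⟩ := hGd T E c R H u p hT hR hH hA r h₀ hr0 hrR hh₀0 hh₀H
  have hhH : h < H := hhh₀.trans hh₀H
  obtain ⟨KA, TA, hKA, hTA0, hTAT, hbA⟩ := hG r (r / 2) le_rfl (by positivity) (by linarith)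
  obtain ⟨KC, φ, hKC, hφ⟩ := hCut c r h (r / 2) h1 (by positivity) (by linarith) hh1 hh1h
  obtain ⟨K, hK⟩ : ∃ K : ℝ, K = max KA KC := ⟨_, rfl⟩
  have hKAK : KA ≤ K := by rw [hK]; exact le_max_left _ _
  have hKCK : KC ≤ K := by rw [hK]; exact le_max_right _ _
  have hmT : max TA T₀ < T := max_lt hTAT hT₀
  have hT₁A : TA ≤ (max TA T₀ + T) / 2 := by have := le_max_left TA T₀; linarith
  have hT₁0 : T₀ < (max TA T₀ + T) / 2 := by have := le_max_right TA T₀; linarith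
  exact ⟨K, r, h, r / 2, h1, (max TA T₀ + T) / 2, φ, hKA.trans hKAK, by positivity, by linarith,
    hrR, hh1, hh1h, hhH, hTA0.trans_le hT₁A, hT₁0, by linarith,
    Pool.Agent.Q151.AXI.cut_mono hKCK hφ, fun t ht x hx =>
      Pool.Agent.Q151.AXI.bdA_mono hKAK (hbA t ⟨hT₁A.trans ht.1, ht.2⟩ x hx)⟩

lemma pd_sq {w : V → ℝ} (hw : ContDiff ℝ ∞ w) (x : V) :
    pd 2 (fun y => w y ^ 2) x = 2 * w x * pd 2 w x := by
  have h1 : (fun y => w y ^ 2) = fun y => w y * w y := by funext y; ring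
  rw [h1]
  have h2 : pd 2 (fun y => w y * w y) x = w x * pd 2 w x + pd 2 w x * w x :=
    congrFun (pd_mulf hw hw 2) x
  rw [h2]
  ring

/-- the source, viscosity one -/
theorem reg_src {T E c R H T₀ lam σ : ℝ} {u : ℝ → V → V} {p : ℝ → V → ℝ} (hT : 0 < T)
    (hR : 0 < R) (hH : 0 < H) (hA : AxL T E c R H u p) (hT₀ : T₀ < T) (hσ : σ = 1 ∨ σ = -1)
    (hsrc : ∫⁻ t in Ioo T₀ T, ∫⁻ x in {x | x ∈ Co c R H ∧ σ * OO (u t) x < lam},
      ENNReal.ofReal (-(σ * pd 2 (fun y => WW (u t) y ^ 2) x)) ≠ ⊤) :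
    Rg T u ![0, 0, c] := by
  obtain ⟨K, r, h, r1, h1, T₁, φ, hK, hr1, hr, hrR, hh1, hh, hhH, hT₁, hT₀₁, hT₁T, hφ, hbK⟩ :=
    good_cut hT hR hH hA hT₀
  have hI : ∀ t ∈ Ico T₁ T, t ∈ Ioo 0 T := fun t ht => ⟨hT₁.trans_le ht.1, ht.2⟩
  have svt : ∀ t ∈ Ioo 0 T, ContDiff ℝ ∞ (u t) := by
    intro t ht
    rw [← contDiffOn_univ]
    exact hA.smooth_u.comp (contDiff_const.prodMk contDiff_id).contDiffOn
      (fun x _ => ⟨ht, mem_univ _⟩)
  obtain ⟨-, sW, -, sO⟩ := hJnt T u hA.smooth_u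
  have heq0 := eqO' hA
  obtain ⟨o, ho⟩ : ∃ o : ℝ → V → ℝ, o = fun t => OO (u t) := ⟨_, rfl⟩
  obtain ⟨w, hw⟩ : ∃ w : ℝ → V → ℝ, w = fun t => WW (u t) := ⟨_, rfl⟩
  have sO' : ContDiffOn ℝ ∞ (fun z : ℝ × V => o z.1 z.2) (Ioo 0 T ×ˢ univ) := by
    rw [ho]; exact sO
  have sW' : ContDiffOn ℝ ∞ (fun z : ℝ × V => w z.1 z.2) (Ioo 0 T ×ˢ univ) := by
    rw [hw]; exact sW
  have heq : ∀ t ∈ Ioo 0 T, ∀ x ∈ Co c R H, sg x ≠ 0 → deriv (fun s => o s x) t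
      = LL (o t) x - W221.NS.adv (u t) (o t) x + 2 * w t x * pd 2 (w t) x := by
    rw [ho, hw]
    exact heq0
  have hsub : Co c r h ⊆ Co c R H := fun x hx =>
    ⟨hx.1.trans (pow_lt_pow_left₀ hrR (hr1.trans hr).le (by norm_num)), hx.2.trans hhH⟩
  have hsrc' : ∫⁻ t in Ioo T₁ T, ∫⁻ x in {x | x ∈ Co c r h ∧ σ * o t x < lam},
      ENNReal.ofReal (-(σ * (2 * w t x * pd 2 (w t) x))) ≠ ⊤ := by
    refine ne_top_of_le_ne_top hsrc ?_
    have h2 : ∫⁻ t in Ioo T₁ T, ∫⁻ x in {x | x ∈ Co c r h ∧ σ * o t x < lam},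
        ENNReal.ofReal (-(σ * (2 * w t x * pd 2 (w t) x)))
        ≤ ∫⁻ t in Ioo T₁ T, ∫⁻ x in {x | x ∈ Co c R H ∧ σ * OO (u t) x < lam},
          ENNReal.ofReal (-(σ * pd 2 (fun y => WW (u t) y ^ 2) x)) := by
      refine setLIntegral_mono' measurableSet_Ioo fun t ht => ?_
      have ht0 : t ∈ Ioo 0 T := ⟨hT₁.trans ht.1, ht.2⟩
      have hWt : ContDiff ℝ ∞ (w t) := slice sW' ht0
      have e1 : ∀ x, pd 2 (fun y => WW (u t) y ^ 2) x = 2 * w t x * pd 2 (w t) x := by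
        intro x
        have := pd_sq hWt x
        rw [hw] at this ⊢
        exact this
      simp_rw [e1]
      rw [ho]
      exact lintegral_mono_set fun x hx => ⟨hsub hx.1, hx.2⟩
    exact h2.trans (lintegral_mono_set fun s hs => ⟨hT₀₁.trans hs.1, hs.2⟩)
  obtain ⟨M, hM1, hM2⟩ := src_core hhA hH0 T c R H K r h r1 h1 T₁ lam σ u o w φ svt sO' sW'
    (fun t ht => hA.divfree t ht) heq hK hr1 hr hrR hh1 hh hhH hT₁ hT₁T hφ
    (fun t ht x hx => by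
      rw [ho]
      exact ⟨(hbK t ht x hx).2.2.2.2.1, (hbK t ht x hx).1⟩) hσ hsrc'
  rw [ho] at hM1 hM2
  exact reg_one (T₀ := T₁) hT hr1 hh1 (axl_mono hA hr1.le (hr.trans hrR).le (hh.trans hhH).le)
    hT₁T hσ hM1 (fun t₁ t₂ _ h2 h3 h4 => hM2 t₁ t₂ h2 h3 h4)

/-- scaling of a lower integral in time -/
lemma lint_scale {ν T₀ T : ℝ} (hν : 0 < ν) (g : ℝ → ℝ≥0∞) :
    ∫⁻ t in Ioo (ν * T₀) (ν * T), g (t / ν) = ENNReal.ofReal ν * ∫⁻ t in Ioo T₀ T, g t := by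
  have hme : MeasurableEmbedding (fun t : ℝ => ν * t) :=
    (Homeomorph.mulLeft₀ ν hν.ne').measurableEmbedding
  have hvol : (volume : Measure ℝ) = ENNReal.ofReal ν • Measure.map (fun t => ν * t) volume := by
    have := Real.smul_map_volume_mul_left hν.ne'
    rw [abs_of_pos hν] at this
    exact this.symm
  have h1 : ∫⁻ t in Ioo (ν * T₀) (ν * T), g (t / ν)
      = ∫⁻ t, (Ioo (ν * T₀) (ν * T)).indicator (fun t => g (t / ν)) t :=
    (lintegral_indicator measurableSet_Ioo _).symm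
  rw [h1]
  conv_lhs => rw [hvol]
  rw [lintegral_smul_measure, hme.lintegral_map, smul_eq_mul]
  congr 1
  rw [← lintegral_indicator measurableSet_Ioo]
  refine lintegral_congr fun t => ?_
  by_cases ht : t ∈ Ioo T₀ T
  · have h2 : ν * t ∈ Ioo (ν * T₀) (ν * T) :=
      ⟨mul_lt_mul_of_pos_left ht.1 hν, mul_lt_mul_of_pos_left ht.2 hν⟩
    rw [indicator_of_mem ht, indicator_of_mem h2, mul_div_cancel_left₀ _ hν.ne']
  · have h2 : ν * t ∉ Ioo (ν * T₀) (ν * T) := fun h2 =>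
      ht ⟨lt_of_mul_lt_mul_left h2.1 hν.le, lt_of_mul_lt_mul_left h2.2 hν.le⟩
    rw [indicator_of_notMem ht, indicator_of_notMem h2]

/-- the source, all viscosities -/
theorem src_D {ν T E : ℝ} {Ω : Set V} {u : ℝ → V → V} {p : ℝ → V → ℝ} (hν : 0 < ν)
    (h : DSl ν T E Ω u p)
    (hax : ∀ t ∈ Ioo 0 T, ∀ (θ : ℝ), ∀ x ∈ Ω, rot θ x ∈ Ω → u t (rot θ x) = rot θ (u t x))
    {a : V} (ha : a ∈ Ω) (ha0 : a 0 = 0) (ha1 : a 1 = 0) (hs : Sing T u a) {σ : ℝ}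
    (hσ : σ = 1 ∨ σ = -1) {lam T₀ R : ℝ} (hT₀0 : 0 ≤ T₀) (hT₀ : T₀ < T) (hR : 0 < R) :
    ∫⁻ t in Ioo T₀ T, ∫⁻ x in {x : V | ‖x - a‖ ≤ R ∧ σ * (circ (vort (u t)) x / sg x) < lam},
      ENNReal.ofReal (-(σ * pd 2 (fun y => (circ (u t) y / sg y) ^ 2) x)) = ⊤ := by
  have hT := hs.pos
  have hae : a = ![0, 0, a 2] := by
    funext i
    fin_cases i
    · exact ha0
    · exact ha1
    · rfl
  by_contra hcon
  obtain ⟨R', hR', hRR, hsub⟩ := small_ball h.openO ha hR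
  rw [hae] at hsub
  have hR2 : 0 < R' / 2 := by positivity
  obtain ⟨E', v, q, hL, hv, hO, -⟩ := transf hν hT h hax hR2 (by
    rw [show 2 * (R' / 2) = R' by ring]; exact hsub)
  have hνi : 0 < ν⁻¹ := inv_pos.2 hν
  have hmt : MapsTo (fun s : ℝ => s / ν) (Ioo 0 (ν * T)) (Ioo 0 T) := by
    intro s hs
    exact ⟨div_pos hs.1 hν, by rw [div_lt_iff₀ hν, mul_comm]; exact hs.2⟩
  have htν : ∀ t' : ℝ, ν * (t' / ν) = t' := fun t' => by field_simp
  have hnb : ∀ x ∈ Co (a 2) (R' / 2) (R' / 2), ‖x - a‖ ≤ R := by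
    intro x hx
    rw [hae]
    refine (norm_Co hR2.le hx).trans ?_
    rw [max_self]
    linarith
  have svt : ∀ t ∈ Ioo 0 (ν * T), ContDiff ℝ ∞ (v t) := by
    intro t ht
    rw [← contDiffOn_univ]
    exact hL.smooth_u.comp (contDiff_const.prodMk contDiff_id).contDiffOn
      (fun x _ => ⟨ht, mem_univ _⟩)
  have haxis : volume {x : V | sg x = 0} = 0 := by
    have h1 : ∀ᵐ x : V, sg x ≠ 0 := axis_ae
    rw [ae_iff] at h1
    simpa using h1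
  obtain ⟨G, hG⟩ : ∃ G : ℝ → ℝ≥0∞, G = fun t =>
    ∫⁻ x in {x : V | ‖x - a‖ ≤ R ∧ σ * (circ (vort (u t)) x / sg x) < lam},
      ENNReal.ofReal (-(σ * pd 2 (fun y => (circ (u t) y / sg y) ^ 2) x)) := ⟨_, rfl⟩
  have hinner : ∀ t' ∈ Ioo (ν * T₀) (ν * T),
      ∫⁻ x in {x | x ∈ Co (a 2) (R' / 2) (R' / 2) ∧ σ * OO (v t') x < ν⁻¹ * lam},
        ENNReal.ofReal (-(σ * pd 2 (fun y => WW (v t') y ^ 2) x))
      ≤ ENNReal.ofReal (ν⁻¹ ^ 2) * G (t' / ν) := by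
    intro t' htt
    have ht' : t' ∈ Ioo 0 (ν * T) := ⟨(mul_nonneg hν.le hT₀0).trans_lt htt.1, htt.2⟩
    have ht := hmt ht'
    obtain ⟨o, ho⟩ : ∃ o : V → ℝ, o = OO (v t') := ⟨_, rfl⟩
    have hco : Continuous o := by
      rw [ho]
      exact ((hAlg (v t') (svt t' ht') (hL.axi t' ht')).1.2.2.2).continuous
    rw [← ho]
    have mS : MeasurableSet ({x | x ∈ Co (a 2) (R' / 2) (R' / 2) ∧ σ * o x < ν⁻¹ * lam}
        \ {x : V | sg x = 0}) := by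
      refine MeasurableSet.diff ?_ ?_
      · exact (Co_open _ _ _).measurableSet.inter
          ((isOpen_lt (continuous_const.mul hco) continuous_const).measurableSet)
      · exact (isClosed_eq (by unfold sg; fun_prop) continuous_const).measurableSet
    have h1 : ∫⁻ x in {x | x ∈ Co (a 2) (R' / 2) (R' / 2) ∧ σ * o x < ν⁻¹ * lam},
        ENNReal.ofReal (-(σ * pd 2 (fun y => WW (v t') y ^ 2) x))
        = ∫⁻ x in ({x | x ∈ Co (a 2) (R' / 2) (R' / 2) ∧ σ * o x < ν⁻¹ * lam}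
          \ {x : V | sg x = 0}), ENNReal.ofReal (-(σ * pd 2 (fun y => WW (v t') y ^ 2) x)) := by
      rw [Measure.restrict_congr_set (diff_null_ae_eq_self haxis).symm]
    rw [h1]
    have h2 : ∫⁻ x in ({x | x ∈ Co (a 2) (R' / 2) (R' / 2) ∧ σ * o x < ν⁻¹ * lam}
          \ {x : V | sg x = 0}), ENNReal.ofReal (-(σ * pd 2 (fun y => WW (v t') y ^ 2) x))
        ≤ ∫⁻ x in ({x | x ∈ Co (a 2) (R' / 2) (R' / 2) ∧ σ * o x < ν⁻¹ * lam}
          \ {x : V | sg x = 0}), ENNReal.ofReal (ν⁻¹ ^ 2) * ENNReal.ofReal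
            (-(σ * pd 2 (fun y => (circ (u (t' / ν)) y / sg y) ^ 2) x)) := by
      refine setLIntegral_mono' mS fun x hx => ?_
      obtain ⟨⟨hxC, -⟩, hxs⟩ := hx
      have hsx : sg x ≠ 0 := hxs
      have hev : (fun y => (circ (u (t' / ν)) y / sg y) ^ 2)
          =ᶠ[𝓝 x] fun y => ν ^ 2 * WW (v t') y ^ 2 := by
        have hop : IsOpen {y : V | sg y ≠ 0} :=
          isOpen_ne_fun (by unfold sg; fun_prop) continuous_const
        filter_upwards [(Co_open _ _ _).mem_nhds hxC, hop.mem_nhds hsx] with y hy hsy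
        have hsy' : sg y ≠ 0 := hsy
        have h2 := hv (t' / ν) ht y hy
        rw [htν] at h2
        have h3 := ((hAlg (v t') (svt t' ht') (hL.axi t' ht')).2.2.2 y).2.2.2.2.2.2.2.2.1
        rw [circ_cm h2] at h3
        have h4 : circ (u (t' / ν)) y = ν * (sg y * WW (v t') y) := by
          rw [← h3]
          field_simp
        rw [h4]
        field_simp
      have hpd : pd 2 (fun y => (circ (u (t' / ν)) y / sg y) ^ 2) x
          = ν ^ 2 * pd 2 (fun y => WW (v t') y ^ 2) x := by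
        rw [pd_ev hev 2]
        unfold pd
        have : (fun y => ν ^ 2 * WW (v t') y ^ 2) = ν ^ 2 • fun y => WW (v t') y ^ 2 := by
          funext y
          rfl
        rw [this, fderiv_const_smul_field]
        rfl
      rw [← ENNReal.ofReal_mul (by positivity), hpd]
      refine ENNReal.ofReal_le_ofReal (le_of_eq ?_)
      field_simp
    refine h2.trans ?_
    rw [lintegral_const_mul' _ _ ENNReal.ofReal_ne_top]
    refine mul_le_mul_right ?_ _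
    rw [hG]
    refine lintegral_mono_set fun x hx => ?_
    obtain ⟨⟨hxC, hxl⟩, hxs⟩ := hx
    have hsx : sg x ≠ 0 := hxs
    refine ⟨hnb x hxC, ?_⟩
    rw [hO _ ht x hxC hsx, htν, ← ho]
    have h5 := mul_lt_mul_of_pos_left hxl hν
    have e1 : ν * (σ * o x) = σ * (ν * o x) := by ring
    have e2 : ν * (ν⁻¹ * lam) = lam := by field_simp
    rw [e1, e2] at h5
    exact h5
  have houter : ∫⁻ t' in Ioo (ν * T₀) (ν * T),
      ∫⁻ x in {x | x ∈ Co (a 2) (R' / 2) (R' / 2) ∧ σ * OO (v t') x < ν⁻¹ * lam},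
        ENNReal.ofReal (-(σ * pd 2 (fun y => WW (v t') y ^ 2) x)) ≠ ⊤ := by
    refine ne_top_of_le_ne_top ?_ (setLIntegral_mono' measurableSet_Ioo hinner)
    rw [lintegral_const_mul' _ _ ENNReal.ofReal_ne_top, lint_scale hν, hG]
    exact ENNReal.mul_ne_top ENNReal.ofReal_ne_top (ENNReal.mul_ne_top ENNReal.ofReal_ne_top hcon)
  have hreg := reg_src (mul_pos hν hT) hR2 hR2 hL (mul_lt_mul_of_pos_left hT₀ hν) hσ houter
  have hb := backA hν hv (mem_Co_self hR2 hR2) hreg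
  rw [← hae] at hb
  exact hs.not_bdd hb

end Pool.Agent.D0H28.OV
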