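import Pool.Agent.D0H28.OV.Odd2

/-! Project OV (helper28): smooth approximations of `|s - λ|` and the mass of `|Ω - λ|` at a fixed
time. -/

set_option autoImplicit false

open MeasureTheory Set Metric Filter Topology
open scoped ContDiff
open H459R3.NS Pool.Agent.W268.NS

namespace Pool.Agent.D0H28.OV

open Pool.Agent.Q67.AXI Pool.Agent.TH305.AX Pool.Agent.TH305.DR Pool.Agent.Q85.CL
open Pool.Agent.W583.MD (sm_pd cs_pd int_cs slice hd_slice Z Z.add Z.sub Z.smul Z_pd)
open Pool.Agent.Q257.AXI (sg_sm sm_RR RR_mul)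
open Pool.Agent.Q175.AX (sg_nn axis_ae lap_sm gr2_sm gr2_nn lap_mul pd_ev pd_evv lap_ev RR_ev
  cs_zero)

/-- smooth approximation `j` of the function `|s - λ|` -/
structure Jl (lam ε C : ℝ) (j : ℝ → ℝ) : Prop where
  sm : ContDiff ℝ ∞ j
  lo : ∀ s, |s - lam| ≤ j s
  up : ∀ s, j s ≤ 3 * |s - lam| + 4 * ε
  d1 : ∀ s, |deriv j s| ≤ 1
  d2 : ∀ s, 0 ≤ deriv (deriv j) s ∧ deriv (deriv j) s ≤ C
  d3 : ∀ s, ε ≤ |s - lam| → deriv (deriv j) s = 0

lemma st_bd : ∃ C : ℝ, 0 ≤ C ∧ ∀ s, 0 ≤ deriv Real.smoothTransition s ∧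
    deriv Real.smoothTransition s ≤ C ∧
    (s ≤ 0 ∨ 1 ≤ s → deriv Real.smoothTransition s = 0) := by
  have hc : Continuous (deriv Real.smoothTransition) :=
    (sm_deriv Real.smoothTransition.contDiff).continuous
  obtain ⟨C, hC⟩ := (isCompact_Icc (a := (0 : ℝ)) (b := 1)).exists_bound_of_continuousOn
    hc.continuousOn
  have hz : ∀ s : ℝ, s ≤ 0 ∨ 1 ≤ s → deriv Real.smoothTransition s = 0 := by
    intro s hs
    rcases hs with hs | hs
    · refine IsLocalMin.deriv_eq_zero (Eventually.of_forall fun y => ?_)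
      rw [Real.smoothTransition.zero_of_nonpos hs]
      exact Real.smoothTransition.nonneg y
    · refine IsLocalMax.deriv_eq_zero (Eventually.of_forall fun y => ?_)
      rw [Real.smoothTransition.one_of_one_le hs]
      exact Real.smoothTransition.le_one y
  refine ⟨|C|, abs_nonneg C, fun s => ⟨Real.smoothTransition.monotone.deriv_nonneg, ?_, hz s⟩⟩
  by_cases hs : s ∈ Icc (0 : ℝ) 1
  · have h1 := hC s hs
    rw [Real.norm_eq_abs] at h1
    exact (le_abs_self _).trans (h1.trans (le_abs_self C))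
  · have h1 : s ≤ 0 ∨ 1 ≤ s := by
      by_contra hcon
      push Not at hcon
      exact hs ⟨hcon.1.le, hcon.2.le⟩
    rw [hz s h1]
    exact abs_nonneg C

lemma jl_ex (lam : ℝ) {ε : ℝ} (hε : 0 < ε) : ∃ (C : ℝ) (j : ℝ → ℝ), 0 ≤ C ∧ Jl lam ε C j := by
  obtain ⟨C, hC, hst⟩ := st_bd
  obtain ⟨hsm, hnn, h0, -, -, hle, -, -⟩ := t_Hh
  obtain ⟨y, hy⟩ : ∃ y : ℝ → ℝ, y = fun s => (s - lam + ε) / (2 * ε) := ⟨_, rfl⟩
  have hyd : ∀ s, HasDerivAt y (1 / (2 * ε)) s := by
    intro s
    rw [hy]
    exact (((hasDerivAt_id s).sub_const lam).add_const ε).div_const (2 * ε)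
  obtain ⟨j, hj⟩ : ∃ j : ℝ → ℝ, j = fun s => 4 * ε * hh (y s) - (s - lam) + 2 * ε := ⟨_, rfl⟩
  have hysm : ContDiff ℝ ∞ y := by rw [hy]; fun_prop
  have hjd : ∀ s, HasDerivAt j (2 * Real.smoothTransition (y s) - 1) s := by
    intro s
    have h1 := (hh_hd (y s)).comp s (hyd s)
    have h2 := ((h1.const_mul (4 * ε)).sub ((hasDerivAt_id s).sub_const lam)).add_const (2 * ε)
    have e : 4 * ε * (Real.smoothTransition (y s) * (1 / (2 * ε))) - 1
        = 2 * Real.smoothTransition (y s) - 1 := by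
      field_simp
      ring
    rw [e] at h2
    rw [hj]
    exact h2
  have hjd' : deriv j = fun s => 2 * Real.smoothTransition (y s) - 1 :=
    funext fun s => (hjd s).deriv
  have hjd2 : ∀ s, deriv (deriv j) s = 1 / ε * deriv Real.smoothTransition (y s) := by
    intro s
    have hssm : ContDiff ℝ ∞ Real.smoothTransition := Real.smoothTransition.contDiff
    have h1 : HasDerivAt Real.smoothTransition (deriv Real.smoothTransition (y s)) (y s) :=
      (hssm.differentiable (by norm_cast) _).hasDerivAt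
    have h2 := ((h1.comp s (hyd s)).const_mul 2).sub_const 1
    rw [hjd']
    have h3 : HasDerivAt (fun s => 2 * Real.smoothTransition (y s) - 1)
        (2 * (deriv Real.smoothTransition (y s) * (1 / (2 * ε)))) s := h2
    rw [h3.deriv]
    field_simp
  have hh1 : ∀ t : ℝ, t - 1 ≤ hh t := by
    intro t
    rcases le_total t 1 with ht | ht
    · linarith [hnn t]
    · have e1 : hh t = hh 1 + (t - 1) := by
        unfold hh
        rw [← intervalIntegral.integral_add_adjacent_intervals
          (Real.smoothTransition.continuous.intervalIntegrable 0 1)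
          (Real.smoothTransition.continuous.intervalIntegrable 1 t)]
        congr 1
        rw [intervalIntegral.integral_congr (g := fun _ => (1 : ℝ)) fun τ hτ => ?_]
        · simp
        · rw [uIcc_of_le ht] at hτ
          exact Real.smoothTransition.one_of_one_le hτ.1
      linarith [hnn 1]
  have hh2 : ∀ t : ℝ, hh t ≤ max t 0 := by
    intro t
    rcases le_total t 0 with ht | ht
    · rw [h0 t ht]
      exact le_max_right _ _
    · exact (hle t ht).trans (le_max_left _ _)
  refine ⟨1 / ε * C, j, by positivity, ?_⟩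
  constructor
  · rw [hj]
    exact ((contDiff_const.mul (hsm.comp hysm)).sub (contDiff_id.sub contDiff_const)).add
      contDiff_const
  · intro s
    have h1 := hh1 (y s)
    have h2 := hnn (y s)
    rw [hj]
    simp only
    have e1 : 4 * ε * (y s - 1) = 2 * (s - lam) - 2 * ε := by
      rw [hy]
      field_simp
      ring
    have h3 := mul_le_mul_of_nonneg_left h1 (by positivity : 0 ≤ 4 * ε)
    rw [e1] at h3
    have h4 : 0 ≤ 4 * ε * hh (y s) := by positivity
    rw [abs_le]
    constructor <;> linarith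
  · intro s
    have h1 := hh2 (y s)
    rw [hj]
    simp only
    have h3 := mul_le_mul_of_nonneg_left h1 (by positivity : 0 ≤ 4 * ε)
    have h5 : 4 * ε * max (y s) 0 ≤ 2 * |s - lam| + 2 * ε := by
      rw [mul_max_of_nonneg _ _ (by positivity)]
      refine max_le ?_ ?_
      · have e1 : 4 * ε * y s = 2 * (s - lam) + 2 * ε := by
          rw [hy]
          field_simp
          ring
        rw [e1]
        linarith [le_abs_self (s - lam)]
      · rw [mul_zero]
        positivity
    have h6 := neg_abs_le (s - lam)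
    linarith
  · intro s
    rw [hjd']
    simp only
    have h1 := Real.smoothTransition.nonneg (y s)
    have h2 := Real.smoothTransition.le_one (y s)
    rw [abs_le]
    constructor <;> linarith
  · intro s
    rw [hjd2]
    obtain ⟨g1, g2, -⟩ := hst (y s)
    exact ⟨by positivity, mul_le_mul_of_nonneg_left g2 (by positivity)⟩
  · intro s hs
    rw [hjd2, (hst (y s)).2.2, mul_zero]
    rw [le_abs] at hs
    rcases hs with hs | hs
    · right
      rw [hy]
      simp only
      rw [le_div_iff₀ (by positivity)]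
      linarith
    · left
      rw [hy]
      simp only
      exact div_nonpos_of_nonpos_of_nonneg (by linarith) (by positivity)

/-- the mass of `|Ω - λ|`, at a fixed time -/
lemma lev_time {c₀ c R H K r h r1 h1 B lam ε C vol : ℝ} {v : V → V} {o w φ : V → ℝ}
    {j : ℝ → ℝ} (hc₀ : 0 < c₀) (hid : MassId c₀) (hj : Jl lam ε C j) (hε : 0 < ε) (hC : 0 ≤ C)
    (hv : ContDiff ℝ ∞ v) (hd : DFO (Co c R H) v) (ho : ContDiff ℝ ∞ o) (hw : ContDiff ℝ ∞ w)
    (hK : 0 ≤ K) (hφ : Cut c r h r1 h1 K φ) (hsub : Co c r h ⊆ Co c R H)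
    (hvol : vol = (volume (Co c r h)).toReal)
    (hBd : ∀ x ∈ Out c r h r1 h1, |o x| ≤ K ∧ |w x| ≤ K ∧ ∀ i, |v x i| ≤ K)
    (hB : 0 ≤ B)
    (hP : ∀ x ∈ Co c r h, sg x ≠ 0 → |o x - lam| < ε → -(w x ^ 2 * pd 2 o x) ≤ gr2 o x + B) :
    ∫ x, φ x * (deriv j (o x) * (LL o x - W221.NS.adv v o x + 2 * w x * pd 2 w x))
      ≤ ((3 * (K + |lam|) + 4 * ε) * (3 * K + 3 * (K * K)) + K * K ^ 2 + C * B) * vol := by
  have hCy : IsCompact (Cy c r h) := Pool.Agent.Q24.AXI.Cy_compact c r h
  have hCoCy : Co c r h ⊆ Cy c r h := fun x hx => ⟨le_of_lt hx.1, le_of_lt hx.2⟩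
  have mCo : MeasurableSet (Co c r h) := (Co_open c r h).measurableSet
  have vCo : volume (Co c r h) < ⊤ := (measure_mono hCoCy).trans_lt hCy.measure_lt_top
  obtain ⟨f, hf⟩ : ∃ f : V → ℝ, f = fun x => j (o x) := ⟨_, rfl⟩
  have sf : ContDiff ℝ ∞ f := by rw [hf]; exact hj.sm.comp ho
  have sj1 : ContDiff ℝ ∞ (deriv j) := sm_deriv hj.sm
  have sj2 : ContDiff ℝ ∞ (deriv (deriv j)) := sm_deriv sj1
  have sj1o : ContDiff ℝ ∞ (fun x => deriv j (o x)) := sj1.comp ho
  have f1 : ∀ i x, pd i f x = deriv j (o x) * pd i o x := by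
    intro i x
    rw [hf]
    exact pd_chain hj.sm ho i x
  have fLL : ∀ x, LL f x = deriv j (o x) * LL o x + deriv (deriv j) (o x) * gr2 o x := by
    intro x
    unfold LL
    rw [hf, lap_chain hj.sm ho, RR_chain hj.sm ho]
    ring
  have fadv : ∀ x, W221.NS.adv v f x = deriv j (o x) * W221.NS.adv v o x := by
    intro x
    unfold W221.NS.adv
    simp_rw [f1]
    rw [Fin.sum_univ_three, Fin.sum_univ_three]
    ring
  obtain ⟨i1, i2, e1⟩ := hid (Co c R H) v f (fun _ => 0) φ hv hd sf contDiff_const hφ.sm hφ.cs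
    (hφ.supp.trans hsub)
  have z1 : Z (pd 2 fun y => φ y * (deriv j (o y) * (w y * w y))) :=
    Z_pd (hφ.sm.mul (sj1o.mul (hw.mul hw))) hφ.cs.mul_right 2
  have d1 : ∀ x, pd 2 (fun y => φ y * (deriv j (o y) * (w y * w y))) x
      = φ x * (deriv j (o x) * (2 * w x * pd 2 w x)
        + deriv (deriv j) (o x) * pd 2 o x * (w x * w x))
        + pd 2 φ x * (deriv j (o x) * (w x * w x)) := by
    intro x
    have h2 : pd 2 (fun y => φ y * (deriv j (o y) * (w y * w y))) x
        = φ x * pd 2 (fun y => deriv j (o y) * (w y * w y)) x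
          + pd 2 φ x * (deriv j (o x) * (w x * w x)) :=
      congrFun (pd_mulf hφ.sm (sj1o.mul (hw.mul hw)) 2) x
    have h3 : pd 2 (fun y => deriv j (o y) * (w y * w y)) x
        = deriv j (o x) * pd 2 (fun y => w y * w y) x
          + pd 2 (fun y => deriv j (o y)) x * (w x * w x) :=
      congrFun (pd_mulf sj1o (hw.mul hw) 2) x
    have h4 : pd 2 (fun y => w y * w y) x = w x * pd 2 w x + pd 2 w x * w x :=
      congrFun (pd_mulf hw hw 2) x
    have h5 : pd 2 (fun y => deriv j (o y)) x = deriv (deriv j) (o x) * pd 2 o x :=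
      pd_chain sj1 ho 2 x
    rw [h2, h3, h4, h5]
    ring
  -- the integrand
  obtain ⟨I, hI⟩ : ∃ I : V → ℝ, I = fun x => f x * (lap φ x - 2 * (RR φ x / sg x)
    + W221.NS.adv v φ x) - pd 2 φ x * (0 : ℝ) ^ 2 := ⟨_, rfl⟩
  obtain ⟨G, hG⟩ : ∃ G : V → ℝ, G = fun x => φ x * (LL f x - W221.NS.adv v f x
    + 2 * (0 : ℝ) * pd 2 (fun _ : V => (0 : ℝ)) x) := ⟨_, rfl⟩
  obtain ⟨Q, hQ⟩ : ∃ Q : V → ℝ, Q = fun x => -(φ x * (deriv (deriv j) (o x) * (gr2 o x
    + pd 2 o x * (w x * w x)))) - pd 2 φ x * (deriv j (o x) * (w x * w x)) := ⟨_, rfl⟩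
  have hQi : Integrable Q := by
    rw [hQ]
    refine int_cs (Continuous.sub ?_ ?_) (HasCompactSupport.sub ?_ ?_)
    · exact (hφ.sm.continuous.mul ((sj2.comp ho).continuous.mul ((gr2_sm ho).continuous.add
        ((sm_pd ho 2).continuous.mul (hw.continuous.mul hw.continuous))))).neg
    · exact (sm_pd hφ.sm 2).continuous.mul (sj1o.continuous.mul
        (hw.continuous.mul hw.continuous))
    · exact (hφ.cs.mul_right (f' := fun x => deriv (deriv j) (o x) * (gr2 o x
        + pd 2 o x * (w x * w x)))).neg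
    · exact (cs_pd hφ.cs 2).mul_right
  have key : ∀ x, φ x * (deriv j (o x) * (LL o x - W221.NS.adv v o x + 2 * w x * pd 2 w x))
      = G x + pd 2 (fun y => φ y * (deriv j (o y) * (w y * w y))) x + Q x := by
    intro x
    rw [hG, hQ]
    simp only
    rw [fLL, fadv, d1]
    ring
  have hGi : Integrable G := by rw [hG]; exact i1
  have e2 : ∫ x, φ x * (deriv j (o x) * (LL o x - W221.NS.adv v o x + 2 * w x * pd 2 w x))
      = (∫ x, G x) + ∫ x, Q x := by
    simp_rw [key]
    have h2 : Integrable (fun x => G x + pd 2 (fun y => φ y * (deriv j (o y) * (w y * w y))) x) :=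
      hGi.add z1.1
    rw [integral_add h2 hQi, integral_add hGi z1.1, z1.2, add_zero]
  have e3 : ∫ x, G x = (∫ x, I x) - 2 * c₀ * ∫ z : ℝ, φ ![0, 0, z] * f ![0, 0, z] := by
    rw [hG, hI]
    exact e1
  have hax : 0 ≤ 2 * c₀ * ∫ z : ℝ, φ ![0, 0, z] * f ![0, 0, z] := by
    refine mul_nonneg (by positivity) (integral_nonneg fun z => mul_nonneg (hφ.nn _) ?_)
    rw [hf]
    exact (abs_nonneg _).trans (hj.lo _)
  have hIi : Integrable I := by rw [hI]; exact i2
  obtain ⟨CC, hCC⟩ : ∃ CC : ℝ, CC = (3 * (K + |lam|) + 4 * ε) * (3 * K + 3 * (K * K))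
    + K * K ^ 2 + C * B := ⟨_, rfl⟩
  have hCC0 : 0 ≤ CC := by rw [hCC]; positivity
  have hb : (∫ x, I x) + (∫ x, Q x) ≤ CC * vol := by
    rw [← integral_add hIi hQi]
    have e6 : CC * vol = ∫ x, (Co c r h).indicator (fun _ => CC) x := by
      rw [integral_indicator mCo, setIntegral_const, smul_eq_mul, Measure.real, ← hvol, mul_comm]
    rw [e6]
    refine integral_mono_ae (hIi.add hQi)
      ((integrable_indicator_iff mCo).2 (integrableOn_const vCo.ne)) ?_
    filter_upwards [axis_ae] with x hx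
    have hsx : 0 < sg x := lt_of_le_of_ne (sg_nn x) (Ne.symm hx)
    rw [hI, hQ]
    simp only
    have n0 := hφ.nn x
    have n1 := hφ.le x
    -- the absorbed term
    have tQ : x ∈ Co c r h → -(φ x * (deriv (deriv j) (o x) * (gr2 o x
        + pd 2 o x * (w x * w x)))) ≤ C * B := by
      intro hxC
      by_cases hl : |o x - lam| < ε
      · have h2 := hP x hxC hx hl
        obtain ⟨g1, g2⟩ := hj.d2 (o x)
        have h3 : -(gr2 o x + pd 2 o x * (w x * w x)) ≤ B := by
          have e7 : pd 2 o x * (w x * w x) = w x ^ 2 * pd 2 o x := by ring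
          rw [e7]
          linarith
        calc -(φ x * (deriv (deriv j) (o x) * (gr2 o x + pd 2 o x * (w x * w x))))
            = (φ x * deriv (deriv j) (o x)) * (-(gr2 o x + pd 2 o x * (w x * w x))) := by ring
          _ ≤ (φ x * deriv (deriv j) (o x)) * B := mul_le_mul_of_nonneg_left h3 (by positivity)
          _ ≤ (1 * C) * B :=
              mul_le_mul_of_nonneg_right (mul_le_mul n1 g2 g1 (by norm_num)) hB
          _ = C * B := by ring
      · rw [hj.d3 _ (not_lt.1 hl)]
        simp only [zero_mul, mul_zero, neg_zero]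
        positivity
    by_cases hxs : x ∈ tsupport φ
    · have hxC := hφ.supp hxs
      rw [indicator_of_mem hxC]
      obtain ⟨b4, b5, b6⟩ := hφ.bd x
      by_cases hxi : x ∈ Co c r1 h1
      · obtain ⟨a1, a2, a3⟩ := cut_in hφ hxi
        have a4 : W221.NS.adv v φ x = 0 := by
          unfold W221.NS.adv
          simp [a1]
        have h9 : 0 ≤ (3 * (K + |lam|) + 4 * ε) * (3 * K + 3 * (K * K)) + K * K ^ 2 := by
          positivity
        have h8 : f x * (lap φ x - 2 * (RR φ x / sg x) + W221.NS.adv v φ x)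
            - pd 2 φ x * (0 : ℝ) ^ 2 = 0 := by
          rw [a1, a2, a3, a4, zero_div]
          ring
        rw [h8, a1, hCC]
        have := tQ hxC
        linarith
      · have hxO : x ∈ Out c r h r1 h1 := by
          refine ⟨hCoCy hxC, ?_⟩
          by_contra hcon
          push Not at hcon
          exact hxi ⟨hcon.1, hcon.2⟩
        obtain ⟨b1, b2, b3⟩ := hBd x hxO
        have b0 : |f x| ≤ 3 * (K + |lam|) + 4 * ε := by
          have h2 : 0 ≤ f x := by rw [hf]; exact (abs_nonneg _).trans (hj.lo _)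
          rw [abs_of_nonneg h2, hf]
          refine (hj.up _).trans ?_
          have h3 := abs_sub (o x) lam
          linarith
        have b7 : |RR φ x / sg x| ≤ K := by
          rw [abs_div, abs_of_pos hsx, div_le_iff₀ hsx]
          exact b6
        have b8 : |W221.NS.adv v φ x| ≤ 3 * (K * K) := by
          unfold W221.NS.adv
          rw [Fin.sum_univ_three]
          have h4 : ∀ i, |v x i * pd i φ x| ≤ K * K := fun i => by
            rw [abs_mul]
            exact mul_le_mul (b3 i) (b4 i) (abs_nonneg _) hK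
          have h5 := abs_add_three (v x 0 * pd 0 φ x) (v x 1 * pd 1 φ x) (v x 2 * pd 2 φ x)
          linarith [h4 0, h4 1, h4 2]
        have b9 : |lap φ x - 2 * (RR φ x / sg x) + W221.NS.adv v φ x|
            ≤ 3 * K + 3 * (K * K) := by
          have h5 := abs_add_le (lap φ x - 2 * (RR φ x / sg x)) (W221.NS.adv v φ x)
          have h6 := abs_sub (lap φ x) (2 * (RR φ x / sg x))
          rw [abs_mul, abs_of_pos (by norm_num : (0 : ℝ) < 2)] at h6
          linarith
        have b11 : f x * (lap φ x - 2 * (RR φ x / sg x) + W221.NS.adv v φ x)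
            ≤ (3 * (K + |lam|) + 4 * ε) * (3 * K + 3 * (K * K)) := by
          refine (le_abs_self _).trans ?_
          rw [abs_mul]
          exact mul_le_mul b0 b9 (abs_nonneg _) (by positivity)
        have b10 : -(pd 2 φ x * (deriv j (o x) * (w x * w x))) ≤ K * K ^ 2 := by
          have h2 : |pd 2 φ x * (deriv j (o x) * (w x * w x))| ≤ K * (1 * (K * K)) := by
            rw [abs_mul, abs_mul, abs_mul]
            exact mul_le_mul (b4 2) (mul_le_mul (hj.d1 _)
              (mul_le_mul b2 b2 (abs_nonneg _) hK) (by positivity) (by norm_num))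
              (by positivity) hK
          have h3 := neg_abs_le (pd 2 φ x * (deriv j (o x) * (w x * w x)))
          have e8 : K * (1 * (K * K)) = K * K ^ 2 := by ring
          rw [e8] at h2
          linarith
        have := tQ hxC
        rw [hCC]
        have e9 : pd 2 φ x * (0 : ℝ) ^ 2 = 0 := by ring
        rw [e9]
        linarith
    · obtain ⟨a0, a1, a2, a3⟩ := off_supp hxs
      have a4 : W221.NS.adv v φ x = 0 := by
        unfold W221.NS.adv
        simp [a1]
      have a5 : lap φ x = 0 := by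
        rw [lap_ev (cs_zero hxs), Pool.Agent.Q175.AX.lap_const]
      rw [a0, a1, a2, a4, a5]
      have h8 : f x * (0 - 2 * (0 / sg x) + 0) - 0 * (0 : ℝ) ^ 2
          + (-(0 * (deriv (deriv j) (o x) * (gr2 o x + pd 2 o x * (w x * w x))))
            - 0 * (deriv j (o x) * (w x * w x))) = 0 := by
        rw [zero_div]
        ring
      rw [h8]
      exact indicator_nonneg (fun _ _ => hCC0) _
  rw [e2, e3, ← hCC]
  linarith

end Pool.Agent.D0H28.OV
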