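import Pool.Agent.D0H28.OV.D
import Pool.Agent.Q175.AX.Rho
import Pool.Agent.Q24.AXI.Cut

/-! Project OV (helper28), package M: the linear mass identity at a fixed time. -/

set_option autoImplicit false

open MeasureTheory Set Metric Filter Topology
open scoped ContDiff
open H459R3.NS Pool.Agent.W268.NS

namespace Pool.Agent.D0H28.OV

open Pool.Agent.Q67.AXI Pool.Agent.TH305.AX Pool.Agent.TH305.DR Pool.Agent.Q85.CL
open Pool.Agent.W583.MD (sm_pd cs_pd Z Z.add Z.sub Z.smul Z.sum int_cs Z_pd)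
open Pool.Agent.Q257.AXI (sg_sm RR_mul RR_add sm_RR)
open Pool.Agent.Q175.AX (RR_sm lap_sm gr2_sm gr2_nn RR_sq' gr2_int gr2_cs RRsg_int
  RRsg_int' sg_nn axis_ae)

lemma mass_id (hA : StmAx) (H0 : StmH0) : ∃ c₀ : ℝ, 0 < c₀ ∧ ∀ (O : Set V) (v : V → V)
    (f W φ : V → ℝ), ContDiff ℝ ∞ v → DFO O v → ContDiff ℝ ∞ f → ContDiff ℝ ∞ W →
    ContDiff ℝ ∞ φ → HasCompactSupport φ → tsupport φ ⊆ O →
    Integrable (fun x => φ x * (LL f x - W221.NS.adv v f x + 2 * W x * pd 2 W x)) ∧
    Integrable (fun x => f x * (lap φ x - 2 * (RR φ x / sg x) + W221.NS.adv v φ x)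
      - pd 2 φ x * W x ^ 2) ∧
    ∫ x, φ x * (LL f x - W221.NS.adv v f x + 2 * W x * pd 2 W x)
      = (∫ x, (f x * (lap φ x - 2 * (RR φ x / sg x) + W221.NS.adv v φ x)
        - pd 2 φ x * W x ^ 2)) - 2 * c₀ * ∫ z : ℝ, φ ![0, 0, z] * f ![0, 0, z] := by
  obtain ⟨c₀, hc₀, hA⟩ := hA
  refine ⟨c₀, hc₀, fun O v f W φ hv hd hf hW hφ hφs hφO => ?_⟩
  have hv' : ∀ i, ContDiff ℝ ∞ (fun y => v y i) := fun i => contDiff_pi.1 hv i
  have hadv : ∀ g : V → ℝ, ContDiff ℝ ∞ g → ContDiff ℝ ∞ (W221.NS.adv v g) := by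
    intro g hg
    unfold W221.NS.adv
    exact ContDiff.sum fun j _ => (hv' j).mul (sm_pd hg j)
  have hφf : ContDiff ℝ ∞ (fun y => φ y * f y) := hφ.mul hf
  have hφfs : HasCompactSupport (fun y => φ y * f y) := hφs.mul_right
  obtain ⟨iA, eA⟩ := hA _ hφf hφfs
  -- Laplacian
  have z1 : Z (fun x => ∑ i, pd i (fun y => φ y * pd i f y) x) :=
    Z.sum fun i => Z_pd (hφ.mul (sm_pd hf i)) hφs.mul_right i
  have z2 : Z (fun x => ∑ i, pd i (fun y => f y * pd i φ y) x) :=
    Z.sum fun i => Z_pd (hf.mul (sm_pd hφ i)) (cs_pd hφs i).mul_left i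
  have e1 : ∀ x, φ x * lap f x - f x * lap φ x
      = (∑ i, pd i (fun y => φ y * pd i f y) x) - ∑ i, pd i (fun y => f y * pd i φ y) x := by
    intro x
    have a1 : ∀ i : Fin 3, pd i (fun y => φ y * pd i f y) x
        = φ x * pd i (pd i f) x + pd i φ x * pd i f x :=
      fun i => congrFun (pd_mulf hφ (sm_pd hf i) i) x
    have a2 : ∀ i : Fin 3, pd i (fun y => f y * pd i φ y) x
        = f x * pd i (pd i φ) x + pd i f x * pd i φ x :=
      fun i => congrFun (pd_mulf hf (sm_pd hφ i) i) x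
    simp_rw [a1, a2]
    unfold lap
    simp_rw [Fin.sum_univ_three]
    ring
  -- transport
  have z3 : Z (fun x => ∑ i, pd i (fun y => v y i * (φ y * f y)) x) :=
    Z.sum fun i => Z_pd ((hv' i).mul hφf) hφfs.mul_left i
  have e3 : ∀ x, φ x * W221.NS.adv v f x + f x * W221.NS.adv v φ x
      = ∑ i, pd i (fun y => v y i * (φ y * f y)) x := by
    intro x
    have a1 : ∀ i : Fin 3, pd i (fun y => v y i * (φ y * f y)) x
        = v x i * (φ x * pd i f x + pd i φ x * f x) + pd i (fun y => v y i) x * (φ x * f x) := by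
      intro i
      have b1 : pd i (fun y => v y i * (φ y * f y)) x
          = v x i * pd i (fun y => φ y * f y) x + pd i (fun y => v y i) x * (φ x * f x) :=
        congrFun (pd_mulf (hv' i) hφf i) x
      have b2 : pd i (fun y => φ y * f y) x = φ x * pd i f x + pd i φ x * f x :=
        congrFun (pd_mulf hφ hf i) x
      rw [b1, b2]
    simp_rw [a1]
    rw [Finset.sum_add_distrib, ← Finset.sum_mul]
    have hdiv : (∑ i, pd i (fun y => v y i) x) * (φ x * f x) = 0 := by
      by_cases hx : x ∈ tsupport φ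
      · rw [hd x (hφO hx), zero_mul]
      · rw [image_eq_zero_of_notMem_tsupport hx]
        ring
    rw [hdiv]
    unfold W221.NS.adv
    simp_rw [Fin.sum_univ_three]
    ring
  -- the source
  have hW2 : ContDiff ℝ ∞ (fun y => W y * W y) := hW.mul hW
  have z4 : Z (pd 2 fun y => φ y * (W y * W y)) := Z_pd (hφ.mul hW2) hφs.mul_right 2
  have e4 : ∀ x, φ x * (2 * W x * pd 2 W x) + pd 2 φ x * W x ^ 2
      = pd 2 (fun y => φ y * (W y * W y)) x := by
    intro x
    have b1 : pd 2 (fun y => φ y * (W y * W y)) x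
        = φ x * pd 2 (fun y => W y * W y) x + pd 2 φ x * (W x * W x) :=
      congrFun (pd_mulf hφ hW2 2) x
    have b2 : pd 2 (fun y => W y * W y) x = W x * pd 2 W x + pd 2 W x * W x :=
      congrFun (pd_mulf hW hW 2) x
    rw [b1, b2]
    ring
  -- integrability
  have i1 : Integrable (fun x => φ x * lap f x) :=
    int_cs (hφ.mul (lap_sm hf)).continuous hφs.mul_right
  have clap : HasCompactSupport (lap φ) := by
    unfold lap
    simp_rw [Fin.sum_univ_three]
    exact ((cs_pd (cs_pd hφs 0) 0).add (cs_pd (cs_pd hφs 1) 1)).add (cs_pd (cs_pd hφs 2) 2)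
  have i1' : Integrable (fun x => f x * lap φ x) :=
    int_cs (hf.mul (lap_sm hφ)).continuous clap.mul_left
  have i2 : Integrable (fun x => φ x * (RR f x / sg x)) :=
    RRsg_int H0 (hf.of_le (by norm_cast)) hφ.continuous hφs
  have i2' : Integrable (fun x => f x * (RR φ x / sg x)) :=
    RRsg_int' H0 (hφ.of_le (by norm_cast)) hf.continuous hφs
  have i3 : Integrable (fun x => φ x * W221.NS.adv v f x) :=
    int_cs (hφ.mul (hadv f hf)).continuous hφs.mul_right
  have cadv : HasCompactSupport (W221.NS.adv v φ) := by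
    unfold W221.NS.adv
    simp_rw [Fin.sum_univ_three]
    exact (((cs_pd hφs 0).mul_left).add ((cs_pd hφs 1).mul_left)).add ((cs_pd hφs 2).mul_left)
  have i3' : Integrable (fun x => f x * W221.NS.adv v φ x) :=
    int_cs (hf.mul (hadv φ hφ)).continuous cadv.mul_left
  have i4 : Integrable (fun x => φ x * (2 * W x * pd 2 W x)) :=
    int_cs (hφ.mul ((contDiff_const.mul hW).mul (sm_pd hW 2))).continuous hφs.mul_right
  have i4' : Integrable (fun x => pd 2 φ x * W x ^ 2) :=
    int_cs ((sm_pd hφ 2).mul (hW.pow 2)).continuous (cs_pd hφs 2).mul_right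
  have E1 : ∫ x, φ x * lap f x = ∫ x, f x * lap φ x := by
    have h1 : ∫ x, (φ x * lap f x - f x * lap φ x) = 0 := by
      simp_rw [e1]
      exact (z1.sub z2).2
    rw [integral_sub i1 i1'] at h1
    linarith
  have E2 : ∫ x, φ x * (RR f x / sg x)
      = -c₀ * (∫ z : ℝ, φ ![0, 0, z] * f ![0, 0, z]) - ∫ x, f x * (RR φ x / sg x) := by
    have h1 : ∀ x, RR (fun y => φ y * f y) x / sg x
        = φ x * (RR f x / sg x) + f x * (RR φ x / sg x) := by
      intro x
      rw [RR_mul hφ hf]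
      ring
    simp_rw [h1] at eA
    rw [integral_add i2 i2'] at eA
    linarith
  have E3 : ∫ x, φ x * W221.NS.adv v f x = -∫ x, f x * W221.NS.adv v φ x := by
    have h1 : ∫ x, (φ x * W221.NS.adv v f x + f x * W221.NS.adv v φ x) = 0 := by
      simp_rw [e3]
      exact z3.2
    rw [integral_add i3 i3'] at h1
    linarith
  have E4 : ∫ x, φ x * (2 * W x * pd 2 W x) = -∫ x, pd 2 φ x * W x ^ 2 := by
    have h1 : ∫ x, (φ x * (2 * W x * pd 2 W x) + pd 2 φ x * W x ^ 2) = 0 := by
      simp_rw [e4]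
      exact z4.2
    rw [integral_add i4 i4'] at h1
    linarith
  have eL : (fun x => φ x * (LL f x - W221.NS.adv v f x + 2 * W x * pd 2 W x))
      = fun x => φ x * lap f x + 2 * (φ x * (RR f x / sg x)) - φ x * W221.NS.adv v f x
        + φ x * (2 * W x * pd 2 W x) := by
    funext x
    unfold LL
    ring
  have eR : (fun x => f x * (lap φ x - 2 * (RR φ x / sg x) + W221.NS.adv v φ x)
      - pd 2 φ x * W x ^ 2)
      = fun x => f x * lap φ x - 2 * (f x * (RR φ x / sg x)) + f x * W221.NS.adv v φ x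
        - pd 2 φ x * W x ^ 2 := by
    funext x
    ring
  have j1 : Integrable (fun x => φ x * lap f x + 2 * (φ x * (RR f x / sg x))) :=
    i1.add (i2.const_mul 2)
  have j2 : Integrable (fun x => φ x * lap f x + 2 * (φ x * (RR f x / sg x))
      - φ x * W221.NS.adv v f x) := j1.sub i3
  have k1 : Integrable (fun x => f x * lap φ x - 2 * (f x * (RR φ x / sg x))) :=
    i1'.sub (i2'.const_mul 2)
  have k2 : Integrable (fun x => f x * lap φ x - 2 * (f x * (RR φ x / sg x))
      + f x * W221.NS.adv v φ x) := k1.add i3'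
  rw [eL, eR]
  refine ⟨j2.add i4, k2.sub i4', ?_⟩
  rw [integral_add j2 i4, integral_sub j1 i3, integral_add i1 (i2.const_mul 2),
    integral_const_mul, integral_sub k2 i4', integral_add k1 i3', integral_sub i1' (i2'.const_mul 2),
    integral_const_mul, E1, E2, E3, E4]
  ring

/-- parametric integrals over intervals are continuous -/
lemma pcont1 {a b p q : ℝ} {g : ℝ → ℝ → ℝ}
    (hg : ContinuousOn (fun z : ℝ × ℝ => g z.1 z.2) (Ioo a b ×ˢ univ)) :
    ContinuousOn (fun t => ∫ z in Ioo p q, g t z) (Ioo a b) := by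
  intro t0 ht0
  have hopen : Ioo a b ∈ 𝓝 t0 := isOpen_Ioo.mem_nhds ht0
  have hsl : ∀ t ∈ Ioo a b, Continuous (g t) := by
    intro t ht
    have h1 : ContinuousOn (fun z : ℝ => ((t, z) : ℝ × ℝ)) univ := by fun_prop
    have h2 := hg.comp h1 (fun z _ => ⟨ht, mem_univ z⟩)
    exact continuousOn_univ.1 h2
  obtain ⟨ε, hε, hsub⟩ := Metric.nhds_basis_closedBall.mem_iff.1 hopen
  have hK : IsCompact (closedBall t0 ε ×ˢ Icc p q) :=
    (isCompact_closedBall t0 ε).prod isCompact_Icc
  obtain ⟨M, hM⟩ := hK.exists_bound_of_continuousOn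
    (hg.mono (prod_mono hsub (subset_univ _)))
  apply ContinuousAt.continuousWithinAt
  have hfin : IsFiniteMeasure (volume.restrict (Ioo p q)) :=
    ⟨by rw [Measure.restrict_apply_univ]; exact measure_Ioo_lt_top⟩
  refine continuousAt_of_dominated (bound := fun _ => M) ?_ ?_ (integrable_const M) ?_
  · filter_upwards [hopen] with t ht
    exact (hsl t ht).aestronglyMeasurable
  · filter_upwards [closedBall_mem_nhds t0 hε] with t ht
    refine (ae_restrict_iff' measurableSet_Ioo).2 (Eventually.of_forall fun z hz => ?_)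
    exact hM (t, z) ⟨ht, Ioo_subset_Icc_self hz⟩
  · refine Eventually.of_forall fun z => ?_
    have h1 : ContinuousOn (fun t : ℝ => ((t, z) : ℝ × ℝ)) (Ioo a b) := by fun_prop
    have h2 := hg.comp h1 (fun t ht => ⟨ht, mem_univ z⟩)
    exact (h2 t0 ht0).continuousAt hopen

end Pool.Agent.D0H28.OV
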