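import Pool.Agent.D0H28.OV.M1
import Pool.Agent.D0H28.OV.D2

/-! Project OV (helper28), package M: the bound of the mass of `ω_θ / ρ`. -/

set_option autoImplicit false

open MeasureTheory Set Metric Filter Topology
open scoped ContDiff
open H459R3.NS Pool.Agent.W268.NS

namespace Pool.Agent.D0H28.OV

open Pool.Agent.Q67.AXI Pool.Agent.TH305.AX Pool.Agent.TH305.DR Pool.Agent.Q85.CL
open Pool.Agent.W583.MD (sm_pd cs_pd int_cs slice hd_slice)
open Pool.Agent.Q257.AXI (sg_sm sm_RR)
open Pool.Agent.Q175.AX (sg_nn axis_ae lap_sm)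

lemma Co_open (c r h : ℝ) : IsOpen (Co c r h) := by
  have h1 : Continuous fun x : V => sg x := sg_sm.continuous
  have h2 : Continuous fun x : V => |x 2 - c| := by fun_prop
  exact (isOpen_lt h1 continuous_const).inter (isOpen_lt h2 continuous_const)

/-- the derivatives of a cut-off function vanish where it is constant -/
lemma cut_in {c r h r1 h1 K : ℝ} {φ : V → ℝ} (hc : Cut c r h r1 h1 K φ) {x : V}
    (hx : x ∈ Co c r1 h1) : (∀ j, pd j φ x = 0) ∧ lap φ x = 0 ∧ RR φ x = 0 := by
  have hev : φ =ᶠ[𝓝 x] fun _ => 1 := by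
    filter_upwards [(Co_open c r1 h1).mem_nhds hx] with y hy
    exact hc.one y ⟨le_of_lt hy.1, le_of_lt hy.2⟩
  refine ⟨fun j => ?_, ?_, ?_⟩
  · rw [Pool.Agent.Q175.AX.pd_ev hev, pd_const']
  · rw [Pool.Agent.Q175.AX.lap_ev hev, Pool.Agent.Q175.AX.lap_const]
  · rw [Pool.Agent.Q175.AX.RR_ev hev, Pool.Agent.Q175.AX.RR_const]

lemma axis_c2 {T : ℝ} {o : ℝ → V → ℝ}
    (ho : ContinuousOn (fun z : ℝ × V => o z.1 z.2) (Ioo 0 T ×ˢ univ)) :
    ContinuousOn (fun z : ℝ × ℝ => o z.1 ![0, 0, z.2]) (Ioo 0 T ×ˢ univ) := by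
  have h2 : ContinuousOn (fun z : ℝ × ℝ => ((z.1, ![0, 0, z.2]) : ℝ × V)) (Ioo 0 T ×ˢ univ) := by
    refine Continuous.continuousOn ?_
    refine continuous_fst.prodMk (continuous_pi fun i => ?_)
    fin_cases i
    · exact continuous_const
    · exact continuous_const
    · exact continuous_snd
  exact ho.comp h2 fun z hz => ⟨hz.1, mem_univ _⟩

/-- M, for abstract functions `o` (`ω_θ / ρ`) and `w` (`v_θ / ρ`). -/
lemma mass_core (hA : StmAx) (H0 : StmH0) (T c R H K r h r1 h1 T₁ B σ : ℝ) (u : ℝ → V → V)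
    (o w : ℝ → V → ℝ) (φ : V → ℝ)
    (svt : ∀ t ∈ Ioo 0 T, ContDiff ℝ ∞ (u t))
    (sO : ContDiffOn ℝ ∞ (fun z : ℝ × V => o z.1 z.2) (Ioo 0 T ×ˢ univ))
    (sW : ContDiffOn ℝ ∞ (fun z : ℝ × V => w z.1 z.2) (Ioo 0 T ×ˢ univ))
    (hdiv : ∀ t ∈ Ioo 0 T, DFO (Co c R H) (u t))
    (heq : ∀ t ∈ Ioo 0 T, ∀ x ∈ Co c R H, sg x ≠ 0 → deriv (fun s => o s x) t
      = LL (o t) x - W221.NS.adv (u t) (o t) x + 2 * w t x * pd 2 (w t) x)
    (hK : 0 ≤ K) (hr1 : 0 < r1) (hr : r1 < r) (hrR : r < R) (hh1 : 0 < h1) (hh : h1 < h)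
    (hhH : h < H) (hT₁ : 0 < T₁) (hT : T₁ < T) (hφ : Cut c r h r1 h1 K φ)
    (hB : ∀ t ∈ Ico T₁ T, ∀ x ∈ Out c r h r1 h1, |o t x| ≤ K ∧ |w t x| ≤ K ∧ ∀ i, |u t x i| ≤ K)
    (hσ : σ = 1 ∨ σ = -1)
    (hneg : ∀ t ∈ Ico T₁ T, ∫ x in Co c r h, max (-(σ * o t x)) 0 ≤ B)
    (hax : ∀ t' ∈ Ico T₁ T, ∫ t in T₁..t', ∫ z in Ioo (c - h) (c + h),
      max (-(σ * o t ![0, 0, z])) 0 ≤ B) :
    ∃ M : ℝ, 0 ≤ M ∧ ∀ t ∈ Ico T₁ T, ∫ x in Co c r h, |o t x| ≤ M := by
  obtain ⟨c₀, hc₀, hid⟩ := mass_id hA H0
  have hT0 : ∀ t ∈ Ico T₁ T, t ∈ Ioo 0 T := fun t ht => ⟨hT₁.trans_le ht.1, ht.2⟩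
  have hσ2 : σ * σ = 1 := by rcases hσ with h | h <;> rw [h] <;> norm_num
  have hσa : |σ| = 1 := by rcases hσ with h | h <;> rw [h] <;> norm_num
  have hsub : Co c r h ⊆ Co c R H := fun x hx =>
    ⟨hx.1.trans (by nlinarith), hx.2.trans hhH⟩
  have hCy : IsCompact (Cy c r h) := Pool.Agent.Q24.AXI.Cy_compact c r h
  have hCoCy : Co c r h ⊆ Cy c r h := fun x hx => ⟨le_of_lt hx.1, le_of_lt hx.2⟩
  have mCo : MeasurableSet (Co c r h) := (Co_open c r h).measurableSet
  have vCo : volume (Co c r h) < ⊤ := (measure_mono hCoCy).trans_lt hCy.measure_lt_top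
  obtain ⟨vol, hvol⟩ : ∃ vol : ℝ, vol = (volume (Co c r h)).toReal := ⟨_, rfl⟩
  have hvol0 : 0 ≤ vol := by rw [hvol]; exact ENNReal.toReal_nonneg
  have sOt : ∀ t ∈ Ioo 0 T, ContDiff ℝ ∞ (o t) := fun t ht => slice sO ht
  have sWt : ∀ t ∈ Ioo 0 T, ContDiff ℝ ∞ (w t) := fun t ht => slice sW ht
  -- the mass
  obtain ⟨Mm, hMm⟩ : ∃ Mm : ℝ → ℝ, Mm = fun t => ∫ x, φ x * (σ * o t x) := ⟨_, rfl⟩
  obtain ⟨Aa, hAa⟩ : ∃ Aa : ℝ → ℝ, Aa = fun t => ∫ z in Ioo (c - h) (c + h),
    max (-(σ * o t ![0, 0, z])) 0 := ⟨_, rfl⟩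
  have hAc : ContinuousOn Aa (Ioo 0 T) := by
    rw [hAa]
    refine pcont1 ?_
    have h1 := axis_c2 sO.continuousOn
    have h2 : ContinuousOn (fun z : ℝ × ℝ => -(σ * o z.1 ![0, 0, z.2])) (Ioo 0 T ×ˢ univ) :=
      (continuousOn_const.mul h1).neg
    have h3 : Continuous fun r : ℝ => max r 0 := continuous_id.max continuous_const
    exact h3.comp_continuousOn h2
  have hA0 : ∀ t, 0 ≤ Aa t := fun t => by
    rw [hAa]; exact integral_nonneg fun z => le_max_right _ _
  obtain ⟨C₁, hC₁⟩ : ∃ C₁ : ℝ, C₁ = (3 * K * (2 * K + K + 3 * (K * K)) + K * K ^ 2) * vol := ⟨_, rfl⟩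
  have hC₁0 : 0 ≤ C₁ := by rw [hC₁]; positivity
  -- the derivative of the mass
  have hder : ∀ t ∈ Ioo 0 T, t ∈ Ico T₁ T → ∃ D' : ℝ, HasDerivAt Mm D' t ∧
      D' ≤ C₁ + 2 * c₀ * Aa t := by
    intro t ht ht1
    obtain ⟨ρ, hρ⟩ := hφ.cs.isCompact.isBounded.subset_closedBall (0 : V)
    have sG : ContDiffOn ℝ ∞ (fun z : ℝ × V => φ z.2 * (σ * o z.1 z.2)) (Ioo 0 T ×ˢ univ) :=
      ((hφ.sm.comp contDiff_snd).contDiffOn).mul (contDiffOn_const.mul sO)
    have cG : ∀ s ∈ Ioo 0 T, ∀ z ∉ closedBall (0 : V) ρ, φ z * (σ * o s z) = 0 := by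
      intro s _ z hz'
      rw [image_eq_zero_of_notMem_tsupport fun h => hz' (hρ h), zero_mul]
    have hd := Pool.Agent.Q119.AXI.hd_int' (F := fun s x => φ x * (σ * o s x)) sG cG ht
    have hMe : (fun s => ∫ x, φ x * (σ * o s x)) = Mm := by rw [hMm]
    rw [hMe] at hd
    refine ⟨_, hd, ?_⟩
    have hdv : DFO (Co c R H) (u t) := hdiv t ht
    obtain ⟨i1, i2, e1⟩ := hid (Co c R H) (u t) (o t) (w t) φ (svt t ht) hdv (sOt t ht)
      (sWt t ht) hφ.sm hφ.cs (hφ.supp.trans hsub)
    have hpt : ∀ᵐ x : V, deriv (fun s => φ x * (σ * o s x)) t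
        = σ * (φ x * (LL (o t) x - W221.NS.adv (u t) (o t) x
          + 2 * w t x * pd 2 (w t) x)) := by
      filter_upwards [axis_ae] with x hx
      have h2 := hd_slice sO ht x
      have h3 : HasDerivAt (fun s => o s x) (deriv (fun s => o s x) t) t := by
        rw [← h2.deriv] at h2; exact h2
      have h4 := (h3.const_mul σ).const_mul (φ x)
      have h4' : deriv (fun s => φ x * (σ * o s x)) t
          = φ x * (σ * deriv (fun s => o s x) t) := h4.deriv
      rw [h4']
      by_cases hxs : x ∈ tsupport φ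
      · rw [heq t ht x (hsub (hφ.supp hxs)) hx]
        ring
      · rw [image_eq_zero_of_notMem_tsupport hxs]
        ring
    rw [integral_congr_ae hpt, integral_const_mul, e1]
    -- the axis term
    have hax1 : -(σ * (2 * c₀ * ∫ z : ℝ, φ ![0, 0, z] * o t ![0, 0, z])) ≤ 2 * c₀ * Aa t := by
      have hcz : Continuous fun z : ℝ => (![0, 0, z] : V) := by
        refine continuous_pi fun i => ?_
        fin_cases i
        · exact continuous_const
        · exact continuous_const
        · exact continuous_id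
      have hz0 : ∀ z : ℝ, z ∉ Ioo (c - h) (c + h) → φ ![0, 0, z] = 0 := by
        intro z hz
        apply image_eq_zero_of_notMem_tsupport
        intro hmem
        have h2 := (hφ.supp hmem).2
        have h3 : |z - c| < h := h2
        rw [abs_lt] at h3
        exact hz ⟨by linarith [h3.1], by linarith [h3.2]⟩
      have h2 : ∫ z : ℝ, φ ![0, 0, z] * o t ![0, 0, z]
          = ∫ z in Ioo (c - h) (c + h), φ ![0, 0, z] * o t ![0, 0, z] := by
        refine (setIntegral_eq_integral_of_forall_compl_eq_zero fun z hz => ?_).symm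
        rw [hz0 z hz, zero_mul]
      have c1 : Continuous fun z : ℝ => φ ![0, 0, z] * o t ![0, 0, z] :=
        (hφ.sm.continuous.comp hcz).mul ((sOt t ht).continuous.comp hcz)
      have c2 : Continuous fun z : ℝ => max (-(σ * o t ![0, 0, z])) 0 :=
        (continuous_const.mul ((sOt t ht).continuous.comp hcz)).neg.max continuous_const
      have j1 : IntegrableOn (fun z : ℝ => -(σ * (φ ![0, 0, z] * o t ![0, 0, z])))
          (Ioo (c - h) (c + h)) :=
        ((continuous_const.mul c1).neg.continuousOn.integrableOn_compact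
          isCompact_Icc).mono_set Ioo_subset_Icc_self
      have j2 : IntegrableOn (fun z : ℝ => max (-(σ * o t ![0, 0, z])) 0)
          (Ioo (c - h) (c + h)) :=
        (c2.continuousOn.integrableOn_compact isCompact_Icc).mono_set Ioo_subset_Icc_self
      have h3 : ∫ z in Ioo (c - h) (c + h), -(σ * (φ ![0, 0, z] * o t ![0, 0, z])) ≤ Aa t := by
        rw [hAa]
        refine setIntegral_mono_on j1 j2 measurableSet_Ioo fun z _ => ?_
        have h4 := hφ.nn ![0, 0, z]
        have h5 := hφ.le ![0, 0, z]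
        calc -(σ * (φ ![0, 0, z] * o t ![0, 0, z]))
            = φ ![0, 0, z] * (-(σ * o t ![0, 0, z])) := by ring
          _ ≤ φ ![0, 0, z] * max (-(σ * o t ![0, 0, z])) 0 :=
              mul_le_mul_of_nonneg_left (le_max_left _ _) h4
          _ ≤ 1 * max (-(σ * o t ![0, 0, z])) 0 :=
              mul_le_mul_of_nonneg_right h5 (le_max_right _ _)
          _ = _ := one_mul _
      rw [integral_neg, integral_const_mul, ← h2] at h3
      have h4 := mul_le_mul_of_nonneg_left h3 (by linarith : 0 ≤ 2 * c₀)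
      linarith
    -- the bounded term
    have hb1 : σ * (∫ x, (o t x * (lap φ x - 2 * (RR φ x / sg x) + W221.NS.adv (u t) φ x)
        - pd 2 φ x * w t x ^ 2)) ≤ C₁ := by
      have h2 : ‖∫ x, (o t x * (lap φ x - 2 * (RR φ x / sg x) + W221.NS.adv (u t) φ x)
          - pd 2 φ x * w t x ^ 2)‖ ≤ C₁ := by
        have h3 : ∀ᵐ x : V, ‖o t x * (lap φ x - 2 * (RR φ x / sg x)
            + W221.NS.adv (u t) φ x) - pd 2 φ x * w t x ^ 2‖
            ≤ (Co c r h).indicator (fun _ => 3 * K * (2 * K + K + 3 * (K * K)) + K * K ^ 2) x := by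
          filter_upwards [axis_ae] with x hx
          have hsx : 0 < sg x := lt_of_le_of_ne (sg_nn x) (Ne.symm hx)
          by_cases hxs : x ∈ tsupport φ
          · have hxC := hφ.supp hxs
            rw [indicator_of_mem hxC]
            by_cases hxi : x ∈ Co c r1 h1
            · obtain ⟨a1, a2, a3⟩ := cut_in hφ hxi
              have a4 : W221.NS.adv (u t) φ x = 0 := by
                unfold W221.NS.adv
                simp [a1]
              rw [a1, a2, a3, a4]
              simp only [zero_div, mul_zero, sub_zero, add_zero, zero_mul, norm_zero]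
              positivity
            · have hxO : x ∈ Out c r h r1 h1 := by
                refine ⟨hCoCy hxC, ?_⟩
                by_contra hcon
                push Not at hcon
                exact hxi ⟨hcon.1, hcon.2⟩
              have hBx := hB t ht1 x hxO
              have b1 : |o t x| ≤ K := hBx.1
              have b2 : |w t x| ≤ K := hBx.2.1
              have b3 : ∀ i, |u t x i| ≤ K := hBx.2.2
              obtain ⟨b4, b5, b6⟩ := hφ.bd x
              have b7 : |RR φ x / sg x| ≤ K := by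
                rw [abs_div, abs_of_pos hsx, div_le_iff₀ hsx]
                exact b6
              have b8 : |W221.NS.adv (u t) φ x| ≤ 3 * (K * K) := by
                unfold W221.NS.adv
                rw [Fin.sum_univ_three]
                have h4 : ∀ i, |u t x i * pd i φ x| ≤ K * K := fun i => by
                  rw [abs_mul]
                  exact mul_le_mul (b3 i) (b4 i) (abs_nonneg _) hK
                have h5 := abs_add_three (u t x 0 * pd 0 φ x) (u t x 1 * pd 1 φ x)
                  (u t x 2 * pd 2 φ x)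
                linarith [h4 0, h4 1, h4 2]
              rw [Real.norm_eq_abs]
              have b9 : |lap φ x - 2 * (RR φ x / sg x) + W221.NS.adv (u t) φ x|
                  ≤ 2 * K + K + 3 * (K * K) := by
                have h5 := abs_add_le (lap φ x - 2 * (RR φ x / sg x)) (W221.NS.adv (u t) φ x)
                have h6 := abs_sub (lap φ x) (2 * (RR φ x / sg x))
                rw [abs_mul, abs_of_pos (by norm_num : (0 : ℝ) < 2)] at h6
                linarith
              have b10 : |pd 2 φ x * w t x ^ 2| ≤ K * K ^ 2 := by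
                rw [abs_mul, abs_pow]
                exact mul_le_mul (b4 2) (pow_le_pow_left₀ (abs_nonneg _) b2 2) (by positivity) hK
              have b11 : |o t x * (lap φ x - 2 * (RR φ x / sg x) + W221.NS.adv (u t) φ x)|
                  ≤ K * (2 * K + K + 3 * (K * K)) := by
                rw [abs_mul]
                exact mul_le_mul b1 b9 (abs_nonneg _) hK
              have h5 := abs_sub (o t x * (lap φ x - 2 * (RR φ x / sg x)
                + W221.NS.adv (u t) φ x)) (pd 2 φ x * w t x ^ 2)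
              have h6 : 0 ≤ K * (2 * K + K + 3 * (K * K)) := by positivity
              have h7 : 3 * K * (2 * K + K + 3 * (K * K)) = 3 * (K * (2 * K + K + 3 * (K * K))) := by
                ring
              rw [h7]
              linarith
          · obtain ⟨a0, a1, a2, a3⟩ := off_supp hxs
            have a4 : W221.NS.adv (u t) φ x = 0 := by
              unfold W221.NS.adv
              simp [a1]
            have a5 : lap φ x = 0 := by
              rw [Pool.Agent.Q175.AX.lap_ev (Pool.Agent.Q175.AX.cs_zero hxs),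
                Pool.Agent.Q175.AX.lap_const]
            rw [a1, a2, a4, a5]
            simp only [zero_div, mul_zero, sub_zero, add_zero, zero_mul, norm_zero]
            exact indicator_nonneg (fun _ _ => by positivity) _
        have h4 := norm_integral_le_of_norm_le
          ((integrable_indicator_iff mCo).2 (integrableOn_const vCo.ne)) h3
        rw [integral_indicator mCo, setIntegral_const, smul_eq_mul, Measure.real, ← hvol] at h4
        refine h4.trans (le_of_eq ?_)
        rw [hC₁]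
        ring
      calc _ ≤ |σ * (∫ x, (o t x * (lap φ x - 2 * (RR φ x / sg x)
            + W221.NS.adv (u t) φ x) - pd 2 φ x * w t x ^ 2))| := le_abs_self _
        _ ≤ C₁ := by rw [abs_mul, hσa, one_mul]; exact h2
    rw [mul_sub]
    linarith
  -- the bound of the mass
  obtain ⟨M₁, hM₁⟩ : ∃ M₁ : ℝ, M₁ = |Mm T₁| + C₁ * (T - T₁) + 2 * c₀ * B := ⟨_, rfl⟩
  have hmass : ∀ t ∈ Ico T₁ T, Mm t ≤ M₁ := by
    intro t' ht'
    have hI : ∀ s ∈ Icc T₁ t', s ∈ Ico T₁ T := fun s hs => ⟨hs.1, hs.2.trans_lt ht'.2⟩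
    have hAcI : ContinuousOn Aa (Icc T₁ t') := hAc.mono fun s hs => hT0 s (hI s hs)
    obtain ⟨W, hW⟩ : ∃ W : ℝ → ℝ, W = fun s => C₁ + 2 * c₀ * Aa s := ⟨_, rfl⟩
    have hWc : ContinuousOn W (Icc T₁ t') := by
      rw [hW]; exact continuousOn_const.add (continuousOn_const.mul hAcI)
    obtain ⟨Φ, hΦ⟩ : ∃ Φ : ℝ → ℝ, Φ = fun t => Mm t - ∫ s in T₁..t, W s := ⟨_, rfl⟩
    have hMc : ContinuousOn Mm (Icc T₁ t') := by
      intro s hs
      obtain ⟨D', h2, -⟩ := hder s (hT0 s (hI s hs)) (hI s hs)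
      exact h2.continuousAt.continuousWithinAt
    have hWd : ∀ s ∈ Ioo T₁ t', HasDerivAt (fun t => ∫ s in T₁..t, W s) (W s) s := by
      intro s hs
      have hsub : uIcc T₁ s ⊆ Icc T₁ t' := by
        rw [uIcc_of_le hs.1.le]
        exact Icc_subset_Icc_right hs.2.le
      have hn : Icc T₁ t' ∈ 𝓝 s := Icc_mem_nhds hs.1 hs.2
      exact intervalIntegral.integral_hasDerivAt_right ((hWc.mono hsub).intervalIntegrable)
        (hWc.stronglyMeasurableAtFilter_nhdsWithin measurableSet_Icc s |>.filter_mono (by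
          rw [nhdsWithin_eq_nhds.2 hn])) (hWc.continuousAt hn)
    have hΦc : ContinuousOn Φ (Icc T₁ t') := by
      rw [hΦ]
      have h2 : ContinuousOn (fun t => ∫ s in T₁..t, W s) (Icc T₁ t') := by
        have := intervalIntegral.continuousOn_primitive_interval (μ := volume) (f := W)
          (a := T₁) (b := t') (by
            rw [uIcc_of_le ht'.1]
            exact hWc.integrableOn_compact isCompact_Icc)
        rwa [uIcc_of_le ht'.1] at this
      exact hMc.sub h2
    have hanti : AntitoneOn Φ (Icc T₁ t') := by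
      refine antitoneOn_of_deriv_nonpos (convex_Icc T₁ t') hΦc ?_ ?_
      · intro s hs
        rw [interior_Icc] at hs
        have hs' := hI s (Ioo_subset_Icc_self hs)
        obtain ⟨D', h2, -⟩ := hder s (hT0 s hs') hs'
        rw [hΦ]
        exact (h2.sub (hWd s hs)).differentiableAt.differentiableWithinAt
      · intro s hs
        rw [interior_Icc] at hs
        have hs' := hI s (Ioo_subset_Icc_self hs)
        obtain ⟨D', h2, h3⟩ := hder s (hT0 s hs') hs'
        have e : deriv Φ s = D' - W s := by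
          rw [hΦ]
          exact (h2.sub (hWd s hs)).deriv
        rw [e, hW]
        simp only
        linarith
    have h2 := hanti (left_mem_Icc.2 ht'.1) (right_mem_Icc.2 ht'.1) ht'.1
    rw [hΦ] at h2
    simp only [intervalIntegral.integral_same, sub_zero] at h2
    have hAi : IntervalIntegrable Aa volume T₁ t' := by
      refine ContinuousOn.intervalIntegrable ?_
      rwa [uIcc_of_le ht'.1]
    have h3 : ∫ s in T₁..t', W s = C₁ * (t' - T₁) + 2 * c₀ * ∫ s in T₁..t', Aa s := by
      rw [hW, intervalIntegral.integral_add intervalIntegrable_const (hAi.const_mul _),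
        intervalIntegral.integral_const, intervalIntegral.integral_const_mul, smul_eq_mul]
      ring
    have h4 : ∫ s in T₁..t', Aa s ≤ B := by
      rw [hAa]
      exact hax t' ht'
    rw [h3] at h2
    have h5 : C₁ * (t' - T₁) ≤ C₁ * (T - T₁) :=
      mul_le_mul_of_nonneg_left (by linarith [ht'.2]) hC₁0
    have h6 : 2 * c₀ * ∫ s in T₁..t', Aa s ≤ 2 * c₀ * B :=
      mul_le_mul_of_nonneg_left h4 (by linarith)
    have h7 := le_abs_self (Mm T₁)
    rw [hM₁]
    linarith
  -- the bound of the absolute value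
  refine ⟨|M₁| + 2 * |B| + K * vol, by positivity, fun t ht => ?_⟩
  have ht0 := hT0 t ht
  have cO : Continuous (o t) := (sOt t ht0).continuous
  have cφ : Continuous φ := hφ.sm.continuous
  have jabs : IntegrableOn (fun x => |o t x|) (Co c r h) :=
    (cO.abs.continuousOn.integrableOn_compact hCy).mono_set hCoCy
  have j1 : IntegrableOn (fun x => φ x * (σ * o t x)) (Co c r h) :=
    ((cφ.mul (continuous_const.mul cO)).continuousOn.integrableOn_compact hCy).mono_set hCoCy
  have j2 : IntegrableOn (fun x => max (-(σ * o t x)) 0) (Co c r h) :=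
    (((continuous_const.mul cO).neg.max continuous_const).continuousOn.integrableOn_compact
      hCy).mono_set hCoCy
  have hpt : ∀ x ∈ Co c r h, |o t x|
      ≤ φ x * (σ * o t x) + 2 * max (-(σ * o t x)) 0 + K := by
    intro x hx
    have h2 := hφ.nn x
    have h3 := hφ.le x
    have h4 : |o t x| = |σ * o t x| := by rw [abs_mul, hσa, one_mul]
    have h5 : |σ * o t x| = σ * o t x + 2 * max (-(σ * o t x)) 0 := by
      rcases le_total 0 (σ * o t x) with h6 | h6
      · rw [abs_of_nonneg h6, max_eq_right (by linarith)]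
        ring
      · rw [abs_of_nonpos h6, max_eq_left (by linarith)]
        ring
    have h6 : (1 - φ x) * (σ * o t x) ≤ K := by
      by_cases hxi : x ∈ Cy c r1 h1
      · rw [hφ.one x hxi]
        simpa using hK
      · have hxO : x ∈ Out c r h r1 h1 := by
          refine ⟨hCoCy hx, ?_⟩
          by_contra hcon
          push Not at hcon
          exact hxi ⟨le_of_lt hcon.1, le_of_lt hcon.2⟩
        have h7 : |o t x| ≤ K := (hB t ht x hxO).1
        rw [h4] at h7
        calc (1 - φ x) * (σ * o t x) ≤ (1 - φ x) * K :=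
              mul_le_mul_of_nonneg_left ((le_abs_self _).trans h7) (by linarith)
          _ ≤ 1 * K := mul_le_mul_of_nonneg_right (by linarith) hK
          _ = K := one_mul K
    rw [h4, h5]
    linarith
  have h2 : ∫ x in Co c r h, |o t x|
      ≤ ∫ x in Co c r h, (φ x * (σ * o t x) + 2 * max (-(σ * o t x)) 0 + K) :=
    setIntegral_mono_on jabs ((j1.add (j2.const_mul 2)).add (integrableOn_const vCo.ne)) mCo hpt
  have j12 : IntegrableOn (fun x => φ x * (σ * o t x) + 2 * max (-(σ * o t x)) 0)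
      (Co c r h) := j1.add (j2.const_mul 2)
  rw [integral_add j12 (integrableOn_const vCo.ne), integral_add j1 (j2.const_mul 2),
    integral_const_mul, setIntegral_const, smul_eq_mul, Measure.real, ← hvol] at h2
  have h3 : ∫ x in Co c r h, φ x * (σ * o t x) = Mm t := by
    rw [hMm]
    refine setIntegral_eq_integral_of_forall_compl_eq_zero fun x hx => ?_
    rw [image_eq_zero_of_notMem_tsupport fun h => hx (hφ.supp h), zero_mul]
  rw [h3] at h2
  have h4 := hmass t ht
  have h5 := hneg t ht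
  have h6 := le_abs_self M₁
  have h7 := le_abs_self B
  have h8 : vol * K = K * vol := mul_comm _ _
  linarith

/-- M. -/
theorem t_Mass (hA : StmAx) (H0 : StmH0) (hAl : StmAlg) (hJ : StmJnt) (hO : StmEqO) : StmMass := by
  intro T E c R H K r h r1 h1 T₁ B σ u p φ hL hK hr1 hr hrR _ hh1 hh hhH _ hT₁ hT hφ hB hσ
    hneg hax
  have svt : ∀ t ∈ Ioo 0 T, ContDiff ℝ ∞ (u t) := by
    intro t ht
    rw [← contDiffOn_univ]
    exact hL.smooth_u.comp (contDiff_const.prodMk contDiff_id).contDiffOn
      (fun x _ => ⟨ht, mem_univ _⟩)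
  obtain ⟨-, sW, -, sO⟩ := hJ T u hL.smooth_u
  exact mass_core hA H0 T c R H K r h r1 h1 T₁ B σ u (fun t => OO (u t)) (fun t => WW (u t)) φ svt
    sO sW (fun t ht => hL.divfree t ht) (fun t ht x hx hs => by
      have h5 := (hO T E c R H u p hL t ht x hx hs).deriv
      have h6 := ((hAl (u t) (svt t ht) (hL.axi t ht)).2.2.2 x).2.2.2.2.2.1
      rw [h6] at h5
      rw [h5]
      ring) hK hr1 hr hrR hh1 hh hhH hT₁ hT hφ
    (fun t ht x hx => ⟨(hB t ht x hx).2.2.2.2.1, (hB t ht x hx).2.2.1, (hB t ht x hx).1⟩) hσ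
    hneg hax

end Pool.Agent.D0H28.OV
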