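import Pool.Agent.D0H28.OV.M2
import Pool.Agent.Q175.AX.CutL

/-! Project OV (helper28): odd weights, and the mass identity for flows with an invariant plane. -/

set_option autoImplicit false

open MeasureTheory Set Metric Filter Topology
open scoped ContDiff
open H459R3.NS Pool.Agent.W268.NS

namespace Pool.Agent.D0H28.OV

open Pool.Agent.Q67.AXI Pool.Agent.TH305.AX Pool.Agent.TH305.DR Pool.Agent.Q85.CL
open Pool.Agent.W583.MD (sm_pd cs_pd int_cs slice hd_slice Z Z.add Z.sub Z.smul Z_pd)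
open Pool.Agent.Q257.AXI (sg_sm sm_RR RR_mul)
open Pool.Agent.Q175.AX (sg_nn axis_ae lap_sm lap_mul pd_ev pd_evv lap_ev RR_ev cs_zero)

/-- smooth approximations of the sign -/
structure Eta (ε : ℝ) (η : ℝ → ℝ) : Prop where
  sm : ContDiff ℝ ∞ η
  le : ∀ s, |η s| ≤ 1
  d0 : ∀ s, 0 ≤ deriv η s
  d1 : ∀ s, s ^ 2 * deriv η s ≤ ε
  th : ∀ s, |η s - s * deriv η s| ≤ 1
  dd : ∀ s, ∃ k : ℝ, 0 ≤ k ∧ deriv (deriv η) s = -(k * s)
  m : ∀ s, ∃ m : ℝ, 0 ≤ m ∧ η s = m * s ∧ m * |s| ≤ 1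
  nr : ∀ s, (1 - |η s|) * |s| ≤ ε
  ka : ∃ κ : ℝ → ℝ, ContDiff ℝ ∞ κ ∧ (∀ s, |s| * deriv η s ≤ deriv κ s) ∧ ∀ s, |κ s| ≤ 2 * ε

lemma eta_ex {ε : ℝ} (hε : 0 < ε) : ∃ η : ℝ → ℝ, Eta ε η := by
  obtain ⟨n, hn⟩ : ∃ n : ℝ → ℝ, n = fun s => √(s ^ 2 + ε ^ 2) := ⟨_, rfl⟩
  have hpos : ∀ s : ℝ, 0 < s ^ 2 + ε ^ 2 := fun s => by positivity
  have hn0 : ∀ s, 0 < n s := fun s => by rw [hn]; exact Real.sqrt_pos.2 (hpos s)
  have hn2 : ∀ s, n s ^ 2 = s ^ 2 + ε ^ 2 := fun s => by
    rw [hn]; exact Real.sq_sqrt (hpos s).le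
  have hns : ∀ s, |s| ≤ n s := fun s => by
    rw [hn]
    exact Real.abs_le_sqrt (by nlinarith [sq_nonneg ε])
  have hnε : ∀ s, ε ≤ n s := fun s => by
    rw [hn]
    exact Real.le_sqrt_of_sq_le (by nlinarith [sq_nonneg s])
  have hnu : ∀ s, n s ≤ |s| + ε := fun s => by
    have h1 : n s ^ 2 ≤ (|s| + ε) ^ 2 := by
      rw [hn2]
      nlinarith [sq_abs s, abs_nonneg s]
    exact (pow_le_pow_iff_left₀ (hn0 s).le (by positivity) (by norm_num)).1 h1
  have hnsm : ContDiff ℝ ∞ n := by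
    rw [hn]
    exact ContDiff.sqrt (by fun_prop) fun s => (hpos s).ne'
  have hnd : ∀ s, HasDerivAt n (s / n s) s := by
    intro s
    have h1 : HasDerivAt (fun s : ℝ => s ^ 2 + ε ^ 2) (2 * s) s := by
      have := (hasDerivAt_pow 2 s).add_const (ε ^ 2)
      simpa using this
    have h2 := h1.sqrt (hpos s).ne'
    have h3 : 2 * s / (2 * √(s ^ 2 + ε ^ 2)) = s / n s := by
      rw [hn]
      have : √(s ^ 2 + ε ^ 2) ≠ 0 := (Real.sqrt_pos.2 (hpos s)).ne'
      field_simp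
    rw [h3] at h2
    rw [hn] at h2 ⊢
    exact h2
  obtain ⟨η, hη⟩ : ∃ η : ℝ → ℝ, η = fun s => s / n s := ⟨_, rfl⟩
  have hd1 : ∀ s, HasDerivAt η (ε ^ 2 / n s ^ 3) s := by
    intro s
    have h1 := (hasDerivAt_id s).div (hnd s) (hn0 s).ne'
    have h2 : (1 * n s - id s * (s / n s)) / n s ^ 2 = ε ^ 2 / n s ^ 3 := by
      have h3 := hn2 s
      have h4 := (hn0 s).ne'
      simp only [id]
      rw [div_eq_div_iff (by positivity) (by positivity)]
      field_simp
      rw [h3]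
      ring
    rw [h2] at h1
    rw [hη]
    exact h1
  have hde : deriv η = fun s => ε ^ 2 / n s ^ 3 := funext fun s => (hd1 s).deriv
  have hd2 : ∀ s, HasDerivAt (deriv η) (-(3 * ε ^ 2 / n s ^ 5 * s)) s := by
    intro s
    rw [hde]
    have h1 := ((hnd s).pow 3).inv (pow_ne_zero 3 (hn0 s).ne')
    have h2 := h1.const_mul (ε ^ 2)
    have e1 : (fun s => ε ^ 2 / n s ^ 3) = fun s => ε ^ 2 * ((n ^ 3)⁻¹) s := by
      funext s
      rfl
    rw [e1]
    refine HasDerivAt.congr_deriv h2 ?_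
    have h4 := (hn0 s).ne'
    simp only [Pi.pow_apply]
    field_simp
    norm_num
    ring
  refine ⟨η, ?_⟩
  constructor
  · rw [hη]
    exact contDiff_id.div hnsm fun s => (hn0 s).ne'
  · intro s
    rw [hη]
    simp only
    rw [abs_div, abs_of_pos (hn0 s), div_le_one (hn0 s)]
    exact hns s
  · intro s
    rw [hde]
    have := hn0 s
    positivity
  · intro s
    rw [hde]
    simp only
    rw [← mul_div_assoc, div_le_iff₀ (by have := hn0 s; positivity)]
    have h1 : s ^ 2 ≤ n s ^ 2 := by rw [hn2]; nlinarith [sq_nonneg ε]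
    have h2 := hnε s
    calc s ^ 2 * ε ^ 2 ≤ n s ^ 2 * ε ^ 2 := mul_le_mul_of_nonneg_right h1 (by positivity)
      _ = n s ^ 2 * ε * ε := by ring
      _ ≤ n s ^ 2 * ε * n s := mul_le_mul_of_nonneg_left h2 (by positivity)
      _ = ε * n s ^ 3 := by ring
  · intro s
    rw [hde, hη]
    simp only
    have h1 := hn0 s
    have h2 : s / n s - s * (ε ^ 2 / n s ^ 3) = s ^ 3 / n s ^ 3 := by
      have h3 := hn2 s
      field_simp
      rw [h3]
      ring
    rw [h2, abs_div, abs_of_pos (by positivity : 0 < n s ^ 3), div_le_one (by positivity), abs_pow]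
    exact pow_le_pow_left₀ (abs_nonneg s) (hns s) 3
  · intro s
    refine ⟨3 * ε ^ 2 / n s ^ 5, ?_, (hd2 s).deriv⟩
    have := hn0 s
    positivity
  · intro s
    refine ⟨1 / n s, ?_, ?_, ?_⟩
    · have := hn0 s
      positivity
    · rw [hη]
      simp only
      ring
    · rw [one_div, ← div_eq_inv_mul, div_le_one (hn0 s)]
      exact hns s
  · intro s
    rw [hη]
    simp only
    rw [abs_div, abs_of_pos (hn0 s)]
    have h1 := hn0 s
    have h2 : (1 - |s| / n s) * |s| = (n s - |s|) * (|s| / n s) := by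
      field_simp
    rw [h2]
    have h3 : |s| / n s ≤ 1 := (div_le_one h1).2 (hns s)
    have h4 := hnu s
    have h5 := hns s
    calc (n s - |s|) * (|s| / n s) ≤ (n s - |s|) * 1 :=
          mul_le_mul_of_nonneg_left h3 (by linarith)
      _ ≤ ε := by linarith
  · obtain ⟨κ, hκ⟩ : ∃ κ : ℝ → ℝ, κ = fun s => ε * Real.arctan (s / ε) := ⟨_, rfl⟩
    have hκd : ∀ s, HasDerivAt κ (ε ^ 2 / n s ^ 2) s := by
      intro s
      have h1 : HasDerivAt (fun s : ℝ => s / ε) (1 / ε) s := (hasDerivAt_id s).div_const ε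
      have h2 := (h1.arctan).const_mul ε
      rw [hκ]
      refine h2.congr_deriv ?_
      rw [hn2]
      have h3 := hpos s
      have h4 : 0 < 1 + (s / ε) ^ 2 := by positivity
      field_simp
      ring
    refine ⟨κ, ?_, fun s => ?_, fun s => ?_⟩
    · rw [hκ]
      exact contDiff_const.mul (Real.contDiff_arctan.comp (contDiff_id.div_const ε))
    · rw [hde, (hκd s).deriv]
      simp only
      have h1 := hn0 s
      rw [← mul_div_assoc, div_le_div_iff₀ (by positivity) (by positivity)]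
      calc |s| * ε ^ 2 * n s ^ 2 ≤ n s * ε ^ 2 * n s ^ 2 := by
            have := hns s
            gcongr
        _ = ε ^ 2 * n s ^ 3 := by ring
    · rw [hκ]
      simp only
      rw [abs_mul, abs_of_pos hε, mul_comm]
      refine mul_le_mul_of_nonneg_right ?_ hε.le
      have h1 := Real.arctan_lt_pi_div_two (s / ε)
      have h2 := Real.neg_pi_div_two_lt_arctan (s / ε)
      have h3 := Real.pi_le_four
      rw [abs_le]
      constructor <;> linarith

lemma pd_z (c : ℝ) (j : Fin 3) (x : V) :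
    pd j (fun y : V => y 2 - c) x = if (2 : Fin 3) = j then 1 else 0 := by
  unfold pd
  rw [fderiv_sub_const]
  exact congrFun (pd_crd 2 j) x

lemma sm_z (c : ℝ) : ContDiff ℝ ∞ (fun y : V => y 2 - c) := by fun_prop

lemma pd_ez {η : ℝ → ℝ} (hη : ContDiff ℝ ∞ η) (c : ℝ) (j : Fin 3) (x : V) :
    pd j (fun y : V => η (y 2 - c)) x = if (2 : Fin 3) = j then deriv η (x 2 - c) else 0 := by
  rw [pd_chain hη (sm_z c), pd_z]
  split_ifs <;> simp

lemma RR_ez {η : ℝ → ℝ} (hη : ContDiff ℝ ∞ η) (c : ℝ) (x : V) :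
    RR (fun y : V => η (y 2 - c)) x = 0 := by
  unfold RR
  rw [pd_ez hη, pd_ez hη]
  simp

lemma lap_ez {η : ℝ → ℝ} (hη : ContDiff ℝ ∞ η) (c : ℝ) (x : V) :
    lap (fun y : V => η (y 2 - c)) x = deriv (deriv η) (x 2 - c) := by
  have h1 : ∀ j : Fin 3, pd j (fun y : V => η (y 2 - c))
      = fun x => if (2 : Fin 3) = j then deriv η (x 2 - c) else 0 :=
    fun j => funext fun x => pd_ez hη c j x
  unfold lap
  rw [Fin.sum_univ_three, h1, h1, h1]
  have h2 : pd 2 (fun x : V => deriv η (x 2 - c)) x = deriv (deriv η) (x 2 - c) := by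
    have := pd_ez (sm_deriv hη) c 2 x
    simpa using this
  have h3 : ∀ j : Fin 3, pd j (fun _ : V => (0 : ℝ)) x = 0 := fun j => by
    unfold pd
    simp
  simp only [reduceIte, Fin.isValue, show ((2 : Fin 3) = 0) = False from by decide,
    show ((2 : Fin 3) = 1) = False from by decide]
  rw [h2, h3, h3]
  ring

end Pool.Agent.D0H28.OV
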