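import Pool.Agent.D0H28.OV.Odd1

/-! Project OV (helper28): the mass identity with an odd weight, at a fixed time. -/

set_option autoImplicit false

open MeasureTheory Set Metric Filter Topology
open scoped ContDiff
open H459R3.NS Pool.Agent.W268.NS

namespace Pool.Agent.D0H28.OV

open Pool.Agent.Q67.AXI Pool.Agent.TH305.AX Pool.Agent.TH305.DR Pool.Agent.Q85.CL
open Pool.Agent.W583.MD (sm_pd cs_pd int_cs slice hd_slice Z Z.add Z.sub Z.smul Z_pd)
open Pool.Agent.Q257.AXI (sg_sm sm_RR RR_mul)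
open Pool.Agent.Q175.AX (sg_nn axis_ae lap_sm lap_mul pd_ev pd_evv lap_ev RR_ev cs_zero)

/-- the identity of `mass_id` -/
def MassId (c₀ : ℝ) : Prop := ∀ (O : Set V) (v : V → V)
    (f W φ : V → ℝ), ContDiff ℝ ∞ v → DFO O v → ContDiff ℝ ∞ f → ContDiff ℝ ∞ W →
    ContDiff ℝ ∞ φ → HasCompactSupport φ → tsupport φ ⊆ O →
    Integrable (fun x => φ x * (LL f x - W221.NS.adv v f x + 2 * W x * pd 2 W x)) ∧
    Integrable (fun x => f x * (lap φ x - 2 * (RR φ x / sg x) + W221.NS.adv v φ x)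
      - pd 2 φ x * W x ^ 2) ∧
    ∫ x, φ x * (LL f x - W221.NS.adv v f x + 2 * W x * pd 2 W x)
      = (∫ x, (f x * (lap φ x - 2 * (RR φ x / sg x) + W221.NS.adv v φ x)
        - pd 2 φ x * W x ^ 2)) - 2 * c₀ * ∫ z : ℝ, φ ![0, 0, z] * f ![0, 0, z]

/-- the derivatives of the product of a cut-off function and an odd weight -/
lemma chi_der {φ : V → ℝ} {η : ℝ → ℝ} (hφ : ContDiff ℝ ∞ φ) (hη : ContDiff ℝ ∞ η) (c : ℝ)
    (v : V → V) (x : V) :
    pd 2 (fun y => φ y * η (y 2 - c)) x = φ x * deriv η (x 2 - c) + pd 2 φ x * η (x 2 - c) ∧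
    RR (fun y => φ y * η (y 2 - c)) x = RR φ x * η (x 2 - c) ∧
    lap (fun y => φ y * η (y 2 - c)) x = φ x * deriv (deriv η) (x 2 - c)
      + 2 * (pd 2 φ x * deriv η (x 2 - c)) + η (x 2 - c) * lap φ x ∧
    W221.NS.adv v (fun y => φ y * η (y 2 - c)) x = η (x 2 - c) * W221.NS.adv v φ x
      + φ x * (v x 2 * deriv η (x 2 - c)) := by
  have hz : ContDiff ℝ ∞ (fun y : V => η (y 2 - c)) := hη.comp (sm_z c)
  have h1 : ∀ j : Fin 3, pd j (fun y => φ y * η (y 2 - c)) x
      = φ x * (if (2 : Fin 3) = j then deriv η (x 2 - c) else 0) + pd j φ x * η (x 2 - c) := by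
    intro j
    have := congrFun (pd_mulf hφ hz j) x
    rw [this, pd_ez hη]
  refine ⟨?_, ?_, ?_, ?_⟩
  · rw [h1]
    simp
  · rw [RR_mul hφ hz, RR_ez hη]
    ring
  · rw [lap_mul hφ hz, lap_ez hη, Fin.sum_univ_three, pd_ez hη, pd_ez hη, pd_ez hη]
    simp
  · unfold W221.NS.adv
    simp_rw [h1]
    rw [Fin.sum_univ_three, Fin.sum_univ_three]
    simp
    ring

lemma odd_time {c₀ c R H K K₂ r h r1 h1 B σ ε L vol e d : ℝ} {v : V → V} {o w φ : V → ℝ}
    {η : ℝ → ℝ} (hc₀ : 0 < c₀) (hid : MassId c₀) (hη : Eta ε η) (hε : 0 < ε)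
    (hv : ContDiff ℝ ∞ v) (hd : DFO (Co c R H) v) (ho : ContDiff ℝ ∞ o) (hw : ContDiff ℝ ∞ w)
    (hK : 0 ≤ K) (hK₂ : 0 ≤ K₂) (hh : 0 < h)
    (hφ : Cut c r h r1 h1 K φ) (hsub : Co c r h ⊆ Co c R H)
    (hvol : vol = (volume (Co c r h)).toReal) (hφ2 : ∀ x, |pd 2 (pd 2 φ) x| ≤ K₂)
    (hBd : ∀ x ∈ Out c r h r1 h1, |o x| ≤ K ∧ |w x| ≤ K ∧ (∀ i, |v x i| ≤ K) ∧ |pd 2 o x| ≤ K)
    (hσ : σ = 1 ∨ σ = -1) (hB : 0 ≤ B)
    (hP : ∀ x ∈ Co c r h, -(B * min ((x 2 - e) ^ 2) |x 2 - e|) ≤ (x 2 - e) * (σ * o x))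
    (hL : 0 ≤ L)
    (hLo : ∀ x ∈ Co c r h, |o x| ≤ L * |x 2 - e|)
    (hLv : ∀ x ∈ Co c r h, |v x 2 - d| ≤ L)
    (hLw : σ = 1 ∨ ∀ x ∈ Co c r h, |w x| ≤ L * |x 2 - e|) :
    ∫ x, σ * ((φ x * η (x 2 - e)) * (LL o x - W221.NS.adv v o x + 2 * w x * pd 2 w x)
      - φ x * (d * deriv η (x 2 - e) * o x))
      ≤ (K * (3 * K + 3 * (K * K)) + K * K ^ 2 + 2 * (K₂ * K + K * K) + B * K
        + (2 * K + 1) * (L ^ 2 * ε)) * vol + 2 * c₀ * (B * (2 * h)) := by
  have hσa : |σ| = 1 := by rcases hσ with h | h <;> rw [h] <;> norm_num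
  have hCy : IsCompact (Cy c r h) := Pool.Agent.Q24.AXI.Cy_compact c r h
  have hCoCy : Co c r h ⊆ Cy c r h := fun x hx => ⟨le_of_lt hx.1, le_of_lt hx.2⟩
  have mCo : MeasurableSet (Co c r h) := (Co_open c r h).measurableSet
  have vCo : volume (Co c r h) < ⊤ := (measure_mono hCoCy).trans_lt hCy.measure_lt_top
  have hz : ContDiff ℝ ∞ (fun y : V => η (y 2 - e)) := hη.sm.comp (sm_z e)
  have hχ : ContDiff ℝ ∞ (fun y => φ y * η (y 2 - e)) := hφ.sm.mul hz
  have hχs : HasCompactSupport (fun y => φ y * η (y 2 - e)) := hφ.cs.mul_right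
  have hχO : tsupport (fun y => φ y * η (y 2 - e)) ⊆ Co c R H :=
    (tsupport_mul_subset_left.trans hφ.supp).trans hsub
  obtain ⟨i1, i2, e1⟩ := hid (Co c R H) v o w _ hv hd ho hw hχ hχs hχO
  have sη1 : ContDiff ℝ ∞ (fun y : V => deriv η (y 2 - e)) := (sm_deriv hη.sm).comp (sm_z e)
  have i3 : Integrable (fun x => φ x * (d * deriv η (x 2 - e) * o x)) :=
    int_cs (hφ.sm.mul ((contDiff_const.mul sη1).mul ho)).continuous hφ.cs.mul_right
  rw [integral_const_mul, integral_sub i1 i3, e1, sub_right_comm, mul_sub]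
  -- the axis term
  have hax1 : -(σ * (2 * c₀ * ∫ z : ℝ, φ ![0, 0, z] * η ((![0, 0, z] : V) 2 - e)
      * o ![0, 0, z])) ≤ 2 * c₀ * (B * (2 * h)) := by
    have hcz : Continuous fun z : ℝ => (![0, 0, z] : V) := by
      refine continuous_pi fun i => ?_
      fin_cases i
      · exact continuous_const
      · exact continuous_const
      · exact continuous_id
    have hz0 : ∀ z : ℝ, z ∉ Ioo (c - h) (c + h) → φ ![0, 0, z] = 0 := by
      intro z hz
      apply image_eq_zero_of_notMem_tsupport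
      intro hmem
      have h2 := (hφ.supp hmem).2
      have h3 : |z - c| < h := h2
      rw [abs_lt] at h3
      exact hz ⟨by linarith [h3.1], by linarith [h3.2]⟩
    have h2 : ∫ z : ℝ, φ ![0, 0, z] * η ((![0, 0, z] : V) 2 - e) * o ![0, 0, z]
        = ∫ z in Ioo (c - h) (c + h), φ ![0, 0, z] * η ((![0, 0, z] : V) 2 - e)
          * o ![0, 0, z] := by
      refine (setIntegral_eq_integral_of_forall_compl_eq_zero fun z hz => ?_).symm
      rw [hz0 z hz, zero_mul, zero_mul]
    have c1 : Continuous fun z : ℝ => φ ![0, 0, z] * η ((![0, 0, z] : V) 2 - e)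
        * o ![0, 0, z] :=
      ((hφ.sm.continuous.comp hcz).mul (hz.continuous.comp hcz)).mul (ho.continuous.comp hcz)
    have j1 : IntegrableOn (fun z : ℝ => -(σ * (φ ![0, 0, z] * η ((![0, 0, z] : V) 2 - e)
        * o ![0, 0, z]))) (Ioo (c - h) (c + h)) :=
      ((continuous_const.mul c1).neg.continuousOn.integrableOn_compact
        isCompact_Icc).mono_set Ioo_subset_Icc_self
    have h3 : ∫ z in Ioo (c - h) (c + h), -(σ * (φ ![0, 0, z] * η ((![0, 0, z] : V) 2 - e)
        * o ![0, 0, z])) ≤ ∫ z in Ioo (c - h) (c + h), B := by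
      refine setIntegral_mono_on j1 (integrableOn_const measure_Ioo_lt_top.ne)
        measurableSet_Ioo fun z hzm => ?_
      have h4 := hφ.nn ![0, 0, z]
      have h5 := hφ.le ![0, 0, z]
      have e2 : (![0, 0, z] : V) 2 - e = z - e := rfl
      rw [e2]
      by_cases hφ0 : φ ![0, 0, z] = 0
      · rw [hφ0]
        simp only [zero_mul, mul_zero, neg_zero]
        positivity
      · have hmem : (![0, 0, z] : V) ∈ Co c r h := hφ.supp (subset_tsupport _ hφ0)
        have h6 := hP _ hmem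
        rw [e2] at h6
        obtain ⟨m, hm0, hm1, hm2⟩ := hη.m (z - e)
        have h7 : -(η (z - e) * (σ * o ![0, 0, z])) ≤ B := by
          rw [hm1]
          have h8 := mul_le_mul_of_nonneg_left h6 hm0
          have h9 : m * (B * min ((z - e) ^ 2) |z - e|) ≤ B := by
            calc m * (B * min ((z - e) ^ 2) |z - e|) ≤ m * (B * |z - e|) :=
                  mul_le_mul_of_nonneg_left (mul_le_mul_of_nonneg_left (min_le_right _ _) hB) hm0
              _ = (m * |z - e|) * B := by ring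
              _ ≤ 1 * B := mul_le_mul_of_nonneg_right hm2 hB
              _ = _ := one_mul _
          have e3 : m * ((z - e) * (σ * o ![0, 0, z])) = m * (z - e) * (σ * o ![0, 0, z]) := by
            ring
          rw [e3] at h8
          linarith
        calc -(σ * (φ ![0, 0, z] * η (z - e) * o ![0, 0, z]))
            = φ ![0, 0, z] * (-(η (z - e) * (σ * o ![0, 0, z]))) := by ring
          _ ≤ φ ![0, 0, z] * B := mul_le_mul_of_nonneg_left h7 h4
          _ ≤ 1 * B := mul_le_mul_of_nonneg_right h5 hB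
          _ = B := one_mul _
    rw [setIntegral_const, smul_eq_mul, Measure.real, Real.volume_Ioo,
      ENNReal.toReal_ofReal (by linarith), integral_neg, integral_const_mul, ← h2] at h3
    have h4 := mul_le_mul_of_nonneg_left h3 (by linarith : 0 ≤ 2 * c₀)
    have e4 : 2 * c₀ * ((c + h - (c - h)) * B) = 2 * c₀ * (B * (2 * h)) := by ring
    rw [e4] at h4
    linarith
  -- the bounded term
  obtain ⟨θ, hθ⟩ : ∃ θ : ℝ → ℝ, θ = fun s => η s - s * deriv η s := ⟨_, rfl⟩
  have hθs : ContDiff ℝ ∞ θ := by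
    rw [hθ]
    exact hη.sm.sub (contDiff_id.mul (sm_deriv hη.sm))
  have hθd : ∀ s, deriv θ s = -(s * deriv (deriv η) s) := by
    intro s
    have h2 : HasDerivAt η (deriv η s) s := (hη.sm.differentiable (by norm_cast) s).hasDerivAt
    have h3 : HasDerivAt (deriv η) (deriv (deriv η) s) s :=
      ((sm_deriv hη.sm).differentiable (by norm_cast) s).hasDerivAt
    have h4 := h2.sub ((hasDerivAt_id s).mul h3)
    rw [hθ]
    have h5 : HasDerivAt (fun s => η s - s * deriv η s)
        (deriv η s - (1 * deriv η s + id s * deriv (deriv η) s)) s := h4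
    rw [h5.deriv]
    simp only [id]
    ring
  have hzθ : ContDiff ℝ ∞ (fun y : V => θ (y 2 - e)) := hθs.comp (sm_z e)
  obtain ⟨κ, hκs, hκ1, hκ2⟩ := hη.ka
  have hzκ : ContDiff ℝ ∞ (fun y : V => κ (y 2 - e)) := hκs.comp (sm_z e)
  have sφ2 : ContDiff ℝ ∞ (pd 2 φ) := sm_pd hφ.sm 2
  have z1 : Z (pd 2 fun y => (pd 2 φ y * o y) * η (y 2 - e)) :=
    Z_pd ((sφ2.mul ho).mul hz) ((cs_pd hφ.cs 2).mul_right.mul_right) 2
  have z2 : Z (pd 2 fun y => φ y * θ (y 2 - e)) := Z_pd (hφ.sm.mul hzθ) hφ.cs.mul_right 2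
  have z3 : Z (pd 2 fun y => φ y * κ (y 2 - e)) := Z_pd (hφ.sm.mul hzκ) hφ.cs.mul_right 2
  have d3 : ∀ x, pd 2 (fun y => φ y * κ (y 2 - e)) x
      = φ x * deriv κ (x 2 - e) + pd 2 φ x * κ (x 2 - e) := by
    intro x
    have h2 : pd 2 (fun y => φ y * κ (y 2 - e)) x
        = φ x * pd 2 (fun y : V => κ (y 2 - e)) x + pd 2 φ x * κ (x 2 - e) :=
      congrFun (pd_mulf hφ.sm hzκ 2) x
    rw [h2, pd_ez hκs]
    simp
  have d1 : ∀ x, pd 2 (fun y => (pd 2 φ y * o y) * η (y 2 - e)) x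
      = pd 2 φ x * o x * deriv η (x 2 - e)
        + (pd 2 φ x * pd 2 o x + pd 2 (pd 2 φ) x * o x) * η (x 2 - e) := by
    intro x
    have h2 : pd 2 (fun y => (pd 2 φ y * o y) * η (y 2 - e)) x
        = pd 2 φ x * o x * pd 2 (fun y : V => η (y 2 - e)) x
          + pd 2 (fun y => pd 2 φ y * o y) x * η (x 2 - e) :=
      congrFun (pd_mulf (sφ2.mul ho) hz 2) x
    have h3 : pd 2 (fun y => pd 2 φ y * o y) x = pd 2 φ x * pd 2 o x + pd 2 (pd 2 φ) x * o x :=
      congrFun (pd_mulf sφ2 ho 2) x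
    rw [h2, h3, pd_ez hη.sm]
    simp
  have d2 : ∀ x, pd 2 (fun y => φ y * θ (y 2 - e)) x
      = φ x * -((x 2 - e) * deriv (deriv η) (x 2 - e)) + pd 2 φ x * θ (x 2 - e) := by
    intro x
    have h2 : pd 2 (fun y => φ y * θ (y 2 - e)) x
        = φ x * pd 2 (fun y : V => θ (y 2 - e)) x + pd 2 φ x * θ (x 2 - e) :=
      congrFun (pd_mulf hφ.sm hzθ 2) x
    rw [h2, pd_ez hθs]
    simp only [reduceIte]
    rw [hθd]
  obtain ⟨CC, hCC⟩ : ∃ CC : ℝ, CC = K * (3 * K + 3 * (K * K)) + K * K ^ 2 + 2 * (K₂ * K + K * K)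
    + B * K + (2 * K + 1) * (L ^ 2 * ε) := ⟨_, rfl⟩
  have hCC0 : 0 ≤ CC := by rw [hCC]; positivity
  obtain ⟨I, hI⟩ : ∃ I : V → ℝ, I = fun x => o x * (lap (fun y => φ y * η (y 2 - e)) x
    - 2 * (RR (fun y => φ y * η (y 2 - e)) x / sg x)
    + W221.NS.adv v (fun y => φ y * η (y 2 - e)) x)
    - pd 2 (fun y => φ y * η (y 2 - e)) x * w x ^ 2 := ⟨_, rfl⟩
  have hIi0 : Integrable I := by rw [hI]; exact i2
  obtain ⟨J, hJ⟩ : ∃ J : V → ℝ, J = fun x => I x - φ x * (d * deriv η (x 2 - e) * o x) :=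
    ⟨_, rfl⟩
  have hb1 : σ * (∫ x, J x) ≤ CC * vol := by
    have hJi : Integrable J := by rw [hJ]; exact hIi0.sub i3
    have zz := ((z1.smul (2 * σ)).add (z2.smul B)).add (z3.smul (L ^ 2))
    have e5 : σ * (∫ x, J x) = ∫ x, (σ * J x - ((2 * σ) * pd 2 (fun y => (pd 2 φ y * o y)
        * η (y 2 - e)) x + B * pd 2 (fun y => φ y * θ (y 2 - e)) x
        + L ^ 2 * pd 2 (fun y => φ y * κ (y 2 - e)) x)) := by
      rw [integral_sub (hJi.const_mul σ) zz.1, zz.2, integral_const_mul, sub_zero]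
    rw [e5]
    have e6 : CC * vol = ∫ x, (Co c r h).indicator (fun _ => CC) x := by
      rw [integral_indicator mCo, setIntegral_const, smul_eq_mul, Measure.real, ← hvol, mul_comm]
    rw [e6]
    refine integral_mono_ae ((hJi.const_mul σ).sub zz.1)
      ((integrable_indicator_iff mCo).2 (integrableOn_const vCo.ne)) ?_
    filter_upwards [axis_ae] with x hx
    have hsx : 0 < sg x := lt_of_le_of_ne (sg_nn x) (Ne.symm hx)
    rw [hJ, hI]
    simp only
    obtain ⟨g1, g2, g3, g4⟩ := chi_der hφ.sm hη.sm e v x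
    rw [g1, g2, g3, g4, d1, d2, d3]
    obtain ⟨s, hs⟩ : ∃ s : ℝ, s = x 2 - e := ⟨_, rfl⟩
    rw [← hs]
    -- rearrangement
    have key : σ * (o x * (φ x * deriv (deriv η) s + 2 * (pd 2 φ x * deriv η s)
          + η s * lap φ x - 2 * (RR φ x * η s / sg x)
          + (η s * W221.NS.adv v φ x + φ x * (v x 2 * deriv η s)))
          - (φ x * deriv η s + pd 2 φ x * η s) * w x ^ 2 - φ x * (d * deriv η s * o x))
        - (2 * σ * (pd 2 φ x * o x * deriv η s
            + (pd 2 φ x * pd 2 o x + pd 2 (pd 2 φ) x * o x) * η s)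
          + B * (φ x * -(s * deriv (deriv η) s) + pd 2 φ x * θ s)
          + L ^ 2 * (φ x * deriv κ s + pd 2 φ x * κ s))
        = (σ * η s * (o x * (lap φ x - 2 * (RR φ x / sg x) + W221.NS.adv v φ x)
            - pd 2 φ x * w x ^ 2))
          - 2 * (σ * η s * (pd 2 φ x * pd 2 o x + pd 2 (pd 2 φ) x * o x))
          + φ x * (deriv (deriv η) s * (σ * o x) + B * (s * deriv (deriv η) s))
          - B * (pd 2 φ x * θ s)
          + φ x * (σ * o x * ((v x 2 - d) * deriv η s) - L ^ 2 * deriv κ s)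
          - φ x * (σ * (deriv η s * w x ^ 2)) - L ^ 2 * (pd 2 φ x * κ s) := by
      ring
    rw [key]
    by_cases hxs : x ∈ tsupport φ
    · have hxC := hφ.supp hxs
      rw [indicator_of_mem hxC]
      have n0 := hφ.nn x
      have n1 := hφ.le x
      have m1 : |η s| ≤ 1 := hη.le s
      have m2 : 0 ≤ deriv η s := hη.d0 s
      have m3 : s ^ 2 * deriv η s ≤ ε := hη.d1 s
      have m4 : |θ s| ≤ 1 := by rw [hθ]; exact hη.th s
      obtain ⟨k, hk0, hk⟩ := hη.dd s
      have p1 : -(B * s ^ 2) ≤ s * (σ * o x) := by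
        rw [hs]
        have h2 := hP x hxC
        have h3 := mul_le_mul_of_nonneg_left (min_le_left ((x 2 - e) ^ 2) |x 2 - e|) hB
        linarith
      have p2 : |o x| ≤ L * |s| := by rw [hs]; exact hLo x hxC
      have p3 : |v x 2 - d| ≤ L := hLv x hxC
      -- third term
      have t3 : φ x * (deriv (deriv η) s * (σ * o x) + B * (s * deriv (deriv η) s)) ≤ 0 := by
        rw [hk]
        have h2 : k * (-(B * s ^ 2)) ≤ k * (s * (σ * o x)) := mul_le_mul_of_nonneg_left p1 hk0
        have h3 : -(k * s) * (σ * o x) + B * (s * -(k * s)) ≤ 0 := by nlinarith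
        exact mul_nonpos_of_nonneg_of_nonpos n0 h3
      -- fifth term
      have t5 : φ x * (σ * o x * ((v x 2 - d) * deriv η s) - L ^ 2 * deriv κ s) ≤ 0 := by
        refine mul_nonpos_of_nonneg_of_nonpos n0 ?_
        have h2 : |σ * o x * ((v x 2 - d) * deriv η s)| ≤ L * |s| * (L * deriv η s) := by
          rw [abs_mul, abs_mul, hσa, one_mul, abs_mul, abs_of_nonneg m2]
          exact mul_le_mul p2 (mul_le_mul_of_nonneg_right p3 m2) (by positivity) (by positivity)
        have h3 : L * |s| * (L * deriv η s) = L ^ 2 * (|s| * deriv η s) := by ring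
        rw [h3] at h2
        have h4 := mul_le_mul_of_nonneg_left (hκ1 s) (by positivity : 0 ≤ L ^ 2)
        have h5 := le_abs_self (σ * o x * ((v x 2 - d) * deriv η s))
        linarith
      -- sixth term
      have t6 : -(φ x * (σ * (deriv η s * w x ^ 2))) ≤ L ^ 2 * ε := by
        rcases hLw with h2 | h2
        · rw [h2]
          have h3 : 0 ≤ φ x * (1 * (deriv η s * w x ^ 2)) := by positivity
          have h4 : 0 ≤ L ^ 2 * ε := by positivity
          linarith
        · have p4 : |w x| ≤ L * |s| := by rw [hs]; exact h2 x hxC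
          have h3 : |φ x * (σ * (deriv η s * w x ^ 2))| ≤ 1 * (deriv η s * (L * |s|) ^ 2) := by
            rw [abs_mul, abs_of_nonneg n0, abs_mul, hσa, one_mul, abs_mul, abs_of_nonneg m2,
              abs_pow]
            exact mul_le_mul n1 (mul_le_mul_of_nonneg_left
              (pow_le_pow_left₀ (abs_nonneg _) p4 2) m2) (by positivity) (by norm_num)
          have h4 : 1 * (deriv η s * (L * |s|) ^ 2) = L ^ 2 * (s ^ 2 * deriv η s) := by
            rw [← sq_abs s]
            ring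
          rw [h4] at h3
          have h5 := h3.trans (mul_le_mul_of_nonneg_left m3 (by positivity))
          have h6 := neg_abs_le (φ x * (σ * (deriv η s * w x ^ 2)))
          linarith
      obtain ⟨b4, b5, b6⟩ := hφ.bd x
      -- seventh term
      have t7 : -(L ^ 2 * (pd 2 φ x * κ s)) ≤ 2 * K * (L ^ 2 * ε) := by
        have h2 : |L ^ 2 * (pd 2 φ x * κ s)| ≤ L ^ 2 * (K * (2 * ε)) := by
          rw [abs_mul, abs_of_nonneg (by positivity : 0 ≤ L ^ 2), abs_mul]
          exact mul_le_mul_of_nonneg_left (mul_le_mul (b4 2) (hκ2 s) (abs_nonneg _) hK)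
            (by positivity)
        have h6 := neg_abs_le (L ^ 2 * (pd 2 φ x * κ s))
        have h7 : L ^ 2 * (K * (2 * ε)) = 2 * K * (L ^ 2 * ε) := by ring
        rw [h7] at h2
        linarith
      -- fourth term
      have t4 : -(B * (pd 2 φ x * θ s)) ≤ B * K := by
        have h2 : |B * (pd 2 φ x * θ s)| ≤ B * (K * 1) := by
          rw [abs_mul, abs_of_nonneg hB, abs_mul]
          exact mul_le_mul_of_nonneg_left (mul_le_mul (b4 2) m4 (abs_nonneg _) hK) hB
        have h6 := neg_abs_le (B * (pd 2 φ x * θ s))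
        linarith
      by_cases hxi : x ∈ Co c r1 h1
      · obtain ⟨a1, a2, a3⟩ := cut_in hφ hxi
        have hev : φ =ᶠ[𝓝 x] fun _ => 1 := by
          filter_upwards [(Co_open c r1 h1).mem_nhds hxi] with y hy
          exact hφ.one y ⟨le_of_lt hy.1, le_of_lt hy.2⟩
        have a5 : pd 2 (pd 2 φ) x = 0 := by
          rw [pd_ev (pd_evv hev 2), pd_const', pd_const']
        have a4 : W221.NS.adv v φ x = 0 := by
          unfold W221.NS.adv
          simp [a1]
        rw [a1, a2, a3, a4, a5]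
        have h8 : σ * η s * (o x * (0 - 2 * (0 / sg x) + 0) - 0 * w x ^ 2)
          - 2 * (σ * η s * (0 * pd 2 o x + 0 * o x)) = 0 := by
          rw [zero_div]
          ring
        rw [h8]
        have h9 : 0 ≤ K * (3 * K + 3 * (K * K)) + K * K ^ 2 + 2 * (K₂ * K + K * K) + B * K := by
          positivity
        have h10 : 0 ≤ 2 * K * (L ^ 2 * ε) := by positivity
        rw [hCC]
        linarith
      · have hxO : x ∈ Out c r h r1 h1 := by
          refine ⟨hCoCy hxC, ?_⟩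
          by_contra hcon
          push Not at hcon
          exact hxi ⟨hcon.1, hcon.2⟩
        obtain ⟨b1, b2, b3, b3'⟩ := hBd x hxO
        have b7 : |RR φ x / sg x| ≤ K := by
          rw [abs_div, abs_of_pos hsx, div_le_iff₀ hsx]
          exact b6
        have b8 : |W221.NS.adv v φ x| ≤ 3 * (K * K) := by
          unfold W221.NS.adv
          rw [Fin.sum_univ_three]
          have h4 : ∀ i, |v x i * pd i φ x| ≤ K * K := fun i => by
            rw [abs_mul]
            exact mul_le_mul (b3 i) (b4 i) (abs_nonneg _) hK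
          have h5 := abs_add_three (v x 0 * pd 0 φ x) (v x 1 * pd 1 φ x) (v x 2 * pd 2 φ x)
          linarith [h4 0, h4 1, h4 2]
        have b9 : |lap φ x - 2 * (RR φ x / sg x) + W221.NS.adv v φ x|
            ≤ 3 * K + 3 * (K * K) := by
          have h5 := abs_add_le (lap φ x - 2 * (RR φ x / sg x)) (W221.NS.adv v φ x)
          have h6 := abs_sub (lap φ x) (2 * (RR φ x / sg x))
          rw [abs_mul, abs_of_pos (by norm_num : (0 : ℝ) < 2)] at h6
          linarith
        have b10 : |pd 2 φ x * w x ^ 2| ≤ K * K ^ 2 := by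
          rw [abs_mul, abs_pow]
          exact mul_le_mul (b4 2) (pow_le_pow_left₀ (abs_nonneg _) b2 2) (by positivity) hK
        have b11 : |o x * (lap φ x - 2 * (RR φ x / sg x) + W221.NS.adv v φ x)|
            ≤ K * (3 * K + 3 * (K * K)) := by
          rw [abs_mul]
          exact mul_le_mul b1 b9 (abs_nonneg _) hK
        have b12 := abs_sub (o x * (lap φ x - 2 * (RR φ x / sg x) + W221.NS.adv v φ x))
          (pd 2 φ x * w x ^ 2)
        have t1 : σ * η s * (o x * (lap φ x - 2 * (RR φ x / sg x) + W221.NS.adv v φ x)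
            - pd 2 φ x * w x ^ 2) ≤ K * (3 * K + 3 * (K * K)) + K * K ^ 2 := by
          refine (le_abs_self _).trans ?_
          rw [abs_mul, abs_mul, hσa, one_mul]
          calc |η s| * |o x * (lap φ x - 2 * (RR φ x / sg x) + W221.NS.adv v φ x)
                - pd 2 φ x * w x ^ 2|
              ≤ 1 * |o x * (lap φ x - 2 * (RR φ x / sg x) + W221.NS.adv v φ x)
                - pd 2 φ x * w x ^ 2| := mul_le_mul_of_nonneg_right m1 (abs_nonneg _)
            _ ≤ _ := by linarith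
        have t2 : -(2 * (σ * η s * (pd 2 φ x * pd 2 o x + pd 2 (pd 2 φ) x * o x)))
            ≤ 2 * (K₂ * K + K * K) := by
          have h2 : |pd 2 φ x * pd 2 o x + pd 2 (pd 2 φ) x * o x| ≤ K * K + K₂ * K := by
            refine (abs_add_le _ _).trans (add_le_add ?_ ?_)
            · rw [abs_mul]
              exact mul_le_mul (b4 2) b3' (abs_nonneg _) hK
            · rw [abs_mul]
              exact mul_le_mul (hφ2 x) b1 (abs_nonneg _) hK₂
          have h3 : |σ * η s * (pd 2 φ x * pd 2 o x + pd 2 (pd 2 φ) x * o x)|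
              ≤ K * K + K₂ * K := by
            rw [abs_mul, abs_mul, hσa, one_mul]
            calc |η s| * |pd 2 φ x * pd 2 o x + pd 2 (pd 2 φ) x * o x|
                ≤ 1 * |pd 2 φ x * pd 2 o x + pd 2 (pd 2 φ) x * o x| :=
                  mul_le_mul_of_nonneg_right m1 (abs_nonneg _)
              _ ≤ _ := by linarith
          have h6 := neg_abs_le (σ * η s * (pd 2 φ x * pd 2 o x + pd 2 (pd 2 φ) x * o x))
          linarith
        rw [hCC]
        linarith
    · obtain ⟨a0, a1, a2, a3⟩ := off_supp hxs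
      have a4 : W221.NS.adv v φ x = 0 := by
        unfold W221.NS.adv
        simp [a1]
      have a5 : lap φ x = 0 := by
        rw [lap_ev (cs_zero hxs), Pool.Agent.Q175.AX.lap_const]
      have a6 : pd 2 (pd 2 φ) x = 0 := by
        rw [pd_ev (pd_evv (cs_zero hxs) 2), pd_const', pd_const']
      rw [a0, a1, a2, a4, a5, a6]
      have h8 : σ * η s * (o x * (0 - 2 * (0 / sg x) + 0) - 0 * w x ^ 2)
          - 2 * (σ * η s * (0 * pd 2 o x + 0 * o x))
          + 0 * (deriv (deriv η) s * (σ * o x) + B * (s * deriv (deriv η) s))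
          - B * (0 * θ s) + 0 * (σ * o x * ((v x 2 - d) * deriv η s) - L ^ 2 * deriv κ s)
          - 0 * (σ * (deriv η s * w x ^ 2)) - L ^ 2 * (0 * κ s) = 0 := by
        rw [zero_div]
        ring
      rw [h8]
      exact indicator_nonneg (fun _ _ => hCC0) _
  rw [← hCC]
  have hJe : ∫ x, J x = (∫ x, I x) - ∫ x, φ x * (d * deriv η (x 2 - e) * o x) := by
    rw [hJ]
    exact integral_sub hIi0 i3
  rw [hJe, hI] at hb1
  linarith

end Pool.Agent.D0H28.OV
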