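import Pool.Agent.D0H28.OV.Lev1
import Pool.Agent.Q153.AXI.Base

/-! Project OV (helper28): the mass of the negative part of `σ Ω` and the source term. -/

set_option autoImplicit false

open MeasureTheory Set Metric Filter Topology
open scoped ContDiff ENNReal
open H459R3.NS Pool.Agent.W268.NS

namespace Pool.Agent.D0H28.OV

open Pool.Agent.Q67.AXI Pool.Agent.TH305.AX Pool.Agent.TH305.DR Pool.Agent.Q85.CL
open Pool.Agent.W583.MD (sm_pd cs_pd int_cs slice hd_slice Z Z.add Z.sub Z.smul Z_pd)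
open Pool.Agent.Q257.AXI (sg_sm sm_RR RR_mul)
open Pool.Agent.Q175.AX (sg_nn axis_ae lap_sm gr2_sm gr2_nn lap_mul pd_ev pd_evv lap_ev RR_ev
  cs_zero)

/-- smooth approximation `j` of the negative part of `s - λ` -/
structure Jn (lam : ℝ) (j : ℝ → ℝ) : Prop where
  sm : ContDiff ℝ ∞ j
  nn : ∀ s, 0 ≤ j s
  lo : ∀ s, max (-s) 0 ≤ j s + (1 + |lam|)
  up : ∀ s, j s ≤ |s| + |lam|
  d1 : ∀ s, -1 ≤ deriv j s ∧ deriv j s ≤ 0
  d2 : ∀ s, 0 ≤ deriv (deriv j) s
  d3 : ∀ s, lam ≤ s → deriv j s = 0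

lemma hh_lo (t : ℝ) : t - 1 ≤ hh t := by
  obtain ⟨-, hnn, -⟩ := t_Hh
  rcases le_total t 1 with ht | ht
  · linarith [hnn t]
  · have e1 : hh t = hh 1 + (t - 1) := by
      unfold hh
      rw [← intervalIntegral.integral_add_adjacent_intervals
        (Real.smoothTransition.continuous.intervalIntegrable 0 1)
        (Real.smoothTransition.continuous.intervalIntegrable 1 t)]
      congr 1
      rw [intervalIntegral.integral_congr (g := fun _ => (1 : ℝ)) fun τ hτ => ?_]
      · simp
      · rw [uIcc_of_le ht] at hτ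
        exact Real.smoothTransition.one_of_one_le hτ.1
    linarith [hnn 1]

lemma jn_ex (lam : ℝ) : ∃ j : ℝ → ℝ, Jn lam j := by
  obtain ⟨hsm, hnn, h0, -, -, hle, -, -⟩ := t_Hh
  obtain ⟨j, hj⟩ : ∃ j : ℝ → ℝ, j = fun s => hh (lam - s) := ⟨_, rfl⟩
  have hjd : ∀ s, HasDerivAt j (-Real.smoothTransition (lam - s)) s := by
    intro s
    have h2 := (hh_hd (lam - s)).comp s ((hasDerivAt_id s).const_sub lam)
    rw [hj]
    refine h2.congr_deriv ?_
    ring
  have hjd' : deriv j = fun s => -Real.smoothTransition (lam - s) :=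
    funext fun s => (hjd s).deriv
  have hjd2 : ∀ s, deriv (deriv j) s = deriv Real.smoothTransition (lam - s) := by
    intro s
    have hssm : ContDiff ℝ ∞ Real.smoothTransition := Real.smoothTransition.contDiff
    have h1 : HasDerivAt Real.smoothTransition (deriv Real.smoothTransition (lam - s))
        (lam - s) := (hssm.differentiable (by norm_cast) _).hasDerivAt
    have h2 := (h1.comp s ((hasDerivAt_id s).const_sub lam)).neg
    rw [hjd']
    have h3 : HasDerivAt (fun s => -Real.smoothTransition (lam - s))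
        (-(deriv Real.smoothTransition (lam - s) * -1)) s := h2
    rw [h3.deriv]
    ring
  refine ⟨j, ?_⟩
  constructor
  · rw [hj]
    exact hsm.comp (contDiff_const.sub contDiff_id)
  · intro s
    rw [hj]
    exact hnn _
  · intro s
    rw [hj]
    simp only
    have h1 := hh_lo (lam - s)
    have h2 := hnn (lam - s)
    have h3 := neg_abs_le lam
    have h4 := abs_nonneg lam
    exact max_le (by linarith) (by linarith)
  · intro s
    rw [hj]
    simp only
    rcases le_total (lam - s) 0 with ht | ht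
    · rw [h0 _ ht]
      positivity
    · have h1 := hle _ ht
      have h2 := le_abs_self lam
      have h3 := neg_abs_le s
      linarith
  · intro s
    rw [hjd']
    simp only
    have h1 := Real.smoothTransition.nonneg (lam - s)
    have h2 := Real.smoothTransition.le_one (lam - s)
    constructor <;> linarith
  · intro s
    rw [hjd2]
    exact Real.smoothTransition.monotone.deriv_nonneg
  · intro s hs
    rw [hjd']
    simp only
    rw [Real.smoothTransition.zero_of_nonpos (by linarith), neg_zero]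

/-- fixed time -/
lemma src_time {c₀ c R H K r h r1 h1 lam vol : ℝ} {v : V → V} {q g φ : V → ℝ}
    {j : ℝ → ℝ} (hid : MassId c₀) (hj : Jn lam j)
    (hv : ContDiff ℝ ∞ v) (hd : DFO (Co c R H) v) (hq : ContDiff ℝ ∞ q) (hg : ContDiff ℝ ∞ g)
    (hK : 0 ≤ K) (hφ : Cut c r h r1 h1 K φ) (hsub : Co c r h ⊆ Co c R H)
    (hvol : vol = (volume (Co c r h)).toReal)
    (hBd : ∀ x ∈ Out c r h r1 h1, |q x| ≤ K ∧ ∀ i, |v x i| ≤ K) :
    ∫ x, φ x * (deriv j (q x) * (LL q x - W221.NS.adv v q x + g x))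
      ≤ (K + |lam|) * (3 * K + 3 * (K * K)) * vol
        - 2 * c₀ * (∫ z : ℝ, φ ![0, 0, z] * j (q ![0, 0, z]))
        + ∫ x, φ x * (deriv j (q x) * g x) := by
  have hCy : IsCompact (Cy c r h) := Pool.Agent.Q24.AXI.Cy_compact c r h
  have hCoCy : Co c r h ⊆ Cy c r h := fun x hx => ⟨le_of_lt hx.1, le_of_lt hx.2⟩
  have mCo : MeasurableSet (Co c r h) := (Co_open c r h).measurableSet
  have vCo : volume (Co c r h) < ⊤ := (measure_mono hCoCy).trans_lt hCy.measure_lt_top
  obtain ⟨f, hf⟩ : ∃ f : V → ℝ, f = fun x => j (q x) := ⟨_, rfl⟩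
  have sf : ContDiff ℝ ∞ f := by rw [hf]; exact hj.sm.comp hq
  have sj1 : ContDiff ℝ ∞ (deriv j) := sm_deriv hj.sm
  have sj2 : ContDiff ℝ ∞ (deriv (deriv j)) := sm_deriv sj1
  have sj1o : ContDiff ℝ ∞ (fun x => deriv j (q x)) := sj1.comp hq
  have f1 : ∀ i x, pd i f x = deriv j (q x) * pd i q x := by
    intro i x
    rw [hf]
    exact pd_chain hj.sm hq i x
  have fLL : ∀ x, LL f x = deriv j (q x) * LL q x + deriv (deriv j) (q x) * gr2 q x := by
    intro x
    unfold LL
    rw [hf, lap_chain hj.sm hq, RR_chain hj.sm hq]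
    ring
  have fadv : ∀ x, W221.NS.adv v f x = deriv j (q x) * W221.NS.adv v q x := by
    intro x
    unfold W221.NS.adv
    simp_rw [f1]
    rw [Fin.sum_univ_three, Fin.sum_univ_three]
    ring
  obtain ⟨i1, i2, e1⟩ := hid (Co c R H) v f (fun _ => 0) φ hv hd sf contDiff_const hφ.sm hφ.cs
    (hφ.supp.trans hsub)
  obtain ⟨I, hI⟩ : ∃ I : V → ℝ, I = fun x => f x * (lap φ x - 2 * (RR φ x / sg x)
    + W221.NS.adv v φ x) - pd 2 φ x * (0 : ℝ) ^ 2 := ⟨_, rfl⟩
  obtain ⟨G, hG⟩ : ∃ G : V → ℝ, G = fun x => φ x * (LL f x - W221.NS.adv v f x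
    + 2 * (0 : ℝ) * pd 2 (fun _ : V => (0 : ℝ)) x) := ⟨_, rfl⟩
  obtain ⟨Q, hQ⟩ : ∃ Q : V → ℝ, Q = fun x => -(φ x * (deriv (deriv j) (q x) * gr2 q x)) :=
    ⟨_, rfl⟩
  obtain ⟨S, hS⟩ : ∃ S : V → ℝ, S = fun x => φ x * (deriv j (q x) * g x) := ⟨_, rfl⟩
  have hQi : Integrable Q := by
    rw [hQ]
    exact int_cs (hφ.sm.continuous.mul ((sj2.comp hq).continuous.mul (gr2_sm hq).continuous)).neg
      ((hφ.cs.mul_right (f' := fun x => deriv (deriv j) (q x) * gr2 q x)).neg)
  have hSi : Integrable S := by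
    rw [hS]
    exact int_cs (hφ.sm.continuous.mul (sj1o.continuous.mul hg.continuous)) hφ.cs.mul_right
  have hGi : Integrable G := by rw [hG]; exact i1
  have hIi : Integrable I := by rw [hI]; exact i2
  have key : ∀ x, φ x * (deriv j (q x) * (LL q x - W221.NS.adv v q x + g x))
      = G x + Q x + S x := by
    intro x
    rw [hG, hQ, hS]
    simp only
    rw [fLL, fadv]
    ring
  have e2 : ∫ x, φ x * (deriv j (q x) * (LL q x - W221.NS.adv v q x + g x))
      = (∫ x, G x) + (∫ x, Q x) + ∫ x, S x := by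
    simp_rw [key]
    have h2 : Integrable (fun x => G x + Q x) := hGi.add hQi
    rw [integral_add h2 hSi, integral_add hGi hQi]
  have e3 : ∫ x, G x = (∫ x, I x) - 2 * c₀ * ∫ z : ℝ, φ ![0, 0, z] * j (q ![0, 0, z]) := by
    rw [hG, hI, e1, hf]
  have hQ0 : ∫ x, Q x ≤ 0 := by
    refine integral_nonpos fun x => ?_
    rw [hQ]
    have h2 := hj.d2 (q x)
    have h3 := hφ.nn x
    have h4 := gr2_nn q x
    have : 0 ≤ φ x * (deriv (deriv j) (q x) * gr2 q x) := by positivity
    show -(φ x * (deriv (deriv j) (q x) * gr2 q x)) ≤ 0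
    linarith
  obtain ⟨CC, hCC⟩ : ∃ CC : ℝ, CC = (K + |lam|) * (3 * K + 3 * (K * K)) := ⟨_, rfl⟩
  have hCC0 : 0 ≤ CC := by rw [hCC]; positivity
  have hb : ∫ x, I x ≤ CC * vol := by
    have e6 : CC * vol = ∫ x, (Co c r h).indicator (fun _ => CC) x := by
      rw [integral_indicator mCo, setIntegral_const, smul_eq_mul, Measure.real, ← hvol, mul_comm]
    rw [e6]
    refine integral_mono_ae hIi ((integrable_indicator_iff mCo).2 (integrableOn_const vCo.ne)) ?_
    filter_upwards [axis_ae] with x hx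
    have hsx : 0 < sg x := lt_of_le_of_ne (sg_nn x) (Ne.symm hx)
    rw [hI]
    simp only
    have e9 : pd 2 φ x * (0 : ℝ) ^ 2 = 0 := by ring
    rw [e9, sub_zero]
    by_cases hxs : x ∈ tsupport φ
    · have hxC := hφ.supp hxs
      rw [indicator_of_mem hxC]
      obtain ⟨b4, b5, b6⟩ := hφ.bd x
      by_cases hxi : x ∈ Co c r1 h1
      · obtain ⟨a1, a2, a3⟩ := cut_in hφ hxi
        have a4 : W221.NS.adv v φ x = 0 := by
          unfold W221.NS.adv
          simp [a1]
        have h8 : f x * (lap φ x - 2 * (RR φ x / sg x) + W221.NS.adv v φ x) = 0 := by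
          rw [a2, a3, a4, zero_div]
          ring
        rw [h8]
        exact hCC0
      · have hxO : x ∈ Out c r h r1 h1 := by
          refine ⟨hCoCy hxC, ?_⟩
          by_contra hcon
          push Not at hcon
          exact hxi ⟨hcon.1, hcon.2⟩
        obtain ⟨b1, b3⟩ := hBd x hxO
        have b0 : |f x| ≤ K + |lam| := by
          have h2 : 0 ≤ f x := by rw [hf]; exact hj.nn _
          rw [abs_of_nonneg h2, hf]
          refine (hj.up _).trans ?_
          linarith
        have b7 : |RR φ x / sg x| ≤ K := by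
          rw [abs_div, abs_of_pos hsx, div_le_iff₀ hsx]
          exact b6
        have b8 : |W221.NS.adv v φ x| ≤ 3 * (K * K) := by
          unfold W221.NS.adv
          rw [Fin.sum_univ_three]
          have h4 : ∀ i, |v x i * pd i φ x| ≤ K * K := fun i => by
            rw [abs_mul]
            exact mul_le_mul (b3 i) (b4 i) (abs_nonneg _) hK
          have h5 := abs_add_three (v x 0 * pd 0 φ x) (v x 1 * pd 1 φ x) (v x 2 * pd 2 φ x)
          linarith [h4 0, h4 1, h4 2]
        have b9 : |lap φ x - 2 * (RR φ x / sg x) + W221.NS.adv v φ x|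
            ≤ 3 * K + 3 * (K * K) := by
          have h5 := abs_add_le (lap φ x - 2 * (RR φ x / sg x)) (W221.NS.adv v φ x)
          have h6 := abs_sub (lap φ x) (2 * (RR φ x / sg x))
          rw [abs_mul, abs_of_pos (by norm_num : (0 : ℝ) < 2)] at h6
          linarith
        rw [hCC]
        refine (le_abs_self _).trans ?_
        rw [abs_mul]
        exact mul_le_mul b0 b9 (abs_nonneg _) (by positivity)
    · obtain ⟨a0, a1, a2, a3⟩ := off_supp hxs
      have a4 : W221.NS.adv v φ x = 0 := by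
        unfold W221.NS.adv
        simp [a1]
      have a5 : lap φ x = 0 := by
        rw [lap_ev (cs_zero hxs), Pool.Agent.Q175.AX.lap_const]
      rw [a2, a4, a5]
      have h8 : f x * (0 - 2 * (0 / sg x) + 0) = 0 := by
        rw [zero_div]
        ring
      rw [h8]
      exact indicator_nonneg (fun _ _ => hCC0) _
  rw [e2, e3, ← hCC]
  have e7 : ∫ x, S x = ∫ x, φ x * (deriv j (q x) * g x) := by rw [hS]
  rw [e7]
  linarith

lemma int_le_lint {α : Type*} [MeasurableSpace α] {μ : Measure α} {f : α → ℝ}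
    (hf : Integrable f μ) : ∫ a, f a ∂μ ≤ (∫⁻ a, ENNReal.ofReal (f a) ∂μ).toReal := by
  rw [integral_eq_lintegral_pos_part_sub_lintegral_neg_part hf]
  have : 0 ≤ (∫⁻ a, ENNReal.ofReal (-f a) ∂μ).toReal := ENNReal.toReal_nonneg
  linarith

lemma ofReal_int_le {α : Type*} [MeasurableSpace α] {μ : Measure α} {f : α → ℝ}
    (hf : Integrable f μ) : ENNReal.ofReal (∫ a, f a ∂μ) ≤ ∫⁻ a, ENNReal.ofReal (f a) ∂μ :=
  (ENNReal.ofReal_le_ofReal (int_le_lint hf)).trans ENNReal.ofReal_toReal_le

end Pool.Agent.D0H28.OV
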